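import Pool.Agent.CKS.Targets

/-! CHAIN: the explicit chain of moves between the two gadgets. -/

set_option linter.unusedSectionVars false

universe u

namespace CKS

namespace H_Chain

/-- Morita equivalence of the Leavitt path algebras of two adjacency matrices -/
abbrev ME (k : Type u) [Field k] {ι ι' : Type} (A : ι → ι → ℕ) (B : ι' → ι' → ℕ) : Prop :=
  IsMoritaEquivalent k (LPA k (adjG A)) (LPA k (adjG B))

variable {k : Type u} [Field k]

/-- removing a vertex which receives no edges -/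
theorem src_rem (hS : T_src.{u}) (hX : T_reindex.{u}) {ι : Type} [Fintype ι] [DecidableEq ι]
    (A : ι → ι → ℕ) (p : ι) (h0 : ∀ a, A a p = 0) (h1 : ∃ l, A p l ≠ 0) :
    ME k A (fun a b : {x // x ≠ p} => A a b) := by
  obtain ⟨e⟩ := hX k (Equiv.optionSubtypeNe p).symm A
  have h2 : (fun a b => A ((Equiv.optionSubtypeNe p).symm.symm a)
      ((Equiv.optionSubtypeNe p).symm.symm b))
      = extA (fun a b : {x // x ≠ p} => A a b) (fun b => A p b) := by
    funext a b
    rcases a with _ | a <;> rcases b with _ | b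
    · simp [extA, h0]
    · simp [extA]
    · simp [extA, h0]
    · simp [extA]
  have key : ∀ B, (fun a b => A ((Equiv.optionSubtypeNe p).symm.symm a)
      ((Equiv.optionSubtypeNe p).symm.symm b)) = B → ME k A B := by
    rintro B rfl
    exact IsMoritaEquivalent.of_algEquiv k e
  refine (key _ h2).trans k (hS k _ _ ?_)
  obtain ⟨l, hl⟩ := h1
  refine ⟨⟨l, ?_⟩, hl⟩
  rintro rfl
  exact hl (h0 _)

theorem src_chg (hS : T_src.{u}) (hX : T_reindex.{u}) {ι : Type} [Fintype ι] [DecidableEq ι]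
    (A B : ι → ι → ℕ) (p : ι) (h0 : ∀ a, A a p = 0) (h1 : ∃ l, A p l ≠ 0) (h0' : ∀ a, B a p = 0)
    (h1' : ∃ l, B p l ≠ 0) (h : ∀ a b, a ≠ p → A a b = B a b) : ME k A B := by
  have e1 := src_rem (k := k) hS hX A p h0 h1
  have e2 := src_rem (k := k) hS hX B p h0' h1'
  have : (fun a b : {x // x ≠ p} => A a b) = (fun a b : {x // x ≠ p} => B a b) := by
    funext a b
    exact h a b a.2
  rw [this] at e1
  exact e1.trans k (e2.symm k)

variable {V : Type} [Fintype V] [DecidableEq V] (A : V → V → ℕ) (v : V) (R : V → ℕ)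

/-- the vertices of the gadget -/
def ph (v : V) (i : Fin 4) : V ⊕ Fin 3 := Fin.cases (.inl v) (fun j => .inr j) i

theorem ph_zero : ph v 0 = .inl v := rfl
theorem ph_succ (i : Fin 3) : ph v i.succ = .inr i := rfl

theorem ph_inj : Function.Injective (ph v) := by
  intro i j h
  induction i using Fin.cases with
  | zero =>
    induction j using Fin.cases with
    | zero => rfl
    | succ j => rw [ph_zero, ph_succ] at h; cases h
  | succ i =>
    induction j using Fin.cases with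
    | zero => rw [ph_zero, ph_succ] at h; cases h
    | succ j =>
      rw [ph_succ, ph_succ] at h
      rw [Sum.inr.inj h]

/-- entries in the rows of the gadget -/
theorem glob_row (m : Fin 4 → Fin 4 → ℕ) (w : Fin 4 → ℕ) (i : Fin 4) (b : V ⊕ Fin 3) :
    glob A v R m w (ph v i) b = match b with
      | .inl b => (if b = v then m i 0 else 0) + w i * R b
      | .inr j => m i j.succ := by
  induction i using Fin.cases with
  | zero => rcases b with b | b <;> simp [ph_zero, glob]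
  | succ i => rcases b with b | b <;> simp [ph_succ, glob]

theorem glob_other (m m' : Fin 4 → Fin 4 → ℕ) (w w' : Fin 4 → ℕ) (a b : V ⊕ Fin 3)
    (h : ∀ i, a ≠ ph v i) : glob A v R m w a b = glob A v R m' w' a b := by
  rcases a with a | a
  · have ha : a ≠ v := by
      rintro rfl
      exact h 0 rfl
    rcases b with b | b <;> simp [glob, ha]
  · exact absurd (ph_succ v a).symm (h a.succ)

theorem glob_ext (m m' : Fin 4 → Fin 4 → ℕ) (w w' : Fin 4 → ℕ) (B : V ⊕ Fin 3 → V ⊕ Fin 3 → ℕ)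
    (h : ∀ i b, B (ph v i) b = glob A v R m' w' (ph v i) b)
    (h' : ∀ a b, (∀ i, a ≠ ph v i) → B a b = glob A v R m w a b) : B = glob A v R m' w' := by
  funext a b
  by_cases ha : ∃ i, a = ph v i
  · obtain ⟨i, rfl⟩ := ha
    exact h i b
  · push Not at ha
    rw [h' a b ha]
    exact glob_other A v R _ _ _ _ _ _ ha

theorem glob_sub (m : Fin 4 → Fin 4 → ℕ) (w : Fin 4 → ℕ) (i j : Fin 4) (hm : m i j ≠ 0) :
    sub (glob A v R m w) (ph v i) (ph v j)
      = glob A v R (sub m i j) (fun a => if a = i then w i + w j else w a) := by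
  refine glob_ext A v R m _ w _ _ ?_ ?_
  · intro a b
    by_cases ha : a = i
    · subst ha
      simp only [sub, if_true]
      rw [glob_row, glob_row, glob_row]
      simp only [sub, if_true]
      rcases b with b | b
      · simp only
        by_cases hb : b = v
        · subst hb
          simp only [if_true]
          by_cases hj : j = 0
          · subst hj
            rw [← ph_zero]
            simp only [if_true, add_mul]
            omega
          · have h1 : ¬ (Sum.inl b : V ⊕ Fin 3) = ph b j := by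
              rw [← ph_zero]
              exact fun h => hj (ph_inj b h).symm
            rw [if_neg h1, if_neg (Ne.symm hj), add_mul]
            omega
        · have h1 : ¬ (Sum.inl b : V ⊕ Fin 3) = ph v j := by
            intro h
            induction j using Fin.cases with
            | zero => exact hb (Sum.inl.inj h)
            | succ j => cases h
          rw [if_neg h1]
          simp only [if_neg hb, add_mul]
          omega
      · simp only
        rw [← ph_succ v b]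
        by_cases hj : b.succ = j
        · rw [if_pos (by rw [hj]), if_pos hj]
        · rw [if_neg (fun h => hj (ph_inj v h)), if_neg hj]
    · have h1 : ph v a ≠ ph v i := fun h => ha (ph_inj v h)
      simp only [sub, if_neg h1]
      rw [glob_row, glob_row]
      simp only [sub, if_neg ha]
  · intro a b ha
    simp only [sub, if_neg (ha i)]

variable {A v R}

theorem stepS (hM : T_move.{u}) (i j : Fin 4) {m m' : Fin 4 → Fin 4 → ℕ} {w w' : Fin 4 → ℕ}
    (h1 : i ≠ j) (h2 : m i j ≠ 0) (h3 : ∃ l, m j l ≠ 0) (h4 : sub m i j = m')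
    (h5 : (fun a => if a = i then w i + w j else w a) = w') :
    ME k (glob A v R m w) (glob A v R m' w') := by
  subst h4 h5
  have hne : ∀ a b, m a b ≠ 0 → glob A v R m w (ph v a) (ph v b) ≠ 0 := by
    intro a b h
    rw [glob_row]
    induction b using Fin.cases with
    | zero => simp [ph_zero, h]
    | succ b => simpa [ph_succ] using h
  obtain ⟨l, hl⟩ := h3
  obtain ⟨e⟩ := hM k (glob A v R m w) (ph v i) (ph v j) (fun h => h1 (ph_inj v h)) (hne i j h2)
    ⟨_, hne j l hl⟩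
  rw [glob_sub A v R m w i j h2] at e
  exact IsMoritaEquivalent.of_algEquiv k e

theorem stepX (hS : T_src.{u}) (hX : T_reindex.{u}) (p : Fin 3) {m m' : Fin 4 → Fin 4 → ℕ}
    {w w' : Fin 4 → ℕ} (h1 : ∀ a, m a p.succ = 0) (h2 : ∀ a, m' a p.succ = 0)
    (h3 : ∃ l, m p.succ l ≠ 0) (h4 : ∃ l, m' p.succ l ≠ 0)
    (h5 : ∀ a, a ≠ p.succ → m a = m' a ∧ w a = w' a) :
    ME k (glob A v R m w) (glob A v R m' w') := by
  have hne : ∀ (m : Fin 4 → Fin 4 → ℕ) (w : Fin 4 → ℕ) a b, m a b ≠ 0 →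
      glob A v R m w (ph v a) (ph v b) ≠ 0 := by
    intro m w a b h
    rw [glob_row]
    induction b using Fin.cases with
    | zero => simp [ph_zero, h]
    | succ b => simpa [ph_succ] using h
  have hz : ∀ (m : Fin 4 → Fin 4 → ℕ) (w : Fin 4 → ℕ), (∀ a, m a p.succ = 0) →
      ∀ a, glob A v R m w a (.inr p) = 0 := by
    intro m w h a
    rcases a with a | a
    · by_cases ha : a = v
      · simp [glob, ha, h]
      · simp [glob, ha]
    · simp [glob, h]
  refine src_chg hS hX _ _ (.inr p) (hz m w h1) ?_ (hz m' w' h2) ?_ ?_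
  · obtain ⟨l, hl⟩ := h3
    exact ⟨ph v l, hne m w _ _ hl⟩
  · obtain ⟨l, hl⟩ := h4
    exact ⟨ph v l, hne m' w' _ _ hl⟩
  · intro a b ha
    by_cases h : ∃ i, a = ph v i
    · obtain ⟨i, rfl⟩ := h
      have hi : i ≠ p.succ := by
        rintro rfl
        exact ha rfl
      rw [glob_row, glob_row, (h5 i hi).1, (h5 i hi).2]
    · push Not at h
      exact glob_other _ _ _ _ _ _ _ _ _ h

end H_Chain

open H_Chain in
theorem p_chain (hM : T_move.{u}) (hS : T_src.{u}) (hX : T_reindex.{u}) : T_chain.{u} := by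
  intro k _ V _ _ A v R
  have s0 : ME k
      (glob A v R ![![0, 1, 1, 1], ![0, 2, 1, 0], ![0, 1, 1, 1], ![0, 0, 1, 1]] ![0, 0, 1, 0])
      (glob A v R ![![0, 1, 1, 1], ![0, 2, 1, 0], ![0, 2, 2, 1], ![0, 0, 1, 1]] ![0, 0, 1, 0]) :=
    stepS hM 2 1 (by decide) (by decide) (by decide) (by decide) (by decide)
  have s1 : ME k
      (glob A v R ![![0, 1, 1, 1], ![0, 2, 1, 0], ![0, 2, 1, 1], ![0, 0, 1, 1]] ![0, 0, 1, 0])
      (glob A v R ![![0, 1, 1, 1], ![0, 2, 1, 0], ![0, 2, 2, 1], ![0, 0, 1, 1]] ![0, 0, 1, 0]) :=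
    stepS hM 2 3 (by decide) (by decide) (by decide) (by decide) (by decide)
  have s2 : ME k
      (glob A v R ![![0, 1, 1, 1], ![0, 2, 1, 0], ![1, 1, 0, 0], ![0, 0, 1, 1]] ![0, 0, 1, 0])
      (glob A v R ![![0, 1, 1, 1], ![0, 2, 1, 0], ![0, 2, 1, 1], ![0, 0, 1, 1]] ![0, 0, 1, 0]) :=
    stepS hM 2 0 (by decide) (by decide) (by decide) (by decide) (by decide)
  have s3 : ME k
      (glob A v R ![![0, 1, 0, 1], ![0, 2, 1, 0], ![1, 1, 0, 0], ![0, 0, 1, 1]] ![0, 0, 1, 0])
      (glob A v R ![![0, 1, 1, 1], ![0, 2, 1, 0], ![1, 1, 0, 0], ![0, 0, 1, 1]] ![0, 0, 1, 0]) :=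
    stepS hM 0 3 (by decide) (by decide) (by decide) (by decide) (by decide)
  have s4 : ME k
      (glob A v R ![![0, 1, 0, 1], ![0, 2, 1, 0], ![1, 1, 0, 0], ![0, 0, 1, 1]] ![0, 0, 1, 0])
      (glob A v R ![![0, 1, 0, 1], ![1, 3, 0, 0], ![1, 1, 0, 0], ![0, 0, 1, 1]] ![0, 1, 1, 0]) :=
    stepS hM 1 2 (by decide) (by decide) (by decide) (by decide) (by decide)
  have s5 : ME k
      (glob A v R ![![0, 1, 0, 1], ![1, 3, 0, 0], ![1, 1, 0, 0], ![0, 0, 1, 1]] ![0, 1, 1, 0])
      (glob A v R ![![0, 1, 0, 1], ![1, 3, 0, 0], ![1, 1, 0, 0], ![1, 1, 0, 1]] ![0, 1, 1, 1]) :=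
    stepS hM 3 2 (by decide) (by decide) (by decide) (by decide) (by decide)
  have s6 : ME k
      (glob A v R ![![0, 1, 0, 1], ![1, 3, 0, 0], ![1, 1, 0, 0], ![1, 1, 0, 1]] ![0, 1, 1, 1])
      (glob A v R ![![0, 1, 0, 1], ![1, 3, 0, 0], ![0, 2, 0, 0], ![1, 1, 0, 1]] ![0, 1, 1, 1]) :=
    stepX hS hX 1 (by decide) (by decide) (by decide) (by decide) (by decide)
  have s7 : ME k
      (glob A v R ![![0, 1, 0, 1], ![1, 1, 1, 0], ![0, 2, 0, 0], ![1, 1, 0, 1]] ![0, 0, 1, 1])
      (glob A v R ![![0, 1, 0, 1], ![1, 3, 0, 0], ![0, 2, 0, 0], ![1, 1, 0, 1]] ![0, 1, 1, 1]) :=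
    stepS hM 1 2 (by decide) (by decide) (by decide) (by decide) (by decide)
  have s8 : ME k
      (glob A v R ![![0, 1, 0, 1], ![1, 1, 1, 0], ![0, 2, 0, 0], ![1, 1, 0, 1]] ![0, 0, 1, 1])
      (glob A v R ![![0, 1, 0, 1], ![1, 1, 1, 0], ![1, 2, 1, 0], ![1, 1, 0, 1]] ![0, 0, 1, 1]) :=
    stepS hM 2 1 (by decide) (by decide) (by decide) (by decide) (by decide)
  have s9 : ME k
      (glob A v R ![![0, 1, 0, 1], ![1, 1, 1, 0], ![1, 2, 1, 0], ![2, 0, 0, 0]] ![0, 0, 1, 1])
      (glob A v R ![![0, 1, 0, 1], ![1, 1, 1, 0], ![1, 2, 1, 0], ![1, 1, 0, 1]] ![0, 0, 1, 1]) :=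
    stepS hM 3 0 (by decide) (by decide) (by decide) (by decide) (by decide)
  have s10 : ME k
      (glob A v R ![![0, 1, 0, 1], ![1, 1, 1, 0], ![1, 2, 1, 0], ![2, 0, 0, 0]] ![0, 0, 1, 1])
      (glob A v R ![![0, 1, 0, 1], ![1, 1, 1, 0], ![2, 2, 2, 0], ![2, 0, 0, 0]] ![0, 0, 1, 1]) :=
    stepS hM 2 1 (by decide) (by decide) (by decide) (by decide) (by decide)
  have s11 : ME k
      (glob A v R ![![0, 1, 0, 1], ![1, 1, 1, 0], ![2, 2, 2, 0], ![2, 0, 0, 0]] ![0, 0, 1, 1])
      (glob A v R ![![2, 1, 0, 0], ![1, 1, 1, 0], ![2, 2, 2, 0], ![2, 0, 0, 0]] ![1, 0, 1, 1]) :=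
    stepS hM 0 3 (by decide) (by decide) (by decide) (by decide) (by decide)
  have s12 : ME k
      (glob A v R ![![2, 1, 0, 0], ![1, 1, 1, 0], ![1, 1, 2, 0], ![2, 0, 0, 0]] ![1, 0, 0, 1])
      (glob A v R ![![2, 1, 0, 0], ![1, 1, 1, 0], ![2, 2, 2, 0], ![2, 0, 0, 0]] ![1, 0, 1, 1]) :=
    stepS hM 2 0 (by decide) (by decide) (by decide) (by decide) (by decide)
  have s13 : ME k
      (glob A v R ![![2, 1, 0, 0], ![1, 1, 1, 0], ![0, 1, 1, 0], ![2, 0, 0, 0]] ![1, 0, 0, 1])
      (glob A v R ![![2, 1, 0, 0], ![1, 1, 1, 0], ![1, 1, 2, 0], ![2, 0, 0, 0]] ![1, 0, 0, 1]) :=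
    stepS hM 2 1 (by decide) (by decide) (by decide) (by decide) (by decide)
  have s14 : ME k
      (glob A v R ![![2, 1, 0, 0], ![1, 1, 1, 0], ![0, 1, 1, 0], ![2, 0, 0, 0]] ![1, 0, 0, 1])
      (glob A v R ![![2, 1, 0, 0], ![1, 1, 1, 0], ![0, 1, 1, 0], ![1, 0, 0, 0]] ![1, 0, 0, 0]) :=
    stepX hS hX 2 (by decide) (by decide) (by decide) (by decide) (by decide)
  exact s0.trans k ((s1.symm k).trans k ((s2.symm k).trans k ((s3.symm k).trans k
    (s4.trans k (s5.trans k (s6.trans k ((s7.symm k).trans k (s8.trans k ((s9.symm k).trans k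
    (s10.trans k (s11.trans k ((s12.symm k).trans k ((s13.symm k).trans k s14)))))))))))))

end CKS
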