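import Pool.Agent.CKS.ChenS

/-! CHENH: no homomorphism from the Chen module to the algebra. -/

set_option linter.unusedSectionVars false

universe u

namespace CKS

namespace H_ChenH

open H_ChenS

variable {k : Type u} [Field k] {V E : Type} {G : Graph V E} {Reg : V → Prop}

/-- the Laurent polynomials over the algebra -/
abbrev LP (k : Type u) [Field k] (G : Graph V E) (Reg : V → Prop) : Type u :=
  AddMonoidAlgebra (CL k G Reg) ℤ

/-- monomials -/
noncomputable abbrev mo (n : ℤ) (a : CL k G Reg) : LP k G Reg := AddMonoidAlgebra.single n a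

theorem mo_mul (m n : ℤ) (a b : CL k G Reg) : mo m a * mo n b = mo (m + n) (a * b) :=
  AddMonoidAlgebra.single_mul_single _ _ _ _

theorem mo_sum {ι : Type*} (S : Finset ι) (n : ℤ) (f : ι → CL k G Reg) :
    ∑ i ∈ S, mo n (f i) = mo n (∑ i ∈ S, f i) := by
  induction S using Finset.cons_induction with
  | empty => simp
  | cons i S hi ih => rw [Finset.sum_cons, Finset.sum_cons, ih, ← AddMonoidAlgebra.single_add]

variable (k G Reg) in
/-- the gauge coaction, as a family -/
noncomputable def gfam : Fam k G Reg (LP k G Reg) where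
  p a := mo 0 (vt a)
  x e := mo 1 (ed e)
  y e := mo (-1) (gh e)
  idem a := by rw [mo_mul, vt_idem]; rfl
  orth a b h := by rw [mo_mul, vt_orth h]; simp
  se e := by rw [mo_mul, s_ed]; rfl
  er e := by rw [mo_mul, ed_r]; rfl
  rg e := by rw [mo_mul, r_gh]; rfl
  gs e := by rw [mo_mul, gh_s]; rfl
  ge e := by rw [mo_mul, gh_ed]; rfl
  gf e f h := by rw [mo_mul, gh_ed_ne h]; simp
  ck a h S hS := by
    rw [← ck_rel h S hS, ← mo_sum]
    refine Finset.sum_congr rfl fun e _ => ?_
    rw [mo_mul]; rfl
  one S hS := by
    rw [mo_sum]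
    have := (taut k G Reg).one S hS
    simp only [taut] at this
    rw [this]; rfl

variable (k G Reg) in
/-- the gauge coaction -/
noncomputable def gau : CL k G Reg →ₐ[k] LP k G Reg := (gfam k G Reg).lift

variable (k G Reg) in
/-- evaluation at one -/
noncomputable def evo : LP k G Reg →ₐ[k] CL k G Reg :=
  AddMonoidAlgebra.liftNCAlgHom (AlgHom.id k _) 1 (fun _ _ => Commute.one_right _)

theorem evo_mo (n : ℤ) (a : CL k G Reg) : evo k G Reg (mo n a) = a := by
  rw [evo, AddMonoidAlgebra.coe_liftNCAlgHom, mo]
  refine (AddMonoidAlgebra.liftNC_single _ _ _ _).trans ?_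
  exact mul_one a

theorem evo_gau (a : CL k G Reg) : evo k G Reg (gau k G Reg a) = a := by
  have h : (evo k G Reg).comp (gau k G Reg) = AlgHom.id k _ := by
    refine hom_ext ?_ ?_ ?_
    · intro a
      rw [AlgHom.comp_apply, gau, lift_vt]
      exact evo_mo _ _
    · intro a
      rw [AlgHom.comp_apply, gau, lift_ed]
      exact evo_mo _ _
    · intro a
      rw [AlgHom.comp_apply, gau, lift_gh]
      exact evo_mo _ _
  exact DFunLike.congr_fun h a

end H_ChenH

open H_ChenH H_ChenS in
theorem p_chen_hom : T_chen_hom.{u} := by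
  intro k _ h hh
  classical
  have h7 : rN k (ed 7) (w0 : NN k) = w0 := by
    simp only [rN, Br.rep_ed, w0]
    rw [pf_single_some (j := none) (by simp [chenBr, chc])]
  have ha : ed 7 * h w0 = h w0 := by
    rw [← hh, h7]
  have hD : gau k G3 G3.IsReg (h w0) = 0 := by
    set f := gau k G3 G3.IsReg (h w0) with hf
    have h1 : f = mo 1 (ed 7) * f := by
      conv_lhs => rw [hf, ← ha, map_mul]
      have : gau k G3 G3.IsReg (ed 7) = mo 1 (ed 7) := by rw [gau, lift_ed]; rfl
      rw [this]
    have h2 : ∀ n : ℤ, f.coeff n = ed 7 * f.coeff (n - 1) := by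
      intro n
      conv_lhs => rw [h1]
      rw [AddMonoidAlgebra.coeff_single_mul_apply]
      congr 2
      ring
    by_contra hne
    have hs : f.coeff.support.Nonempty := by
      rw [Finsupp.support_nonempty_iff]
      intro h0
      apply hne
      ext n
      rw [h0]
      rfl
    have h3 := f.coeff.support.min'_mem hs
    set n := f.coeff.support.min' hs
    have h4 : f.coeff (n - 1) = 0 := by
      by_contra hc
      have := f.coeff.support.min'_le (n - 1) (Finsupp.mem_support_iff.mpr hc)
      omega
    have h5 := Finsupp.mem_support_iff.mp h3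
    exact h5 (by rw [h2, h4, mul_zero])
  have h0 : h w0 = 0 := by
    rw [← evo_gau (h w0), hD, map_zero]
  refine Finsupp.lhom_ext fun i c => ?_
  rw [show (Finsupp.single i c : NN k) = c • Finsupp.single i 1 by simp, map_smul, LinearMap.zero_apply]
  rcases i with _ | l
  · have : h (Finsupp.single none 1) = 0 := h0
    rw [this, smul_zero]
  · rw [← basis_eq l.1 l.2, hh, h0, mul_zero, smul_zero]

end CKS
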