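import Pool.Agent.CKS.Targets

/-! CHENS: the Chen module is simple. -/

set_option linter.unusedSectionVars false

universe u

namespace CKS

namespace H_ChenS

variable {k : Type u} [Field k]

theorem gh_w0 (e : Fin 8) : rN k (gh e) (w0 : NN k) = if e = 7 then w0 else 0 := by
  simp only [rN, Br.rep_gh, w0]
  by_cases h : e = 7
  · rw [pf_single_some (j := none) (by simp [chenBr, cht, h]), if_pos h]
  · rw [pf_single_none (by simp [chenBr, cht, h]), if_neg h]

theorem gh_nil (e : Fin 8) (h : lok G3 1 []) :
    rN k (gh e) (Finsupp.single (some ⟨[], h⟩) 1 : NN k) = if e = 5 then w0 else 0 := by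
  simp only [rN, Br.rep_gh, w0]
  by_cases h : e = 5
  · rw [pf_single_some (j := none) (by simp [chenBr, cht, h]), if_pos h]
  · rw [pf_single_none (by simp [chenBr, cht, h]), if_neg h]

theorem gh_cons (e f : Fin 8) (l : List (Fin 8)) (h : lok G3 1 (f :: l)) :
    rN k (gh e) (Finsupp.single (some ⟨f :: l, h⟩) 1 : NN k)
      = if f = e then Finsupp.single (some ⟨l, h.2⟩) 1 else 0 := by
  simp only [rN, Br.rep_gh]
  by_cases hf : f = e
  · rw [pf_single_some (j := some ⟨l, h.2⟩) (by simp [chenBr, cht, hf]), if_pos hf]
  · rw [pf_single_none (by simp [chenBr, cht, hf]), if_neg hf]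

theorem yw_w0 (l : List (Fin 8)) : rN k (yw l) (w0 : NN k) = 0 ∨ rN k (yw l) (w0 : NN k) = w0 := by
  induction l with
  | nil => right; simp
  | cons e l ih =>
    rw [yw_cons, map_mul, Module.End.mul_apply, gh_w0]
    by_cases h : e = 7
    · rw [if_pos h]; exact ih
    · rw [if_neg h, map_zero]; exact Or.inl rfl

theorem gh5_yw_w0 (l : List (Fin 8)) : rN k (gh 5 * yw l) (w0 : NN k) = 0 := by
  rw [map_mul, Module.End.mul_apply]
  rcases yw_w0 (k := k) l with h | h
  · rw [h, map_zero]
  · rw [h, gh_w0]
    rw [if_neg (by decide)]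

theorem gh5_yw_ne (l0 : List (Fin 8)) : ∀ (l : PI), l.1.length ≤ l0.length → l.1 ≠ l0 →
    rN k (gh 5 * yw l0) (Finsupp.single (some l) 1 : NN k) = 0 := by
  induction l0 with
  | nil =>
    rintro ⟨l, hl⟩ h h'
    exact absurd (List.length_eq_zero_iff.mp (by simpa using h)) h'
  | cons f l0 ih =>
    rintro ⟨l, hl⟩ h h'
    rw [yw_cons, ← mul_assoc, map_mul, Module.End.mul_apply]
    rcases l with _ | ⟨g, l⟩
    · rw [gh_nil]
      by_cases hf : f = 5
      · rw [if_pos hf, gh5_yw_w0]
      · rw [if_neg hf, map_zero]
    · rw [gh_cons]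
      by_cases hf : g = f
      · rw [if_pos hf]
        subst hf
        exact ih ⟨l, hl.2⟩ (by simpa using h) (fun h1 => h' (by simpa using h1))
      · rw [if_neg hf, map_zero]

theorem gh5_yw_eq (l : List (Fin 8)) (h : lok G3 1 l) :
    rN k (gh 5 * yw l) (Finsupp.single (some ⟨l, h⟩) 1 : NN k) = w0 := by
  induction l with
  | nil =>
    rw [yw_nil, mul_one, gh_nil, if_pos rfl]
  | cons f l ih =>
    rw [yw_cons, ← mul_assoc, map_mul, Module.End.mul_apply, gh_cons, if_pos rfl]
    exact ih h.2

theorem basis_eq (l : List (Fin 8)) (h : lok G3 1 l) :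
    rN k (xw l * ed 5) (w0 : NN k) = Finsupp.single (some ⟨l, h⟩) 1 := by
  induction l with
  | nil =>
    rw [xw_nil, one_mul]
    simp only [rN, Br.rep_ed, w0]
    rw [pf_single_some (j := some pnil) (by simp [chenBr, chc])]
    rfl
  | cons e l ih =>
    rw [xw_cons, mul_assoc, map_mul, Module.End.mul_apply, ih h.2]
    simp only [rN, Br.rep_ed]
    rw [pf_single_some (j := some ⟨e :: l, h⟩)]
    simp only [chenBr, chc, Option.map_eq_some_iff]
    exact ⟨⟨e :: l, h⟩, (pcons_eq_some G3 1).2 rfl, rfl⟩

/-- length of a basis index -/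
def len : Option PI → ℕ
  | none => 0
  | some l => l.1.length + 1

end H_ChenS

open H_ChenS in
theorem p_chen_simple : T_chen_simple.{u} := by
  intro k _ K hK
  classical
  by_cases hbot : K = ⊥
  · exact Or.inl hbot
  right
  obtain ⟨n, hn, hn0⟩ := Submodule.exists_mem_ne_zero_of_ne_bot hbot
  have hw : (w0 : NN k) ∈ K := by
    have hs : n.support.Nonempty := Finsupp.support_nonempty_iff.mpr hn0
    obtain ⟨i0, hi0, hmax⟩ := Finset.exists_max_image n.support len hs
    have hne : n i0 ≠ 0 := Finsupp.mem_support_iff.mp hi0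
    rcases i0 with _ | l0
    · have : n = n none • w0 := by
        ext i
        rcases i with _ | l
        · simp [w0]
        · have : n (some l) = 0 := by
            by_contra h
            have := hmax (some l) (Finsupp.mem_support_iff.mpr h)
            simp [len] at this
          rw [this]
          simp [w0]
      have h2 : (w0 : NN k) = (n none)⁻¹ • n := by
        rw [eq_comm]
        calc (n none)⁻¹ • n = (n none)⁻¹ • (n none • w0) := congrArg _ this
          _ = w0 := by rw [smul_smul, inv_mul_cancel₀ hne, one_smul]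
      rw [h2]
      exact K.smul_mem _ hn
    · have h1 : rN k (gh 5 * yw l0.1) n = n (some l0) • w0 := by
        conv_lhs => rw [← Finsupp.sum_single n, Finsupp.sum, map_sum]
        rw [Finset.sum_eq_single (some l0)]
        · rw [show (Finsupp.single (some l0) (n (some l0)) : NN k)
            = n (some l0) • Finsupp.single (some l0) 1 by simp, map_smul]
          congr 1
          exact gh5_yw_eq l0.1 l0.2
        · intro i hi hne'
          rw [show (Finsupp.single i (n i) : NN k) = n i • Finsupp.single i 1 by simp, map_smul]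
          rcases i with _ | l
          · have := gh5_yw_w0 (k := k) l0.1
            rw [w0] at this
            rw [this, smul_zero]
          · rw [gh5_yw_ne l0.1 l (by simpa [len] using hmax (some l) hi)
              (fun h => hne' (congrArg some (Subtype.ext h))), smul_zero]
        · intro h
          exact absurd hi0 h
      have h2 : (w0 : NN k) = (n (some l0))⁻¹ • rN k (gh 5 * yw l0.1) n := by
        rw [h1, smul_smul, inv_mul_cancel₀ hne, one_smul]
      rw [h2]
      exact K.smul_mem _ (hK _ _ hn)
  rw [eq_top_iff]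
  intro m _
  induction m using Finsupp.induction_linear with
  | zero => exact K.zero_mem
  | add a b ha hb => exact K.add_mem (ha trivial) (hb trivial)
  | single i c =>
    rw [show (Finsupp.single i c : NN k) = c • Finsupp.single i 1 by simp]
    refine K.smul_mem _ ?_
    rcases i with _ | l
    · exact hw
    · rw [← basis_eq l.1 l.2]
      exact hK _ _ hw

end CKS
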