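import Pool.Agent.CKS.ChenS

/-! CHENU: the universal property of the Chen module. -/

set_option linter.unusedSectionVars false

universe u

namespace CKS

namespace H_ChenU

open H_ChenS

variable {k : Type u} [Field k]

theorem vt_w0 (a : Fin 3) : rN k (vt a) (w0 : NN k) = if a = 2 then w0 else 0 := by
  simp only [rN, Br.rep_vt, w0]
  by_cases h : a = 2
  · rw [pf_single_some (j := none) (by simp [Br.pv, chenBr, h]), if_pos h]
  · rw [pf_single_none (by simp [Br.pv, chenBr, Ne.symm h]), if_neg h]

theorem vt_some (a : Fin 3) (l : PI) : rN k (vt a) (Finsupp.single (some l) 1 : NN k)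
    = if lst G3 1 l.1 = a then Finsupp.single (some l) 1 else 0 := by
  simp only [rN, Br.rep_vt]
  by_cases h : lst G3 1 l.1 = a
  · rw [pf_single_some (j := some l) (by simp [Br.pv, chenBr, h]), if_pos h]
  · rw [pf_single_none (by simp [Br.pv, chenBr, h]), if_neg h]

theorem ed_w0 (e : Fin 8) : rN k (ed e) (w0 : NN k)
    = if e = 7 then w0 else if e = 5 then Finsupp.single (some pnil) 1 else 0 := by
  simp only [rN, Br.rep_ed, w0]
  by_cases h : e = 7
  · rw [pf_single_some (j := none) (by simp [chenBr, chc, h]), if_pos h]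
  · by_cases h5 : e = 5
    · rw [pf_single_some (j := some pnil) (by simp [chenBr, chc, h5]), if_neg h, if_pos h5]
    · rw [pf_single_none (by simp [chenBr, chc, h, h5]), if_neg h, if_neg h5]

theorem ed_some (e : Fin 8) (l : PI) : rN k (ed e) (Finsupp.single (some l) 1 : NN k)
    = if h : G3.r e = lst G3 1 l.1 then Finsupp.single (some ⟨e :: l.1, h, l.2⟩) 1 else 0 := by
  simp only [rN, Br.rep_ed]
  by_cases h : G3.r e = lst G3 1 l.1
  · rw [pf_single_some (j := some ⟨e :: l.1, h, l.2⟩) (by simp [chenBr, chc, pcons, h]), dif_pos h]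
  · rw [pf_single_none (by simp [chenBr, chc, pcons, h]), dif_neg h]

theorem vt_xw (l : List (Fin 8)) : (vt (lst G3 1 l) * (xw l * ed 5) : LPA k G3) = xw l * ed 5 := by
  rcases l with _ | ⟨e, l⟩
  · rw [xw_nil, one_mul]
    exact s_ed (G := G3) 5
  · rw [xw_cons, ← mul_assoc, ← mul_assoc]
    rw [show lst G3 1 (e :: l) = G3.s e from rfl, s_ed]

end H_ChenU

open H_ChenU H_ChenS in
theorem p_chen_univ : T_chen_univ.{u} := by
  intro k _ N1 _ _ σ n1 h2 h7
  classical
  let h : NN k →ₗ[k] N1 := Finsupp.linearCombination k (fun i => match i with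
    | none => n1
    | some l => σ (xw l.1 * ed 5) n1)
  have hn : h w0 = n1 := by simp [h, w0]
  have hs : ∀ l : PI, h (Finsupp.single (some l) 1) = σ (xw l.1 * ed 5) n1 := by
    intro l
    simp [h]
  have g7 : σ (gh 7) n1 = n1 := by
    conv_lhs => rw [← h7]
    rw [← Module.End.mul_apply, ← map_mul, gh_ed]
    exact h2
  have ge : ∀ e : Fin 8, e ≠ 7 → σ (gh e) n1 = 0 := by
    intro e he
    conv_lhs => rw [← h7]
    rw [← Module.End.mul_apply, ← map_mul, gh_ed_ne he]
    simp
  have v2 : ∀ a : Fin 3, a ≠ 2 → σ (vt a) n1 = 0 := by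
    intro a ha
    conv_lhs => rw [← h2]
    rw [← Module.End.mul_apply, ← map_mul, vt_orth ha]
    simp
  have ee : ∀ e : Fin 8, e ≠ 7 → e ≠ 5 → σ (ed e) n1 = 0 := by
    intro e he he'
    conv_lhs => rw [← h2]
    have : G3.r e ≠ 2 := by
      revert he he'
      fin_cases e <;> simp [G3]
    rw [← Module.End.mul_apply, ← map_mul, ed_vt this]
    simp
  have lin : ∀ a : LPA k G3, (h (rN k a w0) = σ a (h w0)) →
      (∀ l : PI, h (rN k a (Finsupp.single (some l) 1)) = σ a (h (Finsupp.single (some l) 1))) →
      ∀ m, h (rN k a m) = σ a (h m) := by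
    intro a h1 h2 m
    induction m using Finsupp.induction_linear with
    | zero => simp
    | add x y hx hy => rw [map_add, map_add, hx, hy, map_add, map_add]
    | single i c =>
      rw [show (Finsupp.single i c : NN k) = c • Finsupp.single i 1 by simp, map_smul, map_smul,
        map_smul, map_smul]
      congr 1
      rcases i with _ | l
      · exact h1
      · exact h2 l
  let S : Subalgebra k (LPA k G3) :=
    { carrier := {a | ∀ m, h (rN k a m) = σ a (h m)}
      mul_mem' := by
        intro a b ha hb m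
        rw [map_mul, map_mul, Module.End.mul_apply, Module.End.mul_apply, ha, hb]
      add_mem' := by
        intro a b ha hb m
        rw [map_add, map_add, LinearMap.add_apply, LinearMap.add_apply, map_add, ha, hb]
      algebraMap_mem' := by
        intro c m
        rw [AlgHom.commutes, AlgHom.commutes]
        simp [Module.algebraMap_end_apply] }
  refine ⟨h, fun a => mem_of_gen k G3 G3.IsReg S ?_ ?_ ?_ a, hn⟩
  · intro a
    refine lin _ ?_ ?_
    · rw [hn, vt_w0]
      by_cases ha : a = 2
      · rw [if_pos ha, hn, ha, h2]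
      · rw [if_neg ha, map_zero, v2 a ha]
    · intro l
      rw [vt_some, hs, ← Module.End.mul_apply, ← map_mul]
      by_cases ha : lst G3 1 l.1 = a
      · rw [if_pos ha, hs, ← ha, vt_xw]
      · rw [if_neg ha, map_zero, ← vt_xw, ← mul_assoc, vt_orth (Ne.symm ha), zero_mul]
        simp
  · intro e
    refine lin _ ?_ ?_
    · rw [hn, ed_w0]
      by_cases h7' : e = 7
      · rw [if_pos h7', hn, h7', h7]
      · by_cases h5 : e = 5
        · rw [if_neg h7', if_pos h5, hs, h5]
          simp [pnil]
        · rw [if_neg h7', if_neg h5, map_zero, ee e h7' h5]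
    · intro l
      rw [ed_some, hs, ← Module.End.mul_apply, ← map_mul]
      by_cases ha : G3.r e = lst G3 1 l.1
      · rw [dif_pos ha, hs, xw_cons, mul_assoc]
      · rw [dif_neg ha, map_zero, ← vt_xw, ← mul_assoc, ed_vt ha, zero_mul]
        simp
  · intro e
    refine lin _ ?_ ?_
    · rw [hn, gh_w0]
      by_cases h7' : e = 7
      · rw [if_pos h7', hn, h7', g7]
      · rw [if_neg h7', map_zero, ge e h7']
    · rintro ⟨_ | ⟨f, l⟩, hl⟩
      · rw [gh_nil, hs, ← Module.End.mul_apply, ← map_mul, xw_nil, one_mul]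
        by_cases h5 : e = 5
        · subst h5
          rw [if_pos rfl, hn, gh_ed]
          exact h2.symm
        · rw [if_neg h5, map_zero, gh_ed_ne h5]
          simp
      · rw [gh_cons, hs, ← Module.End.mul_apply, ← map_mul, xw_cons, mul_assoc, ← mul_assoc (gh e)]
        by_cases hf : f = e
        · subst hf
          have h3 : (vt (G3.r f) * (xw l * ed 5) : LPA k G3) = xw l * ed 5 := by
            rw [show G3.r f = lst G3 1 l from hl.1, vt_xw]
          rw [if_pos rfl, hs, gh_ed, h3]
        · rw [if_neg hf, map_zero, gh_ed_ne (Ne.symm hf), zero_mul]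
          simp

end CKS
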