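import Pool.Agent.CKS.Targets

/-! # COMB: the comb-shaped perturbation -/

set_option linter.unusedSectionVars false

universe u

namespace CKS

namespace H_Comb

section Core

variable {k : Type u} [Field k] {n : ℕ}

/-- right shift on tuples, dropping the last entry -/
def rsh : (Fin (n + 1) → k) →ₗ[k] (Fin (n + 1) → k) where
  toFun q := Fin.cons 0 (Fin.init q)
  map_add' q q' := by
    funext i
    refine Fin.cases ?_ (fun j => ?_) i
    · simp
    · simp [Fin.init]
  map_smul' c q := by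
    funext i
    refine Fin.cases ?_ (fun j => ?_) i
    · simp
    · simp [Fin.init]

/-- left shift on tuples with a new last entry -/
def lsh : ((Fin (n + 1) → k) × k) →ₗ[k] (Fin (n + 1) → k) where
  toFun x := Fin.snoc (Fin.tail x.1) x.2
  map_add' x y := by
    funext i
    refine Fin.lastCases ?_ (fun j => ?_) i
    · simp
    · simp [Fin.tail]
  map_smul' c x := by
    funext i
    refine Fin.lastCases ?_ (fun j => ?_) i
    · simp
    · simp [Fin.tail]

theorem rsh_apply (q : Fin (n + 1) → k) : rsh q = Fin.cons 0 (Fin.init q) := rfl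
theorem lsh_apply (x : (Fin (n + 1) → k) × k) : lsh x = Fin.snoc (Fin.tail x.1) x.2 := rfl

theorem lsh_rsh (q : Fin (n + 1) → k) : lsh (rsh q, q (Fin.last n)) = q := by
  rw [lsh_apply, rsh_apply]
  simp only [Fin.tail_cons]
  exact Fin.snoc_init_self q

theorem rsh_lsh (q : Fin (n + 1) → k) (a : k) : rsh (lsh (q, a)) = Fin.cons 0 (Fin.tail q) := by
  rw [lsh_apply, rsh_apply]
  simp only [Fin.init_snoc]

theorem lsh_last (q : Fin (n + 1) → k) (a : k) : lsh (q, a) (Fin.last n) = a := by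
  rw [lsh_apply]; simp

theorem cons_add (q : Fin (n + 1) → k) :
    (Fin.cons 0 (Fin.tail q) : Fin (n + 1) → k) + q 0 • Pi.single 0 1 = q := by
  funext i
  refine Fin.cases ?_ (fun j => ?_) i
  · simp
  · simp [Fin.tail]

theorem rsh_single (j : Fin n) :
    rsh (Pi.single j.castSucc 1 : Fin (n + 1) → k) = Pi.single j.succ 1 := by
  rw [rsh_apply]
  funext i
  refine Fin.cases ?_ (fun l => ?_) i
  · simp
  · simp only [Fin.cons_succ, Fin.init, Pi.single_apply, Fin.castSucc_inj, Fin.succ_inj]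

theorem rsh_vanish (q : Fin (n + 1) → k) (m : ℕ) (h : ∀ i : Fin (n + 1), i.1 < m → q i = 0) :
    ∀ i : Fin (n + 1), i.1 < m + 1 → rsh q i = 0 := by
  intro i
  refine Fin.cases ?_ (fun l => ?_) i
  · intro _; rfl
  · intro hl
    rw [rsh_apply]
    simp only [Fin.cons_succ, Fin.init]
    exact h _ (by simpa using hl)

variable {P : Type u} [AddCommGroup P] [Module k P]
  (g : (((Fin (n + 1) → k) × k) × (P × P)) ≃ₗ[k] P)

/-- the operators `S` -/
def Sc (i : Fin 2) : Module.End k ((Fin (n + 1) → k) × P) :=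
  if i = 0 then
    (LinearMap.inr k _ _) ∘ₗ g.toLinearMap ∘ₗ
      (LinearMap.prodMap (LinearMap.inl k _ _) (LinearMap.inl k _ _))
  else
    (rsh ∘ₗ LinearMap.fst k _ _).prod (g.toLinearMap ∘ₗ
      (LinearMap.prodMap ((LinearMap.inr k _ _) ∘ₗ LinearMap.proj (Fin.last n))
        (LinearMap.inr k _ _)))

/-- the operators `T` -/
def Tc (i : Fin 2) : Module.End k ((Fin (n + 1) → k) × P) :=
  if i = 0 then
    (LinearMap.prodMap (LinearMap.fst k _ _) (LinearMap.fst k _ _)) ∘ₗ g.symm.toLinearMap ∘ₗ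
      (LinearMap.snd k _ _)
  else
    (lsh ∘ₗ LinearMap.prodMap LinearMap.id
      ((LinearMap.snd k _ _) ∘ₗ (LinearMap.fst k _ _) ∘ₗ g.symm.toLinearMap)).prod
      ((LinearMap.snd k _ _) ∘ₗ (LinearMap.snd k _ _) ∘ₗ g.symm.toLinearMap ∘ₗ
        (LinearMap.snd k _ _))

theorem Sc0 (q : Fin (n + 1) → k) (p : P) : Sc g 0 (q, p) = (0, g ((q, 0), (p, 0))) := by
  simp [Sc]
theorem Sc1 (q : Fin (n + 1) → k) (p : P) :
    Sc g 1 (q, p) = (rsh q, g ((0, q (Fin.last n)), (0, p))) := by
  simp [Sc]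
theorem Tc0 (q : Fin (n + 1) → k) (p : P) :
    Tc g 0 (q, p) = ((g.symm p).1.1, (g.symm p).2.1) := by
  simp [Tc]
theorem Tc1 (q : Fin (n + 1) → k) (p : P) :
    Tc g 1 (q, p) = (lsh (q, (g.symm p).1.2), (g.symm p).2.2) := by
  simp [Tc]

theorem Tc_mul_Sc (i j : Fin 2) : Tc g i * Sc g j = if i = j then 1 else 0 := by
  refine LinearMap.ext fun x => ?_
  obtain ⟨q, p⟩ := x
  fin_cases i <;> fin_cases j
  · simp [Module.End.mul_apply, Sc0, Tc0]
  · simp [Module.End.mul_apply, Sc1, Tc0]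
  · simp [Module.End.mul_apply, Sc0, Tc1]
    exact map_zero lsh
  · simp [Module.End.mul_apply, Sc1, Tc1, lsh_rsh]

theorem Sc_Tc (x : (Fin (n + 1) → k) × P) :
    Sc g 0 (Tc g 0 x) + Sc g 1 (Tc g 1 x) + x.1 0 • (Pi.single 0 1, 0) = x := by
  obtain ⟨q, p⟩ := x
  rw [Tc0, Tc1, Sc0, Sc1, rsh_lsh, lsh_last]
  refine Prod.ext ?_ ?_
  · simpa using cons_add q
  · simp [← map_add]

/-- first component vanishes on longer and longer initial segments -/
theorem word_vanish (x : (Fin (n + 1) → k) × P) (w : List (Fin 2)) :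
    ∀ i : Fin (n + 1), i.1 < w.length → ((w.map (Sc g)).prod x).1 i = 0 := by
  induction w with
  | nil => intro i hi; simp at hi
  | cons a w ih =>
    intro i hi
    rw [List.map_cons, List.prod_cons, Module.End.mul_apply]
    rcases hy : (w.map (Sc g)).prod x with ⟨q, p⟩
    rw [hy] at ih
    have ha : a = 0 ∨ a = 1 := by fin_cases a <;> simp
    rcases ha with rfl | rfl
    · rw [Sc0]; rfl
    · rw [Sc1]
      exact rsh_vanish q w.length ih i (by simpa using hi)

end Core

section ExC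

variable {k : Type u} [Field k] {N : Type u} [AddCommGroup N] [Module k N]

theorem exC (A B : Fin 2 → Module.End k N)
    (hBA : ∀ i j, B i * A j = if i = j then 1 else 0) (hAB : A 0 * B 0 + A 1 * B 1 = 1)
    (V F : Submodule k N) [FiniteDimensional k V] (hBV : ∀ i, ∀ m ∈ V, B i m ∈ V)
    (hAF : ∀ i, ∀ m ∈ F, A i m ∈ F) (hVF : IsCompl V F)
    (hgen : ∀ K : Submodule k N, (∀ i, ∀ m ∈ K, A i m ∈ K) → V ≤ K → K = ⊤) :
    ∃ C : Submodule k N, C ≤ F ∧ FiniteDimensional k C ∧
      Module.finrank k C = Module.finrank k V ∧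
      (∀ K : Submodule k N, (∀ i, ∀ m ∈ K, A i m ∈ K) → C ≤ K → F ≤ K) ∧
      (∀ f ∈ F, ∃ c ∈ C, ∃ f0 ∈ F, ∃ f1 ∈ F, c + (A 0 f0 + A 1 f1) = f) ∧
      (∀ c ∈ C, ∀ f0 ∈ F, ∀ f1 ∈ F, c + (A 0 f0 + A 1 f1) = 0 → c = 0 ∧ f0 = 0 ∧ f1 = 0) := by
  have hBA' : ∀ i j x, B i (A j x) = if i = j then x else 0 := by
    intro i j x
    have := LinearMap.congr_fun (hBA i j) x
    rw [Module.End.mul_apply] at this
    rw [this]
    split_ifs <;> rfl
  have hAB' : ∀ x, A 0 (B 0 x) + A 1 (B 1 x) = x := fun x => LinearMap.congr_fun hAB x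
  let ψ : (V × V) →ₗ[k] N := ((A 0) ∘ₗ V.subtype).coprod ((A 1) ∘ₗ V.subtype)
  have hψ : ∀ x : V × V, ψ x = A 0 x.1 + A 1 x.2 := fun x => by simp [ψ]
  have hinj : Function.Injective ψ := by
    rw [← LinearMap.ker_eq_bot, LinearMap.ker_eq_bot']
    intro x hx
    rw [hψ] at hx
    have h0 := congrArg (B 0) hx
    have h1 := congrArg (B 1) hx
    rw [map_add, hBA', hBA', map_zero] at h0 h1
    refine Prod.ext (Subtype.ext ?_) (Subtype.ext ?_)
    · simpa using h0
    · simpa using h1
  let Q : Submodule k N := LinearMap.range ψ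
  have hmQ : ∀ x, x ∈ Q ↔ ∃ v0 ∈ V, ∃ v1 ∈ V, A 0 v0 + A 1 v1 = x := by
    intro x
    constructor
    · rintro ⟨y, rfl⟩
      exact ⟨y.1, y.1.2, y.2, y.2.2, (hψ y).symm⟩
    · rintro ⟨v0, h0, v1, h1, rfl⟩
      exact ⟨(⟨v0, h0⟩, ⟨v1, h1⟩), hψ _⟩
  have hVQ : V ≤ Q := fun v hv => (hmQ v).2 ⟨B 0 v, hBV 0 v hv, B 1 v, hBV 1 v hv, hAB' v⟩
  have hrQ : Module.finrank k Q = Module.finrank k V + Module.finrank k V := by
    rw [LinearMap.finrank_range_of_inj hinj, Module.finrank_prod]
  have hAVQ : ∀ i, ∀ v ∈ V, A i v ∈ Q := by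
    intro i v hv
    have ha : i = 0 ∨ i = 1 := by fin_cases i <;> simp
    rcases ha with rfl | rfl
    · exact (hmQ _).2 ⟨v, hv, 0, V.zero_mem, by simp⟩
    · exact (hmQ _).2 ⟨0, V.zero_mem, v, hv, by simp⟩
  have hQsup : V ⊔ (Q ⊓ F) = Q := by
    rw [inf_comm, ← sup_inf_assoc_of_le F hVQ, hVF.sup_eq_top, top_inf_eq]
  refine ⟨Q ⊓ F, inf_le_right, inferInstance, ?_, ?_, ?_, ?_⟩
  · have h1 := Submodule.finrank_sup_add_finrank_inf_eq V (Q ⊓ F)
    have h2 : V ⊓ (Q ⊓ F) = ⊥ := by
      rw [eq_bot_iff, ← hVF.inf_eq_bot]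
      exact inf_le_inf le_rfl inf_le_right
    rw [hQsup, h2, finrank_bot, hrQ] at h1
    omega
  · intro K hK hCK
    have h3 : V ⊔ (K ⊓ F) = ⊤ := by
      refine hgen _ ?_ le_sup_left
      intro i m hm
      obtain ⟨v, hv, x, hx, rfl⟩ := Submodule.mem_sup.1 hm
      rw [map_add]
      refine Submodule.add_mem _ ?_ ?_
      · have := hAVQ i v hv
        rw [← hQsup] at this
        exact (sup_le_sup_left (le_inf hCK inf_le_right) V) this
      · exact Submodule.mem_sup_right ⟨hK i x hx.1, hAF i x hx.2⟩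
    intro f hf
    have hf' : f ∈ V ⊔ (K ⊓ F) := h3 ▸ Submodule.mem_top
    obtain ⟨v, hv, x, hx, rfl⟩ := Submodule.mem_sup.1 hf'
    have hvF : v ∈ F := by simpa using F.sub_mem hf hx.2
    have hv0 : v = 0 := by
      have : v ∈ V ⊓ F := ⟨hv, hvF⟩
      rw [hVF.inf_eq_bot] at this
      exact (Submodule.mem_bot k).1 this
    rw [hv0, zero_add]
    exact hx.1
  · intro f hf
    have hdec : ∀ x : N, ∃ v ∈ V, ∃ y ∈ F, v + y = x := by
      intro x
      have : x ∈ V ⊔ F := hVF.sup_eq_top ▸ Submodule.mem_top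
      exact Submodule.mem_sup.1 this
    obtain ⟨v0, hv0, f0, hf0, e0⟩ := hdec (B 0 f)
    obtain ⟨v1, hv1, f1, hf1, e1⟩ := hdec (B 1 f)
    have hsum : (A 0 v0 + A 1 v1) + (A 0 f0 + A 1 f1) = f := by
      rw [← hAB' f, ← e0, ← e1, map_add, map_add]
      abel
    refine ⟨A 0 v0 + A 1 v1, ⟨(hmQ _).2 ⟨v0, hv0, v1, hv1, rfl⟩, ?_⟩, f0, hf0, f1, hf1, hsum⟩
    have : A 0 v0 + A 1 v1 = f - (A 0 f0 + A 1 f1) := by rw [← hsum]; abel
    rw [this]
    exact F.sub_mem hf (F.add_mem (hAF 0 _ hf0) (hAF 1 _ hf1))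
  · intro c hc f0 hf0 f1 hf1 h
    obtain ⟨v0, hv0, v1, hv1, rfl⟩ := (hmQ c).1 hc.1
    have h0 := congrArg (B 0) h
    have h1 := congrArg (B 1) h
    simp only [map_add, hBA', map_zero] at h0 h1
    simp only [if_true, zero_ne_one, one_ne_zero, if_false, add_zero, zero_add] at h0 h1
    have hz : ∀ v ∈ V, ∀ y ∈ F, v + y = 0 → v = 0 ∧ y = 0 := by
      intro v hv y hy h
      have hvy : v = -y := eq_neg_of_add_eq_zero_left h
      have : v ∈ V ⊓ F := ⟨hv, by rw [hvy]; exact F.neg_mem hy⟩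
      rw [hVF.inf_eq_bot] at this
      have hv0 : v = 0 := (Submodule.mem_bot k).1 this
      refine ⟨hv0, ?_⟩
      rw [hv0, zero_add] at h
      exact h
    obtain ⟨r0, s0⟩ := hz v0 hv0 f0 hf0 h0
    obtain ⟨r1, s1⟩ := hz v1 hv1 f1 hf1 h1
    subst r0 s0 r1 s1
    simp

end ExC

section Maps

variable {k : Type u} [Field k]

theorem inc_some (m : MM k) (p : PI) : inc m (some p) = m p := by
  induction m using Finsupp.induction_linear with
  | zero => simp
  | add u v hu hv => simp [hu, hv]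
  | single i a =>
    simp only [inc, Finsupp.linearCombination_single, Finsupp.smul_single, smul_eq_mul, mul_one]
    by_cases h : i = p
    · subst h; simp
    · rw [Finsupp.single_apply, Finsupp.single_apply, if_neg h, if_neg]
      intro h'; exact h (Option.some.inj h')

theorem inc_none (m : MM k) : inc m none = 0 := by
  induction m using Finsupp.induction_linear with
  | zero => simp
  | add u v hu hv => simp [hu, hv]
  | single i a => simp [inc, Finsupp.linearCombination_single]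

theorem prj_apply (x : NN k) (p : PI) : prj x p = x (some p) := by
  induction x using Finsupp.induction_linear with
  | zero => simp
  | add u v hu hv => simp [hu, hv]
  | single i a =>
    rcases i with _ | i
    · simp [prj, Finsupp.linearCombination_single]
    · simp only [prj, Finsupp.linearCombination_single, Finsupp.smul_single, smul_eq_mul, mul_one]
      by_cases h : i = p
      · subst h; simp
      · rw [Finsupp.single_apply, Finsupp.single_apply, if_neg h, if_neg]
        intro h'; exact h (Option.some.inj h')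

theorem prj_inc (m : MM k) : prj (inc m) = m := by
  ext p; rw [prj_apply, inc_some]

theorem inc_prj (x : NN k) (h : x none = 0) : inc (prj x) = x := by
  ext i
  rcases i with _ | p
  · rw [inc_none, h]
  · rw [inc_some, prj_apply]

theorem inc_single (p : PI) : inc (Finsupp.single p (1 : k)) = Finsupp.single (some p) 1 := by
  simp [inc, Finsupp.linearCombination_single]

theorem inc_om : inc (om : MM k) = Finsupp.single (some pnil) 1 := inc_single pnil

theorem om_pnil : (om : MM k) pnil = 1 := by simp [om]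

end Maps

section Abs

variable {k : Type u} [Field k] {N M : Type u} [AddCommGroup N] [Module k N]
  [AddCommGroup M] [Module k M]

theorem comb_abs (inc : M →ₗ[k] N) (prj : N →ₗ[k] M) (c0 c1 : N →ₗ[k] k) (om : M)
    (hprj : ∀ m, prj (inc m) = m) (hinc : ∀ x, c0 x = 0 → inc (prj x) = x)
    (hc0 : ∀ m, c0 (inc m) = 0) (hc1 : c1 (inc om) = 1) (z : N) (hz0 : c0 z = 1)
    (hz1 : c1 z = 0) (A B : Fin 2 → Module.End k N)
    (hBA : ∀ i j, B i * A j = if i = j then 1 else 0) (hAB : A 0 * B 0 + A 1 * B 1 = 1)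
    (V F : Submodule k N) [FiniteDimensional k V] (hBV : ∀ i, ∀ m ∈ V, B i m ∈ V)
    (hAF : ∀ i, ∀ m ∈ F, A i m ∈ F) (hF0 : ∀ f ∈ F, c0 f = 0) (hF1 : ∀ f ∈ F, c1 f = 0)
    (hVF : IsCompl V F)
    (hgen : ∀ K : Submodule k N, (∀ i, ∀ m ∈ K, A i m ∈ K) → V ≤ K → K = ⊤) :
    ∃ S T : Fin 2 → Module.End k M,
      (∀ i j, T i * S j = if i = j then 1 else 0) ∧ (∀ i, T i om = 0) ∧
      (∀ m, S 0 (T 0 m) + S 1 (T 1 m) + c1 (inc m) • om = m) ∧
      (∀ i m, inc m ∈ F → S i m = prj (A i (inc m))) ∧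
      (∀ i m, (∀ j, B j (inc m) ∈ F) → T i m = prj (B i (inc m))) ∧
      (∃ n, ∀ w : List (Fin 2), n ≤ w.length → inc ((w.map S).prod om) ∈ F) ∧
      Submodule.span k (Set.range (fun w : List (Fin 2) => (w.map S).prod om)) = ⊤ := by
  obtain ⟨C, hCF, hCfd, hCrank, hCgen, hdec, huniq⟩ := exC A B hBA hAB V F hBV hAF hVF hgen
  have hBA' : ∀ i j x, B i (A j x) = if i = j then x else 0 := by
    intro i j x
    have := LinearMap.congr_fun (hBA i j) x
    rw [Module.End.mul_apply] at this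
    rw [this]
    split_ifs <;> rfl
  have hAB' : ∀ x, A 0 (B 0 x) + A 1 (B 1 x) = x := fun x => LinearMap.congr_fun hAB x
  have hdecN : ∀ x : N, ∃ v ∈ V, ∃ y ∈ F, v + y = x := by
    intro x
    have : x ∈ V ⊔ F := hVF.sup_eq_top ▸ Submodule.mem_top
    exact Submodule.mem_sup.1 this
  have hzero : ∀ v ∈ V, ∀ y ∈ F, v + y = 0 → v = 0 ∧ y = 0 := by
    intro v hv y hy h
    have hvy : v = -y := eq_neg_of_add_eq_zero_left h
    have : v ∈ V ⊓ F := ⟨hv, by rw [hvy]; exact F.neg_mem hy⟩
    rw [hVF.inf_eq_bot] at this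
    have hv0 : v = 0 := (Submodule.mem_bot k).1 this
    refine ⟨hv0, ?_⟩
    rw [hv0, zero_add] at h
    exact h
  let φ : V →ₗ[k] k × k := (c0.prod c1) ∘ₗ V.subtype
  have hφ : ∀ v : V, φ v = (c0 v, c1 v) := fun v => rfl
  have hφs : Function.Surjective φ := by
    rintro ⟨a, b⟩
    obtain ⟨v, hv, y, hy, hvy⟩ := hdecN (a • z + b • inc om)
    refine ⟨⟨v, hv⟩, ?_⟩
    have h1 : v = (a • z + b • inc om) - y := by
      rw [← hvy]; abel
    rw [hφ]
    refine Prod.ext ?_ ?_
    · simp [h1, hF0 y hy, hz0, hc0]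
    · simp [h1, hF1 y hy, hz1, hc1]
  set n := Module.finrank k (LinearMap.ker φ) with hn
  have hdV : Module.finrank k V = n + 2 := by
    have h1 := LinearMap.finrank_range_add_finrank_ker φ
    rw [LinearMap.range_eq_top.2 hφs, finrank_top, Module.finrank_prod,
      Module.finrank_self] at h1
    omega
  obtain ⟨η⟩ : Nonempty ((Fin n → k) ≃ₗ[k] LinearMap.ker φ) :=
    FiniteDimensional.nonempty_linearEquiv_of_finrank_eq (by rw [Module.finrank_fin_fun])
  obtain ⟨γ⟩ : Nonempty (((Fin (n + 1) → k) × k) ≃ₗ[k] C) :=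
    FiniteDimensional.nonempty_linearEquiv_of_finrank_eq (by
      rw [Module.finrank_prod, Module.finrank_fin_fun, Module.finrank_self, hCrank, hdV])
  -- the isomorphism `g`
  let g0 : (((Fin (n + 1) → k) × k) × (F × F)) →ₗ[k] F :=
    LinearMap.coprod ((Submodule.inclusion hCF) ∘ₗ γ.toLinearMap)
      (LinearMap.coprod ((A 0).restrict (hAF 0)) ((A 1).restrict (hAF 1)))
  have hg0 : ∀ x, ((g0 x : F) : N) = (γ x.1 : N) + (A 0 x.2.1 + A 1 x.2.2) :=
    fun x => by simp [g0]
  have hg0b : Function.Bijective g0 := by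
    constructor
    · rw [← LinearMap.ker_eq_bot, LinearMap.ker_eq_bot']
      intro x hx
      have h1 := hg0 x
      rw [hx] at h1
      obtain ⟨h2, h3, h4⟩ := huniq _ (γ x.1).2 _ x.2.1.2 _ x.2.2.2 h1.symm
      refine Prod.ext ?_ (Prod.ext (Subtype.ext h3) (Subtype.ext h4))
      have : γ x.1 = 0 := Subtype.ext h2
      exact (LinearEquiv.map_eq_zero_iff γ).1 this
    · intro f
      obtain ⟨c, hc, f0, hf0, f1, hf1, h⟩ := hdec f f.2
      refine ⟨(γ.symm ⟨c, hc⟩, (⟨f0, hf0⟩, ⟨f1, hf1⟩)), Subtype.ext ?_⟩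
      rw [hg0]
      simpa using h
  let g := LinearEquiv.ofBijective g0 hg0b
  have hg : ∀ x, ((g x : F) : N) = (γ x.1 : N) + (A 0 x.2.1 + A 1 x.2.2) := hg0
  -- the isomorphism `e`
  let e0 : ((Fin (n + 1) → k) × F) →ₗ[k] M :=
    LinearMap.coprod (((LinearMap.proj 0).smulRight om) +
      prj ∘ₗ V.subtype ∘ₗ (LinearMap.ker φ).subtype ∘ₗ η.toLinearMap ∘ₗ
        (LinearMap.funLeft k k Fin.succ)) (prj ∘ₗ F.subtype)
  have he0 : ∀ x, e0 x = x.1 0 • om +
      prj ((η (Fin.tail x.1) : V) : N) + prj (x.2 : N) := fun x => rfl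
  have hηn : ∀ q : Fin n → k, c0 ((η q : V) : N) = 0 := by
    intro q
    have := (η q).2
    rw [LinearMap.mem_ker, hφ] at this
    exact (Prod.ext_iff.1 this).1
  have hηp : ∀ q : Fin n → k, c1 ((η q : V) : N) = 0 := by
    intro q
    have := (η q).2
    rw [LinearMap.mem_ker, hφ] at this
    exact (Prod.ext_iff.1 this).2
  have hince : ∀ x, inc (e0 x) = x.1 0 • inc om + ((η (Fin.tail x.1) : V) : N) + (x.2 : N) := by
    intro x
    rw [he0, map_add, map_add, map_smul, hinc _ (hηn _), hinc _ (hF0 _ x.2.2)]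
  have hc1e : ∀ x, c1 (inc (e0 x)) = x.1 0 := by
    intro x
    rw [hince, map_add, map_add, map_smul, hc1, hηp, hF1 _ x.2.2]
    simp
  have he0b : Function.Bijective e0 := by
    constructor
    · rw [← LinearMap.ker_eq_bot, LinearMap.ker_eq_bot']
      intro x hx
      have h0 : x.1 0 = 0 := by
        rw [← hc1e, hx, map_zero, map_zero]
      have h1 := hince x
      rw [hx, map_zero, h0, zero_smul, zero_add] at h1
      obtain ⟨h2, h3⟩ := hzero _ (η (Fin.tail x.1) : V).2 _ x.2.2 h1.symm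
      have h4 : η (Fin.tail x.1) = 0 := Subtype.ext (Subtype.ext h2)
      have h5 : Fin.tail x.1 = 0 := (LinearEquiv.map_eq_zero_iff η).1 h4
      refine Prod.ext (funext fun i => ?_) (Subtype.ext h3)
      refine Fin.cases ?_ (fun j => ?_) i
      · exact h0
      · exact congrFun h5 j
    · intro m
      obtain ⟨v, hv, f, hf, h⟩ := hdecN (inc m - c1 (inc m) • inc om)
      have h1 : v = (inc m - c1 (inc m) • inc om) - f := by
        rw [← h]; abel
      have h2 : (⟨v, hv⟩ : V) ∈ LinearMap.ker φ := by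
        rw [LinearMap.mem_ker, hφ]
        refine Prod.ext ?_ ?_
        · simp [h1, hc0, hF0 f hf]
        · simp [h1, hc1, hF1 f hf]
      refine ⟨(Fin.cons (c1 (inc m)) (η.symm ⟨⟨v, hv⟩, h2⟩), ⟨f, hf⟩), ?_⟩
      rw [he0]
      simp only [Fin.cons_zero, Fin.tail_cons, LinearEquiv.apply_symm_apply]
      rw [add_assoc, ← map_add, h, map_sub, hprj, map_smul, hprj]
      abel
  let e := LinearEquiv.ofBijective e0 he0b
  have he : ∀ x, e x = x.1 0 • om +
      prj ((η (Fin.tail x.1) : V) : N) + prj (x.2 : N) := he0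
  have hince' : ∀ x, inc (e x) = x.1 0 • inc om + ((η (Fin.tail x.1) : V) : N) + (x.2 : N) :=
    hince
  have hc1e' : ∀ x, c1 (inc (e x)) = x.1 0 := hc1e
  have htail0 : (Fin.tail (0 : Fin (n + 1) → k) : Fin n → k) = 0 := by
    funext j; simp [Fin.tail]
  have htail1 : (Fin.tail (Pi.single 0 1 : Fin (n + 1) → k) : Fin n → k) = 0 := by
    funext j; simp [Fin.tail]
  have hom : e (Pi.single 0 1, 0) = om := by
    rw [he, htail1]; simp
  have he2 : ∀ f : F, e (0, f) = prj (f : N) := by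
    intro f
    rw [he, htail0]; simp
  have he3 : ∀ m, ∀ h : inc m ∈ F, e (0, ⟨inc m, h⟩) = m := by
    intro m h
    rw [he2, hprj]
  have hgA : ∀ f0 f1 : F, ((g (0, (f0, f1)) : F) : N) = A 0 f0 + A 1 f1 := by
    intro f0 f1
    rw [hg]; simp
  have h2 : ∀ i : Fin 2, i = 0 ∨ i = 1 := by intro i; fin_cases i <;> simp
  let S : Fin 2 → Module.End k M := fun i => e.toLinearMap ∘ₗ Sc g i ∘ₗ e.symm.toLinearMap
  let T : Fin 2 → Module.End k M := fun i => e.toLinearMap ∘ₗ Tc g i ∘ₗ e.symm.toLinearMap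
  have hS : ∀ i x, S i (e x) = e (Sc g i x) := by
    intro i x; simp [S]
  have hT : ∀ i x, T i (e x) = e (Tc g i x) := by
    intro i x; simp [T]
  have hSF : ∀ i m, inc m ∈ F → S i m = prj (A i (inc m)) := by
    intro i m hm
    have h3 := he3 m hm
    rcases h2 i with rfl | rfl
    · rw [← h3, hS, Sc0, he2, h3]
      have : (((0 : Fin (n + 1) → k), (0 : k)), ((⟨inc m, hm⟩ : F), (0 : F))) =
        ((0 : (Fin (n + 1) → k) × k), ((⟨inc m, hm⟩ : F), (0 : F))) := rfl
      rw [this, hgA]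
      simp
    · rw [← h3, hS, Sc1, map_zero, he2, h3]
      have : (((0 : Fin (n + 1) → k), (0 : Fin (n + 1) → k) (Fin.last n)),
          ((0 : F), (⟨inc m, hm⟩ : F))) =
        ((0 : (Fin (n + 1) → k) × k), ((0 : F), (⟨inc m, hm⟩ : F))) := rfl
      rw [this, hgA]
      simp
  have hSw : ∀ (w : List (Fin 2)) x, (w.map S).prod (e x) = e ((w.map (Sc g)).prod x) := by
    intro w x
    induction w with
    | nil => rfl
    | cons a w ih =>
      rw [List.map_cons, List.prod_cons, Module.End.mul_apply, ih, hS, List.map_cons,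
        List.prod_cons, Module.End.mul_apply]
  refine ⟨S, T, ?_, ?_, ?_, hSF, ?_, ?_, ?_⟩
  · intro i j
    refine LinearMap.ext fun m => ?_
    obtain ⟨x, rfl⟩ := e.surjective m
    rw [Module.End.mul_apply, hS, hT, ← Module.End.mul_apply, Tc_mul_Sc]
    split_ifs
    · rfl
    · simp
  · intro i
    rw [← hom, hT]
    rcases h2 i with rfl | rfl
    · rw [Tc0]; simp
    · rw [Tc1, map_zero]
      have : lsh ((Pi.single 0 1 : Fin (n + 1) → k), (0 : k)) = 0 := by
        rw [lsh_apply]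
        simp only [htail1]
        funext i
        refine Fin.lastCases ?_ (fun j => ?_) i <;> simp
      simp only [Prod.fst_zero, Prod.snd_zero, this]
      exact map_zero e
  · intro m
    obtain ⟨x, rfl⟩ := e.surjective m
    rw [hT, hT, hS, hS, hc1e', ← hom, ← map_smul, ← map_add, ← map_add, Sc_Tc]
  · intro i m hm
    have hmF : inc m ∈ F := by
      rw [← hAB' (inc m)]
      exact F.add_mem (hAF 0 _ (hm 0)) (hAF 1 _ (hm 1))
    have h3 := he3 m hmF
    have h4 : (⟨inc m, hmF⟩ : F) = g (0, (⟨B 0 (inc m), hm 0⟩, ⟨B 1 (inc m), hm 1⟩)) := by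
      refine Subtype.ext ?_
      rw [hgA]
      exact (hAB' _).symm
    rcases h2 i with rfl | rfl
    · conv_lhs => rw [← h3, hT, Tc0, h4, LinearEquiv.symm_apply_apply]
      exact he2 _
    · conv_lhs => rw [← h3, hT, Tc1, h4, LinearEquiv.symm_apply_apply]
      have : lsh ((0 : Fin (n + 1) → k), (0 : k)) = 0 := map_zero lsh
      simp only [Prod.snd_zero, this]
      exact he2 _
  · refine ⟨n + 1, fun w hw => ?_⟩
    rw [← hom, hSw, hince']
    have h5 := word_vanish g (Pi.single 0 1, 0) w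
    have h6 : ((w.map (Sc g)).prod (Pi.single 0 1, 0)).1 = 0 := by
      funext i
      exact h5 i (lt_of_lt_of_le i.2 hw)
    rw [h6, htail0]
    simp
  · set K := Submodule.span k (Set.range (fun w : List (Fin 2) => (w.map S).prod om)) with hK
    have hKS : ∀ i, ∀ m ∈ K, S i m ∈ K := by
      intro i m hm
      have : K ≤ K.comap (S i) := by
        rw [hK, Submodule.span_le]
        rintro _ ⟨w, rfl⟩
        refine Submodule.subset_span ⟨i :: w, ?_⟩
        simp only [List.map_cons, List.prod_cons, Module.End.mul_apply]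
      exact this hm
    have hKom : om ∈ K := Submodule.subset_span ⟨[], rfl⟩
    have hKj : ∀ j : Fin (n + 1), e (Pi.single j 1, 0) ∈ K := by
      intro j
      induction j using Fin.induction with
      | zero => rw [hom]; exact hKom
      | succ j ih =>
        have h7 := hKS 1 _ ih
        rw [hS, Sc1, rsh_single] at h7
        have h8 : (Pi.single j.castSucc 1 : Fin (n + 1) → k) (Fin.last n) = 0 := by
          rw [Pi.single_apply, if_neg]
          exact (Fin.castSucc_lt_last j).ne'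
        rw [h8] at h7
        have h9 : g (((0 : Fin (n + 1) → k), (0 : k)), ((0 : F), (0 : F))) = 0 := map_zero g
        rw [h9] at h7
        exact h7
    have hKq : ∀ q : Fin (n + 1) → k, e (q, 0) ∈ K := by
      intro q
      have h7 : (q, (0 : F)) = ∑ j, q j • ((Pi.single j 1 : Fin (n + 1) → k), (0 : F)) := by
        refine Prod.ext ?_ ?_
        · rw [Prod.fst_sum]
          funext i
          simp [Finset.sum_apply, Pi.single_apply]
        · rw [Prod.snd_sum]; simp
      rw [h7, map_sum]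
      refine Submodule.sum_mem _ fun j _ => ?_
      rw [map_smul]
      exact K.smul_mem _ (hKj j)
    have hKc : ∀ c : (Fin (n + 1) → k) × k, e (0, g (c, 0)) ∈ K := by
      rintro ⟨q, a⟩
      have h7 := hKS 0 _ (hKq q)
      rw [hS, Sc0] at h7
      have h8 := hKS 1 _ (hKq (Pi.single (Fin.last n) a))
      rw [hS, Sc1] at h8
      have h9 : rsh (Pi.single (Fin.last n) a : Fin (n + 1) → k) = 0 := by
        rw [rsh_apply]
        funext i
        refine Fin.cases ?_ (fun l => ?_) i
        · simp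
        · simp only [Fin.cons_succ, Fin.init, Pi.single_apply, Pi.zero_apply]
          rw [if_neg]
          exact (Fin.castSucc_lt_last l).ne
      rw [h9, Pi.single_eq_same] at h8
      have h10 := K.add_mem h7 h8
      rw [← map_add] at h10
      have h11 : ((0 : Fin (n + 1) → k), g ((q, (0 : k)), ((0 : F), (0 : F)))) +
          ((0 : Fin (n + 1) → k), g (((0 : Fin (n + 1) → k), a), ((0 : F), (0 : F)))) =
          (0, g ((q, a), 0)) := by
        rw [Prod.mk_add_mk, add_zero, ← map_add, Prod.mk_add_mk, Prod.mk_add_mk, add_zero,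
          zero_add, Prod.mk_add_mk, add_zero]
        rfl
      rw [h11] at h10
      exact h10
    have hKF : F ≤ F ⊓ K.comap prj := by
      refine hCgen _ ?_ ?_
      · rintro i m ⟨hm1, hm2⟩
        refine ⟨hAF i m hm1, ?_⟩
        have h7 := hKS i _ hm2
        have h8 := hinc m (hF0 m hm1)
        rw [hSF i (prj m) (by rw [h8]; exact hm1), h8] at h7
        exact h7
      · intro c hc
        refine ⟨hCF hc, ?_⟩
        have h7 := hKc (γ.symm ⟨c, hc⟩)
        have h8 : g (γ.symm ⟨c, hc⟩, 0) = ⟨c, hCF hc⟩ := by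
          refine Subtype.ext ?_
          rw [hg]
          simp
        rw [h8, he2] at h7
        exact h7
    rw [eq_top_iff]
    intro m _
    obtain ⟨⟨q, f⟩, rfl⟩ := e.surjective m
    have h7 : (q, f) = (q, 0) + (0, f) := by simp
    rw [h7, map_add, he2]
    exact K.add_mem (hKq q) (hKF f.2).2

end Abs

end H_Comb

open H_Comb in
/-- COMB -/
theorem p_comb : T_comb.{u} := by
  intro k _ A B hBA hAB V F hV hBV hAF hF0 hF1 hVF hfin hfin2 hz hgen
  obtain ⟨S, T, h1, h2, h3, h4, h5, ⟨n, h6⟩, h7⟩ := comb_abs (inc (k := k)) prj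
    (Finsupp.lapply none) (Finsupp.lapply (some pnil)) om prj_inc
    (fun x hx => inc_prj x hx) (fun m => inc_none m)
    (by rw [Finsupp.lapply_apply, inc_some, om_pnil]) (Finsupp.single none 1) (by simp) (by simp)
    A B hBA hAB V F hBV hAF hF0 hF1 hVF hgen
  refine ⟨S, T, h1, h2, ?_, ?_, ?_, ?_, h7⟩
  · intro m
    have := h3 m
    rw [Finsupp.lapply_apply, inc_some] at this
    exact this
  · intro i
    refine (hfin.preimage (Option.some_injective _).injOn).subset ?_
    intro p hp hF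
    refine hp ?_
    rw [LinearMap.sub_apply, h4 i _ (by rw [inc_single]; exact hF)]
    exact sub_self _
  · intro i
    refine (hfin2.preimage (Option.some_injective _).injOn).subset ?_
    intro p hp
    by_contra hF
    refine hp ?_
    rw [LinearMap.sub_apply, h5 i _ (by
      intro j
      rw [inc_single]
      by_contra hj
      exact hF ⟨j, hj⟩)]
    exact sub_self _
  · intro p
    obtain ⟨n2, hn2⟩ := hz (some p)
    have hw : ∀ w : List (Fin 2), ∀ m : MM k, inc m ∈ F →
        inc ((w.map S).prod m) = (w.map A).prod (inc m) ∧ inc ((w.map S).prod m) ∈ F := by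
      intro w m hm
      induction w with
      | nil => exact ⟨rfl, hm⟩
      | cons a w ih =>
        rw [List.map_cons, List.prod_cons, Module.End.mul_apply, h4 a _ ih.2, List.map_cons,
          List.prod_cons, Module.End.mul_apply, ← ih.1]
        have hmem := hAF a _ ih.2
        have h8 := inc_prj _ (hF0 _ hmem)
        rw [h8]
        exact ⟨rfl, hmem⟩
    refine (List.finite_length_lt (Fin 2) (n2 + n)).subset ?_
    intro w hwp
    by_contra hlen
    simp only [Set.mem_ofPred_eq, not_lt] at hlen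
    refine hwp ?_
    have h9 : w = w.take n2 ++ w.drop n2 := (List.take_append_drop n2 w).symm
    have h10 := h6 (w.drop n2) (by rw [List.length_drop]; omega)
    have h11 := hw (w.take n2) _ h10
    rw [h9, List.map_append, List.prod_append, Module.End.mul_apply, ← inc_some, h11.1]
    exact hn2 _ (by rw [List.length_take]; omega) _ h10

end CKS
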