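import Pool.Agent.CKS.Targets

/-!
Job LPA-CONV (helper43): a Morita equivalence of the two Leavitt path algebras gives an isomorphism.
-/

universe u

namespace CKS

namespace H_Conv

open CategoryTheory

/-- `1 = 2` in the monoid of projections -/
structure Two (A : Type u) [Ring A] : Type u where
  /-- isometry -/
  x0 : A
  /-- isometry -/
  x1 : A
  /-- adjoint -/
  y0 : A
  /-- adjoint -/
  y1 : A
  h00 : y0 * x0 = 1
  h01 : y0 * x1 = 0
  h10 : y1 * x0 = 0
  h11 : y1 * x1 = 1
  h : x0 * y0 + x1 * y1 = 1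

section modules

variable {B : Type u} [Ring B]

/-- isometries for a module -/
structure MTwo (M : Type u) [AddCommGroup M] [Module B M] : Type u where
  /-- isometry -/
  u0 : M →ₗ[B] M
  /-- isometry -/
  u1 : M →ₗ[B] M
  /-- adjoint -/
  v0 : M →ₗ[B] M
  /-- adjoint -/
  v1 : M →ₗ[B] M
  h00 : ∀ m, v0 (u0 m) = m
  h01 : ∀ m, v0 (u1 m) = 0
  h10 : ∀ m, v1 (u0 m) = 0
  h11 : ∀ m, v1 (u1 m) = m
  h : ∀ m, u0 (v0 m) + u1 (v1 m) = m

variable {M N : Type u} [AddCommGroup M] [Module B M] [AddCommGroup N] [Module B N]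

/-- `M = M + M` -/
def MTwo.eqv (T : MTwo (B := B) M) : M ≃ₗ[B] M × M where
  toFun m := (T.v0 m, T.v1 m)
  map_add' a b := by simp
  map_smul' a b := by simp
  invFun p := T.u0 p.1 + T.u1 p.2
  left_inv m := T.h m
  right_inv p := by
    simp [T.h00, T.h01, T.h10, T.h11]

/-- a retract is a direct summand -/
def retr (i : M →ₗ[B] N) (r : N →ₗ[B] M) (h : ∀ m, r (i m) = m) :
    N ≃ₗ[B] M × LinearMap.ker r where
  toFun n := (r n, ⟨n - i (r n), by simp [h]⟩)
  map_add' a b := by
    ext
    · simp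
    · simp only [map_add, Prod.snd_add, Submodule.coe_add]
      abel
  map_smul' a b := by
    ext
    · simp
    · simp [smul_sub]
  invFun p := i p.1 + p.2
  left_inv n := by simp
  right_inv p := by
    have hp : r (p.2 : N) = 0 := p.2.2
    ext
    · simp [h, hp]
    · simp [h, hp]

/-- absorption -/
theorem absorb (TM : MTwo (B := B) M) (TN : MTwo (B := B) N)
    (i : M →ₗ[B] N) (r : N →ₗ[B] M) (h : ∀ m, r (i m) = m)
    (j : N →ₗ[B] M) (s : M →ₗ[B] N) (h' : ∀ m, s (j m) = m) : Nonempty (M ≃ₗ[B] N) := by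
  have e1 : N ≃ₗ[B] M × LinearMap.ker r := retr i r h
  have e2 : M ≃ₗ[B] N × LinearMap.ker s := retr j s h'
  have f1 : N ≃ₗ[B] M × N :=
    e1.trans ((LinearEquiv.prodCongr TM.eqv (LinearEquiv.refl B _)).trans
      ((LinearEquiv.prodAssoc B M M _).trans
        (LinearEquiv.prodCongr (LinearEquiv.refl B M) e1.symm)))
  have f2 : M ≃ₗ[B] N × M :=
    e2.trans ((LinearEquiv.prodCongr TN.eqv (LinearEquiv.refl B _)).trans
      ((LinearEquiv.prodAssoc B N N _).trans
        (LinearEquiv.prodCongr (LinearEquiv.refl B N) e2.symm)))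
  exact ⟨f2.trans ((LinearEquiv.prodComm B N M).trans f1.symm)⟩

/-- many isometries -/
theorem MTwo.many (T : MTwo (B := B) M) : ∃ σ τ : ℕ → (M →ₗ[B] M),
    ∀ i j m, τ i (σ j m) = if i = j then m else 0 := by
  refine ⟨fun n => (T.u1 ^ n) ∘ₗ T.u0, fun n => T.v0 ∘ₗ (T.v1 ^ n), ?_⟩
  have key : ∀ i j m, T.v0 ((T.v1 ^ i) ((T.u1 ^ j) (T.u0 m))) = if i = j then m else 0 := by
    intro i
    induction i with
    | zero =>
      intro j m
      cases j with
      | zero => simp [T.h00]
      | succ j => simp [pow_succ', T.h01]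
    | succ i ih =>
      intro j m
      cases j with
      | zero => simp [pow_succ, T.h10]
      | succ j =>
        have := ih j m
        simp only [pow_succ, pow_succ' T.u1, Module.End.mul_apply, T.h11]
        rw [this]
        simp
  exact key

/-- one retraction from many -/
theorem one_retr (T : MTwo (B := B) M) {n : ℕ} (s : Fin n → (N →ₗ[B] M)) (f : Fin n → (M →ₗ[B] N))
    (h : ∀ x, ∑ j, f j (s j x) = x) : ∃ (j : N →ₗ[B] M) (r : M →ₗ[B] N), ∀ x, r (j x) = x := by
  obtain ⟨σ, τ, hst⟩ := T.many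
  refine ⟨∑ j : Fin n, (σ j) ∘ₗ (s j), ∑ i : Fin n, (f i) ∘ₗ (τ i), fun x => ?_⟩
  rw [LinearMap.sum_apply]
  have : ∀ i : Fin n, (f i ∘ₗ τ i) ((∑ j : Fin n, σ j ∘ₗ s j) x) = f i (s i x) := by
    intro i
    rw [LinearMap.sum_apply, LinearMap.comp_apply, map_sum]
    congr 1
    rw [Finset.sum_eq_single i]
    · rw [LinearMap.comp_apply, hst]
      simp
    · intro j _ hj
      rw [LinearMap.comp_apply, hst, if_neg]
      intro hij
      exact hj (Fin.ext hij).symm
    · simp
  rw [Finset.sum_congr rfl fun i _ => this i, h]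

end modules

section morita

open scoped ModuleCat.Algebra

variable {k : Type u} [Field k] {A B : Type u} [Ring A] [Algebra k A] [Ring B] [Algebra k B]

/-- the regular module -/
abbrev reg (A : Type u) [Ring A] : ModuleCat.{u} A := ModuleCat.of A A

/-- right multiplication -/
noncomputable def rm (a : A) : reg A ⟶ reg A := ModuleCat.ofHom (LinearMap.toSpanSingleton A A a)

theorem rm_apply (a x : A) : (rm a).hom x = x * a := rfl

theorem hom_reg {M : ModuleCat.{u} A} (f g : reg A ⟶ M) (h : f.hom (1 : A) = g.hom (1 : A)) :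
    f = g := by
  apply ModuleCat.hom_ext
  exact LinearMap.ext_ring h

/-- the regular module is generated by the image of the regular module -/
theorem gen (e : MoritaEquivalence k A B) :
    ∃ (n : ℕ) (s : Fin n → (reg B ⟶ e.eqv.functor.obj (reg A)))
      (f : Fin n → (e.eqv.functor.obj (reg A) ⟶ reg B)), ∀ x : B, ∑ j, (f j).hom ((s j).hom x) = x := by
  set P := e.eqv.functor.obj (reg A) with hP
  set T : Submodule B B := Submodule.span B {b | ∃ (f : P ⟶ reg B) (p : P), f.hom p = b} with hT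
  have hT1 : T = ⊤ := by
    let π : reg B ⟶ ModuleCat.of B (B ⧸ T) := ModuleCat.ofHom T.mkQ
    have h0 : ∀ f : P ⟶ reg B, f ≫ π = 0 := by
      intro f
      apply ModuleCat.hom_ext
      ext p
      show T.mkQ (f.hom p) = 0
      rw [Submodule.mkQ_apply, Submodule.Quotient.mk_eq_zero]
      exact Submodule.subset_span ⟨f, p, rfl⟩
    have h1 : e.eqv.inverse.map π = 0 := by
      apply ModuleCat.hom_ext
      ext q
      let g : reg A ⟶ e.eqv.inverse.obj (reg B) :=
        ModuleCat.ofHom (LinearMap.toSpanSingleton A _ q)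
      obtain ⟨f, hf⟩ := e.eqv.inverse.map_surjective (e.eqv.unitInv.app (reg A) ≫ g)
      have h2 : e.eqv.unitInv.app (reg A) ≫ g ≫ e.eqv.inverse.map π = 0 := by
        rw [← Category.assoc, ← hf, ← Functor.map_comp, h0 f, Functor.map_zero]
      have h3 : g ≫ e.eqv.inverse.map π = 0 := by
        rw [← cancel_epi (e.eqv.unitInv.app (reg A)), h2, Limits.comp_zero]
      have h4 : (g ≫ e.eqv.inverse.map π).hom (1 : A) = 0 := by rw [h3]; rfl
      have h5 : (g ≫ e.eqv.inverse.map π).hom (1 : A) = (e.eqv.inverse.map π).hom q := by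
        rw [ModuleCat.hom_comp, LinearMap.comp_apply]
        congr 1
        show (LinearMap.toSpanSingleton A _ q) (1 : A) = q
        rw [LinearMap.toSpanSingleton_apply, one_smul]
      rw [← h5, h4]
      rfl
    have h6 : π = 0 := e.eqv.inverse.map_injective (by rw [h1, Functor.map_zero])
    rw [eq_top_iff]
    intro x _
    have h7 : π.hom x = 0 := by rw [h6]; rfl
    have h8 : T.mkQ x = 0 := h7
    rwa [Submodule.mkQ_apply, Submodule.Quotient.mk_eq_zero] at h8
  have h1 : (1 : B) ∈ T := by rw [hT1]; trivial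
  rw [hT, Submodule.mem_span_set'] at h1
  obtain ⟨n, c, g, hg⟩ := h1
  choose f p hp using fun i => (g i).2
  refine ⟨n, fun i => ModuleCat.ofHom (LinearMap.toSpanSingleton B P (c i • p i)), f, fun x => ?_⟩
  have h2 : ∀ i, (f i).hom ((ModuleCat.ofHom (LinearMap.toSpanSingleton B P (c i • p i))).hom x)
      = x • (c i • (g i : B)) := by
    intro i
    rw [ModuleCat.hom_ofHom, LinearMap.toSpanSingleton_apply, map_smul, map_smul, hp]
  rw [Finset.sum_congr rfl fun i _ => h2 i, ← Finset.smul_sum, hg, smul_eq_mul, mul_one]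

/-- isometries of the image of the regular module -/
noncomputable def imTwo (e : MoritaEquivalence k A B) (t : Two A) :
    MTwo (B := B) (e.eqv.functor.obj (reg A)) where
  u0 := (e.eqv.functor.map (rm t.y0)).hom
  u1 := (e.eqv.functor.map (rm t.y1)).hom
  v0 := (e.eqv.functor.map (rm t.x0)).hom
  v1 := (e.eqv.functor.map (rm t.x1)).hom
  h00 m := by
    have : rm t.y0 ≫ rm t.x0 = 𝟙 (reg A) := hom_reg _ _ (by
      show ((1 : A) * t.y0) * t.x0 = 1
      rw [one_mul, t.h00])
    have h := congrArg (fun f => f.hom m) (congrArg e.eqv.functor.map this)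
    simpa using h
  h01 m := by
    have : rm t.y1 ≫ rm t.x0 = 0 := hom_reg _ _ (by
      show ((1 : A) * t.y1) * t.x0 = 0
      rw [one_mul, t.h10])
    have h := congrArg (fun f => f.hom m) (congrArg e.eqv.functor.map this)
    simpa using h
  h10 m := by
    have : rm t.y0 ≫ rm t.x1 = 0 := hom_reg _ _ (by
      show ((1 : A) * t.y0) * t.x1 = 0
      rw [one_mul, t.h01])
    have h := congrArg (fun f => f.hom m) (congrArg e.eqv.functor.map this)
    simpa using h
  h11 m := by
    have : rm t.y1 ≫ rm t.x1 = 𝟙 (reg A) := hom_reg _ _ (by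
      show ((1 : A) * t.y1) * t.x1 = 1
      rw [one_mul, t.h11])
    have h := congrArg (fun f => f.hom m) (congrArg e.eqv.functor.map this)
    simpa using h
  h m := by
    have : rm t.x0 ≫ rm t.y0 + rm t.x1 ≫ rm t.y1 = 𝟙 (reg A) := hom_reg _ _ (by
      show ((1 : A) * t.x0) * t.y0 + ((1 : A) * t.x1) * t.y1 = 1
      rw [one_mul, one_mul, t.h])
    have h := congrArg (fun f => f.hom m) (congrArg e.eqv.functor.map this)
    simpa [Functor.map_add] using h

/-- isometries of the regular module -/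
noncomputable def regTwo (t : Two A) : MTwo (B := A) A where
  u0 := LinearMap.toSpanSingleton A A t.y0
  u1 := LinearMap.toSpanSingleton A A t.y1
  v0 := LinearMap.toSpanSingleton A A t.x0
  v1 := LinearMap.toSpanSingleton A A t.x1
  h00 m := by
    show (m * t.y0) * t.x0 = m
    rw [mul_assoc, t.h00, mul_one]
  h01 m := by
    show (m * t.y1) * t.x0 = 0
    rw [mul_assoc, t.h10, mul_zero]
  h10 m := by
    show (m * t.y0) * t.x1 = 0
    rw [mul_assoc, t.h01, mul_zero]
  h11 m := by
    show (m * t.y1) * t.x1 = m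
    rw [mul_assoc, t.h11, mul_one]
  h m := by
    show (m * t.x0) * t.y0 + (m * t.x1) * t.y1 = m
    rw [mul_assoc, mul_assoc, ← mul_add, t.h, mul_one]

/-- the image of the regular module is the regular module -/
theorem im_reg (e : MoritaEquivalence k A B) (tA : Two A) (tB : Two B) :
    Nonempty (e.eqv.functor.obj (reg A) ≃ₗ[B] B) := by
  -- `B` is a retract of `P`
  obtain ⟨n, s, f, h⟩ := gen e
  obtain ⟨j, r, hj⟩ := one_retr (N := B) (imTwo e tA) (fun i => (s i).hom) (fun i => (f i).hom) h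
  -- `P` is a retract of `B`
  obtain ⟨m, s', f', h'⟩ : ∃ (m : ℕ) (s' : Fin m → (reg A ⟶ e.eqv.inverse.obj (reg B)))
      (f' : Fin m → (e.eqv.inverse.obj (reg B) ⟶ reg A)),
      ∀ x : A, ∑ j, (f' j).hom ((s' j).hom x) = x := gen e.symm
  have hS : ∑ i, s' i ≫ f' i = 𝟙 (reg A) := hom_reg _ _ (by
    rw [ModuleCat.hom_sum, LinearMap.sum_apply]
    exact h' 1)
  have hS2 : ∑ i, (e.eqv.functor.map (s' i) ≫ e.eqv.counit.app (reg B)) ≫
      (e.eqv.counitInv.app (reg B) ≫ e.eqv.functor.map (f' i)) = 𝟙 (e.eqv.functor.obj (reg A)) := by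
    rw [← e.eqv.functor.map_id, ← hS, Functor.map_sum]
    refine Finset.sum_congr rfl fun i _ => ?_
    simp
  have hQ : ∀ p : e.eqv.functor.obj (reg A), ∑ i,
      (e.eqv.counitInv.app (reg B) ≫ e.eqv.functor.map (f' i)).hom
        ((e.eqv.functor.map (s' i) ≫ e.eqv.counit.app (reg B)).hom p) = p := by
    intro p
    have h := congrArg (fun f => f.hom p) hS2
    simpa only [ModuleCat.hom_sum, LinearMap.sum_apply, ModuleCat.hom_comp, LinearMap.comp_apply,
      ModuleCat.hom_id, LinearMap.id_apply] using h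
  obtain ⟨i, q, hi⟩ := one_retr (M := B) (N := e.eqv.functor.obj (reg A)) (regTwo tB)
    (fun i => (e.eqv.functor.map (s' i) ≫ e.eqv.counit.app (reg B)).hom)
    (fun i => (e.eqv.counitInv.app (reg B) ≫ e.eqv.functor.map (f' i)).hom) hQ
  exact absorb (imTwo e tA) (regTwo tB) i q hi j r hj

/-- multiplication by a scalar, as an endomorphism of a module -/
noncomputable def sc {C : Type u} [Ring C] [Algebra k C] (M : ModuleCat.{u} C) (c : k) : M ⟶ M :=
  c • 𝟙 M

theorem sc_apply {C : Type u} [Ring C] [Algebra k C] (M : ModuleCat.{u} C) (c : k) (m : M) :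
    (sc M c).hom m = algebraMap k C c • m := rfl

theorem sc_map (e : MoritaEquivalence k A B) (M : ModuleCat.{u} A) (c : k) :
    e.eqv.functor.map (sc M c) = sc (e.eqv.functor.obj M) c := by
  have h := e.linear.map_smul (𝟙 M) c
  rw [e.eqv.functor.map_id] at h
  exact h

theorem sc_comp {C : Type u} [Ring C] [Algebra k C] {M N : ModuleCat.{u} C} (c : k) (f : M ⟶ N) :
    sc M c ≫ f = f ≫ sc N c := by
  ext m
  show f.hom (algebraMap k C c • m) = algebraMap k C c • f.hom m
  rw [map_smul]

/-- the isomorphism of the algebras -/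
theorem iso_of (e : MoritaEquivalence k A B) (θ : e.eqv.functor.obj (reg A) ≃ₗ[B] B) :
    Nonempty (A ≃ₐ[k] B) := by
  let th : e.eqv.functor.obj (reg A) ≅ reg B := LinearEquiv.toModuleIso θ
  let φ : A → B := fun a => (th.inv ≫ e.eqv.functor.map (rm a) ≫ th.hom).hom (1 : B)
  have hφ : ∀ a, th.inv ≫ e.eqv.functor.map (rm a) ≫ th.hom = rm (φ a) := fun a =>
    hom_reg _ _ (by
      show φ a = (1 : B) * φ a
      rw [one_mul])
  have rinj : ∀ {C : Type u} [Ring C] (a b : C), rm a = rm b → a = b := by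
    intro C _ a b h
    have := congrArg (fun f => f.hom (1 : C)) h
    have h1 : (rm a).hom (1 : C) = a := by rw [rm_apply, one_mul]
    have h2 : (rm b).hom (1 : C) = b := by rw [rm_apply, one_mul]
    rw [← h1, ← h2, h]
  have rmul : ∀ {C : Type u} [Ring C] (a b : C), rm (a * b) = rm a ≫ rm b := by
    intro C _ a b
    refine hom_reg _ _ ?_
    show (1 : C) * (a * b) = (1 * a) * b
    rw [mul_assoc]
  have radd : ∀ {C : Type u} [Ring C] (a b : C), rm (a + b) = rm a + rm b := by
    intro C _ a b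
    refine hom_reg _ _ ?_
    show (1 : C) * (a + b) = 1 * a + 1 * b
    rw [mul_add]
  have ralg : ∀ {C : Type u} [Ring C] [Algebra k C] (c : k),
      rm (algebraMap k C c) = sc (reg C) c := by
    intro C _ _ c
    refine hom_reg _ _ ?_
    show (1 : C) * algebraMap k C c = algebraMap k C c * 1
    rw [one_mul, mul_one]
  have φmul : ∀ a b, φ (a * b) = φ a * φ b := by
    intro a b
    apply rinj
    rw [← hφ, rmul, rmul, ← hφ, ← hφ]
    simp
  have φone : φ 1 = 1 := by
    show (th.inv ≫ e.eqv.functor.map (rm 1) ≫ th.hom).hom (1 : B) = 1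
    have : rm (1 : A) = 𝟙 (reg A) := hom_reg _ _ (by
      show (1 : A) * 1 = 1
      rw [one_mul])
    rw [this]
    simp
  have φadd : ∀ a b, φ (a + b) = φ a + φ b := by
    intro a b
    apply rinj
    rw [← hφ, radd, radd, ← hφ, ← hφ, Functor.map_add, Preadditive.add_comp, Preadditive.comp_add]
  have φalg : ∀ c : k, φ (algebraMap k A c) = algebraMap k B c := by
    intro c
    apply rinj
    rw [← hφ, ralg, ralg, sc_map, sc_comp, Iso.inv_hom_id_assoc]
  have φinj : Function.Injective φ := by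
    intro a b h
    apply rinj
    apply e.eqv.functor.map_injective
    have h1 := hφ a
    rw [h, ← hφ b] at h1
    rw [cancel_epi, cancel_mono] at h1
    exact h1
  have φsurj : Function.Surjective φ := by
    intro b
    obtain ⟨g, hg⟩ := e.eqv.functor.map_surjective (th.hom ≫ rm b ≫ th.inv)
    refine ⟨g.hom (1 : A), rinj _ _ ?_⟩
    have : rm (g.hom (1 : A)) = g := hom_reg _ _ (by
      show (1 : A) * g.hom (1 : A) = _
      rw [one_mul])
    rw [← hφ, this, hg]
    simp
  exact ⟨AlgEquiv.ofBijective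
    { toFun := φ, map_one' := φone, map_mul' := φmul, map_zero' := by
        have := φadd 0 0
        simpa using this, map_add' := φadd, commutes' := φalg } ⟨φinj, φsurj⟩⟩

end morita

section graphs

variable (k : Type u) [Field k]

/-- the relation `1 = 2` in the algebra of the rose -/
noncomputable def two2 : Two (LPA k G2) where
  x0 := ed 0
  x1 := ed 1
  y0 := gh 0
  y1 := gh 1
  h00 := by
    have h1 := gh_ed (k := k) (G := G2) (Reg := G2.IsReg) 0
    have h2 := one_rel (k := k) (G := G2) (Reg := G2.IsReg)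
    rw [h1, ← h2]
    exact (Fin.sum_univ_one _).symm
  h01 := gh_ed_ne (by decide)
  h10 := gh_ed_ne (by decide)
  h11 := by
    have h1 := gh_ed (k := k) (G := G2) (Reg := G2.IsReg) 1
    have h2 := one_rel (k := k) (G := G2) (Reg := G2.IsReg)
    rw [h1, ← h2]
    exact (Fin.sum_univ_one _).symm
  h := by
    have h1 := ck_rel (k := k) (G := G2) (Reg := G2.IsReg) (a := 0) ⟨0, rfl⟩ Finset.univ
      (fun e => by simp [G2])
    have h2 := one_rel (k := k) (G := G2) (Reg := G2.IsReg)
    rw [Fin.sum_univ_two] at h1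
    rw [h1, ← h2]
    simp

/-- the relation `1 = 2` in the algebra of the splice -/
noncomputable def two3 : Two (LPA k G3) where
  x0 := vt 0 + ed 4 + ed 5
  x1 := ed 3 + ed 6 + ed 7
  y0 := vt 0 + gh 4 + gh 5
  y1 := gh 3 + gh 6 + gh 7
  h00 := by
    have h2 := one_rel (k := k) (G := G3) (Reg := G3.IsReg)
    rw [Fin.sum_univ_three] at h2
    have a1 : (gh 4 * ed 4 : LPA k G3) = vt 1 := gh_ed 4
    have a2 : (gh 5 * ed 5 : LPA k G3) = vt 2 := gh_ed 5
    simp only [add_mul, mul_add, vt_idem, a1, a2,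
      gh_ed_ne (k := k) (G := G3) (Reg := G3.IsReg) (e := 4) (f := 5) (by decide),
      gh_ed_ne (k := k) (G := G3) (Reg := G3.IsReg) (e := 5) (f := 4) (by decide),
      vt_ed (k := k) (G := G3) (Reg := G3.IsReg) (a := 0) (e := 4) (by decide),
      vt_ed (k := k) (G := G3) (Reg := G3.IsReg) (a := 0) (e := 5) (by decide),
      gh_vt (k := k) (G := G3) (Reg := G3.IsReg) (a := 0) (e := 4) (by decide),
      gh_vt (k := k) (G := G3) (Reg := G3.IsReg) (a := 0) (e := 5) (by decide)]
    rw [← h2]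
    abel
  h01 := by
    simp only [add_mul, mul_add,
      gh_ed_ne (k := k) (G := G3) (Reg := G3.IsReg) (e := 4) (f := 3) (by decide),
      gh_ed_ne (k := k) (G := G3) (Reg := G3.IsReg) (e := 4) (f := 6) (by decide),
      gh_ed_ne (k := k) (G := G3) (Reg := G3.IsReg) (e := 4) (f := 7) (by decide),
      gh_ed_ne (k := k) (G := G3) (Reg := G3.IsReg) (e := 5) (f := 3) (by decide),
      gh_ed_ne (k := k) (G := G3) (Reg := G3.IsReg) (e := 5) (f := 6) (by decide),
      gh_ed_ne (k := k) (G := G3) (Reg := G3.IsReg) (e := 5) (f := 7) (by decide),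
      vt_ed (k := k) (G := G3) (Reg := G3.IsReg) (a := 0) (e := 3) (by decide),
      vt_ed (k := k) (G := G3) (Reg := G3.IsReg) (a := 0) (e := 6) (by decide),
      vt_ed (k := k) (G := G3) (Reg := G3.IsReg) (a := 0) (e := 7) (by decide), add_zero]
  h10 := by
    simp only [add_mul, mul_add,
      gh_ed_ne (k := k) (G := G3) (Reg := G3.IsReg) (e := 3) (f := 4) (by decide),
      gh_ed_ne (k := k) (G := G3) (Reg := G3.IsReg) (e := 3) (f := 5) (by decide),
      gh_ed_ne (k := k) (G := G3) (Reg := G3.IsReg) (e := 6) (f := 4) (by decide),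
      gh_ed_ne (k := k) (G := G3) (Reg := G3.IsReg) (e := 6) (f := 5) (by decide),
      gh_ed_ne (k := k) (G := G3) (Reg := G3.IsReg) (e := 7) (f := 4) (by decide),
      gh_ed_ne (k := k) (G := G3) (Reg := G3.IsReg) (e := 7) (f := 5) (by decide),
      gh_vt (k := k) (G := G3) (Reg := G3.IsReg) (a := 0) (e := 3) (by decide),
      gh_vt (k := k) (G := G3) (Reg := G3.IsReg) (a := 0) (e := 6) (by decide),
      gh_vt (k := k) (G := G3) (Reg := G3.IsReg) (a := 0) (e := 7) (by decide), add_zero]
  h11 := by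
    have h2 := one_rel (k := k) (G := G3) (Reg := G3.IsReg)
    rw [Fin.sum_univ_three] at h2
    have a1 : (gh 3 * ed 3 : LPA k G3) = vt 0 := gh_ed 3
    have a2 : (gh 6 * ed 6 : LPA k G3) = vt 1 := gh_ed 6
    have a3 : (gh 7 * ed 7 : LPA k G3) = vt 2 := gh_ed 7
    simp only [add_mul, mul_add, a1, a2, a3,
      gh_ed_ne (k := k) (G := G3) (Reg := G3.IsReg) (e := 3) (f := 6) (by decide),
      gh_ed_ne (k := k) (G := G3) (Reg := G3.IsReg) (e := 3) (f := 7) (by decide),
      gh_ed_ne (k := k) (G := G3) (Reg := G3.IsReg) (e := 6) (f := 3) (by decide),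
      gh_ed_ne (k := k) (G := G3) (Reg := G3.IsReg) (e := 6) (f := 7) (by decide),
      gh_ed_ne (k := k) (G := G3) (Reg := G3.IsReg) (e := 7) (f := 3) (by decide),
      gh_ed_ne (k := k) (G := G3) (Reg := G3.IsReg) (e := 7) (f := 6) (by decide)]
    rw [← h2]
    abel
  h := by
    have h2 := one_rel (k := k) (G := G3) (Reg := G3.IsReg)
    rw [Fin.sum_univ_three] at h2
    have c1 := ck_rel (k := k) (G := G3) (Reg := G3.IsReg) (a := 1) ⟨3, rfl⟩ {3, 4, 5}
      (by decide)
    have c2 := ck_rel (k := k) (G := G3) (Reg := G3.IsReg) (a := 2) ⟨6, rfl⟩ {6, 7}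
      (by decide)
    rw [Finset.sum_insert (by decide), Finset.sum_insert (by decide), Finset.sum_singleton] at c1
    rw [Finset.sum_insert (by decide), Finset.sum_singleton] at c2
    simp only [add_mul, mul_add, vt_idem,
      vt_gh (k := k) (G := G3) (Reg := G3.IsReg) (a := 0) (e := 4) (by decide),
      vt_gh (k := k) (G := G3) (Reg := G3.IsReg) (a := 0) (e := 5) (by decide),
      ed_vt (k := k) (G := G3) (Reg := G3.IsReg) (a := 0) (e := 4) (by decide),
      ed_vt (k := k) (G := G3) (Reg := G3.IsReg) (a := 0) (e := 5) (by decide),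
      ed_gh (k := k) (G := G3) (Reg := G3.IsReg) (e := 4) (f := 5) (by decide),
      ed_gh (k := k) (G := G3) (Reg := G3.IsReg) (e := 5) (f := 4) (by decide),
      ed_gh (k := k) (G := G3) (Reg := G3.IsReg) (e := 3) (f := 6) (by decide),
      ed_gh (k := k) (G := G3) (Reg := G3.IsReg) (e := 3) (f := 7) (by decide),
      ed_gh (k := k) (G := G3) (Reg := G3.IsReg) (e := 6) (f := 3) (by decide),
      ed_gh (k := k) (G := G3) (Reg := G3.IsReg) (e := 6) (f := 7) (by decide),
      ed_gh (k := k) (G := G3) (Reg := G3.IsReg) (e := 7) (f := 3) (by decide),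
      ed_gh (k := k) (G := G3) (Reg := G3.IsReg) (e := 7) (f := 6) (by decide)]
    rw [← h2, ← c1, ← c2]
    abel

end graphs

end H_Conv

open H_Conv in
/-- Job LPA-CONV. -/
theorem p_conv : T_conv.{u} := by
  intro k _ h
  obtain ⟨e⟩ := h.cond
  obtain ⟨θ⟩ := im_reg e (two2 k) (two3 k)
  exact iso_of e θ

end CKS
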