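import Pool.Agent.CKS.Targets

/-!
# FAITH: a representation of a relative Cohn algebra with a vacuum vector is faithful
-/

set_option linter.unusedSectionVars false

universe u

namespace CKS

namespace H_Faith

variable {k : Type u} [Field k] {V E : Type} [Fintype V] [DecidableEq V] [Fintype E]
  [DecidableEq E] {G : Graph V E} {v0 : V}

/-- the relative Cohn algebra -/
abbrev CC (k : Type u) [Field k] {V E : Type} (G : Graph V E) (v0 : V) : Type u :=
  CL k G (fun v => v ≠ v0)

variable (k G v0) in
/-- the defect -/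
noncomputable abbrev dd : CC k G v0 := dfc k G (fun v => v ≠ v0) v0

variable (k G v0) in
/-- the Fock representation -/
noncomputable abbrev fr : CC k G v0 →ₐ[k] Module.End k (Pth G v0 →₀ k) := (fockBr G v0).rep k

theorem gh_dd (e : E) : gh e * dd k G v0 = 0 := by
  classical
  rw [dd, dfc, mul_sub]
  by_cases h : G.s e = v0
  · rw [Finset.mul_sum, Finset.sum_eq_single e]
    · rw [← mul_assoc, gh_ed, r_gh, ← h, gh_s, sub_self]
    · intro f _ hf
      rw [← mul_assoc, gh_ed_ne (Ne.symm hf), zero_mul]
    · intro h'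
      exact absurd (by simp [h]) h'
  · rw [gh_vt h, zero_sub, neg_eq_zero, Finset.mul_sum]
    refine Finset.sum_eq_zero fun f hf => ?_
    have : e ≠ f := by
      rintro rfl
      exact h (Finset.mem_filter.1 hf).2
    rw [← mul_assoc, gh_ed_ne this, zero_mul]

theorem vt_dd : vt v0 * dd k G v0 = dd k G v0 := by
  classical
  rw [dd, dfc, mul_sub, vt_idem, Finset.mul_sum]
  congr 1
  refine Finset.sum_congr rfl fun f hf => ?_
  rw [← mul_assoc]
  have : G.s f = v0 := (Finset.mem_filter.1 hf).2
  rw [← this, s_ed]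

theorem vt_dd_ne {a : V} (h : a ≠ v0) : vt a * dd k G v0 = 0 := by
  rw [← vt_dd, ← mul_assoc, vt_orth h, zero_mul]

variable (k G v0) in
/-- the vector of a path -/
noncomputable def zz (l : List E) : CC k G v0 := xw l * dd k G v0

theorem vt_zz (l : List E) : vt (lst G v0 l) * zz k G v0 l = zz k G v0 l := by
  rcases l with _ | ⟨e, l⟩
  · simp only [zz, xw_nil, one_mul, lst]
    exact vt_dd
  · simp only [zz, xw_cons, lst]
    rw [← mul_assoc, ← mul_assoc, s_ed]

theorem vt_zz_ne {a : V} {l : List E} (h : a ≠ lst G v0 l) : vt a * zz k G v0 l = 0 := by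
  rw [← vt_zz, ← mul_assoc, vt_orth h, zero_mul]

theorem ed_zz (e : E) (l : List E) : ed e * zz k G v0 l = zz k G v0 (e :: l) := by
  simp [zz, xw_cons, mul_assoc]

theorem ed_zz_ne {e : E} {l : List E} (h : G.r e ≠ lst G v0 l) :
    ed e * zz k G v0 l = 0 := by
  rw [← vt_zz, ← mul_assoc, ed_vt h, zero_mul]

theorem zz_invalid {l : List E} (h : ¬ lok G v0 l) : zz k G v0 l = 0 := by
  induction l with
  | nil => exact absurd trivial h
  | cons e l ih =>
    rw [← ed_zz]
    by_cases hr : G.r e = lst G v0 l
    · have : ¬ lok G v0 l := fun h' => h ⟨hr, h'⟩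
      rw [ih this, mul_zero]
    · exact ed_zz_ne hr

theorem gh_zz_nil (e : E) : gh e * zz k G v0 [] = 0 := by
  simp only [zz, xw_nil, one_mul]
  exact gh_dd e

theorem gh_zz_cons {e : E} {l : List E} (h : G.r e = lst G v0 l) :
    gh e * zz k G v0 (e :: l) = zz k G v0 l := by
  rw [← ed_zz, ← mul_assoc, gh_ed, h, vt_zz]

theorem gh_zz_ne {e f : E} (l : List E) (h : e ≠ f) :
    gh e * zz k G v0 (f :: l) = 0 := by
  rw [← ed_zz, ← mul_assoc, gh_ed_ne h, zero_mul]

variable (k G v0) in
/-- the intertwiner from the Fock space to the algebra -/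
noncomputable def th : (Pth G v0 →₀ k) →ₗ[k] CC k G v0 :=
  Finsupp.linearCombination k (fun i => zz k G v0 i.1)

theorem th_single (i : Pth G v0) (c : k) : th k G v0 (Finsupp.single i c) = c • zz k G v0 i.1 := by
  simp [th]

theorem th_int (a : CC k G v0) (u : Pth G v0 →₀ k) :
    a * th k G v0 u = th k G v0 (fr k G v0 a u) := by
  let S : Subalgebra k (CC k G v0) :=
    { carrier := {a | ∀ u, a * th k G v0 u = th k G v0 (fr k G v0 a u)}
      mul_mem' := by
        intro a b ha hb u
        rw [mul_assoc, hb, ha, map_mul, Module.End.mul_apply]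
      add_mem' := by
        intro a b ha hb u
        rw [add_mul, ha, hb, map_add, LinearMap.add_apply, map_add]
      algebraMap_mem' := by
        intro c u
        rw [AlgHom.commutes, Module.algebraMap_end_apply, map_smul, Algebra.smul_def] }
  refine mem_of_gen k G _ S (fun a => ?_) (fun e => ?_) (fun e => ?_) a u
  · intro u
    induction u using Finsupp.induction_linear with
    | zero => simp
    | add u v hu hv => rw [map_add, mul_add, hu, hv, map_add, map_add]
    | single i c =>
      rw [th_single, mul_smul_comm, fr, Br.rep_vt]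
      by_cases h : lst G v0 i.1 = a
      · rw [pf_single_some (j := i) (by simp [Br.pv, fockBr, h]), th_single, ← h, vt_zz]
      · rw [pf_single_none (by simp [Br.pv, fockBr, h]), map_zero, vt_zz_ne (Ne.symm h), smul_zero]
  · intro u
    induction u using Finsupp.induction_linear with
    | zero => simp
    | add u v hu hv => rw [map_add, mul_add, hu, hv, map_add, map_add]
    | single i c =>
      rw [th_single, mul_smul_comm, fr, Br.rep_ed]
      by_cases h : G.r e = lst G v0 i.1
      · have : (fockBr G v0).c e i = some ⟨e :: i.1, h, i.2⟩ := (pcons_eq_some G v0).2 rfl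
        rw [pf_single_some this, th_single, ed_zz]
      · have : (fockBr G v0).c e i = none := by
          simp [fockBr, pcons, h]
        rw [pf_single_none this, map_zero, ed_zz_ne h, smul_zero]
  · intro u
    induction u using Finsupp.induction_linear with
    | zero => simp
    | add u v hu hv => rw [map_add, mul_add, hu, hv, map_add, map_add]
    | single i c =>
      rw [th_single, mul_smul_comm, fr, Br.rep_gh]
      rcases i with ⟨_ | ⟨f, l⟩, hi⟩
      · have : (fockBr G v0).t e ⟨[], hi⟩ = none := by
          simp [fockBr, ptail]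
        rw [pf_single_none this, map_zero, gh_zz_nil, smul_zero]
      · by_cases hf : f = e
        · subst hf
          have : (fockBr G v0).t f ⟨f :: l, hi⟩ = some ⟨l, hi.2⟩ := by
            simp [fockBr, ptail]
          rw [pf_single_some this, th_single, gh_zz_cons hi.1]
        · have : (fockBr G v0).t e ⟨f :: l, hi⟩ = none := by
            simp [fockBr, ptail, hf]
          rw [pf_single_none this, map_zero, gh_zz_ne l (Ne.symm hf), smul_zero]

/-- the vacuum -/
noncomputable def vac : Pth G v0 →₀ k := Finsupp.single ⟨[], trivial⟩ 1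

theorem yw_single (l0 : List E) (h0 : lok G v0 l0) (l : List E) (h : lok G v0 l)
    (hl : l.length ≤ l0.length) (c : k) :
    fr k G v0 (yw l0) (Finsupp.single ⟨l, h⟩ c) = if l = l0 then c • vac else 0 := by
  induction l0 generalizing l with
  | nil =>
    have : l = [] := List.length_eq_zero_iff.1 (Nat.le_zero.1 hl)
    subst this
    simp [vac]
  | cons e l0 ih =>
    rw [yw_cons, map_mul, Module.End.mul_apply]
    have e0 : fr k G v0 (gh e) = pf ((fockBr G v0).t e) := Br.rep_gh _ e
    rw [e0]
    rcases l with _ | ⟨f, l⟩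
    · have : (fockBr G v0).t e ⟨[], h⟩ = none := by
        simp [fockBr, ptail]
      rw [pf_single_none this, map_zero, if_neg (by simp)]
    · by_cases hf : f = e
      · subst hf
        have : (fockBr G v0).t f ⟨f :: l, h⟩ = some ⟨l, h.2⟩ := by
          simp [fockBr, ptail]
        rw [pf_single_some this, ih h0.2 l h.2 (by simpa using hl)]
        simp
      · have : (fockBr G v0).t e ⟨f :: l, h⟩ = none := by
          simp [fockBr, ptail, hf]
        rw [pf_single_none this, map_zero, if_neg (by simp [hf])]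

theorem yw_top (u : Pth G v0 →₀ k) (hu : u ≠ 0) :
    ∃ l0 c, c ≠ 0 ∧ fr k G v0 (yw l0) u = (c : k) • vac := by
  have hne : u.support.Nonempty := Finsupp.support_nonempty_iff.2 hu
  obtain ⟨i0, hi0, hmax⟩ := u.support.exists_max_image (fun i => i.1.length) hne
  refine ⟨i0.1, u i0, Finsupp.mem_support_iff.1 hi0, ?_⟩
  conv_lhs => rw [← Finsupp.sum_single u]
  rw [Finsupp.sum, map_sum, Finset.sum_eq_single i0]
  · rcases i0 with ⟨l, h⟩
    rw [yw_single l h l h le_rfl, if_pos rfl]
  · rintro ⟨l, h⟩ hi hne'
    rw [yw_single i0.1 i0.2 l h (hmax _ hi), if_neg]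
    intro h'
    exact hne' (Subtype.ext h')
  · intro h
    exact absurd hi0 h

/-- a representation with a vacuum vector is at least as faithful as the Fock representation -/
theorem fock_zero {M : Type u} [AddCommGroup M] [Module k M]
    (ρ : CC k G v0 →ₐ[k] Module.End k M) (Ω : M) (h0 : Ω ≠ 0)
    (h1 : ρ (vt v0) Ω = Ω) (h2 : ∀ e, ρ (gh e) Ω = 0) (a : CC k G v0) (ha : ρ a = 0) :
    fr k G v0 a = 0 := by
  have hd : ρ (dd k G v0) Ω = Ω := by
    rw [dd, dfc, map_sub, LinearMap.sub_apply, h1, map_sum, LinearMap.sum_apply,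
      Finset.sum_eq_zero, sub_zero]
    intro e _
    rw [map_mul, Module.End.mul_apply, h2, map_zero]
  refine LinearMap.ext fun u => ?_
  by_contra hne
  rw [LinearMap.zero_apply] at hne
  obtain ⟨l0, c, hc, h⟩ := yw_top _ hne
  have h3 : ρ (th k G v0 (fr k G v0 (yw l0) (fr k G v0 a u))) Ω = 0 := by
    rw [← th_int, ← th_int, map_mul, map_mul, ha]
    simp
  rw [h, map_smul, vac, th_single, one_smul, zz, xw_nil, one_mul, map_smul, LinearMap.smul_apply,
    hd] at h3
  rcases smul_eq_zero.1 h3 with h4 | h4
  · exact hc h4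
  · exact h0 h4

variable (k G v0) in
/-- the span of the paths -/
noncomputable def PP : Submodule k (CC k G v0) :=
  Submodule.span k (Set.range (fun p : List E × V => (xw p.1 * vt p.2 : CC k G v0)))

theorem PP1 (m : List E) (v : V) : (xw m * vt v : CC k G v0) ∈ PP k G v0 :=
  Submodule.subset_span ⟨(m, v), rfl⟩

theorem PP2 (m : List E) : (xw m : CC k G v0) ∈ PP k G v0 := by
  have : (xw m : CC k G v0) = ∑ v, xw m * vt v := by
    rw [← Finset.mul_sum, one_rel, mul_one]
  rw [this]
  exact Submodule.sum_mem _ fun v _ => PP1 m v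

theorem vt_xw (v : V) (e : E) (l : List E) :
    (vt v * xw (e :: l) : CC k G v0) = if v = G.s e then xw (e :: l) else 0 := by
  rw [xw_cons, ← mul_assoc]
  split_ifs with h
  · rw [h, s_ed]
  · rw [vt_ed h, zero_mul]

theorem PP3 {a : CC k G v0} {n : ℕ} (ha : ∀ l : List E, n ≤ l.length → a * xw l ∈ PP k G v0)
    {q : CC k G v0} (hq : q ∈ PP k G v0) {l : List E} (hl : n + 1 ≤ l.length) :
    a * (q * xw l) ∈ PP k G v0 := by
  induction hq using Submodule.span_induction with
  | mem x hx =>
    obtain ⟨⟨m, v⟩, rfl⟩ := hx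
    rcases l with _ | ⟨e, l⟩
    · simp at hl
    · simp only
      rw [mul_assoc, vt_xw]
      split_ifs with h
      · rw [← xw_append]
        refine ha _ ?_
        simp only [List.length_append, List.length_cons] at hl ⊢
        omega
      · simp
  | zero => simp
  | add x y _ _ hx hy => rw [add_mul, mul_add]; exact Submodule.add_mem _ hx hy
  | smul c x _ hx => rw [smul_mul_assoc, mul_smul_comm]; exact Submodule.smul_mem _ c hx

theorem PP4 (a : CC k G v0) : ∃ n : ℕ, ∀ l : List E, n ≤ l.length → a * xw l ∈ PP k G v0 := by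
  let S : Subalgebra k (CC k G v0) :=
    { carrier := {a | ∃ n : ℕ, ∀ l : List E, n ≤ l.length → a * xw l ∈ PP k G v0}
      mul_mem' := by
        rintro a b ⟨n, hn⟩ ⟨m, hm⟩
        refine ⟨n + 1 + m, fun l hl => ?_⟩
        have e0 : (xw l : CC k G v0) = xw (l.take m) * xw (l.drop m) := by
          rw [← xw_append, List.take_append_drop]
        rw [e0, mul_assoc, ← mul_assoc b]
        refine PP3 hn (hm _ ?_) ?_
        · rw [List.length_take]; omega
        · rw [List.length_drop]; omega
      add_mem' := by
        rintro a b ⟨n, hn⟩ ⟨m, hm⟩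
        refine ⟨max n m, fun l hl => ?_⟩
        rw [add_mul]
        exact Submodule.add_mem _ (hn l (le_trans (le_max_left _ _) hl))
          (hm l (le_trans (le_max_right _ _) hl))
      algebraMap_mem' := by
        intro c
        refine ⟨0, fun l _ => ?_⟩
        rw [← Algebra.smul_def]
        exact Submodule.smul_mem _ c (PP2 l) }
  refine mem_of_gen k G _ S (fun v => ?_) (fun e => ?_) (fun e => ?_) a
  · refine ⟨1, fun l hl => ?_⟩
    rcases l with _ | ⟨e, l⟩
    · simp at hl
    · rw [vt_xw]
      split_ifs with h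
      · exact PP2 _
      · exact Submodule.zero_mem _
  · refine ⟨0, fun l _ => ?_⟩
    rw [← xw_cons]
    exact PP2 _
  · refine ⟨2, fun l hl => ?_⟩
    rcases l with _ | ⟨f, _ | ⟨f', l⟩⟩
    · simp at hl
    · simp at hl
    · rw [xw_cons, ← mul_assoc]
      by_cases h : e = f
      · subst h
        rw [gh_ed, vt_xw]
        split_ifs with h
        · exact PP2 _
        · exact Submodule.zero_mem _
      · rw [gh_ed_ne h, zero_mul]
        exact Submodule.zero_mem _

/-- invalid paths give zero -/
theorem xw_invalid {v : V} {l : List E} (h : ¬ lok G v l) : (xw l * vt v : CC k G v0) = 0 := by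
  have key : ∀ l : List E, ¬ lok G v l → (xw l * vt v : CC k G v0) = 0 := by
    intro l
    induction l with
    | nil => intro h; exact absurd trivial h
    | cons e l ih =>
      intro h
      rw [xw_cons, mul_assoc]
      by_cases hr : G.r e = lst G v l
      · have : ¬ lok G v l := fun h' => h ⟨hr, h'⟩
        rw [ih this, mul_zero]
      · rcases l with _ | ⟨f, l⟩
        · rw [xw_nil, one_mul]
          exact ed_vt hr
        · rw [xw_cons, mul_assoc, ← mul_assoc, ed_ed hr, zero_mul]
  exact key l h

theorem lok_append {v : V} {t : List E} (ht : lok G v0 t) (hv : lst G v0 t = v) {m : List E}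
    (hm : lok G v m) : lok G v0 (m ++ t) ∧ lst G v0 (m ++ t) = lst G v m := by
  induction m with
  | nil => exact ⟨ht, hv⟩
  | cons e m ih =>
    obtain ⟨h1, h2⟩ := ih hm.2
    exact ⟨⟨hm.1.trans h2.symm, h1⟩, rfl⟩

theorem fr_xw {t : Pth G v0} {m : List E} (h : lok G v0 (m ++ t.1)) (c : k) :
    fr k G v0 (xw m) (Finsupp.single t c) = Finsupp.single ⟨m ++ t.1, h⟩ c := by
  induction m with
  | nil => simp
  | cons e m ih =>
    rw [xw_cons, map_mul, Module.End.mul_apply, ih h.2]
    have e0 : fr k G v0 (ed e) = pf ((fockBr G v0).c e) := Br.rep_ed _ e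
    have : (fockBr G v0).c e ⟨m ++ t.1, h.2⟩ = some ⟨e :: m ++ t.1, h⟩ :=
      (pcons_eq_some G v0).2 rfl
    rw [e0, pf_single_some this]

theorem fr_vt {t : Pth G v0} {v : V} (h : lst G v0 t.1 = v) (c : k) :
    fr k G v0 (vt v) (Finsupp.single t c) = Finsupp.single t c := by
  have e0 : fr k G v0 (vt v) = pf ((fockBr G v0).pv v) := Br.rep_vt _ v
  rw [e0, pf_single_some (j := t) (by simp [Br.pv, fockBr, h])]

/-- the elements of `PP * vt v` -/
theorem PP_vt {q : CC k G v0} (hq : q ∈ PP k G v0) (v : V) :
    ∃ u : Pth G v →₀ k, q * vt v = Finsupp.linearCombination k (fun i => (xw i.1 * vt v : CC k G v0)) u := by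
  induction hq using Submodule.span_induction with
  | mem x hx =>
    obtain ⟨⟨m, w⟩, rfl⟩ := hx
    by_cases hw : w = v
    · subst hw
      by_cases hm : lok G w m
      · refine ⟨Finsupp.single ⟨m, hm⟩ 1, ?_⟩
        rw [Finsupp.linearCombination_single, one_smul, mul_assoc, vt_idem]
      · refine ⟨0, ?_⟩
        simp only
        rw [mul_assoc, vt_idem, xw_invalid hm, map_zero]
    · refine ⟨0, ?_⟩
      simp only
      rw [mul_assoc, vt_orth hw, mul_zero, map_zero]
  | zero => exact ⟨0, by simp⟩
  | add x y _ _ hx hy =>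
    obtain ⟨u, hu⟩ := hx
    obtain ⟨w, hw⟩ := hy
    exact ⟨u + w, by rw [add_mul, hu, hw, map_add]⟩
  | smul c x _ hx =>
    obtain ⟨u, hu⟩ := hx
    exact ⟨c • u, by rw [smul_mul_assoc, hu, map_smul]⟩

theorem PP_zero (hG : ∀ v, v ≠ v0 → ∃ e, G.s e = v ∧ G.r e = v0) {q : CC k G v0}
    (hq : q ∈ PP k G v0) (h0 : fr k G v0 q = 0) : q = 0 := by
  classical
  have key : ∀ v, q * vt v = 0 := by
    intro v
    obtain ⟨t, ht⟩ : ∃ t : Pth G v0, lst G v0 t.1 = v := by
      by_cases h : v = v0
      · exact ⟨⟨[], trivial⟩, h.symm⟩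
      · obtain ⟨e, he, he'⟩ := hG v h
        exact ⟨⟨[e], he', trivial⟩, he⟩
    obtain ⟨u, hu⟩ := PP_vt hq v
    have h1 : fr k G v0 (q * vt v) (Finsupp.single t 1) = 0 := by
      rw [map_mul, h0, zero_mul, LinearMap.zero_apply]
    let f : Pth G v → Pth G v0 := fun i => ⟨i.1 ++ t.1, (lok_append t.2 ht i.2).1⟩
    have hf : Function.Injective f := by
      intro i j hij
      have := congrArg Subtype.val hij
      exact Subtype.ext (List.append_cancel_right this)
    have h2 : ∀ w : Pth G v →₀ k,
        fr k G v0 (Finsupp.linearCombination k (fun i : Pth G v => (xw i.1 * vt v : CC k G v0)) w)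
          (Finsupp.single t 1) = Finsupp.mapDomain f w := by
      intro w
      induction w using Finsupp.induction_linear with
      | zero => simp
      | add u v hu hv => rw [map_add, map_add, LinearMap.add_apply, hu, hv, Finsupp.mapDomain_add]
      | single i c =>
        rw [Finsupp.linearCombination_single, map_smul, LinearMap.smul_apply, map_mul,
          Module.End.mul_apply, fr_vt ht, fr_xw (lok_append t.2 ht i.2).1,
          Finsupp.mapDomain_single]
        simp [f]
    rw [hu, h2] at h1
    have h3 : u = 0 := by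
      refine Finsupp.mapDomain_injective hf ?_
      rw [h1, Finsupp.mapDomain_zero]
    rw [hu, h3, map_zero]
  have : q = ∑ v, q * vt v := by rw [← Finset.mul_sum, one_rel, mul_one]
  rw [this]
  exact Finset.sum_eq_zero fun v _ => key v

theorem one_eq : (1 : CC k G v0) = dd k G v0 + ∑ e, ed e * gh e := by
  classical
  have h1 : (∑ e, ed e * gh e : CC k G v0)
      = ∑ v, ∑ e ∈ Finset.univ.filter (fun e => G.s e = v), ed e * gh e :=
    (Finset.sum_fiberwise Finset.univ G.s _).symm
  have h2 : (1 : CC k G v0) = vt v0 + ∑ v ∈ Finset.univ.erase v0, vt v := by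
    rw [Finset.add_sum_erase _ _ (Finset.mem_univ v0), one_rel]
  have h3 : (∑ v, ∑ e ∈ Finset.univ.filter (fun e => G.s e = v), ed e * gh e : CC k G v0)
      = (∑ e ∈ Finset.univ.filter (fun e => G.s e = v0), ed e * gh e)
        + ∑ v ∈ Finset.univ.erase v0, vt v := by
    rw [← Finset.add_sum_erase _ _ (Finset.mem_univ v0)]
    congr 1
    refine Finset.sum_congr rfl fun v hv => ?_
    exact ck_rel (Reg := fun v => v ≠ v0) (Finset.ne_of_mem_erase hv)
      (Finset.univ.filter (fun e => G.s e = v)) (fun e => by simp)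
  rw [h1, h3, dd, dfc, h2]
  abel

end H_Faith

open H_Faith in
theorem p_faithful : T_faithful.{u} := by
  intro k _ V E _ _ _ _ G v0 hG M _ _ ρ Ω h0 h1 h2
  rw [injective_iff_map_eq_zero]
  intro a ha
  have hf : fr k G v0 a = 0 := fock_zero ρ Ω h0 h1 h2 a ha
  obtain ⟨n, hn⟩ := PP4 a
  have hbig : ∀ l : List E, n ≤ l.length → a * xw l = 0 := by
    intro l hl
    refine PP_zero hG (hn l hl) ?_
    rw [map_mul, hf, zero_mul]
  have hz : ∀ l : List E, a * zz k G v0 l = 0 := by
    intro l
    by_cases h : lok G v0 l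
    · have := th_int a (Finsupp.single ⟨l, h⟩ 1)
      rw [th_single, one_smul, hf, LinearMap.zero_apply, map_zero] at this
      exact this
    · rw [zz_invalid h, mul_zero]
  have hstep : ∀ l : List E, (∀ e, a * xw (l ++ [e]) = 0) → a * xw l = 0 := by
    intro l hl
    have e1 : a * xw l = a * xw l * (dd k G v0 + ∑ e, ed e * gh e) := by
      rw [← one_eq, mul_one]
    rw [e1, mul_add, mul_assoc a (xw l) (dd k G v0)]
    have e2 : a * (xw l * dd k G v0) = 0 := hz l
    rw [e2, zero_add, Finset.mul_sum]
    refine Finset.sum_eq_zero fun e _ => ?_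
    have e3 := hl e
    rw [xw_append, xw_cons, xw_nil, mul_one, ← mul_assoc] at e3
    rw [← mul_assoc, e3, zero_mul]
  have hall : ∀ j : ℕ, ∀ l : List E, n ≤ l.length + j → a * xw l = 0 := by
    intro j
    induction j with
    | zero => intro l hl; exact hbig l hl
    | succ j ih =>
      intro l hl
      refine hstep l fun e => ih _ ?_
      simp only [List.length_append, List.length_cons, List.length_nil]
      omega
  have := hall n [] (by simp)
  rwa [xw_nil, mul_one] at this

end CKS
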