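import Pool.Agent.CKS.Targets

/-!
# Leavitt path algebras and relabelling of graphs
-/

universe u

namespace CKS

namespace H_GraphIso

variable {k : Type u} [Field k] {V E V' E' : Type} {G : Graph V E} {G' : Graph V' E'}

/-- the family given by a relabelling -/
noncomputable def fam (ev : V ≃ V') (ee : E ≃ E') (hs : ∀ e, G'.s (ee e) = ev (G.s e))
    (hr : ∀ e, G'.r (ee e) = ev (G.r e)) : Fam k G G.IsReg (LPA k G') where
  p a := vt (ev a)
  x e := ed (ee e)
  y e := gh (ee e)
  idem a := vt_idem _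
  orth a b h := vt_orth (fun h' => h (ev.injective h'))
  se e := by rw [← hs]; exact s_ed _
  er e := by rw [← hr]; exact ed_r _
  rg e := by rw [← hr]; exact r_gh _
  gs e := by rw [← hs]; exact gh_s _
  ge e := by rw [← hr]; exact gh_ed _
  gf e f h := gh_ed_ne (fun h' => h (ee.injective h'))
  ck a ha S hS := by
    have h1 : G'.IsReg (ev a) := by
      obtain ⟨e, he⟩ := ha
      exact ⟨ee e, by rw [hs, he]⟩
    have h2 := ck_rel (k := k) (G := G') (Reg := G'.IsReg) h1 (S.map ee.toEmbedding) (by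
      intro e
      rw [Finset.mem_map_equiv, hS]
      have := hs (ee.symm e)
      rw [Equiv.apply_symm_apply] at this
      rw [this]
      exact ev.injective.eq_iff.symm)
    rw [Finset.sum_map] at h2
    exact h2
  one S hS := by
    have h2 := (taut k G' G'.IsReg).one (S.map ev.toEmbedding) (by
      intro a
      rw [Finset.mem_map_equiv]
      exact hS _)
    rw [Finset.sum_map] at h2
    exact h2

theorem comp_id (ev : V ≃ V') (ee : E ≃ E') (hs : ∀ e, G'.s (ee e) = ev (G.s e))
    (hr : ∀ e, G'.r (ee e) = ev (G.r e)) (hs' : ∀ e, G.s (ee.symm e) = ev.symm (G'.s e))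
    (hr' : ∀ e, G.r (ee.symm e) = ev.symm (G'.r e)) :
    ((fam (k := k) ev.symm ee.symm hs' hr').lift).comp ((fam (k := k) ev ee hs hr).lift) =
      AlgHom.id k (LPA k G) := by
  refine hom_ext (fun a => ?_) (fun e => ?_) (fun e => ?_)
  · rw [AlgHom.comp_apply, lift_vt]
    change (fam (k := k) ev.symm ee.symm hs' hr').lift (vt (ev a)) = vt a
    rw [lift_vt]
    change vt (ev.symm (ev a)) = vt a
    rw [Equiv.symm_apply_apply]
  · rw [AlgHom.comp_apply, lift_ed]
    change (fam (k := k) ev.symm ee.symm hs' hr').lift (ed (ee e)) = ed e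
    rw [lift_ed]
    change ed (ee.symm (ee e)) = ed e
    rw [Equiv.symm_apply_apply]
  · rw [AlgHom.comp_apply, lift_gh]
    change (fam (k := k) ev.symm ee.symm hs' hr').lift (gh (ee e)) = gh e
    rw [lift_gh]
    change gh (ee.symm (ee e)) = gh e
    rw [Equiv.symm_apply_apply]

end H_GraphIso

open H_GraphIso

theorem p_relabel : T_relabel.{u} := by
  intro k _ V E V' E' G G' ev ee hs hr
  have hs' : ∀ e, G.s (ee.symm e) = ev.symm (G'.s e) := by
    intro e
    rw [Equiv.eq_symm_apply, ← hs, Equiv.apply_symm_apply]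
  have hr' : ∀ e, G.r (ee.symm e) = ev.symm (G'.r e) := by
    intro e
    rw [Equiv.eq_symm_apply, ← hr, Equiv.apply_symm_apply]
  exact ⟨AlgEquiv.ofAlgHom ((fam (k := k) ev ee hs hr).lift)
    ((fam (k := k) ev.symm ee.symm hs' hr').lift)
    (comp_id (k := k) ev.symm ee.symm hs' hr' hs hr) (comp_id (k := k) ev ee hs hr hs' hr')⟩

theorem p_adj : T_adj.{u} := by
  intro k _ V E _ _ _ G A hA
  have q : ∀ a b, {e // G.s e = a ∧ G.r e = b} ≃ Fin (A a b) := fun a b =>
    Fintype.equivFinOfCardEq (hA a b)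
  let f : E → (Σ i : V, Σ j : V, Fin (A i j)) := fun e => ⟨G.s e, G.r e, q _ _ ⟨e, rfl, rfl⟩⟩
  let g : (Σ i : V, Σ j : V, Fin (A i j)) → E := fun x => ((q x.1 x.2.1).symm x.2.2).1
  have hl : ∀ e, g (f e) = e := by
    intro e
    simp [f, g]
  have hsur : ∀ x, ∃ e, f e = x := by
    rintro ⟨i, j, t⟩
    obtain ⟨⟨e, h1, h2⟩, he⟩ := (q i j).surjective t
    subst h1 h2
    exact ⟨e, by rw [← he]⟩
  have hr : ∀ x, f (g x) = x := by
    intro x
    obtain ⟨e, rfl⟩ := hsur x
    rw [hl]
  let ee : E ≃ (Σ i : V, Σ j : V, Fin (A i j)) := ⟨f, g, hl, hr⟩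
  exact p_relabel k (Equiv.refl V) ee (fun e => rfl) (fun e => rfl)

theorem p_reindex : T_reindex.{u} := by
  intro k _ ι ι' e A
  refine p_relabel k (G := adjG A) (G' := adjG (fun a b => A (e.symm a) (e.symm b))) e
    (Equiv.sigmaCongr e (fun i => Equiv.sigmaCongr e (fun j => finCongr (by simp))))
    (fun x => ?_) (fun x => ?_)
  · rfl
  · rfl

end CKS
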