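import Pool.Agent.CKS.Targets

/-!
# The elementary move
-/

set_option linter.unusedSectionVars false

universe u

namespace CKS

namespace H_Move

/-- The graph obtained by replacing the edge `e0` by the edges out of `j`. -/
def gm {V E : Type} (G : Graph V E) (e0 : E) (j : V) :
    Graph V ({e : E // e ≠ e0} ⊕ {f : E // G.s f = j}) where
  s := fun x => match x with
    | .inl e => G.s e.1
    | .inr _ => G.s e0
  r := fun x => match x with
    | .inl e => G.r e.1
    | .inr f => G.r f.1

section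

variable {k : Type u} [Field k] {V E : Type} [Fintype E] [DecidableEq V] [DecidableEq E]
  {G : Graph V E} {e0 : E} {j : V}

theorem ne_e0 (hij : G.s e0 ≠ j) {f : E} (hf : G.s f = j) : f ≠ e0 := by
  rintro rfl
  exact hij hf

/-- the image of the edges of `G` -/
noncomputable def mx (k : Type u) [Field k] (G : Graph V E) (e0 : E) (j : V)
    (hij : G.s e0 ≠ j) (e : E) : LPA k (gm G e0 j) :=
  if h : e = e0 then ∑ f : {f : E // G.s f = j}, ed (.inr f) * gh (.inl ⟨f.1, ne_e0 hij f.2⟩)
  else ed (.inl ⟨e, h⟩)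

/-- the image of the ghost edges of `G` -/
noncomputable def my (k : Type u) [Field k] (G : Graph V E) (e0 : E) (j : V)
    (hij : G.s e0 ≠ j) (e : E) : LPA k (gm G e0 j) :=
  if h : e = e0 then ∑ f : {f : E // G.s f = j}, ed (.inl ⟨f.1, ne_e0 hij f.2⟩) * gh (.inr f)
  else gh (.inl ⟨e, h⟩)

variable (hij : G.s e0 ≠ j)

theorem mx_e0 : mx k G e0 j hij e0 =
    ∑ f : {f : E // G.s f = j}, ed (.inr f) * gh (.inl ⟨f.1, ne_e0 hij f.2⟩) := by
  simp [mx]

theorem my_e0 : my k G e0 j hij e0 =
    ∑ f : {f : E // G.s f = j}, ed (.inl ⟨f.1, ne_e0 hij f.2⟩) * gh (.inr f) := by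
  simp [my]

theorem mx_ne {e : E} (h : e ≠ e0) : mx k G e0 j hij e = ed (.inl ⟨e, h⟩) := by
  simp [mx, h]

theorem my_ne {e : E} (h : e ≠ e0) : my k G e0 j hij e = gh (.inl ⟨e, h⟩) := by
  simp [my, h]

/-- Cuntz-Krieger relation at `j` in the new graph -/
theorem ck_j (hj : ∃ f, G.s f = j) :
    ∑ f : {f : E // G.s f = j}, (ed (.inl ⟨f.1, ne_e0 hij f.2⟩) *
      gh (.inl ⟨f.1, ne_e0 hij f.2⟩) : LPA k (gm G e0 j)) = vt j := by
  have h1 : (gm G e0 j).IsReg j := by
    obtain ⟨f, hf⟩ := hj
    exact ⟨.inl ⟨f, ne_e0 hij hf⟩, hf⟩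
  let em : {f : E // G.s f = j} ↪ ({e : E // e ≠ e0} ⊕ {f : E // G.s f = j}) :=
    ⟨fun f => .inl ⟨f.1, ne_e0 hij f.2⟩, by
      intro f f' h
      have := Sum.inl.inj h
      exact Subtype.ext (congrArg (fun x => x.1) this)⟩
  have h2 := ck_rel (k := k) (G := gm G e0 j) (Reg := (gm G e0 j).IsReg) h1
    (Finset.univ.map em) (by
    intro e
    rw [Finset.mem_map]
    constructor
    · rintro ⟨f, -, rfl⟩
      exact f.2
    · intro h
      rcases e with e | e
      · exact ⟨⟨e.1, h⟩, Finset.mem_univ _, rfl⟩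
      · exact absurd h hij)
  rw [Finset.sum_map] at h2
  exact h2

/-- relations in the new graph -/
theorem s_r (f : {f : E // G.s f = j}) : (vt (G.s e0) * ed (.inr f) : LPA k (gm G e0 j)) =
    ed (.inr f) := s_ed (G := gm G e0 j) (.inr f)
theorem r_r (f : {f : E // G.s f = j}) : (ed (.inr f) * vt (G.r f.1) : LPA k (gm G e0 j)) =
    ed (.inr f) := ed_r (G := gm G e0 j) (.inr f)
theorem s_r' (f : {f : E // G.s f = j}) : (gh (.inr f) * vt (G.s e0) : LPA k (gm G e0 j)) =
    gh (.inr f) := gh_s (G := gm G e0 j) (.inr f)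
theorem r_r' (f : {f : E // G.s f = j}) : (vt (G.r f.1) * gh (.inr f) : LPA k (gm G e0 j)) =
    gh (.inr f) := r_gh (G := gm G e0 j) (.inr f)
theorem g_r (f : {f : E // G.s f = j}) : (gh (.inr f) * ed (.inr f) : LPA k (gm G e0 j)) =
    vt (G.r f.1) := gh_ed (G := gm G e0 j) (.inr f)
theorem g_rr {f f' : {f : E // G.s f = j}} (h : f ≠ f') :
    (gh (.inr f) * ed (.inr f') : LPA k (gm G e0 j)) = 0 :=
  gh_ed_ne (fun h' => h (Sum.inr.inj h'))
theorem g_rl (f : {f : E // G.s f = j}) (e : {e : E // e ≠ e0}) :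
    (gh (.inr f) * ed (.inl e) : LPA k (gm G e0 j)) = 0 :=
  gh_ed_ne (fun h' => nomatch h')
theorem g_lr (f : {f : E // G.s f = j}) (e : {e : E // e ≠ e0}) :
    (gh (.inl e) * ed (.inr f) : LPA k (gm G e0 j)) = 0 :=
  gh_ed_ne (fun h' => nomatch h')
theorem s_l (f : {e : E // e ≠ e0}) : (vt (G.s f.1) * ed (.inl f) : LPA k (gm G e0 j)) =
    ed (.inl f) := s_ed (G := gm G e0 j) (.inl f)
theorem r_l (f : {e : E // e ≠ e0}) : (ed (.inl f) * vt (G.r f.1) : LPA k (gm G e0 j)) =
    ed (.inl f) := ed_r (G := gm G e0 j) (.inl f)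
theorem s_l' (f : {e : E // e ≠ e0}) : (gh (.inl f) * vt (G.s f.1) : LPA k (gm G e0 j)) =
    gh (.inl f) := gh_s (G := gm G e0 j) (.inl f)
theorem r_l' (f : {e : E // e ≠ e0}) : (vt (G.r f.1) * gh (.inl f) : LPA k (gm G e0 j)) =
    gh (.inl f) := r_gh (G := gm G e0 j) (.inl f)
theorem g_l (f : {e : E // e ≠ e0}) : (gh (.inl f) * ed (.inl f) : LPA k (gm G e0 j)) =
    vt (G.r f.1) := gh_ed (G := gm G e0 j) (.inl f)
theorem g_ll {f f' : {e : E // e ≠ e0}} (h : f ≠ f') :
    (gh (.inl f) * ed (.inl f') : LPA k (gm G e0 j)) = 0 :=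
  gh_ed_ne (fun h' => h (Sum.inl.inj h'))

theorem y0x0 (hj : ∃ f, G.s f = j) : my k G e0 j hij e0 * mx k G e0 j hij e0 = vt j := by
  rw [my_e0, mx_e0, Finset.sum_mul, ← ck_j hij hj]
  refine Finset.sum_congr rfl (fun f _ => ?_)
  rw [Finset.mul_sum, Finset.sum_eq_single f]
  · rw [mul_assoc, ← mul_assoc (gh (Sum.inr f)), g_r, r_l' ⟨f.1, ne_e0 hij f.2⟩]
  · intro b _ hb
    rw [mul_assoc, ← mul_assoc (gh (Sum.inr f)), g_rr hb.symm, zero_mul, mul_zero]
  · intro h
    exact absurd (Finset.mem_univ _) h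

theorem x0y0 : mx k G e0 j hij e0 * my k G e0 j hij e0 =
    ∑ f : {f : E // G.s f = j}, ed (.inr f) * gh (.inr f) := by
  rw [my_e0, mx_e0, Finset.sum_mul]
  refine Finset.sum_congr rfl (fun f _ => ?_)
  rw [Finset.mul_sum, Finset.sum_eq_single f]
  · rw [mul_assoc, ← mul_assoc (gh (Sum.inl _)), g_l, r_r']
  · intro b _ hb
    rw [mul_assoc, ← mul_assoc (gh (Sum.inl _)), g_ll (by
      intro h
      exact hb (Subtype.ext (congrArg (fun x => x.1) h).symm)), zero_mul, mul_zero]
  · intro h
    exact absurd (Finset.mem_univ _) h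

/-- the family in the algebra of the new graph -/
noncomputable def fam1 (hr : G.r e0 = j) (hj : ∃ f, G.s f = j) :
    Fam k G G.IsReg (LPA k (gm G e0 j)) where
  p := vt
  x := mx k G e0 j hij
  y := my k G e0 j hij
  idem a := vt_idem _
  orth a b h := vt_orth h
  se e := by
    by_cases h : e = e0
    · subst h
      rw [mx_e0, Finset.mul_sum]
      refine Finset.sum_congr rfl (fun f _ => ?_)
      rw [← mul_assoc, s_r]
    · rw [mx_ne hij h]
      exact s_l ⟨e, h⟩
  er e := by
    by_cases h : e = e0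
    · subst h
      rw [mx_e0, Finset.sum_mul]
      refine Finset.sum_congr rfl (fun f _ => ?_)
      rw [mul_assoc, hr]
      congr 1
      have := s_l' (k := k) (G := G) (j := j) ⟨f.1, ne_e0 hij f.2⟩
      rw [f.2] at this
      exact this
    · rw [mx_ne hij h]
      exact r_l ⟨e, h⟩
  rg e := by
    by_cases h : e = e0
    · subst h
      rw [my_e0, Finset.mul_sum]
      refine Finset.sum_congr rfl (fun f _ => ?_)
      rw [← mul_assoc, hr]
      congr 1
      have := s_l (k := k) (G := G) (j := j) ⟨f.1, ne_e0 hij f.2⟩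
      rw [f.2] at this
      exact this
    · rw [my_ne hij h]
      exact r_l' ⟨e, h⟩
  gs e := by
    by_cases h : e = e0
    · subst h
      rw [my_e0, Finset.sum_mul]
      refine Finset.sum_congr rfl (fun f _ => ?_)
      rw [mul_assoc, s_r']
    · rw [my_ne hij h]
      exact s_l' ⟨e, h⟩
  ge e := by
    by_cases h : e = e0
    · subst h
      rw [y0x0 hij hj, hr]
    · rw [my_ne hij h, mx_ne hij h]
      exact g_l ⟨e, h⟩
  gf e f hef := by
    by_cases h : e = e0
    · subst h
      rw [my_e0, mx_ne hij hef.symm, Finset.sum_mul]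
      refine Finset.sum_eq_zero (fun f' _ => ?_)
      rw [mul_assoc, g_rl, mul_zero]
    · by_cases h' : f = e0
      · subst h'
        rw [my_ne hij h, mx_e0, Finset.mul_sum]
        refine Finset.sum_eq_zero (fun f' _ => ?_)
        rw [← mul_assoc, g_lr, zero_mul]
      · rw [my_ne hij h, mx_ne hij h']
        exact g_ll (fun h'' => hef (congrArg (fun x => x.1) h''))
  ck a ha S hS := by
    by_cases hae : a = G.s e0
    · subst hae
      have h0 : e0 ∈ S := (hS e0).2 rfl
      let T1 : Finset {e : E // e ≠ e0} := S.subtype (fun e => e ≠ e0)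
      have h1 : (gm G e0 j).IsReg (G.s e0) := by
        obtain ⟨f, hf⟩ := hj
        exact ⟨.inr ⟨f, hf⟩, rfl⟩
      have h2 := ck_rel (k := k) (G := gm G e0 j) (Reg := (gm G e0 j).IsReg) h1
        (T1.disjSum Finset.univ) (by
        intro e
        rcases e with e | e
        · rw [Finset.inl_mem_disjSum, Finset.mem_subtype, hS]
          exact Iff.rfl
        · rw [Finset.inr_mem_disjSum]
          exact ⟨fun _ => rfl, fun _ => Finset.mem_univ _⟩)
      rw [Finset.sum_disjSum] at h2
      rw [← h2, ← Finset.add_sum_erase _ _ h0, x0y0 hij, add_comm]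
      congr 1
      refine Finset.sum_bij' (fun e he => ⟨e, Finset.ne_of_mem_erase he⟩) (fun e _ => e.1)
        ?_ ?_ ?_ ?_ ?_
      · intro e he
        rw [Finset.mem_subtype]
        exact Finset.mem_of_mem_erase he
      · intro e he
        rw [Finset.mem_subtype] at he
        exact Finset.mem_erase.2 ⟨e.2, he⟩
      · intro e he
        rfl
      · intro e he
        rfl
      · intro e he
        rw [my_ne hij (Finset.ne_of_mem_erase he), mx_ne hij (Finset.ne_of_mem_erase he)]
    · let T1 : Finset {e : E // e ≠ e0} := S.subtype (fun e => e ≠ e0)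
      have hne : ∀ e ∈ S, e ≠ e0 := by
        intro e he h
        subst h
        exact hae ((hS _).1 he).symm
      have h1 : (gm G e0 j).IsReg a := by
        obtain ⟨f, hf⟩ := ha
        exact ⟨.inl ⟨f, hne f ((hS f).2 hf)⟩, hf⟩
      have h2 := ck_rel (k := k) (G := gm G e0 j) (Reg := (gm G e0 j).IsReg) h1
        (T1.disjSum ∅) (by
        intro e
        rcases e with e | e
        · rw [Finset.inl_mem_disjSum, Finset.mem_subtype, hS]
          exact Iff.rfl
        · rw [Finset.inr_mem_disjSum]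
          exact ⟨fun h => absurd h (Finset.notMem_empty _), fun h => absurd h.symm hae⟩)
      rw [Finset.sum_disjSum, Finset.sum_empty, add_zero] at h2
      rw [← h2]
      refine Finset.sum_bij' (fun e he => ⟨e, hne e he⟩) (fun e _ => e.1)
        ?_ ?_ ?_ ?_ ?_
      · intro e he
        rw [Finset.mem_subtype]
        exact he
      · intro e he
        rw [Finset.mem_subtype] at he
        exact he
      · intro e he
        rfl
      · intro e he
        rfl
      · intro e he
        rw [my_ne hij (hne e he), mx_ne hij (hne e he)]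
  one S hS := (taut k (gm G e0 j) _).one S hS

theorem vj_ed (f : {f : E // G.s f = j}) : (vt j * ed f.1 : LPA k G) = ed f.1 := by
  have := s_ed (k := k) (G := G) (Reg := G.IsReg) f.1
  rw [f.2] at this
  exact this

/-- the family in the algebra of the old graph -/
noncomputable def fam2 (hr : G.r e0 = j) (hj : ∃ f, G.s f = j) :
    Fam k (gm G e0 j) (gm G e0 j).IsReg (LPA k G) where
  p := vt
  x := fun x => match x with
    | .inl e => ed e.1
    | .inr f => ed e0 * ed f.1
  y := fun x => match x with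
    | .inl e => gh e.1
    | .inr f => gh f.1 * gh e0
  idem a := vt_idem _
  orth a b h := vt_orth h
  se e := by
    rcases e with e | f
    · exact s_ed e.1
    · change vt (G.s e0) * (ed e0 * ed f.1) = ed e0 * ed f.1
      rw [← mul_assoc, s_ed]
  er e := by
    rcases e with e | f
    · exact ed_r e.1
    · change (ed e0 * ed f.1) * vt (G.r f.1) = ed e0 * ed f.1
      rw [mul_assoc, ed_r]
  rg e := by
    rcases e with e | f
    · exact r_gh e.1
    · change vt (G.r f.1) * (gh f.1 * gh e0) = gh f.1 * gh e0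
      rw [← mul_assoc, r_gh]
  gs e := by
    rcases e with e | f
    · exact gh_s e.1
    · change (gh f.1 * gh e0) * vt (G.s e0) = gh f.1 * gh e0
      rw [mul_assoc, gh_s]
  ge e := by
    rcases e with e | f
    · exact gh_ed e.1
    · change (gh f.1 * gh e0) * (ed e0 * ed f.1) = vt (G.r f.1)
      rw [mul_assoc, ← mul_assoc (gh e0), gh_ed, hr, vj_ed, gh_ed]
  gf e f h := by
    rcases e with e | e
    · rcases f with f | f
      · exact gh_ed_ne (fun h' => h (congrArg Sum.inl (Subtype.ext h')))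
      · change gh e.1 * (ed e0 * ed f.1) = 0
        rw [← mul_assoc, gh_ed_ne e.2, zero_mul]
    · rcases f with f | f
      · change (gh e.1 * gh e0) * ed f.1 = 0
        rw [mul_assoc, gh_ed_ne f.2.symm, mul_zero]
      · change (gh e.1 * gh e0) * (ed e0 * ed f.1) = 0
        rw [mul_assoc, ← mul_assoc (gh e0), gh_ed, hr, vj_ed]
        exact gh_ed_ne (fun h' => h (congrArg Sum.inr (Subtype.ext h')))
  ck a ha S hS := by
    have hreg : G.IsReg a := by
      obtain ⟨e | e, he⟩ := ha
      · exact ⟨e.1, he⟩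
      · exact ⟨e0, he⟩
    have hcj : ∑ f : {f : E // G.s f = j}, (ed f.1 * gh f.1 : LPA k G) = vt j := by
      have h3 := ck_rel (k := k) (G := G) (Reg := G.IsReg) (a := j) hj
        (Finset.univ.map ⟨fun f : {f : E // G.s f = j} => f.1, Subtype.val_injective⟩) (by
        intro e
        rw [Finset.mem_map]
        constructor
        · rintro ⟨f, -, rfl⟩
          exact f.2
        · intro h
          exact ⟨⟨e, h⟩, Finset.mem_univ _, rfl⟩)
      rw [Finset.sum_map] at h3
      exact h3
    let T : Finset E := Finset.univ.filter (fun e => G.s e = a)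
    have h2 := ck_rel (k := k) (G := G) (Reg := G.IsReg) hreg T (by
      intro e
      simp [T])
    rw [← h2]
    by_cases hae : G.s e0 = a
    · have hSe : S = (Finset.univ.filter (fun e : {e : E // e ≠ e0} => G.s e.1 = a)).disjSum
          Finset.univ := by
        ext e
        rw [hS]
        rcases e with e | e
        · rw [Finset.inl_mem_disjSum, Finset.mem_filter]
          exact ⟨fun h => ⟨Finset.mem_univ _, h⟩, fun h => h.2⟩
        · rw [Finset.inr_mem_disjSum]
          exact ⟨fun _ => Finset.mem_univ _, fun _ => hae⟩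
      have h0 : e0 ∈ T := by simp [T, hae]
      rw [hSe, Finset.sum_disjSum, ← Finset.add_sum_erase _ _ h0, add_comm]
      congr 1
      · have : ∀ f : {f : E // G.s f = j}, (ed e0 * ed f.1 * (gh f.1 * gh e0) : LPA k G) =
            ed e0 * (ed f.1 * gh f.1) * gh e0 := by
          intro f
          simp only [mul_assoc]
        change ∑ f : {f : E // G.s f = j}, (ed e0 * ed f.1 * (gh f.1 * gh e0) : LPA k G) = _
        rw [Finset.sum_congr rfl (fun f _ => this f), ← Finset.sum_mul, ← Finset.mul_sum, hcj,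
          ← hr, ed_r]
      · refine Finset.sum_bij' (fun e _ => e.1)
          (fun e he => ⟨e, Finset.ne_of_mem_erase he⟩) ?_ ?_ ?_ ?_ ?_
        · intro e he
          rw [Finset.mem_filter] at he
          exact Finset.mem_erase.2 ⟨e.2, Finset.mem_filter.2 ⟨Finset.mem_univ _, he.2⟩⟩
        · intro e he
          exact Finset.mem_filter.2 ⟨Finset.mem_univ _,
            (Finset.mem_filter.1 (Finset.mem_of_mem_erase he)).2⟩
        · intro e he
          rfl
        · intro e he
          rfl
        · intro e he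
          rfl
    · have hSe : S = (Finset.univ.filter (fun e : {e : E // e ≠ e0} => G.s e.1 = a)).disjSum
          ∅ := by
        ext e
        rw [hS]
        rcases e with e | e
        · rw [Finset.inl_mem_disjSum, Finset.mem_filter]
          exact ⟨fun h => ⟨Finset.mem_univ _, h⟩, fun h => h.2⟩
        · rw [Finset.inr_mem_disjSum]
          exact ⟨fun h => absurd h hae, fun h => absurd h (Finset.notMem_empty _)⟩
      rw [hSe, Finset.sum_disjSum, Finset.sum_empty, add_zero]
      refine Finset.sum_bij' (fun e _ => e.1)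
        (fun e he => ⟨e, by
          rintro rfl
          exact hae (Finset.mem_filter.1 he).2⟩) ?_ ?_ ?_ ?_ ?_
      · intro e he
        rw [Finset.mem_filter] at he
        exact Finset.mem_filter.2 ⟨Finset.mem_univ _, he.2⟩
      · intro e he
        exact Finset.mem_filter.2 ⟨Finset.mem_univ _, (Finset.mem_filter.1 he).2⟩
      · intro e he
        rfl
      · intro e he
        rfl
      · intro e he
        rfl
  one S hS := (taut k G _).one S hS

theorem c12 (hr : G.r e0 = j) (hj : ∃ f, G.s f = j) :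
    ((fam2 (k := k) hij hr hj).lift).comp ((fam1 (k := k) hij hr hj).lift) = AlgHom.id k (LPA k G) := by
  have hcj : ∑ f : {f : E // G.s f = j}, (ed f.1 * gh f.1 : LPA k G) = vt j := by
    have h3 := ck_rel (k := k) (G := G) (Reg := G.IsReg) (a := j) hj
      (Finset.univ.map ⟨fun f : {f : E // G.s f = j} => f.1, Subtype.val_injective⟩) (by
      intro e
      rw [Finset.mem_map]
      constructor
      · rintro ⟨f, -, rfl⟩
        exact f.2
      · intro h
        exact ⟨⟨e, h⟩, Finset.mem_univ _, rfl⟩)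
    rw [Finset.sum_map] at h3
    exact h3
  refine hom_ext (fun a => ?_) (fun e => ?_) (fun e => ?_)
  · rw [AlgHom.comp_apply, lift_vt]
    change (fam2 (k := k) hij hr hj).lift (vt a) = vt a
    rw [lift_vt]
    rfl
  · rw [AlgHom.comp_apply, lift_ed]
    change (fam2 (k := k) hij hr hj).lift (mx k G e0 j hij e) = ed e
    by_cases h : e = e0
    · subst h
      rw [mx_e0, map_sum]
      have : ∀ f : {f : E // G.s f = j}, (fam2 (k := k) hij hr hj).lift
          (ed (.inr f) * gh (.inl ⟨f.1, ne_e0 hij f.2⟩)) = ed e * (ed f.1 * gh f.1) := by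
        intro f
        rw [map_mul, lift_ed, lift_gh, ← mul_assoc]
        rfl
      rw [Finset.sum_congr rfl (fun f _ => this f), ← Finset.mul_sum, hcj, ← hr, ed_r]
    · rw [mx_ne hij h, lift_ed]
      rfl
  · rw [AlgHom.comp_apply, lift_gh]
    change (fam2 (k := k) hij hr hj).lift (my k G e0 j hij e) = gh e
    by_cases h : e = e0
    · subst h
      rw [my_e0, map_sum]
      have : ∀ f : {f : E // G.s f = j}, (fam2 (k := k) hij hr hj).lift
          (ed (.inl ⟨f.1, ne_e0 hij f.2⟩) * gh (.inr f)) = (ed f.1 * gh f.1) * gh e := by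
        intro f
        rw [map_mul, lift_ed, lift_gh, mul_assoc]
        rfl
      rw [Finset.sum_congr rfl (fun f _ => this f), ← Finset.sum_mul, hcj, ← hr, r_gh]
    · rw [my_ne hij h, lift_gh]
      rfl

theorem c21 (hr : G.r e0 = j) (hj : ∃ f, G.s f = j) :
    ((fam1 (k := k) hij hr hj).lift).comp ((fam2 (k := k) hij hr hj).lift) =
      AlgHom.id k (LPA k (gm G e0 j)) := by
  refine hom_ext (fun a => ?_) (fun e => ?_) (fun e => ?_)
  · rw [AlgHom.comp_apply, lift_vt]
    change (fam1 (k := k) hij hr hj).lift (vt a) = vt a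
    rw [lift_vt]
    rfl
  · rw [AlgHom.comp_apply, lift_ed]
    rcases e with e | f
    · change (fam1 (k := k) hij hr hj).lift (ed e.1) = ed (.inl e)
      rw [lift_ed]
      change mx k G e0 j hij e.1 = _
      rw [mx_ne hij e.2]
    · change (fam1 (k := k) hij hr hj).lift (ed e0 * ed f.1) = ed (.inr f)
      rw [map_mul, lift_ed, lift_ed]
      change mx k G e0 j hij e0 * mx k G e0 j hij f.1 = ed (.inr f)
      rw [mx_e0, mx_ne hij (ne_e0 hij f.2), Finset.sum_mul, Finset.sum_eq_single f]
      · rw [mul_assoc, g_l, r_r]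
      · intro b _ hb
        rw [mul_assoc, g_ll (by
          intro h
          exact hb (Subtype.ext (congrArg (fun x => x.1) h))), mul_zero]
      · intro h
        exact absurd (Finset.mem_univ _) h
  · rw [AlgHom.comp_apply, lift_gh]
    rcases e with e | f
    · change (fam1 (k := k) hij hr hj).lift (gh e.1) = gh (.inl e)
      rw [lift_gh]
      change my k G e0 j hij e.1 = _
      rw [my_ne hij e.2]
    · change (fam1 (k := k) hij hr hj).lift (gh f.1 * gh e0) = gh (.inr f)
      rw [map_mul, lift_gh, lift_gh]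
      change my k G e0 j hij f.1 * my k G e0 j hij e0 = gh (.inr f)
      rw [my_e0, my_ne hij (ne_e0 hij f.2), Finset.mul_sum, Finset.sum_eq_single f]
      · rw [← mul_assoc, g_l, r_r']
      · intro b _ hb
        rw [← mul_assoc, g_ll (by
          intro h
          exact hb (Subtype.ext (congrArg (fun x => x.1) h)).symm), zero_mul]
      · intro h
        exact absurd (Finset.mem_univ _) h

end

theorem card_adj {ι : Type} [Fintype ι] [DecidableEq ι] (A : ι → ι → ℕ) (a b : ι) :
    Fintype.card {e // (adjG A).s e = a ∧ (adjG A).r e = b} = A a b := by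
  rw [← Fintype.card_fin (A a b)]
  refine Fintype.card_congr ⟨fun e => ?_, fun x => ⟨⟨a, b, x⟩, rfl, rfl⟩, ?_, ?_⟩
  · exact Fin.cast (by
      obtain ⟨⟨i, j, x⟩, h1, h2⟩ := e
      change i = a at h1
      change j = b at h2
      subst h1 h2
      rfl) e.1.2.2
  · rintro ⟨⟨i, j, x⟩, h1, h2⟩
    change i = a at h1
    change j = b at h2
    subst h1 h2
    rfl
  · intro x
    rfl

theorem card_gm {ι : Type} [Fintype ι] [DecidableEq ι] (A : ι → ι → ℕ) (i j : ι) (hij : i ≠ j)
    (x0 : Fin (A i j)) (a b : ι) :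
    Fintype.card {e // (gm (adjG A) ⟨i, j, x0⟩ j).s e = a ∧ (gm (adjG A) ⟨i, j, x0⟩ j).r e = b} =
      sub A i j a b := by
  rw [Fintype.card_congr (Equiv.subtypeSum), Fintype.card_sum]
  have hA : Fintype.card {e : {e : Σ i : ι, Σ j : ι, Fin (A i j) // e ≠ ⟨i, j, x0⟩} //
      (adjG A).s e.1 = a ∧ (adjG A).r e.1 = b} = A a b - (if a = i ∧ b = j then 1 else 0) := by
    rw [← card_adj A a b]
    by_cases hab : a = i ∧ b = j
    · obtain ⟨rfl, rfl⟩ := hab
      rw [if_pos ⟨rfl, rfl⟩]
      have h3 := Fintype.card_subtype_compl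
        (fun e : {e // (adjG A).s e = a ∧ (adjG A).r e = b} => e.1 = ⟨a, b, x0⟩)
      have h4 : Fintype.card {e : {e // (adjG A).s e = a ∧ (adjG A).r e = b} //
          e.1 = ⟨a, b, x0⟩} = 1 := by
        rw [Fintype.card_eq_one_iff]
        refine ⟨⟨⟨⟨a, b, x0⟩, rfl, rfl⟩, rfl⟩, ?_⟩
        rintro ⟨⟨y, h5⟩, h6⟩
        exact Subtype.ext (Subtype.ext h6)
      rw [h4] at h3
      rw [← h3]
      exact Fintype.card_congr
        ⟨fun e => ⟨⟨e.1.1, e.2⟩, e.1.2⟩, fun e => ⟨⟨e.1.1, e.2⟩, e.1.2⟩, fun _ => rfl,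
          fun _ => rfl⟩
    · rw [if_neg hab, Nat.sub_zero]
      exact Fintype.card_congr
        ⟨fun e => ⟨e.1.1, e.2⟩, fun e => ⟨⟨e.1, by
          intro h
          apply hab
          have h5 := e.2
          rw [h] at h5
          exact ⟨h5.1.symm, h5.2.symm⟩⟩, e.2⟩, fun _ => rfl, fun _ => rfl⟩
  have hB : Fintype.card {f : {f : Σ i : ι, Σ j : ι, Fin (A i j) // (adjG A).s f = j} //
      i = a ∧ (adjG A).r f.1 = b} = if a = i then A j b else 0 := by
    by_cases hai : a = i
    · rw [if_pos hai, ← card_adj A j b]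
      exact Fintype.card_congr
        ⟨fun e => ⟨e.1.1, e.1.2, e.2.2⟩, fun e => ⟨⟨e.1, e.2.1⟩, hai.symm, e.2.2⟩,
          fun _ => rfl, fun _ => rfl⟩
    · rw [if_neg hai, Fintype.card_eq_zero_iff]
      exact ⟨fun e => hai e.2.1.symm⟩
  refine (congrArg₂ (· + ·) hA hB).trans ?_
  have hx : 0 < A i j := Fin.pos x0
  unfold sub
  by_cases hai : a = i
  · subst hai
    by_cases hbj : b = j
    · subst hbj
      simp only [and_self, if_true]
      omega
    · simp [hbj]
  · simp [hai]

end H_Move

open H_Move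

theorem p_move (h1 : T_relabel.{u}) (h2 : T_adj.{u}) : T_move.{u} := by
  intro k _ ι _ _ A i j hij hA hj
  have x0 : Fin (A i j) := ⟨0, Nat.pos_of_ne_zero hA⟩
  have hj' : ∃ f, (adjG A).s f = j := by
    obtain ⟨l, hl⟩ := hj
    exact ⟨⟨j, l, ⟨0, Nat.pos_of_ne_zero hl⟩⟩, rfl⟩
  have hij' : (adjG A).s ⟨i, j, x0⟩ ≠ j := hij
  have hr' : (adjG A).r ⟨i, j, x0⟩ = j := rfl
  have e1 : LPA k (adjG A) ≃ₐ[k] LPA k (gm (adjG A) ⟨i, j, x0⟩ j) :=
    AlgEquiv.ofAlgHom ((fam1 (k := k) hij' hr' hj').lift) ((fam2 (k := k) hij' hr' hj').lift)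
      (c21 (k := k) hij' hr' hj') (c12 (k := k) hij' hr' hj')
  obtain ⟨e2⟩ := h2 k (gm (adjG A) ⟨i, j, x0⟩ j) (sub A i j)
    (fun a b => card_gm A i j hij x0 a b)
  exact ⟨e1.trans e2⟩

end CKS
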