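import Pool.Agent.CKS.Targets

/-! PAIR: the perfect pair. -/

set_option linter.unusedSectionVars false

universe u

namespace CKS

namespace H_Pair

variable {k : Type u} [Field k] {M : Type*} [AddCommGroup M] [Module k M]

/-- the tower generated by a subspace -/
def tow (X : Fin 2 → Module.End k M) (W : Submodule k M) : ℕ → Submodule k M
  | 0 => W
  | n + 1 => (tow X W n).map (X 0) ⊔ (tow X W n).map (X 1)

theorem mem_tow_succ (X : Fin 2 → Module.End k M) (W : Submodule k M) (n : ℕ) (m : M) :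
    m ∈ tow X W (n + 1) ↔ ∃ a ∈ tow X W n, ∃ b ∈ tow X W n, m = X 0 a + X 1 b := by
  rw [tow, Submodule.mem_sup]
  constructor
  · rintro ⟨y, ⟨a, ha, rfl⟩, z, ⟨b, hb, rfl⟩, rfl⟩
    exact ⟨a, ha, b, hb, rfl⟩
  · rintro ⟨a, ha, b, hb, rfl⟩
    exact ⟨_, ⟨a, ha, rfl⟩, _, ⟨b, hb, rfl⟩, rfl⟩

variable {X Y : Fin 2 → Module.End k M} {W : Submodule k M}

theorem tow_X (n : ℕ) (i : Fin 2) (m : M) (hm : m ∈ tow X W n) : X i m ∈ tow X W (n + 1) := by
  rw [mem_tow_succ]
  fin_cases i
  · exact ⟨m, hm, 0, Submodule.zero_mem _, by simp⟩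
  · exact ⟨0, Submodule.zero_mem _, m, hm, by simp⟩

theorem tow_Y (hYX : ∀ i j, Y i * X j = if i = j then 1 else 0) (n : ℕ) (i : Fin 2) (m : M)
    (hm : m ∈ tow X W (n + 1)) : Y i m ∈ tow X W n := by
  rw [mem_tow_succ] at hm
  obtain ⟨a, ha, b, hb, rfl⟩ := hm
  rw [map_add, ← Module.End.mul_apply, ← Module.End.mul_apply, hYX, hYX]
  fin_cases i
  · simpa using ha
  · simpa using hb

theorem tow_mono' (hYX : ∀ i j, Y i * X j = if i = j then 1 else 0)
    (h1 : X 0 * Y 0 + X 1 * Y 1 = 1) (hW : ∀ i, ∀ m ∈ W, Y i m ∈ W) (n : ℕ) :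
    (∀ i, ∀ m ∈ tow X W n, Y i m ∈ tow X W n) ∧ tow X W n ≤ tow X W (n + 1) := by
  have key : ∀ n, (∀ i, ∀ m ∈ tow X W n, Y i m ∈ tow X W n) → tow X W n ≤ tow X W (n + 1) := by
    intro n h m hm
    have h2 : m = X 0 (Y 0 m) + X 1 (Y 1 m) := by
      have := congrArg (fun T : Module.End k M => T m) h1
      simpa using this.symm
    rw [mem_tow_succ]
    exact ⟨_, h 0 m hm, _, h 1 m hm, h2⟩
  induction n with
  | zero => exact ⟨hW, key 0 hW⟩
  | succ n ih =>
    have : ∀ i, ∀ m ∈ tow X W (n + 1), Y i m ∈ tow X W (n + 1) :=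
      fun i m hm => ih.2 (tow_Y hYX n i m hm)
    exact ⟨this, key _ this⟩

theorem tow_mono (hYX : ∀ i j, Y i * X j = if i = j then 1 else 0)
    (h1 : X 0 * Y 0 + X 1 * Y 1 = 1) (hW : ∀ i, ∀ m ∈ W, Y i m ∈ W) : Monotone (tow X W) :=
  monotone_nat_of_le_succ (fun n => (tow_mono' hYX h1 hW n).2)

theorem tow_top (hYX : ∀ i j, Y i * X j = if i = j then 1 else 0)
    (h1 : X 0 * Y 0 + X 1 * Y 1 = 1) (hW : ∀ i, ∀ m ∈ W, Y i m ∈ W) (hW0 : W ≠ ⊥)
    (hirr : ∀ K : Submodule k M, (∀ i, ∀ m ∈ K, X i m ∈ K) → (∀ i, ∀ m ∈ K, Y i m ∈ K) →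
      K = ⊥ ∨ K = ⊤) (m : M) : ∃ n, m ∈ tow X W n := by
  have hd : Directed (· ≤ ·) (tow X W) := (tow_mono hYX h1 hW).directed_le
  have hmem : ∀ m, m ∈ (⨆ n, tow X W n) ↔ ∃ n, m ∈ tow X W n :=
    fun m => Submodule.mem_iSup_of_directed _ hd
  have := hirr (⨆ n, tow X W n) (by
      intro i m hm
      rw [hmem] at hm ⊢
      obtain ⟨n, hn⟩ := hm
      exact ⟨n + 1, tow_X n i m hn⟩) (by
      intro i m hm
      rw [hmem] at hm ⊢
      obtain ⟨n, hn⟩ := hm
      exact ⟨n, (tow_mono' hYX h1 hW n).1 i m hn⟩)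
  rcases this with h | h
  · exfalso
    apply hW0
    rw [eq_bot_iff] at h ⊢
    exact (le_iSup (tow X W) 0).trans h
  · rw [← hmem, h]
    trivial

theorem tow_le {K : Submodule k M} (hK : ∀ i, ∀ m ∈ K, X i m ∈ K) (hWK : W ≤ K) (n : ℕ) :
    tow X W n ≤ K := by
  induction n with
  | zero => exact hWK
  | succ n ih =>
    intro m hm
    rw [mem_tow_succ] at hm
    obtain ⟨a, ha, b, hb, rfl⟩ := hm
    exact K.add_mem (hK _ _ (ih ha)) (hK _ _ (ih hb))

theorem tow_fin (hW : FiniteDimensional k W) (n : ℕ) : FiniteDimensional k (tow X W n) := by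
  induction n with
  | zero => exact hW
  | succ n ih =>
    rw [tow]
    infer_instance

theorem dim_bd (b : M →ₗ[k] M →ₗ[k] k) (V V' : Submodule k M) [FiniteDimensional k V']
    (h : ∀ v ∈ V, (∀ g ∈ V', b v g = 0) → v = 0) : Module.finrank k V ≤ Module.finrank k V' := by
  let φ : V →ₗ[k] Module.Dual k V' := (LinearMap.lcomp k k V'.subtype) ∘ₗ b ∘ₗ V.subtype
  have hφ : Function.Injective φ := by
    rw [injective_iff_map_eq_zero]
    intro v hv
    have : (v : M) = 0 := by
      refine h v v.2 (fun g hg => ?_)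
      have := congrArg (fun T : Module.Dual k V' => T ⟨g, hg⟩) hv
      simpa [φ] using this
    exact Submodule.coe_eq_zero.mp this
  have := LinearMap.finrank_le_finrank_of_injective hφ
  rwa [Subspace.dual_finrank_eq] at this

variable {I : Type}

/-- a finite dimensional space of finitely supported functions is supported on a finite set -/
theorem fin_supp (W : Submodule k (I →₀ k)) (hW : FiniteDimensional k W) :
    ∃ D : Finset I, ∀ m ∈ W, ∀ p, m p ≠ 0 → p ∈ D := by
  classical
  obtain ⟨S, hS⟩ := (Submodule.fg_iff_finiteDimensional W).mpr hW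
  refine ⟨S.biUnion (fun m => m.support), ?_⟩
  intro m hm p hp
  have : W ≤ Finsupp.supported k k (S.biUnion (fun m => m.support) : Set I) := by
    rw [← hS, Submodule.span_le]
    intro s hs
    rw [SetLike.mem_coe, Finsupp.mem_supported]
    intro q hq
    simp only [Finset.coe_biUnion, Set.mem_iUnion]
    exact ⟨s, hs, hq⟩
  have h2 := this hm
  rw [Finsupp.mem_supported] at h2
  exact h2 (Finsupp.mem_support_iff.mpr hp)

theorem dp_ext {u v : I →₀ k} (h : ∀ w, dp w u = dp w v) : u = v := by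
  ext i
  have := h (Finsupp.single i 1)
  simpa [dp_single_left] using this

end H_Pair

open H_Pair in
theorem p_pair : T_pair.{u} := by
  intro k _ I A B A' B' hA hB hBA h1 W W' hW hW' fW fW' hBW hAW' hirr hirr' D
  classical
  -- the adjoint relations
  have hBA' : ∀ i j, A' i * B' j = if i = j then 1 else 0 := by
    intro i j
    refine LinearMap.ext fun v => dp_ext fun w => ?_
    rw [Module.End.mul_apply, ← hA, ← hB, ← Module.End.mul_apply, hBA]
    by_cases h : i = j
    · simp [h]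
    · simp [h, Ne.symm h]
  have h1' : B' 0 * A' 0 + B' 1 * A' 1 = 1 := by
    refine LinearMap.ext fun v => dp_ext fun w => ?_
    rw [LinearMap.add_apply, map_add, Module.End.mul_apply, Module.End.mul_apply, ← hB, ← hB, ← hA,
      ← hA, ← LinearMap.add_apply, ← map_add, ← Module.End.mul_apply, ← Module.End.mul_apply,
      ← LinearMap.add_apply, h1]
    rfl
  have t' := tow_top hBA' h1' hAW' hW' (fun K h2 h3 => hirr' K h3 h2)
  have t := tow_top hBA h1 hBW hW hirr
  obtain ⟨DW, hDW⟩ := fin_supp W fW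
  -- a large member of the tower
  obtain ⟨j, hj⟩ : ∃ j, ∀ p ∈ D ∪ DW, (Finsupp.single p 1 : I →₀ k) ∈ tow B' W' j := by
    choose f hf using fun p : I => t' (Finsupp.single p 1)
    refine ⟨(D ∪ DW).sup f, fun p hp => ?_⟩
    exact tow_mono hBA' h1' hAW' (Finset.le_sup hp) (hf p)
  set V' := tow B' W' j with hV'
  have fV' : FiniteDimensional k V' := tow_fin fW' j
  have hAV' : ∀ i, ∀ m ∈ V', A' i m ∈ V' := (tow_mono' hBA' h1' hAW' j).1
  have hV'0 : V' ≠ ⊥ := by
    intro h
    apply hW'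
    rw [eq_bot_iff, ← h]
    exact tow_mono hBA' h1' hAW' (Nat.zero_le j)
  let F : Submodule k (I →₀ k) :=
    { carrier := {f | ∀ g ∈ V', dp f g = 0}
      add_mem' := by
        intro a b ha hb g hg
        rw [map_add, LinearMap.add_apply, ha g hg, hb g hg, add_zero]
      zero_mem' := by
        intro g hg
        simp
      smul_mem' := by
        intro c a ha g hg
        rw [map_smul, LinearMap.smul_apply, ha g hg, smul_zero] }
  have memF : ∀ f, f ∈ F ↔ ∀ g ∈ V', dp f g = 0 := fun f => Iff.rfl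
  have hAF : ∀ i, ∀ m ∈ F, A i m ∈ F := by
    intro i m hm g hg
    rw [hA]
    exact hm _ (hAV' i g hg)
  have hFD : ∀ p ∈ D ∪ DW, ∀ f ∈ F, f p = 0 := by
    intro p hp f hf
    have := hf _ (hj p hp)
    rw [dp_single_right, mul_one] at this
    exact this
  have hWF : W ⊓ F = ⊥ := by
    rw [eq_bot_iff]
    rintro m ⟨hm, hm'⟩
    rw [Submodule.mem_bot]
    ext p
    by_contra hp
    exact hp (hFD p (Finset.mem_union_right _ (hDW m hm p hp)) m hm')
  -- the bound on the dimension
  let Q : Submodule k (I →₀ k) → Prop := fun V =>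
    FiniteDimensional k V ∧ W ≤ V ∧ (∀ i, ∀ m ∈ V, B i m ∈ V) ∧ V ⊓ F = ⊥
  have hbd : ∀ V, Q V → Module.finrank k V ≤ Module.finrank k V' := by
    rintro V ⟨hV1, hV2, hV3, hV4⟩
    refine dim_bd dp V V' (fun v hv hg => ?_)
    have : v ∈ V ⊓ F := ⟨hv, hg⟩
    rwa [hV4, Submodule.mem_bot] at this
  obtain ⟨V, hQ, hmax⟩ : ∃ V, Q V ∧ ∀ V2, Q V2 → Module.finrank k V2 ≤ Module.finrank k V := by
    let T : Set ℕ := {n | ∃ V, Q V ∧ Module.finrank k V = n}
    have hT : T.Nonempty := ⟨_, W, ⟨fW, le_rfl, hBW, hWF⟩, rfl⟩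
    have hT2 : BddAbove T := by
      refine ⟨Module.finrank k V', ?_⟩
      rintro n ⟨V, hV, rfl⟩
      exact hbd V hV
    obtain ⟨V, hV, hV'⟩ := Nat.sSup_mem hT hT2
    refine ⟨V, hV, fun V2 hV2 => ?_⟩
    rw [hV']
    exact le_csSup hT2 ⟨V2, hV2, rfl⟩
  obtain ⟨fV, hWV, hBV, hVF⟩ := hQ
  have hAV : ∀ i, ∀ m ∈ V, A i m ∈ V ⊔ F := by
    intro i v hv
    by_contra hz
    set z := A i v with hzdef
    have hzV : z ∉ V := fun h => hz (Submodule.mem_sup_left h)
    have hQ2 : Q (V ⊔ Submodule.span k {z}) := by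
      refine ⟨inferInstance, hWV.trans le_sup_left, ?_, ?_⟩
      · intro j m hm
        rw [Submodule.mem_sup] at hm
        obtain ⟨a, ha, b, hb, rfl⟩ := hm
        rw [Submodule.mem_span_singleton] at hb
        obtain ⟨c, rfl⟩ := hb
        rw [map_add, map_smul]
        refine Submodule.add_mem _ (Submodule.mem_sup_left (hBV j a ha)) (Submodule.mem_sup_left ?_)
        refine V.smul_mem c ?_
        rw [hzdef, ← Module.End.mul_apply, hBA]
        by_cases h : j = i
        · simpa [h] using hv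
        · simp [h]
      · rw [eq_bot_iff]
        rintro m ⟨hm, hmF⟩
        rw [SetLike.mem_coe, Submodule.mem_sup] at hm
        obtain ⟨a, ha, b, hb, rfl⟩ := hm
        rw [Submodule.mem_span_singleton] at hb
        obtain ⟨c, rfl⟩ := hb
        by_cases hc : c = 0
        · subst hc
          rw [zero_smul, add_zero] at hmF ⊢
          have : a ∈ V ⊓ F := ⟨ha, hmF⟩
          rwa [hVF] at this
        · exfalso
          apply hz
          have : z = c⁻¹ • (-a) + c⁻¹ • (a + c • z) := by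
            rw [smul_neg, smul_add, smul_smul, inv_mul_cancel₀ hc, one_smul]
            abel
          rw [this]
          exact Submodule.add_mem _
            (Submodule.mem_sup_left (V.smul_mem _ (V.neg_mem ha)))
            (Submodule.mem_sup_right (F.smul_mem _ hmF))
    have h3 := hmax _ hQ2
    have h4 : V < V ⊔ Submodule.span k {z} := by
      refine lt_of_le_of_ne le_sup_left ?_
      intro h
      apply hzV
      rw [h]
      exact Submodule.mem_sup_right (Submodule.mem_span_singleton_self z)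
    have h5 := Submodule.finrank_lt_finrank_of_lt h4
    omega
  have hgen : ∀ K : Submodule k (I →₀ k), (∀ i, ∀ m ∈ K, A i m ∈ K) → V ≤ K → K = ⊤ := by
    intro K hK hVK
    rw [eq_top_iff]
    intro m _
    obtain ⟨n, hn⟩ := t m
    exact tow_le hK (hWV.trans hVK) n hn
  have hcompl : IsCompl V F := by
    refine ⟨disjoint_iff.mpr hVF, codisjoint_iff.mpr ?_⟩
    refine hgen _ ?_ le_sup_left
    intro i m hm
    rw [Submodule.mem_sup] at hm
    obtain ⟨a, ha, b, hb, rfl⟩ := hm
    rw [map_add]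
    exact Submodule.add_mem _ (hAV i a ha) (Submodule.mem_sup_right (hAF i b hb))
  refine ⟨V, F, fV, hBV, hAF, fun d hd => hFD d (Finset.mem_union_left _ hd), hcompl, ?_, ?_, ?_,
    hgen⟩
  · obtain ⟨D2, hD2⟩ := fin_supp V' fV'
    refine D2.finite_toSet.subset ?_
    intro p hp
    rw [Set.mem_ofPred_eq, memF] at hp
    push Not at hp
    obtain ⟨g, hg, hg'⟩ := hp
    rw [dp_single_left, one_mul] at hg'
    exact hD2 g hg p hg'
  · have : ∀ j, ∃ D2 : Finset I, ∀ m ∈ V'.map (B' j), ∀ p, m p ≠ 0 → p ∈ D2 :=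
      fun j => fin_supp _ inferInstance
    choose D2 hD2 using this
    refine (D2 0 ∪ D2 1).finite_toSet.subset ?_
    rintro p ⟨j, hp⟩
    rw [memF] at hp
    push Not at hp
    obtain ⟨g, hg, hg'⟩ := hp
    rw [hB, dp_single_left, one_mul] at hg'
    have := hD2 j _ ⟨g, hg, rfl⟩ p hg'
    simp only [Finset.coe_union, Set.mem_union, Finset.mem_coe]
    fin_cases j
    · exact Or.inl this
    · exact Or.inr this
  · intro p
    obtain ⟨n, hn⟩ := tow_top hBA' h1' hAV' hV'0 (fun K h2 h3 => hirr' K h3 h2) (Finsupp.single p 1)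
    refine ⟨n, fun w hw f hf => ?_⟩
    have key : ∀ (w : List (Fin 2)), ∀ g ∈ tow B' V' w.length, dp ((w.map A).prod f) g = 0 := by
      intro w
      induction w with
      | nil =>
        intro g hg
        simpa using hf g hg
      | cons i w ih =>
        intro g hg
        rw [List.length_cons, mem_tow_succ] at hg
        obtain ⟨a, ha, b, hb, rfl⟩ := hg
        have h5 : ∀ j x, B j (A i x) = if j = i then x else 0 := by
          intro j x
          rw [← Module.End.mul_apply, hBA]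
          by_cases h : j = i
          · simp [h]
          · simp [h]
        rw [List.map_cons, List.prod_cons, Module.End.mul_apply, map_add, ← hB, ← hB, h5, h5]
        fin_cases i
        · simpa using ih a ha
        · simpa using ih b hb
    have h3 := key w _ (tow_mono hBA' h1' hAV' hw hn)
    rwa [dp_single_right, mul_one] at h3

end CKS
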