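import Pool.Agent.CKS.Targets

/-! RED: reduction of the general case to the case of two loops. -/

namespace CKS

namespace H_Red1

/-- there is a path of length `n` from `j` to `v` which only reaches `v` at its end -/
def D {V : Type} (v : V) (A : V → V → ℕ) : ℕ → V → Prop
  | 0, j => j = v
  | n + 1, j => j ≠ v ∧ ∃ k, A j k ≠ 0 ∧ D v A n k

lemma D_sub {V : Type} [DecidableEq V] (v : V) (A : V → V → ℕ) (i : V) (n : ℕ) :
    ∀ j, D v A n j → D v (sub A v i) n j := by
  induction n with
  | zero => intro j h; exact h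
  | succ n ih =>
    rintro j ⟨h1, k, hk, hD⟩
    refine ⟨h1, k, ?_, ih k hD⟩
    unfold sub
    rw [if_neg h1]
    exact hk

lemma reach_D {V : Type} (v : V) (A : V → V → ℕ) (j : V) (h : Reach (adjG A) j v) :
    ∃ n, D v A n j := by
  unfold Reach at h
  induction h using Relation.ReflTransGen.head_induction_on with
  | refl => exact ⟨0, rfl⟩
  | @head a b hab _ ih =>
    obtain ⟨n, hn⟩ := ih
    by_cases hav : a = v
    · exact ⟨0, hav⟩
    · obtain ⟨e, he1, he2⟩ := hab
      obtain ⟨x, y, z⟩ := e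
      simp only [adjG] at he1 he2
      subst he1 he2
      refine ⟨n + 1, hav, y, ?_, hn⟩
      intro h0
      rw [h0] at z
      exact z.elim0

lemma main {V : Type} [DecidableEq V] (v : V) (P : (V → V → ℕ) → Prop)
    (h1 : ∀ (A : V → V → ℕ) (j : V), v ≠ j → A v j ≠ 0 → (∃ l, A j l ≠ 0) → P (sub A v j) → P A)
    (h2 : ∀ A : V → V → ℕ, 2 ≤ A v v → P A) (N : ℕ) :
    ∀ (A : V → V → ℕ) (n1 n2 : ℕ) (j1 j2 : V), n1 + n2 = N → D v A n1 j1 → D v A n2 j2 →
      (∀ b, (if b = j1 then 1 else 0) + (if b = j2 then 1 else 0) ≤ A v b) → P A := by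
  induction N with
  | zero =>
    intro A n1 n2 j1 j2 hN hD1 hD2 hr
    obtain ⟨rfl, rfl⟩ : n1 = 0 ∧ n2 = 0 := by omega
    have e1 : j1 = v := hD1
    have e2 : j2 = v := hD2
    subst e1
    subst e2
    apply h2
    have := hr j2
    simpa using this
  | succ N ih =>
    have key : ∀ (A : V → V → ℕ) (n1 n2 : ℕ) (j1 j2 : V), n1 + 1 + n2 = N + 1 →
        D v A (n1 + 1) j1 → D v A n2 j2 →
        (∀ b, (if b = j1 then 1 else 0) + (if b = j2 then 1 else 0) ≤ A v b) → P A := by
      intro A n1 n2 j1 j2 hN hD1 hD2 hr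
      obtain ⟨hj1, k, hk, hDk⟩ := hD1
      refine h1 A j1 (Ne.symm hj1) ?_ ⟨k, hk⟩ ?_
      · have := hr j1
        simp only [if_true] at this
        omega
      · refine ih (sub A v j1) n1 n2 k j2 (by omega) (D_sub v A j1 n1 k hDk)
          (D_sub v A j1 n2 j2 hD2) ?_
        intro b
        unfold sub
        rw [if_pos rfl]
        have := hr b
        have hk' : (if b = k then 1 else 0) ≤ A j1 b := by
          split_ifs with hb
          · subst hb; omega
          · omega
        omega
    intro A n1 n2 j1 j2 hN hD1 hD2 hr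
    cases n1 with
    | succ n1 => exact key A n1 n2 j1 j2 hN hD1 hD2 hr
    | zero =>
      cases n2 with
      | zero => omega
      | succ n2 =>
        refine key A n2 0 j2 j1 (by omega) hD2 hD1 ?_
        intro b
        have := hr b
        omega

end H_Red1

theorem p_reduce : T_reduce := by
  intro V _ _ v P h1 h2 A hA
  obtain ⟨e, f, hef, he, hf, hre, hrf⟩ := hA
  obtain ⟨x, j1, a⟩ := e
  obtain ⟨y, j2, b⟩ := f
  simp only [adjG] at he hf hre hrf
  subst he hf
  obtain ⟨n1, hn1⟩ := H_Red1.reach_D _ A j1 hre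
  obtain ⟨n2, hn2⟩ := H_Red1.reach_D _ A j2 hrf
  refine H_Red1.main _ P h1 h2 (n1 + n2) A n1 n2 j1 j2 rfl hn1 hn2 ?_
  have ha := a.isLt
  have hb := b.isLt
  intro c
  by_cases h12 : j1 = j2
  · subst h12
    split_ifs with hc
    · subst hc
      by_contra hlt
      have hv : a.val = b.val := by omega
      exact hef (by rw [Fin.ext hv])
    · omega
  · split_ifs with hc1 hc2 hc2
    · exact absurd (hc1.symm.trans hc2) h12
    · subst hc1; omega
    · subst hc2; omega
    · omega

end CKS
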