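import Pool.Agent.CKS.Targets

/-!
# RED2: SPI graphs have vertices with two return paths
-/

universe u

namespace CKS

namespace H_Red2

variable {V E : Type} {G : Graph V E}

theorem reach_edge (e : E) : Reach G (G.s e) (G.r e) :=
  Relation.ReflTransGen.single ⟨e, rfl, rfl⟩

theorem chain_head (l : List E) : ∀ a : E, (a :: l).IsChain (fun e f => G.r e = G.s f) →
    ∀ e ∈ a :: l, Reach G (G.s a) (G.s e) := by
  induction l with
  | nil =>
    intro a _ e he
    rw [List.mem_singleton] at he
    subst he
    exact Relation.ReflTransGen.refl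
  | cons b l ih =>
    intro a hc e he
    rw [List.isChain_cons_cons] at hc
    rcases List.mem_cons.1 he with rfl | he
    · exact Relation.ReflTransGen.refl
    · have h1 : Reach G (G.s a) (G.s b) := by
        rw [← hc.1]
        exact reach_edge a
      exact h1.trans (ih b hc.2 e he)

theorem chain_last (l : List E) : ∀ a : E, (a :: l).IsChain (fun e f => G.r e = G.s f) →
    ∀ e ∈ a :: l, Reach G (G.r e) (G.r ((a :: l).getLast (List.cons_ne_nil a l))) := by
  induction l with
  | nil =>
    intro a _ e he
    rw [List.mem_singleton] at he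
    subst he
    exact Relation.ReflTransGen.refl
  | cons b l ih =>
    intro a hc e he
    rw [List.isChain_cons_cons] at hc
    rw [List.getLast_cons (List.cons_ne_nil b l)]
    rcases List.mem_cons.1 he with rfl | he
    · have h1 : Reach G (G.r e) (G.r b) := by
        rw [hc.1]
        exact reach_edge b
      exact h1.trans (ih b hc.2 b List.mem_cons_self)
    · exact ih b hc.2 e he

theorem cycle_return {c : List E} (hc : IsCycle G c) {e : E} (he : e ∈ c) :
    Reach G (G.r e) (G.s e) := by
  obtain ⟨h0, h1, h2, -⟩ := hc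
  cases c with
  | nil => exact absurd rfl h0
  | cons a l =>
    have k1 := chain_last l a h1 e he
    have k2 := chain_head l a h1 e he
    have h2' : G.r ((a :: l).getLast (List.cons_ne_nil a l)) = G.s a := h2
    rw [h2'] at k1
    exact k1.trans k2

theorem all_reach (hG : IsSPI G) {c : List E} (hc : IsCycle G c) {e : E} (he : e ∈ c) (w : V) :
    Reach G w (G.s e) := by
  have hT := hG.herSat {x | ¬ Reach G x (G.s e)} (by
    intro f hf hr
    exact hf ((reach_edge f).trans hr)) (by
    intro v hv hall hr
    rcases Relation.ReflTransGen.cases_head hr with h | ⟨y, ⟨f, hf1, hf2⟩, hy⟩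
    · exact hall e h.symm (cycle_return hc he)
    · refine hall f hf1 ?_
      rw [hf2]
      exact hy)
  rcases hT with h | h
  · by_contra hw
    have : w ∈ ({x | ¬ Reach G x (G.s e)} : Set V) := hw
    rw [h] at this
    exact this
  · have : G.s e ∈ ({x | ¬ Reach G x (G.s e)} : Set V) := by
      rw [h]
      exact Set.mem_univ _
    exact absurd Relation.ReflTransGen.refl this

end H_Red2

open H_Red2

theorem p_spi : T_spi := by
  intro V E _ _ G hG
  obtain ⟨v0⟩ := hG.nonempty
  obtain ⟨c, hc, -⟩ := hG.conn v0
  obtain ⟨e, he, f, hfe, hs⟩ := hG.exit c hc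
  exact ⟨G.s e, e, f, hfe.symm, rfl, hs, all_reach hG hc he _, all_reach hG hc he _⟩

theorem p_spi2 : T_spi2 := by
  refine ⟨⟨0⟩, ?_, ?_, ?_⟩
  · intro H _ _
    rcases H.eq_empty_or_nonempty with h | ⟨x, hx⟩
    · exact Or.inl h
    · right
      ext y
      rw [Subsingleton.elim y x]
      simp [hx]
  · intro c hc
    obtain ⟨h0, -⟩ := hc
    refine ⟨c.head h0, List.head_mem h0, if c.head h0 = 0 then 1 else 0, ?_, rfl⟩
    by_cases h : c.head h0 = 0
    · rw [if_pos h, h]
      decide
    · rw [if_neg h]
      exact fun h' => h h'.symm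
  · intro v
    refine ⟨[0], ⟨by simp, by simp, rfl, by simp⟩, 0, by simp, ?_⟩
    rw [Subsingleton.elim v (G2.s 0)]
    exact Relation.ReflTransGen.refl

end CKS
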