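import Pool.Agent.CKS.Targets

/-! LPA-RED3: edge counting -/

set_option linter.unusedVariables false

universe u

namespace CKS

namespace H_Red3

/-- the edge map to the adjacency graph -/
noncomputable def phi {V E : Type} [Fintype V] [DecidableEq V] [Fintype E] (G : Graph V E)
    (A : V → V → ℕ) (h : ∀ a b, Fintype.card {e // G.s e = a ∧ G.r e = b} = A a b) (e : E) :
    Σ i : V, Σ j : V, Fin (A i j) :=
  ⟨G.s e, G.r e, Fintype.equivFinOfCardEq (h (G.s e) (G.r e)) ⟨e, rfl, rfl⟩⟩

theorem phi_inj {V E : Type} [Fintype V] [DecidableEq V] [Fintype E] (G : Graph V E)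
    (A : V → V → ℕ) (h : ∀ a b, Fintype.card {e // G.s e = a ∧ G.r e = b} = A a b) :
    Function.Injective (phi G A h) := by
  have key : ∀ (e : E) (a b : V) (ha : G.s e = a) (hb : G.r e = b),
      phi G A h e = ⟨a, b, Fintype.equivFinOfCardEq (h a b) ⟨e, ha, hb⟩⟩ := by
    intro e a b ha hb
    subst ha
    subst hb
    rfl
  intro e f hef
  have h1 : G.s e = G.s f := congrArg (fun x => x.1) hef
  have h2 : G.r e = G.r f := congrArg (fun x => x.2.1) hef
  rw [key e (G.s f) (G.r f) h1 h2, key f (G.s f) (G.r f) rfl rfl] at hef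
  simp only [Sigma.mk.injEq, heq_eq_eq, true_and, EmbeddingLike.apply_eq_iff_eq,
    Subtype.mk.injEq] at hef
  exact hef

theorem reach_map {V E : Type} [Fintype V] [DecidableEq V] [Fintype E] (G : Graph V E)
    (A : V → V → ℕ) (h : ∀ a b, Fintype.card {e // G.s e = a ∧ G.r e = b} = A a b) {a b : V}
    (hr : Reach G a b) : Reach (adjG A) a b := by
  refine Relation.ReflTransGen.mono ?_ _ _ hr
  rintro x y ⟨e, h1, h2⟩
  exact ⟨phi G A h e, h1, h2⟩

theorem card_sum {α β : Type} [Fintype α] [Fintype β] (P : α ⊕ β → Prop) [DecidablePred P] :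
    Fintype.card {x // P x} = Fintype.card {a // P (.inl a)} + Fintype.card {b // P (.inr b)} := by
  rw [← Fintype.card_sum]
  exact Fintype.card_congr (Equiv.subtypeSum)

end H_Red3

theorem p_retadj : T_retadj := by
  intro V E _ _ _ G A h v hv
  obtain ⟨e, f, hef, he, hf, hre, hrf⟩ := hv
  exact ⟨H_Red3.phi G A h e, H_Red3.phi G A h f, fun hc => hef (H_Red3.phi_inj G A h hc), he, hf,
    H_Red3.reach_map G A h hre, H_Red3.reach_map G A h hrf⟩

theorem p_spladj : T_spladj := by
  intro V E _ _ _ G A h v a b
  classical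
  rw [H_Red3.card_sum]
  rcases a with a | i
  · rcases b with b | j
    · have h1 : Fintype.card {e : E // (splice G v).s (.inl e) = .inl a ∧
          (splice G v).r (.inl e) = .inl b} = A a b := by
        rw [← h a b]
        refine Fintype.card_congr (Equiv.subtypeEquivRight ?_)
        intro e
        simp [splice]
      have h2 : Fintype.card {i : Fin 6 // (splice G v).s (.inr i : E ⊕ Fin 6) = .inl a ∧
          (splice G v).r (.inr i : E ⊕ Fin 6) = .inl b} = 0 := by
        rw [Fintype.card_eq_zero_iff]
        refine ⟨?_⟩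
        rintro ⟨i, hi1, hi2⟩
        fin_cases i <;> simp [splice] at hi1 hi2
      rw [h1, h2]
      rfl
    · have h1 : Fintype.card {e : E // (splice G v).s (.inl e) = .inl a ∧
          (splice G v).r (.inl e) = .inr j} = 0 := by
        rw [Fintype.card_eq_zero_iff]
        refine ⟨?_⟩
        rintro ⟨e, hi1, hi2⟩
        simp [splice] at hi2
      rw [h1, Fintype.card_subtype, Finset.card_filter, Fin.sum_univ_six]
      fin_cases j <;> simp [splice, spl, eq_comm]
  · rcases b with b | j
    · have h1 : Fintype.card {e : E // (splice G v).s (.inl e) = .inr i ∧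
          (splice G v).r (.inl e) = .inl b} = 0 := by
        rw [Fintype.card_eq_zero_iff]
        refine ⟨?_⟩
        rintro ⟨e, hi1, hi2⟩
        simp [splice] at hi1
      rw [h1, Fintype.card_subtype, Finset.card_filter, Fin.sum_univ_six]
      fin_cases i <;> simp [splice, spl, eq_comm]
    · have h1 : Fintype.card {e : E // (splice G v).s (.inl e) = .inr i ∧
          (splice G v).r (.inl e) = .inr j} = 0 := by
        rw [Fintype.card_eq_zero_iff]
        refine ⟨?_⟩
        rintro ⟨e, hi1, hi2⟩
        simp [splice] at hi1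
      rw [h1, Fintype.card_subtype, Finset.card_filter, Fin.sum_univ_six]
      fin_cases i <;> fin_cases j <;> simp [splice, spl]

end CKS
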