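import Pool.Agent.CKS.Targets

/-!
# SRC: removing a source gives a Morita equivalent Leavitt path algebra
-/

set_option linter.unusedSectionVars false
set_option linter.unusedVariables false

universe u

namespace CKS

namespace H_Src

open CategoryTheory

section Mor

variable {k : Type u} [Field k] {R S : Type u} [Ring R] [Algebra k R] [Ring S] [Algebra k S]

/-- A nonunital `k`-algebra homomorphism. -/
structure Cor (k : Type u) [Field k] (R S : Type u) [Ring R] [Algebra k R] [Ring S]
    [Algebra k S] where
  /-- the map -/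
  j : S → R
  jadd : ∀ a b, j (a + b) = j a + j b
  jmul : ∀ a b, j (a * b) = j a * j b
  jc : ∀ c : k, j (algebraMap k S c) = algebraMap k R c * j 1

variable (J : Cor k R S)

theorem Cor.jzero : J.j 0 = 0 := by
  have := J.jadd 0 0
  rw [add_zero] at this
  exact (left_eq_add.1 this)

/-- The part of a module on which the idempotent acts as the identity. -/
def sg (M : Type u) [AddCommGroup M] [Module R M] : AddSubgroup M where
  carrier := {m | J.j 1 • m = m}
  add_mem' := by
    intro a b ha hb
    simp only [Set.mem_ofPred_eq] at *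
    rw [smul_add, ha, hb]
  zero_mem' := by simp
  neg_mem' := by
    intro a ha
    simp only [Set.mem_ofPred_eq] at *
    rw [smul_neg, ha]

theorem mem_sg {M : Type u} [AddCommGroup M] [Module R M] {m : M} :
    m ∈ sg J M ↔ J.j 1 • m = m := Iff.rfl

theorem j_mem {M : Type u} [AddCommGroup M] [Module R M] (s : S) (m : M) :
    J.j s • m ∈ sg J M := by
  rw [mem_sg, ← mul_smul, ← J.jmul, one_mul]

instance sgMod (M : Type u) [AddCommGroup M] [Module R M] : Module S (sg J M) where
  smul s m := ⟨J.j s • m.1, j_mem J s m.1⟩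
  one_smul m := Subtype.ext m.2
  mul_smul a b m := Subtype.ext (by
    change J.j (a * b) • m.1 = J.j a • J.j b • m.1
    rw [J.jmul, mul_smul])
  smul_zero a := Subtype.ext (by
    change J.j a • (0 : M) = 0
    rw [smul_zero])
  smul_add a m n := Subtype.ext (by
    change J.j a • (m.1 + n.1) = J.j a • m.1 + J.j a • n.1
    rw [smul_add])
  add_smul a b m := Subtype.ext (by
    change J.j (a + b) • m.1 = J.j a • m.1 + J.j b • m.1
    rw [J.jadd, add_smul])
  zero_smul m := Subtype.ext (by
    change J.j 0 • m.1 = 0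
    rw [J.jzero, zero_smul])

theorem sg_smul (M : Type u) [AddCommGroup M] [Module R M] (s : S) (m : sg J M) :
    (s • m).1 = J.j s • m.1 := rfl

/-- the functor on morphisms -/
def sgMap {M N : Type u} [AddCommGroup M] [Module R M] [AddCommGroup N] [Module R N]
    (g : M →ₗ[R] N) : sg J M →ₗ[S] sg J N where
  toFun m := ⟨g m.1, by rw [mem_sg, ← map_smul, (mem_sg J).1 m.2]⟩
  map_add' m n := Subtype.ext (by
    change g (m.1 + n.1) = g m.1 + g n.1
    rw [map_add])
  map_smul' s m := Subtype.ext (by
    change g (J.j s • m.1) = J.j s • g m.1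
    rw [map_smul])

/-- the functor -/
def Fn : ModuleCat.{u} R ⥤ ModuleCat.{u} S where
  obj M := ModuleCat.of S (sg J M)
  map g := ModuleCat.ofHom (sgMap J g.hom)

open scoped ModuleCat.Algebra in
instance : (Fn J).Linear k where
  map_smul {X Y} f c := by
    refine ModuleCat.hom_ext (LinearMap.ext fun m => Subtype.ext ?_)
    change (algebraMap k R c) • (f.hom m.1) = J.j (algebraMap k S c) • (f.hom m.1)
    rw [J.jc, mul_smul, ← map_smul f.hom (J.j 1), (mem_sg J).1 m.2]

theorem morita (hfaith : ∃ (ι : Type) (_ : Fintype ι) (x y : ι → R), ∑ i, x i * J.j 1 * y i = 1)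
    (hfull : ∀ (M N : Type u) [AddCommGroup M] [Module R M] [AddCommGroup N] [Module R N]
      (h : sg J M →ₗ[S] sg J N), ∃ g : M →ₗ[R] N, ∀ m : sg J M, g m.1 = (h m).1)
    (hess : ∀ (N : Type u) [AddCommGroup N] [Module S N], ∃ (M : Type u) (_ : AddCommGroup M)
      (_ : Module R M), Nonempty (sg J M ≃ₗ[S] N)) :
    IsMoritaEquivalent k R S := by
  have h1 : (Fn J).Faithful := by
    refine ⟨fun {X Y} f g hfg => ?_⟩
    obtain ⟨ι, _, x, y, hxy⟩ := hfaith
    refine ModuleCat.hom_ext (LinearMap.ext fun m => ?_)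
    have key : ∀ n : X, J.j 1 • n = n → f.hom n = g.hom n := by
      intro n hn
      have h2 : (sgMap J f.hom) ⟨n, hn⟩ = (sgMap J g.hom) ⟨n, hn⟩ := by
        have h3 : sgMap J f.hom = sgMap J g.hom := by
          have := congrArg ModuleCat.Hom.hom hfg
          exact this
        rw [h3]
      exact congrArg Subtype.val h2
    have h4 : m = ∑ i, x i • (J.j 1 • (y i • m)) := by
      conv_lhs => rw [← one_smul R m, ← hxy, Finset.sum_smul]
      simp only [mul_smul]
    rw [h4, map_sum, map_sum]
    refine Finset.sum_congr rfl fun i _ => ?_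
    rw [map_smul f.hom (x i), map_smul g.hom (x i), key _ (j_mem J 1 _)]
  have h2 : (Fn J).Full := by
    refine ⟨fun {X Y} f => ?_⟩
    obtain ⟨g, hg⟩ := hfull X Y f.hom
    refine ⟨ModuleCat.ofHom g, ?_⟩
    refine ModuleCat.hom_ext (LinearMap.ext fun m => Subtype.ext ?_)
    exact hg m
  have h3 : (Fn J).EssSurj := by
    refine ⟨fun N => ?_⟩
    obtain ⟨M, i1, i2, ⟨e⟩⟩ := hess N
    exact ⟨ModuleCat.of R M, ⟨LinearEquiv.toModuleIso e⟩⟩
  have h4 : (Fn J).IsEquivalence := {}
  exact ⟨⟨⟨(Fn J).asEquivalence, inferInstanceAs ((Fn J).Linear k)⟩⟩⟩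

end Mor

/-! ### the graph with a new source -/

section Graph

variable {k : Type u} [Field k] {V E F : Type}

/-- The graph `G` with a new source `none` emitting the edges `inr f` with range `q f`. -/
def sG (G : Graph V E) (q : F → V) : Graph (Option V) (E ⊕ F) where
  s := fun x => match x with
    | .inl e => some (G.s e)
    | .inr _ => none
  r := fun x => match x with
    | .inl e => some (G.r e)
    | .inr f => some (q f)

variable (k) (G : Graph V E) (q : F → V)

/-- the big algebra -/
abbrev RR : Type u := LPA k (sG G q)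

variable [Fintype V]

/-- the idempotent -/
noncomputable def ff : RR k G q := ∑ a : V, vt (some a)

variable {k G q}

theorem ff_vt (a : V) : ff k G q * vt (some a) = vt (some a) := by
  classical
  rw [ff, Finset.sum_mul, Finset.sum_eq_single a]
  · exact vt_idem _
  · intro b _ hb
    exact vt_orth (fun h => hb (Option.some.inj h))
  · intro h
    exact absurd (Finset.mem_univ a) h

theorem vt_ff (a : V) : vt (some a) * ff k G q = vt (some a) := by
  classical
  rw [ff, Finset.mul_sum, Finset.sum_eq_single a]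
  · exact vt_idem _
  · intro b _ hb
    exact vt_orth (fun h => hb (Option.some.inj h).symm)
  · intro h
    exact absurd (Finset.mem_univ a) h

theorem ff_ff : ff k G q * ff k G q = ff k G q := by
  conv_lhs => rw [ff, Finset.sum_mul]
  exact Finset.sum_congr rfl fun a _ => vt_ff a

theorem ff_none : ff k G q * vt none = 0 := by
  rw [ff, Finset.sum_mul]
  exact Finset.sum_eq_zero fun a _ => vt_orth (by simp)

theorem none_ff : vt none * ff k G q = 0 := by
  rw [ff, Finset.mul_sum]
  exact Finset.sum_eq_zero fun a _ => vt_orth (by simp)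

theorem one_ff : (1 : RR k G q) = ff k G q + vt none := by
  rw [← one_rel, Fintype.sum_option, add_comm, ff]

theorem ff_idem : IsIdempotentElem (ff k G q) := ff_ff

theorem ff_edl (e : E) : ff k G q * ed (.inl e) = ed (.inl e) := by
  have h := s_ed (k := k) (G := sG G q) (Reg := (sG G q).IsReg) (.inl e)
  rw [← h, ← mul_assoc]
  congr 1
  exact ff_vt _

theorem edl_ff (e : E) : ed (.inl e) * ff k G q = ed (.inl e) := by
  have h := ed_r (k := k) (G := sG G q) (Reg := (sG G q).IsReg) (.inl e)
  rw [← h, mul_assoc]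
  congr 1
  exact vt_ff _

theorem ff_ghl (e : E) : ff k G q * gh (.inl e) = gh (.inl e) := by
  have h := r_gh (k := k) (G := sG G q) (Reg := (sG G q).IsReg) (.inl e)
  rw [← h, ← mul_assoc]
  congr 1
  exact ff_vt _

theorem ghl_ff (e : E) : gh (.inl e) * ff k G q = gh (.inl e) := by
  have h := gh_s (k := k) (G := sG G q) (Reg := (sG G q).IsReg) (.inl e)
  rw [← h, mul_assoc]
  congr 1
  exact vt_ff _

theorem ff_edr (f : F) : ff k G q * ed (.inr f) = 0 := by
  have h := s_ed (k := k) (G := sG G q) (Reg := (sG G q).IsReg) (.inr f)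
  rw [← h, ← mul_assoc]
  have : ff k G q * vt ((sG G q).s (Sum.inr f)) = 0 := ff_none
  rw [this, zero_mul]

theorem edr_ff (f : F) : ed (.inr f) * ff k G q = ed (.inr f) := by
  have h := ed_r (k := k) (G := sG G q) (Reg := (sG G q).IsReg) (.inr f)
  rw [← h, mul_assoc]
  congr 1
  exact vt_ff _

theorem ff_ghr (f : F) : ff k G q * gh (.inr f) = gh (.inr f) := by
  have h := r_gh (k := k) (G := sG G q) (Reg := (sG G q).IsReg) (.inr f)
  rw [← h, ← mul_assoc]
  congr 1
  exact ff_vt _

theorem ghr_ff (f : F) : gh (.inr f) * ff k G q = 0 := by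
  have h := gh_s (k := k) (G := sG G q) (Reg := (sG G q).IsReg) (.inr f)
  rw [← h, mul_assoc]
  have : vt ((sG G q).s (Sum.inr f)) * ff k G q = 0 := none_ff
  rw [this, mul_zero]

variable (k G q) in
/-- the corner -/
abbrev Crn : Type u := (ff_idem (k := k) (G := G) (q := q)).Corner

theorem crn_mem {x : RR k G q} (h1 : ff k G q * x = x) (h2 : x * ff k G q = x) :
    x ∈ Subsemigroup.corner (ff k G q) :=
  (Subsemigroup.mem_corner_iff ff_idem).2 ⟨h1, h2⟩

theorem crn_l (x : Crn k G q) : ff k G q * x.1 = x.1 :=
  ((Subsemigroup.mem_corner_iff ff_idem).1 x.2).1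

theorem crn_r (x : Crn k G q) : x.1 * ff k G q = x.1 :=
  ((Subsemigroup.mem_corner_iff ff_idem).1 x.2).2

theorem crn_mul (x y : Crn k G q) : (x * y).1 = x.1 * y.1 := rfl
theorem crn_add (x y : Crn k G q) : (x + y).1 = x.1 + y.1 := rfl
theorem crn_one : (1 : Crn k G q).1 = ff k G q := rfl
theorem crn_zero : (0 : Crn k G q).1 = 0 := rfl

noncomputable instance : Algebra k (Crn k G q) where
  smul c x := ⟨c • x.1, crn_mem (by rw [mul_smul_comm, crn_l]) (by rw [smul_mul_assoc, crn_r])⟩
  algebraMap :=
    { toFun := fun c => ⟨c • ff k G q, crn_mem (by rw [mul_smul_comm, ff_ff])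
        (by rw [smul_mul_assoc, ff_ff])⟩
      map_one' := Subtype.ext (by simp [crn_one])
      map_mul' := fun a b => Subtype.ext (by
        change (a * b) • ff k G q = (a • ff k G q) * (b • ff k G q)
        rw [smul_mul_smul_comm, ff_ff])
      map_zero' := Subtype.ext (by simp [crn_zero])
      map_add' := fun a b => Subtype.ext (by
        change (a + b) • ff k G q = (a • ff k G q) + (b • ff k G q)
        rw [add_smul]) }
  commutes' c x := Subtype.ext (by
    rw [crn_mul, crn_mul]
    change c • ff k G q * x.1 = x.1 * (c • ff k G q)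
    rw [smul_mul_assoc, mul_smul_comm, crn_l, crn_r])
  smul_def' c x := Subtype.ext (by
    rw [crn_mul]
    change c • x.1 = c • ff k G q * x.1
    rw [smul_mul_assoc, crn_l])

theorem crn_sum {α : Type} (s : Finset α) (g : α → Crn k G q) :
    (∑ a ∈ s, g a).1 = ∑ a ∈ s, (g a).1 := by
  classical
  induction s using Finset.induction_on with
  | empty => rfl
  | insert a s ha ih => rw [Finset.sum_insert ha, Finset.sum_insert ha, crn_add, ih]

theorem reg_iff [Nonempty F] (a : V) : (sG G q).IsReg (some a) ↔ G.IsReg a := by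
  constructor
  · rintro ⟨e | f, h⟩
    · exact ⟨e, Option.some.inj h⟩
    · cases h
  · rintro ⟨e, h⟩
    exact ⟨.inl e, congrArg some h⟩

variable (k G q) in
/-- the family in the corner -/
noncomputable def cfam : Fam k G G.IsReg (Crn k G q) where
  p a := ⟨vt (some a), crn_mem (ff_vt a) (vt_ff a)⟩
  x e := ⟨ed (.inl e), crn_mem (ff_edl e) (edl_ff e)⟩
  y e := ⟨gh (.inl e), crn_mem (ff_ghl e) (ghl_ff e)⟩
  idem a := Subtype.ext (vt_idem _)
  orth a b h := Subtype.ext (vt_orth (fun h' => h (Option.some.inj h')))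
  se e := Subtype.ext (s_ed (G := sG G q) (.inl e))
  er e := Subtype.ext (ed_r (G := sG G q) (.inl e))
  rg e := Subtype.ext (r_gh (G := sG G q) (.inl e))
  gs e := Subtype.ext (gh_s (G := sG G q) (.inl e))
  ge e := Subtype.ext (gh_ed (G := sG G q) (.inl e))
  gf e f h := Subtype.ext (gh_ed_ne (G := sG G q) (fun h' => h (Sum.inl_injective h')))
  ck a ha S hS := Subtype.ext (by
    classical
    rw [crn_sum]
    have h1 : (sG G q).IsReg (some a) := by
      obtain ⟨e, he⟩ := ha
      exact ⟨.inl e, congrArg some he⟩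
    have h2 := ck_rel (k := k) (G := sG G q) (Reg := (sG G q).IsReg) h1
      (S.map ⟨Sum.inl, Sum.inl_injective⟩) (by
        rintro (e | f)
        · rw [Finset.mem_map]
          constructor
          · rintro ⟨e', he', h3⟩
            obtain rfl := Sum.inl_injective h3
            exact congrArg some ((hS e').1 he')
          · intro h3
            exact ⟨e, (hS e).2 (Option.some.inj h3), rfl⟩
        · rw [Finset.mem_map]
          constructor
          · rintro ⟨e', he', h3⟩
            cases h3
          · intro h3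
            cases h3)
    rw [Finset.sum_map] at h2
    exact h2)
  one S hS := Subtype.ext ((crn_sum S (fun a : V =>
      (⟨vt (some a), crn_mem (ff_vt a) (vt_ff a)⟩ : Crn k G q))).trans (by
    have : S = Finset.univ := Finset.eq_univ_iff_forall.2 hS
    rw [this]
    rfl))

variable (k G q) in
/-- the corner homomorphism -/
noncomputable def JJ : Cor k (RR k G q) (LPA k G) where
  j b := ((cfam k G q).lift b).1
  jadd a b := by rw [map_add]; rfl
  jmul a b := by rw [map_mul]; rfl
  jc c := by
    rw [AlgHom.commutes, map_one, crn_one]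
    change c • ff k G q = _
    rw [Algebra.smul_def]

theorem JJ_one : (JJ k G q).j 1 = ff k G q := by
  change ((cfam k G q).lift 1).1 = _
  rw [map_one, crn_one]

theorem JJ_vt (a : V) : (JJ k G q).j (vt a) = vt (some a) := by
  change ((cfam k G q).lift (vt a)).1 = _
  rw [lift_vt]
  rfl

theorem JJ_ed (e : E) : (JJ k G q).j (ed e) = ed (.inl e) := by
  change ((cfam k G q).lift (ed e)).1 = _
  rw [lift_ed]
  rfl

theorem JJ_gh (e : E) : (JJ k G q).j (gh e) = gh (.inl e) := by
  change ((cfam k G q).lift (gh e)).1 = _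
  rw [lift_gh]
  rfl

theorem ff_j (s : LPA k G) : ff k G q * (JJ k G q).j s = (JJ k G q).j s := crn_l _
theorem j_ff (s : LPA k G) : (JJ k G q).j s * ff k G q = (JJ k G q).j s := crn_r _

theorem none_sum [Fintype F] [Nonempty F] :
    (∑ f : F, ed (.inr f) * gh (.inr f) : RR k G q) = vt none := by
  classical
  have h1 : (sG G q).IsReg none := ⟨.inr (Classical.arbitrary F), rfl⟩
  have h2 := ck_rel (k := k) (G := sG G q) (Reg := (sG G q).IsReg) h1
    ((Finset.univ : Finset F).map ⟨Sum.inr, Sum.inr_injective⟩) (by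
      rintro (e | f)
      · rw [Finset.mem_map]
        constructor
        · rintro ⟨e', he', h3⟩
          cases h3
        · intro h3
          cases h3
      · rw [Finset.mem_map]
        constructor
        · intro _
          rfl
        · intro _
          exact ⟨f, Finset.mem_univ f, rfl⟩)
  rw [Finset.sum_map] at h2
  exact h2

section Full

variable {M N : Type u} [AddCommGroup M] [Module (RR k G q) M] [AddCommGroup N]
  [Module (RR k G q) N] (h : sg (JJ k G q) M →ₗ[LPA k G] sg (JJ k G q) N)

/-- the extension by zero -/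
noncomputable def hh (m : M) : N := (h ⟨(JJ k G q).j 1 • m, j_mem _ 1 m⟩).1

theorem hh_add (m n : M) : hh h (m + n) = hh h m + hh h n := by
  have : (⟨(JJ k G q).j 1 • (m + n), j_mem _ 1 (m + n)⟩ : sg (JJ k G q) M)
      = ⟨(JJ k G q).j 1 • m, j_mem _ 1 m⟩ + ⟨(JJ k G q).j 1 • n, j_mem _ 1 n⟩ :=
    Subtype.ext (smul_add _ _ _)
  rw [hh, this, map_add]
  rfl

theorem hh_zero : hh h (0 : M) = 0 := by
  have := hh_add h 0 0
  rw [add_zero] at this
  exact left_eq_add.1 this

theorem hh_j (s : LPA k G) (m : M) : hh h ((JJ k G q).j s • m) = (JJ k G q).j s • hh h m := by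
  have : (⟨(JJ k G q).j 1 • ((JJ k G q).j s • m), j_mem _ 1 _⟩ : sg (JJ k G q) M)
      = s • ⟨(JJ k G q).j 1 • m, j_mem _ 1 m⟩ := by
    refine Subtype.ext ?_
    change (JJ k G q).j 1 • (JJ k G q).j s • m = (JJ k G q).j s • (JJ k G q).j 1 • m
    rw [← mul_smul, ← mul_smul, ← (JJ k G q).jmul, ← (JJ k G q).jmul, one_mul, mul_one]
  rw [hh, this, map_smul]
  rfl

theorem ff_hh (m : M) : ff k G q • hh h m = hh h m := by
  rw [← JJ_one]
  exact (mem_sg (JJ k G q)).1 (h ⟨(JJ k G q).j 1 • m, j_mem _ 1 m⟩).2

theorem hh_ff (m : M) : hh h (ff k G q • m) = hh h m := by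
  rw [← JJ_one, hh_j, JJ_one]
  exact ff_hh h m

theorem hh_sg (m : sg (JJ k G q) M) : hh h m.1 = (h m).1 := by
  rw [hh]
  congr 2
  exact Subtype.ext m.2

theorem hh_kill {r : RR k G q} (hr : ff k G q * r = 0) (m : M) : hh h (r • m) = 0 := by
  rw [← hh_ff, ← mul_smul, hr, zero_smul, hh_zero]

theorem kill_hh {r : RR k G q} (hr : r * ff k G q = 0) (m : M) : r • hh h m = 0 := by
  rw [← ff_hh, ← mul_smul, hr, zero_smul]

variable [Fintype F]

/-- the extension of a morphism -/
noncomputable def gg (m : M) : N :=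
  hh h m + ∑ f : F, (ed (.inr f) : RR k G q) • hh h ((gh (.inr f) : RR k G q) • m)

theorem gg_add (m n : M) : gg h (m + n) = gg h m + gg h n := by
  simp only [gg, smul_add, hh_add, Finset.sum_add_distrib]
  abel

theorem gg_zero : gg h (0 : M) = 0 := by
  simp [gg, hh_zero]

theorem edl_edr (e : E) (f : F) : (ed (.inl e) * ed (.inr f) : RR k G q) = 0 :=
  ed_ed (G := sG G q) (by simp [sG])
theorem edr_edr (e f : F) : (ed (.inr e) * ed (.inr f) : RR k G q) = 0 :=
  ed_ed (G := sG G q) (by simp [sG])
theorem ghr_ghl (e : E) (f : F) : (gh (.inr f) * gh (.inl e) : RR k G q) = 0 :=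
  gh_gh (G := sG G q) (by simp [sG])
theorem ghr_ghr (e f : F) : (gh (.inr f) * gh (.inr e) : RR k G q) = 0 :=
  gh_gh (G := sG G q) (by simp [sG])

theorem gg_smul (r : RR k G q) (m : M) : gg h (r • m) = r • gg h m := by
  classical
  let S : Subalgebra k (RR k G q) :=
    { carrier := {r | ∀ m : M, gg h (r • m) = r • gg h m}
      mul_mem' := by
        intro a b ha hb m
        rw [mul_smul, ha, hb, mul_smul]
      add_mem' := by
        intro a b ha hb m
        rw [add_smul, gg_add, ha, hb, add_smul]
      algebraMap_mem' := by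
        intro c m
        have key : ∀ m : M, hh h (algebraMap k (RR k G q) c • m)
            = algebraMap k (RR k G q) c • hh h m := by
          intro m
          rw [← hh_ff, ← mul_smul, ← Algebra.commutes, ← JJ_one, ← (JJ k G q).jc, hh_j,
            (JJ k G q).jc, JJ_one, mul_smul, ff_hh]
        rw [gg, gg, smul_add, key, Finset.smul_sum]
        congr 1
        refine Finset.sum_congr rfl fun f _ => ?_
        rw [← mul_smul, ← Algebra.commutes, mul_smul, key, ← mul_smul, ← Algebra.commutes,
          mul_smul] }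
  refine mem_of_gen k (sG G q) _ S (fun a => ?_) (fun e => ?_) (fun e => ?_) r m
  · rcases a with _ | a
    · intro m
      rw [gg, gg, smul_add, hh_kill h ff_none, kill_hh h none_ff, zero_add, zero_add,
        Finset.smul_sum]
      refine Finset.sum_congr rfl fun f _ => ?_
      have h1 : (gh (.inr f) * vt none : RR k G q) = gh (.inr f) := gh_s (G := sG G q) (.inr f)
      have h2 : (vt none * ed (.inr f) : RR k G q) = ed (.inr f) := s_ed (G := sG G q) (.inr f)
      rw [← mul_smul, h1, ← mul_smul, h2]
    · intro m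
      rw [gg, gg, smul_add, ← JJ_vt, hh_j, JJ_vt, Finset.smul_sum]
      congr 1
      rw [Finset.sum_eq_zero, Finset.sum_eq_zero]
      · intro f _
        have h2 : (vt (some a) * ed (.inr f) : RR k G q) = 0 :=
          vt_ed (G := sG G q) (by simp [sG])
        rw [← mul_smul, h2, zero_smul]
      · intro f _
        have h1 : (gh (.inr f) * vt (some a) : RR k G q) = 0 :=
          gh_vt (G := sG G q) (by simp [sG])
        rw [← mul_smul, h1, zero_smul, hh_zero, smul_zero]
  · rcases e with e | f0
    · intro m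
      rw [gg, gg, smul_add, ← JJ_ed, hh_j, JJ_ed, Finset.smul_sum]
      congr 1
      rw [Finset.sum_eq_zero, Finset.sum_eq_zero]
      · intro f _
        rw [← mul_smul, edl_edr, zero_smul]
      · intro f _
        have h1 : (gh (.inr f) * ed (.inl e) : RR k G q) = 0 :=
          gh_ed_ne (G := sG G q) (by simp)
        rw [← mul_smul, h1, zero_smul, hh_zero, smul_zero]
    · intro m
      rw [gg, gg, smul_add, hh_kill h (ff_edr f0), zero_add, Finset.smul_sum,
        Finset.sum_eq_single f0]
      · have h1 : (gh (.inr f0) * ed (.inr f0) : RR k G q) = vt (some (q f0)) :=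
          gh_ed (G := sG G q) (.inr f0)
        have h2 : (ed (.inr f0) * vt (some (q f0)) : RR k G q) = ed (.inr f0) :=
          ed_r (G := sG G q) (.inr f0)
        rw [← mul_smul, h1, ← JJ_vt, hh_j, JJ_vt, ← mul_smul, h2, Finset.sum_eq_zero, add_zero]
        intro f _
        rw [← mul_smul, edr_edr, zero_smul]
      · intro f _ hf
        have h1 : (gh (.inr f) * ed (.inr f0) : RR k G q) = 0 :=
          gh_ed_ne (G := sG G q) (fun h' => hf (Sum.inr_injective h'))
        rw [← mul_smul, h1, zero_smul, hh_zero, smul_zero]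
      · intro h'
        exact absurd (Finset.mem_univ _) h'
  · rcases e with e | f0
    · intro m
      rw [gg, gg, smul_add, ← JJ_gh, hh_j, JJ_gh, Finset.smul_sum]
      congr 1
      rw [Finset.sum_eq_zero, Finset.sum_eq_zero]
      · intro f _
        have h1 : (gh (.inl e) * ed (.inr f) : RR k G q) = 0 :=
          gh_ed_ne (G := sG G q) (by simp)
        rw [← mul_smul, h1, zero_smul]
      · intro f _
        rw [← mul_smul, ghr_ghl, zero_smul, hh_zero, smul_zero]
    · intro m
      rw [gg, gg, smul_add, kill_hh h (ghr_ff f0), zero_add, Finset.smul_sum,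
        Finset.sum_eq_zero (s := (Finset.univ : Finset F)), add_zero, Finset.sum_eq_single f0]
      · have h1 : (gh (.inr f0) * ed (.inr f0) : RR k G q) = vt (some (q f0)) :=
          gh_ed (G := sG G q) (.inr f0)
        have h2 : (vt (some (q f0)) * gh (.inr f0) : RR k G q) = gh (.inr f0) :=
          r_gh (G := sG G q) (.inr f0)
        rw [← mul_smul, h1, ← JJ_vt, ← hh_j, JJ_vt, ← mul_smul, h2]
      · intro f _ hf
        have h1 : (gh (.inr f0) * ed (.inr f) : RR k G q) = 0 :=
          gh_ed_ne (G := sG G q) (fun h' => hf (Sum.inr_injective h').symm)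
        rw [← mul_smul, h1, zero_smul]
      · intro h'
        exact absurd (Finset.mem_univ _) h'
      · intro f _
        rw [← mul_smul, ghr_ghr, zero_smul, hh_zero, smul_zero]

end Full

section Ess

variable {N : Type u} [AddCommGroup N] [Module k N] (ρ : LPA k G →ₐ[k] Module.End k N)

/-- the part over a vertex -/
def Nf (a : V) : Submodule k N where
  carrier := {n | ρ (vt a) n = n}
  add_mem' := by
    intro m n hm hn
    simp only [Set.mem_ofPred_eq] at *
    rw [map_add, hm, hn]
  zero_mem' := by simp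
  smul_mem' := by
    intro c m hm
    simp only [Set.mem_ofPred_eq] at *
    rw [map_smul, hm]

theorem mem_Nf (a : V) (n : N) : ρ (vt a) n ∈ Nf ρ a := by
  change ρ (vt a) (ρ (vt a) n) = ρ (vt a) n
  rw [← Module.End.mul_apply, ← map_mul, vt_idem]

variable (q) in
/-- the module over the big algebra -/
abbrev MX : Type u := N × (∀ f : F, Nf ρ (q f))

variable (q) in
/-- operators of the small module -/
def LL (T : Module.End k N) : Module.End k (MX q ρ) :=
  LinearMap.inl k N _ ∘ₗ T ∘ₗ LinearMap.fst k N _

variable (q) in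
/-- projection to the second factor -/
def QQ : Module.End k (MX q ρ) := LinearMap.inr k N _ ∘ₗ LinearMap.snd k N _

open Classical in
variable (q) in
/-- the new edges -/
noncomputable def XX (f : F) : Module.End k (MX q ρ) :=
  LinearMap.inr k N _ ∘ₗ LinearMap.single k (fun f : F => Nf ρ (q f)) f ∘ₗ
    LinearMap.codRestrict (Nf ρ (q f)) (ρ (vt (q f))) (mem_Nf ρ (q f)) ∘ₗ LinearMap.fst k N _

variable (q) in
/-- the new ghost edges -/
def YY (f : F) : Module.End k (MX q ρ) :=
  LinearMap.inl k N _ ∘ₗ (Nf ρ (q f)).subtype ∘ₗ LinearMap.proj f ∘ₗ LinearMap.snd k N _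

theorem LL_app (T : Module.End k N) (m : MX q ρ) : LL q ρ T m = (T m.1, 0) := rfl
theorem QQ_app (m : MX q ρ) : QQ q ρ m = (0, m.2) := rfl
open Classical in
theorem XX_app (f : F) (m : MX q ρ) :
    XX q ρ f m = (0, Pi.single f ⟨ρ (vt (q f)) m.1, mem_Nf ρ (q f) m.1⟩) := rfl
theorem YY_app (f : F) (m : MX q ρ) : YY q ρ f m = ((m.2 f).1, 0) := rfl

theorem LL_mul (T T' : Module.End k N) : LL q ρ T * LL q ρ T' = LL q ρ (T * T') := rfl
theorem LL_zero : LL q ρ (0 : Module.End k N) = 0 := rfl
theorem LL_add (T T' : Module.End k N) : LL q ρ (T + T') = LL q ρ T + LL q ρ T' := by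
  refine LinearMap.ext fun m => ?_
  rw [LinearMap.add_apply, LL_app, LL_app, LL_app, Prod.mk_add_mk, add_zero, LinearMap.add_apply]
theorem LL_smul (c : k) (T : Module.End k N) : LL q ρ (c • T) = c • LL q ρ T := by
  refine LinearMap.ext fun m => ?_
  rw [LinearMap.smul_apply, LL_app, LL_app, Prod.smul_mk, smul_zero, LinearMap.smul_apply]
theorem LL_sum {α : Type} (s : Finset α) (g : α → Module.End k N) :
    LL q ρ (∑ a ∈ s, g a) = ∑ a ∈ s, LL q ρ (g a) := by
  classical
  induction s using Finset.induction_on with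
  | empty => rfl
  | insert a s ha ih => rw [Finset.sum_insert ha, Finset.sum_insert ha, LL_add, ih]
theorem LL_QQ : LL q ρ 1 + QQ q ρ = 1 := by
  refine LinearMap.ext fun m => ?_
  rw [LinearMap.add_apply, LL_app, QQ_app, Prod.mk_add_mk, add_zero, zero_add]
  rfl

variable [Fintype F]

variable (q) in
/-- The family on the big module. -/
noncomputable def efam : Fam k (sG G q) (sG G q).IsReg (Module.End k (MX q ρ)) where
  p a := match a with
    | none => QQ q ρ
    | some a => LL q ρ (ρ (vt a))
  x e := match e with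
    | .inl e => LL q ρ (ρ (ed e))
    | .inr f => XX q ρ f
  y e := match e with
    | .inl e => LL q ρ (ρ (gh e))
    | .inr f => YY q ρ f
  idem a := by
    rcases a with _ | a
    · rfl
    · simp only
      rw [LL_mul, ← map_mul, vt_idem]
  orth a b h := by
    rcases a with _ | a <;> rcases b with _ | b
    · exact absurd rfl h
    · rfl
    · refine LinearMap.ext fun m => ?_
      simp only
      rw [Module.End.mul_apply, QQ_app, LL_app, map_zero]
      rfl
    · simp only
      rw [LL_mul, ← map_mul, vt_orth (fun h' => h (congrArg some h')), map_zero, LL_zero]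
  se e := by
    rcases e with e | f
    · change LL q ρ (ρ (vt (G.s e))) * LL q ρ (ρ (ed e)) = LL q ρ (ρ (ed e))
      rw [LL_mul, ← map_mul, s_ed]
    · rfl
  er e := by
    rcases e with e | f
    · change LL q ρ (ρ (ed e)) * LL q ρ (ρ (vt (G.r e))) = LL q ρ (ρ (ed e))
      rw [LL_mul, ← map_mul, ed_r]
    · change XX q ρ f * LL q ρ (ρ (vt (q f))) = XX q ρ f
      refine LinearMap.ext fun m => ?_
      rw [Module.End.mul_apply, XX_app, XX_app, LL_app]
      congr 2
      refine Subtype.ext ?_
      change ρ (vt (q f)) (ρ (vt (q f)) m.1) = ρ (vt (q f)) m.1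
      exact mem_Nf ρ (q f) m.1
  rg e := by
    rcases e with e | f
    · change LL q ρ (ρ (vt (G.r e))) * LL q ρ (ρ (gh e)) = LL q ρ (ρ (gh e))
      rw [LL_mul, ← map_mul, r_gh]
    · change LL q ρ (ρ (vt (q f))) * YY q ρ f = YY q ρ f
      refine LinearMap.ext fun m => ?_
      rw [Module.End.mul_apply, YY_app, LL_app]
      exact Prod.ext (m.2 f).2 rfl
  gs e := by
    rcases e with e | f
    · change LL q ρ (ρ (gh e)) * LL q ρ (ρ (vt (G.s e))) = LL q ρ (ρ (gh e))
      rw [LL_mul, ← map_mul, gh_s]
    · rfl
  ge e := by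
    rcases e with e | f
    · change LL q ρ (ρ (gh e)) * LL q ρ (ρ (ed e)) = LL q ρ (ρ (vt (G.r e)))
      rw [LL_mul, ← map_mul, gh_ed]
    · change YY q ρ f * XX q ρ f = LL q ρ (ρ (vt (q f)))
      refine LinearMap.ext fun m => ?_
      rw [Module.End.mul_apply, XX_app, YY_app, LL_app]
      simp
  gf e f h := by
    rcases e with e | e <;> rcases f with f | f
    · change LL q ρ (ρ (gh e)) * LL q ρ (ρ (ed f)) = 0
      rw [LL_mul, ← map_mul, gh_ed_ne (fun h' => h (congrArg Sum.inl h')), map_zero, LL_zero]
    · change LL q ρ (ρ (gh e)) * XX q ρ f = 0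
      refine LinearMap.ext fun m => ?_
      rw [Module.End.mul_apply, XX_app, LL_app, map_zero]
      rfl
    · rfl
    · change YY q ρ e * XX q ρ f = 0
      refine LinearMap.ext fun m => ?_
      have hef : e ≠ f := fun h' => h (congrArg Sum.inr h')
      rw [Module.End.mul_apply, XX_app, YY_app]
      classical
      simp only [Pi.single_eq_of_ne hef]
      rfl
  ck a ha S hS := by
    classical
    rcases a with _ | a
    · have h1 : S = (Finset.univ : Finset F).map ⟨Sum.inr, Sum.inr_injective⟩ := by
        ext e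
        rw [hS, Finset.mem_map]
        rcases e with e | f
        · constructor
          · intro h; cases h
          · rintro ⟨_, _, h⟩; cases h
        · exact ⟨fun _ => ⟨f, Finset.mem_univ f, rfl⟩, fun _ => rfl⟩
      rw [h1, Finset.sum_map]
      change ∑ f : F, XX q ρ f * YY q ρ f = QQ q ρ
      refine LinearMap.ext fun m => ?_
      rw [LinearMap.sum_apply, QQ_app]
      have h2 : ∀ f : F, (XX q ρ f * YY q ρ f) m = (0, Pi.single f (m.2 f)) := by
        intro f
        rw [Module.End.mul_apply, YY_app, XX_app]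
        congr 2
        exact Subtype.ext (m.2 f).2
      rw [Finset.sum_congr rfl (fun f _ => h2 f)]
      refine Prod.ext ?_ ?_
      · rw [Prod.fst_sum]
        simp
      · rw [Prod.snd_sum]
        exact Finset.univ_sum_single m.2
    · have ha' : G.IsReg a := by
        obtain ⟨e | f, he⟩ := ha
        · exact ⟨e, Option.some.inj he⟩
        · cases he
      have h1 : S = (S.preimage Sum.inl Sum.inl_injective.injOn).map
          ⟨Sum.inl, Sum.inl_injective⟩ := by
        ext e
        rw [Finset.mem_map]
        rcases e with e | f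
        · constructor
          · intro h
            exact ⟨e, Finset.mem_preimage.2 h, rfl⟩
          · rintro ⟨e', he', h⟩
            obtain rfl := Sum.inl_injective h
            exact Finset.mem_preimage.1 he'
        · constructor
          · intro h
            have := (hS _).1 h
            cases this
          · rintro ⟨_, _, h⟩; cases h
      rw [h1, Finset.sum_map]
      change ∑ e ∈ S.preimage Sum.inl Sum.inl_injective.injOn,
        LL q ρ (ρ (ed e)) * LL q ρ (ρ (gh e)) = LL q ρ (ρ (vt a))
      simp only [LL_mul, ← map_mul]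
      rw [← LL_sum, ← map_sum, ck_rel ha']
      intro e
      rw [Finset.mem_preimage, hS]
      exact ⟨fun h => Option.some.inj h, fun h => congrArg some h⟩
  one S hS := by
    have : S = Finset.univ := Finset.eq_univ_iff_forall.2 hS
    rw [this, Fintype.sum_option]
    change QQ q ρ + ∑ a : V, LL q ρ (ρ (vt a)) = 1
    rw [← LL_sum, ← map_sum, one_rel, map_one, add_comm, LL_QQ]

theorem efam_j (s : LPA k G) : (efam q ρ).lift ((JJ k G q).j s) = LL q ρ (ρ s) := by
  have hff : (efam q ρ).lift (ff k G q) = LL q ρ 1 := by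
    rw [ff, map_sum]
    have : ∀ a : V, (efam q ρ).lift (vt (some a)) = LL q ρ (ρ (vt a)) := fun a => lift_vt _ _
    rw [Finset.sum_congr rfl (fun a _ => this a), ← LL_sum, ← map_sum, one_rel, map_one]
  let S : Subalgebra k (LPA k G) :=
    { carrier := {s | (efam q ρ).lift ((JJ k G q).j s) = LL q ρ (ρ s)}
      mul_mem' := by
        intro a b ha hb
        simp only [Set.mem_ofPred_eq] at *
        rw [(JJ k G q).jmul, map_mul, ha, hb, LL_mul, map_mul]
      add_mem' := by
        intro a b ha hb
        simp only [Set.mem_ofPred_eq] at *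
        rw [(JJ k G q).jadd, map_add, ha, hb, map_add, LL_add]
      algebraMap_mem' := by
        intro c
        simp only [Set.mem_ofPred_eq]
        rw [(JJ k G q).jc, JJ_one, map_mul, AlgHom.commutes, AlgHom.commutes, hff,
          Algebra.algebraMap_eq_smul_one, Algebra.algebraMap_eq_smul_one, LL_smul,
          smul_mul_assoc, one_mul] }
  refine mem_of_gen k G _ S (fun a => ?_) (fun e => ?_) (fun e => ?_) s
  · change (efam q ρ).lift ((JJ k G q).j (vt a)) = LL q ρ (ρ (vt a))
    rw [JJ_vt, lift_vt]
    rfl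
  · change (efam q ρ).lift ((JJ k G q).j (ed e)) = LL q ρ (ρ (ed e))
    rw [JJ_ed, lift_ed]
    rfl
  · change (efam q ρ).lift ((JJ k G q).j (gh e)) = LL q ρ (ρ (gh e))
    rw [JJ_gh, lift_gh]
    rfl

end Ess

variable (k G q) in
theorem morita_sG [Fintype F] [Nonempty F] : IsMoritaEquivalent k (RR k G q) (LPA k G) := by
  classical
  refine morita (JJ k G q) ?_ ?_ ?_
  · refine ⟨Option F, inferInstance, fun o => match o with
      | none => 1
      | some f => ed (.inr f), fun o => match o with
      | none => 1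
      | some f => gh (.inr f), ?_⟩
    rw [Fintype.sum_option, JJ_one]
    simp only [one_mul, mul_one]
    rw [Finset.sum_congr rfl (fun f _ => by rw [edr_ff]), none_sum, ← one_ff]
  · intro M N _ _ _ _ h
    refine ⟨{ toFun := gg h, map_add' := gg_add h, map_smul' := gg_smul h }, fun m => ?_⟩
    change gg h m.1 = _
    have h0 : ∀ f : F, (gh (.inr f) : RR k G q) • m.1 = 0 := by
      intro f
      have h1 : ff k G q • m.1 = m.1 := by
        rw [← JJ_one]
        exact m.2
      rw [← h1, ← mul_smul, ghr_ff, zero_smul]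
    rw [gg, hh_sg, Finset.sum_eq_zero, add_zero]
    intro f _
    rw [h0, hh_zero, smul_zero]
  · intro N _ _
    let _ : Module k N := Module.compHom N (algebraMap k (LPA k G))
    have _ : IsScalarTower k (LPA k G) N := ⟨fun c s n => by
      rw [Algebra.smul_def, mul_smul]
      rfl⟩
    let ρ : LPA k G →ₐ[k] Module.End k N := Algebra.lsmul k k N
    let _ : Module (RR k G q) (MX q ρ) := Module.compHom _ ((efam q ρ).lift).toRingHom
    have hsm : ∀ (r : RR k G q) (m : MX q ρ), r • m = (efam q ρ).lift r m := fun _ _ => rfl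
    refine ⟨MX q ρ, inferInstance, inferInstance, ⟨?_⟩⟩
    exact
      { toFun := fun m => m.1.1
        map_add' := fun m n => rfl
        map_smul' := fun s m => by
          change ((JJ k G q).j s • m.1).1 = s • m.1.1
          rw [hsm, efam_j, LL_app]
          rfl
        invFun := fun n => ⟨(n, 0), by
          rw [mem_sg, hsm, efam_j, map_one, LL_app]
          rfl⟩
        left_inv := fun m => by
          refine Subtype.ext ?_
          have h1 := (mem_sg (JJ k G q)).1 m.2
          rw [hsm, efam_j, map_one, LL_app] at h1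
          exact h1
        right_inv := fun n => rfl }

end Graph

/-! ### relabelling of the edges -/

section Relab

variable {k : Type u} [Field k] {V E E' : Type}

/-- the family of a relabelling -/
noncomputable def rfam (G : Graph V E) (G' : Graph V E') (ee : E ≃ E')
    (hs : ∀ e, G'.s (ee e) = G.s e) (hr : ∀ e, G'.r (ee e) = G.r e) :
    Fam k G G.IsReg (LPA k G') where
  p := vt
  x e := ed (ee e)
  y e := gh (ee e)
  idem a := vt_idem a
  orth a b h := vt_orth h
  se e := by rw [← hs, s_ed]
  er e := by rw [← hr, ed_r]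
  rg e := by rw [← hr, r_gh]
  gs e := by rw [← hs, gh_s]
  ge e := by rw [gh_ed, hr]
  gf e f h := gh_ed_ne (fun h' => h (ee.injective h'))
  ck a ha S hS := by
    have ha' : G'.IsReg a := by
      obtain ⟨e, he⟩ := ha
      exact ⟨ee e, (hs e).trans he⟩
    have h2 := ck_rel (k := k) (G := G') (Reg := G'.IsReg) ha' (S.map ee.toEmbedding) (by
      intro e
      rw [Finset.mem_map]
      constructor
      · rintro ⟨e', he', h3⟩
        rw [← h3]
        exact (hs e').trans ((hS e').1 he')
      · intro h3
        refine ⟨ee.symm e, (hS _).2 ?_, ee.apply_symm_apply e⟩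
        rw [← hs, ee.apply_symm_apply, h3])
    rw [Finset.sum_map] at h2
    exact h2
  one S hS := (taut k G' G'.IsReg).one S hS

theorem relab (G : Graph V E) (G' : Graph V E') (ee : E ≃ E')
    (hs : ∀ e, G'.s (ee e) = G.s e) (hr : ∀ e, G'.r (ee e) = G.r e) :
    Nonempty (LPA k G ≃ₐ[k] LPA k G') := by
  have hs' : ∀ e, G.s (ee.symm e) = G'.s e := fun e => by
    rw [← hs, ee.apply_symm_apply]
  have hr' : ∀ e, G.r (ee.symm e) = G'.r e := fun e => by
    rw [← hr, ee.apply_symm_apply]
  refine ⟨AlgEquiv.ofAlgHom (rfam G G' ee hs hr).lift (rfam G' G ee.symm hs' hr').lift ?_ ?_⟩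
  · refine hom_ext (fun a => ?_) (fun e => ?_) (fun e => ?_)
    · rw [AlgHom.comp_apply, lift_vt]
      change (rfam G G' ee hs hr).lift (vt a) = _
      rw [lift_vt]; rfl
    · rw [AlgHom.comp_apply, lift_ed]
      change (rfam G G' ee hs hr).lift (ed (ee.symm e)) = _
      rw [lift_ed]
      change ed (ee (ee.symm e)) = ed e
      rw [ee.apply_symm_apply]
    · rw [AlgHom.comp_apply, lift_gh]
      change (rfam G G' ee hs hr).lift (gh (ee.symm e)) = _
      rw [lift_gh]
      change gh (ee (ee.symm e)) = gh e
      rw [ee.apply_symm_apply]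
  · refine hom_ext (fun a => ?_) (fun e => ?_) (fun e => ?_)
    · rw [AlgHom.comp_apply, lift_vt]
      change (rfam G' G ee.symm hs' hr').lift (vt a) = _
      rw [lift_vt]; rfl
    · rw [AlgHom.comp_apply, lift_ed]
      change (rfam G' G ee.symm hs' hr').lift (ed (ee e)) = _
      rw [lift_ed]
      change ed (ee.symm (ee e)) = ed e
      rw [ee.symm_apply_apply]
    · rw [AlgHom.comp_apply, lift_gh]
      change (rfam G' G ee.symm hs' hr').lift (gh (ee e)) = _
      rw [lift_gh]
      change gh (ee.symm (ee e)) = gh e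
      rw [ee.symm_apply_apply]

/-- the edges of the extended graph -/
def exE {ι : Type} (A : ι → ι → ℕ) (t : ι → ℕ) :
    (Σ i : Option ι, Σ j : Option ι, Fin (extA A t i j)) ≃
      ((Σ i : ι, Σ j : ι, Fin (A i j)) ⊕ (Σ b : ι, Fin (t b))) where
  toFun x := match x with
    | ⟨some a, some b, c⟩ => .inl ⟨a, b, c⟩
    | ⟨some _, none, c⟩ => c.elim0
    | ⟨none, some b, c⟩ => .inr ⟨b, c⟩
    | ⟨none, none, c⟩ => c.elim0
  invFun x := match x with
    | .inl ⟨a, b, c⟩ => ⟨some a, some b, c⟩
    | .inr ⟨b, c⟩ => ⟨none, some b, c⟩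
  left_inv x := match x with
    | ⟨some a, some b, c⟩ => rfl
    | ⟨some _, none, c⟩ => c.elim0
    | ⟨none, some b, c⟩ => rfl
    | ⟨none, none, c⟩ => c.elim0
  right_inv x := match x with
    | .inl ⟨a, b, c⟩ => rfl
    | .inr ⟨b, c⟩ => rfl

end Relab

end H_Src

open H_Src in
theorem p_src : T_src.{u} := by
  intro k _ ι _ _ A t ht
  obtain ⟨l, hl⟩ := ht
  have _ : Nonempty (Σ b : ι, Fin (t b)) := ⟨⟨l, ⟨0, Nat.pos_of_ne_zero hl⟩⟩⟩
  have h1 := morita_sG k (adjG A) (fun x : Σ b : ι, Fin (t b) => x.1)
  obtain ⟨e⟩ := relab (k := k) (adjG (extA A t)) (sG (adjG A) (fun x : Σ b : ι, Fin (t b) => x.1))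
    (exE A t)
    (fun x => match x with
      | ⟨some a, some b, c⟩ => rfl
      | ⟨some _, none, c⟩ => c.elim0
      | ⟨none, some b, c⟩ => rfl
      | ⟨none, none, c⟩ => c.elim0)
    (fun x => match x with
      | ⟨some a, some b, c⟩ => rfl
      | ⟨some _, none, c⟩ => c.elim0
      | ⟨none, some b, c⟩ => rfl
      | ⟨none, none, c⟩ => c.elim0)
  exact IsMoritaEquivalent.trans k (IsMoritaEquivalent.of_algEquiv k e) h1

end CKS
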