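import Pool.Agent.CKS.TIsoA

/-! TISO: an isomorphism of `L_2` and `L_{2-}` lifts to the Toeplitz level. -/

set_option linter.unusedSectionVars false

universe u

namespace CKS

namespace H_TIso

section G2

variable {k : Type u} [Field k]

theorem vt_one : (vt 0 : LPA k G2) = 1 := by
  have := one_rel (k := k) (G := G2) (Reg := G2.IsReg)
  simpa using this

theorem g2_hs : (ed 0 * gh 0 + ed 1 * gh 1 : LPA k G2) = 1 := by
  have := ck_rel (k := k) (G := G2) (Reg := G2.IsReg) (a := 0) ⟨0, rfl⟩ Finset.univ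
    (fun e => by simp [G2])
  rw [Fin.sum_univ_two, vt_one] at this
  exact this

theorem g2_hBA (i j : Fin 2) : (gh i * ed j : LPA k G2) = if i = j then 1 else 0 := by
  by_cases h : i = j
  · subst h
    rw [gh_ed, if_pos rfl]
    exact vt_one
  · rw [gh_ed_ne h, if_neg h]

/-- A subspace stable under the operators of edges and ghost edges is stable under all. -/
theorem stable_all (φ : LPA k G2 ≃ₐ[k] LPA k G3) (K : Submodule k (NN k))
    (h1 : ∀ i, ∀ m ∈ K, rN k (φ (ed i)) m ∈ K) (h2 : ∀ i, ∀ m ∈ K, rN k (φ (gh i)) m ∈ K)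
    (b : LPA k G3) (m : NN k) (hm : m ∈ K) : rN k b m ∈ K := by
  let S : Subalgebra k (LPA k G2) :=
    { carrier := {a | ∀ m ∈ K, rN k (φ a) m ∈ K}
      mul_mem' := by
        intro a b ha hb m hm
        rw [map_mul, map_mul, Module.End.mul_apply]
        exact ha _ (hb _ hm)
      add_mem' := by
        intro a b ha hb m hm
        rw [map_add, map_add, LinearMap.add_apply]
        exact K.add_mem (ha _ hm) (hb _ hm)
      algebraMap_mem' := by
        intro c m hm
        rw [AlgEquiv.commutes, AlgHom.commutes, Module.algebraMap_end_apply]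
        exact K.smul_mem _ hm }
  have := mem_of_gen k G2 G2.IsReg S (fun a => ?_) h1 h2 (φ.symm b) m hm
  · rwa [AlgEquiv.apply_symm_apply] at this
  · intro m hm
    have : a = 0 := Subsingleton.elim _ _
    subst this
    rw [vt_one, map_one, map_one]
    exact hm

/-- existence of the finite dimensional stable subspace -/
theorem stab (hT : T_thm1.{u}) (hCS : T_chen_simple.{u}) (hCU : T_chen_univ.{u})
    (hCH : T_chen_hom.{u}) (φ : LPA k G2 ≃ₐ[k] LPA k G3) :
    ∃ W : Submodule k (NN k), W ≠ ⊥ ∧ FiniteDimensional k W ∧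
      ∀ i, ∀ m ∈ W, rN k (φ (gh i)) m ∈ W := by
  have hv2 : rN k (vt 2) (w0 : NN k) = w0 := by
    simp only [rN, Br.rep_vt, w0]
    rw [pf_single_some (j := none) (by simp [Br.pv, chenBr])]
  have he7 : rN k (ed 7) (w0 : NN k) = w0 := by
    simp only [rN, Br.rep_ed, w0]
    rw [pf_single_some (j := none) (by simp [chenBr, chc])]
  refine hT k ((rN k).comp (φ : LPA k G2 →ₐ[k] LPA k G3)) w0 ?_
    ![φ.symm (vt 2) - 1, φ.symm (ed 7) - 1] ?_ ?_ ?_ ?_
  · intro h
    have := congrArg (fun f : NN k => f none) h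
    simp [w0] at this
  · intro j
    fin_cases j
    · simp [hv2]
    · simp [he7]
  · intro N1 _ _ σ n1 hσ
    have h2 : σ (φ.symm (vt 2) - 1) n1 = 0 := hσ 0
    have h7 : σ (φ.symm (ed 7) - 1) n1 = 0 := hσ 1
    rw [map_sub, map_one, LinearMap.sub_apply, Module.End.one_apply, sub_eq_zero] at h2 h7
    obtain ⟨h, hh, hw⟩ := hCU k (σ.comp (φ.symm : LPA k G3 →ₐ[k] LPA k G2)) n1
      (by simpa using h2) (by simpa using h7)
    refine ⟨h, fun a m => ?_, hw⟩
    have := hh (φ a) m
    simpa using this
  · intro K hK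
    refine hCS k K fun a m hm => ?_
    have := hK (φ.symm a) m hm
    simpa using this
  · intro h hh
    have : (φ.toLinearMap ∘ₗ h : NN k →ₗ[k] LPA k G3) = 0 := by
      refine hCH k _ fun a m => ?_
      have := hh (φ.symm a) m
      change h (rN k (φ (φ.symm a)) m) = _ at this
      rw [AlgEquiv.apply_symm_apply] at this
      change φ (h (rN k a m)) = a * φ (h m)
      rw [this, map_mul, AlgEquiv.apply_symm_apply]
    refine LinearMap.ext fun m => ?_
    have := congrArg (fun f => f m) this
    simp only [LinearMap.comp_apply, AlgEquiv.toLinearMap_apply, LinearMap.zero_apply] at this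
    simpa using this

/-- The adjoint isomorphism. -/
noncomputable def adjIso (φ : LPA k G2 ≃ₐ[k] LPA k G3) : LPA k G2 ≃ₐ[k] LPA k G3 where
  toFun b := sta k _ _ (φ (sta k _ _ b))
  invFun b := sta k _ _ (φ.symm (sta k _ _ b))
  left_inv b := by
    change sta k _ _ (φ.symm (sta k _ _ (sta k _ _ (φ (sta k _ _ b))))) = b
    rw [sta_sta, AlgEquiv.symm_apply_apply, sta_sta]
  right_inv b := by
    change sta k _ _ (φ (sta k _ _ (sta k _ _ (φ.symm (sta k _ _ b))))) = b
    rw [sta_sta, AlgEquiv.apply_symm_apply, sta_sta]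
  map_mul' a b := by rw [sta_mul, map_mul, sta_mul]
  map_add' a b := by rw [sta_add, map_add, sta_add]
  commutes' c := by rw [sta_algebraMap, AlgEquiv.commutes, sta_algebraMap]

theorem adjIso_gh (φ : LPA k G2 ≃ₐ[k] LPA k G3) (i : Fin 2) :
    adjIso φ (gh i) = sta k _ _ (φ (ed i)) := by
  change sta k _ _ (φ (sta k _ _ (gh i))) = _
  rw [sta_gh]

theorem adjIso_ed (φ : LPA k G2 ≃ₐ[k] LPA k G3) (i : Fin 2) :
    adjIso φ (ed i) = sta k _ _ (φ (gh i)) := by
  change sta k _ _ (φ (sta k _ _ (ed i))) = _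
  rw [sta_ed]

end G2

section Main

variable {k : Type u} [Field k]

theorem mem_of_sub {ρ : Subalgebra k (Module.End k (MM k))} {X Y : Module.End k (MM k)}
    (h : X - Y ∈ ρ) (hY : Y ∈ ρ) : X ∈ ρ := by
  have := ρ.add_mem h hY
  have e : X - Y + Y = X := by abel
  exact e ▸ this

theorem mem_of_sub' {ρ : Subalgebra k (Module.End k (MM k))} {X Y : Module.End k (MM k)}
    (h : X - Y ∈ ρ) (hX : X ∈ ρ) : Y ∈ ρ := by
  have h1 : (-1 : k) • (X - Y) ∈ ρ := ρ.smul_mem h _
  have := ρ.add_mem hX h1
  have e : X + (-1 : k) • (X - Y) = Y := by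
    refine LinearMap.ext fun m => ?_
    change X m + (-1 : k) • (X m - Y m) = Y m
    rw [neg_smul, one_smul]; abel
  exact e ▸ this

/-- the perturbed isometries -/
theorem exST (hT : T_thm1.{u}) (hCS : T_chen_simple.{u}) (hCU : T_chen_univ.{u})
    (hCH : T_chen_hom.{u}) (hP : T_pair.{u}) (hC : T_comb.{u}) (φ : LPA k G2 ≃ₐ[k] LPA k G3) :
    ∃ S T : Fin 2 → Module.End k (MM k),
      (∀ i j, T i * S j = if i = j then 1 else 0) ∧ (∀ i, T i om = 0) ∧
      (∀ m : MM k, S 0 (T 0 m) + S 1 (T 1 m) + m pnil • om = m) ∧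
      (∀ i, FR (S i - comp (rN k (φ (ed i))))) ∧ (∀ i, FR (T i - comp (rN k (φ (gh i))))) ∧
      (∀ p : PI, {w : List (Fin 2) | ((w.map S).prod om) p ≠ 0}.Finite) ∧
      Submodule.span k (Set.range (fun w : List (Fin 2) => (w.map S).prod om)) = ⊤ := by
  obtain ⟨W, hW0, hWf, hW⟩ := stab hT hCS hCU hCH φ
  obtain ⟨W', hW0', hWf', hW'⟩ := stab hT hCS hCU hCH (adjIso φ)
  have hBA : ∀ i j : Fin 2, rN k (φ (gh i)) * rN k (φ (ed j))
      = (if i = j then 1 else 0 : Module.End k (NN k)) := by
    intro i j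
    rw [← map_mul, ← map_mul, g2_hBA]
    by_cases h : i = j <;> simp [h]
  have hs : rN k (φ (ed 0)) * rN k (φ (gh 0)) + rN k (φ (ed 1)) * rN k (φ (gh 1))
      = (1 : Module.End k (NN k)) := by
    rw [← map_mul, ← map_mul, ← map_mul, ← map_mul, ← map_add, ← map_add, g2_hs, map_one, map_one]
  obtain ⟨V, F, hVf, hV, hF, hD, hVF, hf1, hf2, hz, hgen⟩ := hP k
    (fun i => rN k (φ (ed i))) (fun i => rN k (φ (gh i)))
    (fun i => rN k (sta k _ _ (φ (ed i)))) (fun i => rN k (sta k _ _ (φ (gh i))))
    (fun i u v => Br.adj chenBr _ u v) (fun i u v => Br.adj chenBr _ u v) hBA hs W W' hW0 hW0'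
    hWf hWf' hW (fun i m hm => by rw [← adjIso_gh]; exact hW' i m hm)
    (fun K h1 h2 => hCS k K (fun a m hm => stable_all φ K h1 h2 a m hm))
    (fun K h1 h2 => hCS k K (fun a m hm => stable_all (adjIso φ) K
      (fun i m hm => by rw [adjIso_ed]; exact h2 i m hm)
      (fun i m hm => by rw [adjIso_gh]; exact h1 i m hm) a m hm))
    {none, some pnil}
  exact hC k (fun i => rN k (φ (ed i))) (fun i => rN k (φ (gh i))) hBA hs V F hVf hV hF
    (fun f hf => hD none (by simp) f hf) (fun f hf => hD (some pnil) (by simp) f hf) hVF hf1 hf2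
    hz hgen

/-- the family of the Toeplitz representation -/
noncomputable def tfam (S T : Fin 2 → Module.End k (MM k))
    (hTS : ∀ i j, T i * S j = if i = j then 1 else 0) :
    Fam k G2 (fun v => v ≠ 0) (Module.End k (MM k)) where
  p _ := 1
  x := S
  y := T
  idem a := by simp
  orth a b h := absurd (Subsingleton.elim a b) h
  se e := by simp
  er e := by simp
  rg e := by simp
  gs e := by simp
  ge e := by simp [hTS]
  gf e f h := by simp [hTS, h]
  ck a h := absurd (Subsingleton.elim a 0) h
  one S' hS' := by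
    have : S' = {0} := by
      ext a
      have : a = 0 := Subsingleton.elim _ _
      subst this
      simp [hS']
    simp [this]

theorem tfam_xw (S T : Fin 2 → Module.End k (MM k))
    (hTS : ∀ i j, T i * S j = if i = j then 1 else 0) (l : List (Fin 2)) :
    (tfam S T hTS).lift (xw l) = (l.map S).prod := by
  induction l with
  | nil => simp
  | cons i l ih =>
    rw [xw_cons, map_mul, ih, lift_ed, List.map_cons, List.prod_cons]
    rfl

theorem lok2 (l : List (Fin 2)) : lok G2 0 l := by
  induction l with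
  | nil => trivial
  | cons i l ih => exact ⟨Subsingleton.elim _ _, ih⟩

theorem rM_dd (m : MM k) : rM k (dd k G3 1) m = m pnil • om := by
  classical
  induction m using Finsupp.induction_linear with
  | zero => simp
  | add a b ha hb => rw [map_add, ha, hb, Finsupp.add_apply, add_smul]
  | single p c =>
    unfold dd dfc
    rw [map_sub, map_sum, LinearMap.sub_apply, LinearMap.sum_apply]
    simp only [map_mul, Module.End.mul_apply, rM, Br.rep_vt, Br.rep_ed, Br.rep_gh]
    rcases p with ⟨_ | ⟨f, l⟩, hp⟩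
    · rw [pf_single_some (j := (⟨[], hp⟩ : PI)) (by simp [Br.pv, fockBr, lst]),
        Finset.sum_eq_zero]
      · simp [om, pnil]
      · intro e _
        rw [pf_single_none (f := (fockBr G3 1).t e) (by simp [fockBr, ptail]), map_zero]
    · have h0 : (Finsupp.single (⟨f :: l, hp⟩ : PI) c : MM k) pnil = 0 := by
        simp [pnil]
      rw [h0, zero_smul]
      by_cases hs : G3.s f = 1
      · rw [pf_single_some (j := (⟨f :: l, hp⟩ : PI)) (by simp [Br.pv, fockBr, lst, hs]),
          Finset.sum_eq_single f]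
        · rw [pf_single_some (f := (fockBr G3 1).t f) (j := (⟨l, hp.2⟩ : PI))
            (by simp [fockBr, ptail]),
            pf_single_some (f := (fockBr G3 1).c f) (j := (⟨f :: l, hp⟩ : PI))
            ((pcons_eq_some G3 1).2 rfl), sub_self]
        · intro e _ hef
          rw [pf_single_none (f := (fockBr G3 1).t e) (by simp [fockBr, ptail, Ne.symm hef]),
            map_zero]
        · intro h'
          simp [hs] at h'
      · rw [pf_single_none (by simp [Br.pv, fockBr, lst, hs]), Finset.sum_eq_zero, sub_zero]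
        intro e he
        have : f ≠ e := by
          rintro rfl
          simp at he
          exact hs he
        rw [pf_single_none (f := (fockBr G3 1).t e) (by simp [fockBr, ptail, this]), map_zero]

theorem rM_xw (l : PI) : rM k (xw l.1) om = Finsupp.single l 1 := by
  rcases l with ⟨l, hl⟩
  induction l with
  | nil => simp [om, pnil]
  | cons e l ih =>
    simp only at ih ⊢
    rw [xw_cons, map_mul, Module.End.mul_apply, ih hl.2]
    simp only [rM, Br.rep_ed]
    rw [pf_single_some (f := (fockBr G3 1).c e) (j := (⟨e :: l, hl⟩ : PI))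
      ((pcons_eq_some G3 1).2 rfl)]

theorem comp_rN (ρ : Subalgebra k (Module.End k (MM k))) (hFR : ∀ X, FR X → X ∈ ρ)
    (hv : ∀ a, rM k (vt a) ∈ ρ) (he : ∀ e, rM k (ed e) ∈ ρ) (hg : ∀ e, rM k (gh e) ∈ ρ)
    (a : LPA k G3) : comp (rN k a) ∈ ρ := by
  let S : Subalgebra k (LPA k G3) :=
    { carrier := {a | comp (rN k a) ∈ ρ}
      mul_mem' := by
        intro a b ha hb
        exact mem_of_sub (hFR _ (comp_mul a b)) (ρ.mul_mem ha hb)
      add_mem' := by
        intro a b ha hb
        change comp (rN k (a + b)) ∈ ρ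
        rw [map_add, comp_add]
        exact ρ.add_mem ha hb
      algebraMap_mem' := by
        intro c
        change comp (rN k (algebraMap k _ c)) ∈ ρ
        rw [AlgHom.commutes, comp_algebraMap]
        exact ρ.algebraMap_mem c }
  exact mem_of_gen k G3 G3.IsReg S (fun a => by
    change comp _ ∈ ρ
    rw [comp_vt]; exact hv a) (fun e => by
    change comp _ ∈ ρ
    rw [comp_ed]; exact he e) (fun e => by
    change comp _ ∈ ρ
    rw [comp_gh]; exact hg e) a

theorem comp_rN' (φ : LPA k G2 ≃ₐ[k] LPA k G3) (ρ : Subalgebra k (Module.End k (MM k)))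
    (hFR : ∀ X, FR X → X ∈ ρ) (he : ∀ e, comp (rN k (φ (ed e))) ∈ ρ)
    (hg : ∀ e, comp (rN k (φ (gh e))) ∈ ρ) (a : LPA k G3) : comp (rN k a) ∈ ρ := by
  let S : Subalgebra k (LPA k G2) :=
    { carrier := {a | comp (rN k (φ a)) ∈ ρ}
      mul_mem' := by
        intro a b ha hb
        have := mem_of_sub (hFR _ (comp_mul (φ a) (φ b))) (ρ.mul_mem ha hb)
        change comp (rN k (φ (a * b))) ∈ ρ
        rwa [map_mul φ]
      add_mem' := by
        intro a b ha hb
        change comp (rN k (φ (a + b))) ∈ ρ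
        rw [map_add φ, map_add, comp_add]
        exact ρ.add_mem ha hb
      algebraMap_mem' := by
        intro c
        change comp (rN k (φ (algebraMap k _ c))) ∈ ρ
        rw [AlgEquiv.commutes, AlgHom.commutes, comp_algebraMap]
        exact ρ.algebraMap_mem c }
  have := mem_of_gen k G2 G2.IsReg S (fun a => ?_) he hg (φ.symm a)
  · change comp (rN k (φ (φ.symm a))) ∈ ρ at this
    rwa [AlgEquiv.apply_symm_apply] at this
  · change comp (rN k (φ (vt a))) ∈ ρ
    have : a = 0 := Subsingleton.elim _ _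
    subst this
    rw [vt_one, map_one, map_one, comp_one]
    exact ρ.one_mem

end Main

end H_TIso

open H_TIso in
theorem p_tiso (hF : T_faithful.{u}) (hT : T_thm1.{u}) (hCS : T_chen_simple.{u})
    (hCU : T_chen_univ.{u}) (hCH : T_chen_hom.{u}) (hP : T_pair.{u}) (hC : T_comb.{u}) :
    T_tiso.{u} := by
  intro k _ φ
  obtain ⟨S, T, hTS, hT0, hST, hS, hT', hfin, hspan⟩ := exST hT hCS hCU hCH hP hC φ
  set rT : CL k G2 (fun v => v ≠ 0) →ₐ[k] Module.End k (MM k) := (tfam S T hTS).lift with hrT
  have rT_ed : ∀ i, rT (ed i) = S i := fun i => by rw [hrT, lift_ed]; rfl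
  have rT_gh : ∀ i, rT (gh i) = T i := fun i => by rw [hrT, lift_gh]; rfl
  have rT_vt : ∀ i, rT (vt i) = 1 := fun i => by rw [hrT, lift_vt]; rfl
  have om0 : (om : MM k) ≠ 0 := by
    intro h
    have := congrArg (fun f : MM k => f pnil) h
    simp [om] at this
  -- faithfulness
  have injT : Function.Injective rT := by
    refine hF k G2 0 (fun v hv => absurd (Subsingleton.elim v 0) hv) rT om om0 ?_ ?_
    · rw [rT_vt]; rfl
    · intro e
      rw [rT_gh]; exact hT0 e
  have injM : Function.Injective (rM k) := by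
    refine hF k G3 1 (fun v hv => ?_) (rM k) om om0 ?_ ?_
    · fin_cases v
      · exact ⟨2, by simp [G3], by simp [G3]⟩
      · exact absurd rfl hv
      · exact ⟨6, by simp [G3], by simp [G3]⟩
    · simp only [rM, Br.rep_vt, om]
      rw [pf_single_some (j := pnil) (by simp [Br.pv, fockBr, pnil, lst])]
    · intro e
      simp only [rM, Br.rep_gh, om]
      rw [pf_single_none (by simp [fockBr, pnil, ptail])]
  -- the defect projections
  have rT_dd : ∀ m, rT (dd k G2 0) m = m pnil • om := by
    intro m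
    have h1 : (dd k G2 0 : CC k G2 0) = vt 0 - (ed 0 * gh 0 + ed 1 * gh 1) := by
      unfold dd dfc
      have : (Finset.univ.filter (fun e : Fin 2 => G2.s e = 0)) = Finset.univ := by
        ext e; simp [G2]
      rw [this, Fin.sum_univ_two]
    rw [h1, map_sub, map_add, map_mul, map_mul, rT_vt, rT_ed, rT_ed, rT_gh, rT_gh]
    simp only [LinearMap.sub_apply, LinearMap.add_apply, Module.End.mul_apply,
      Module.End.one_apply]
    have := hST m
    rw [sub_eq_iff_eq_add]
    rw [add_comm (m pnil • om)]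
    exact this.symm
  -- finite rank operators
  have frT : ∀ X, FR X → X ∈ rT.range := by
    intro X hX
    have := fr_mem (G := G2) (v0 := 0) rT rT_dd (fun p => ?_) ?_ X hX
    · obtain ⟨a, ha⟩ := this
      exact ⟨a, ha⟩
    · refine Set.Finite.of_finite_image (f := fun l : Pth G2 0 => l.1) ?_
        (Subtype.val_injective.injOn)
      refine (hfin p).subset ?_
      rintro _ ⟨l, hl, rfl⟩
      rw [hrT, Set.mem_ofPred_eq, tfam_xw] at hl
      exact hl
    · rw [eq_top_iff, ← hspan, Submodule.span_le]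
      rintro _ ⟨w, rfl⟩
      refine Submodule.subset_span ⟨⟨w, lok2 w⟩, ?_⟩
      simp only
      rw [hrT, tfam_xw]
  have frM : ∀ X, FR X → X ∈ (rM k).range := by
    intro X hX
    have := fr_mem (G := G3) (v0 := 1) (rM k) rM_dd (fun p => ?_) ?_ X hX
    · obtain ⟨a, ha⟩ := this
      exact ⟨a, ha⟩
    · refine (Set.finite_singleton p).subset fun l hl => ?_
      by_contra hne
      apply hl
      rw [rM_xw]
      rw [Finsupp.single_apply, if_neg]
      exact fun h => hne h
    · rw [eq_top_iff]
      intro m _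
      induction m using Finsupp.induction_linear with
      | zero => exact Submodule.zero_mem _
      | add a b ha hb => exact Submodule.add_mem _ (ha trivial) (hb trivial)
      | single p c =>
        have : (Finsupp.single p c : MM k) = c • (rM k (xw p.1) om) := by
          rw [rM_xw]; simp
        rw [this]
        exact Submodule.smul_mem _ _ (Submodule.subset_span ⟨p, rfl⟩)
  -- the ranges agree
  have h1 : ∀ i, comp (rN k (φ (ed i))) ∈ rT.range := by
    intro i
    exact mem_of_sub' (frT _ (hS i)) ⟨ed i, rT_ed i⟩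
  have h2 : ∀ i, comp (rN k (φ (gh i))) ∈ rT.range := by
    intro i
    exact mem_of_sub' (frT _ (hT' i)) ⟨gh i, rT_gh i⟩
  have hMT : (rM k).range ≤ rT.range := by
    rintro _ ⟨c, rfl⟩
    refine mem_of_gen k G3 _ (Subalgebra.comap (rM k) rT.range) (fun a => ?_) (fun e => ?_)
      (fun e => ?_) c
    · change rM k (vt a) ∈ rT.range
      rw [← comp_vt]
      exact comp_rN' φ _ frT h1 h2 _
    · change rM k (ed e) ∈ rT.range
      rw [← comp_ed]
      exact comp_rN' φ _ frT h1 h2 _
    · change rM k (gh e) ∈ rT.range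
      rw [← comp_gh]
      exact comp_rN' φ _ frT h1 h2 _
  have hTM : rT.range ≤ (rM k).range := by
    rintro _ ⟨c, rfl⟩
    have h3 : ∀ a, comp (rN k a) ∈ (rM k).range := fun a =>
      comp_rN _ frM (fun a => ⟨_, rfl⟩) (fun a => ⟨_, rfl⟩) (fun a => ⟨_, rfl⟩) a
    refine mem_of_gen k G2 _ (Subalgebra.comap rT (rM k).range) (fun a => ?_) (fun e => ?_)
      (fun e => ?_) c
    · change rT (vt a) ∈ (rM k).range
      rw [rT_vt]
      exact (rM k).range.one_mem
    · change rT (ed e) ∈ (rM k).range
      rw [rT_ed]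
      exact mem_of_sub (frM _ (hS e)) (h3 (φ (ed e)))
    · change rT (gh e) ∈ (rM k).range
      rw [rT_gh]
      exact mem_of_sub (frM _ (hT' e)) (h3 (φ (gh e)))
  have hrange : rT.range = (rM k).range := le_antisymm hTM hMT
  let Ψ : CL k G2 (fun v => v ≠ 0) ≃ₐ[k] CL k G3 (fun v => v ≠ 1) :=
    (AlgEquiv.ofInjective rT injT).trans
      ((Subalgebra.equivOfEq _ _ hrange).trans (AlgEquiv.ofInjective (rM k) injM).symm)
  have hΨ : ∀ a, rM k (Ψ a) = rT a := by
    intro a
    have : (AlgEquiv.ofInjective (rM k) injM) (Ψ a)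
        = (Subalgebra.equivOfEq _ _ hrange) ((AlgEquiv.ofInjective rT injT) a) := by
      simp [Ψ]
    have := congrArg Subtype.val this
    simpa using this
  refine ⟨Ψ, injM ?_⟩
  rw [hΨ]
  refine LinearMap.ext fun m => ?_
  exact (rT_dd m).trans (rM_dd m).symm

end CKS
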