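import Pool.Agent.CKS.TStepF

/-!
# TSTEP: the Toeplitz isomorphism gives isomorphisms of Leavitt path algebras
-/

set_option linter.unusedSectionVars false

universe u

namespace CKS

namespace H_TStep

section Maps

variable (k : Type u) [Field k] {V Ed : Type} [Fintype V] [DecidableEq V] [Fintype Ed]
  [DecidableEq Ed] (s r : Ed → V) (u : V)
  (Ψ : CL k G2 (fun v => v ≠ 0) ≃ₐ[k] CL k G3 (fun v => v ≠ 1))

/-- images of the vertices -/
noncomputable def Gp : V ⊕ Fin 3 → LPA k (GP s r u)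
  | .inl b => vt (some b)
  | .inr i => j2 k s r u (Ψ.symm (vt i))

/-- images of the edges -/
noncomputable def Gx : Ed ⊕ (Fin 3 ⊕ Fin 8) → LPA k (GP s r u)
  | .inl e => ed (.inl e)
  | .inr (.inl i) => ed (.inr 0) * j2 k s r u (Ψ.symm (vt i))
  | .inr (.inr f) => j2 k s r u (Ψ.symm (ed f))

/-- images of the ghost edges -/
noncomputable def Gy : Ed ⊕ (Fin 3 ⊕ Fin 8) → LPA k (GP s r u)
  | .inl e => gh (.inl e)
  | .inr (.inl i) => j2 k s r u (Ψ.symm (vt i)) * gh (.inr 0)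
  | .inr (.inr f) => j2 k s r u (Ψ.symm (gh f))

/-- first edge -/
noncomputable abbrev e0 : LPA k (GP s r u) := ed (.inr 0)
/-- first ghost edge -/
noncomputable abbrev g0 : LPA k (GP s r u) := gh (.inr 0)
/-- an old edge -/
noncomputable abbrev eo (e : Ed) : LPA k (GP s r u) := ed (.inl e)
/-- an old ghost edge -/
noncomputable abbrev go (e : Ed) : LPA k (GP s r u) := gh (.inl e)

theorem G_se (hΨ : Ψ (dfc k G2 _ 0) = dfc k G3 _ 1) (e : Ed ⊕ (Fin 3 ⊕ Fin 8)) :
    Gp k s r u Ψ ((GQ s r u).s e) * Gx k s r u Ψ e = Gx k s r u Ψ e := by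
  rcases e with e | i | f
  · rw [GQs_inl]
    by_cases hs : s e = u
    · rw [if_pos hs]
      show j2 k s r u (Ψ.symm (vt 1)) * ed (.inl e) = ed (.inl e)
      rw [← P2' k s r u e hs, ← mul_assoc, ← j_mul, ← psi0 hΨ, ← map_mul, vt_dd]
    · rw [if_neg hs]
      have h := s_ed (k := k) (G := GP s r u) (Reg := (GP s r u).IsReg) (.inl e)
      rwa [GPs_inl, if_neg hs] at h
  · rw [GQs_l]
    show vt (some u) * (e0 k s r u * _) = e0 k s r u * _
    have h := s_ed (k := k) (G := GP s r u) (Reg := (GP s r u).IsReg) (.inr 0)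
    rw [GPs_zero] at h
    rw [← mul_assoc, h]
  · rw [GQs_r]
    show j2 k s r u (Ψ.symm (vt (G3.s f))) * j2 k s r u (Ψ.symm (ed f)) = _
    rw [← j_mul, ← map_mul, s_ed]
    rfl

theorem G_gs (hΨ : Ψ (dfc k G2 _ 0) = dfc k G3 _ 1) (e : Ed ⊕ (Fin 3 ⊕ Fin 8)) :
    Gy k s r u Ψ e * Gp k s r u Ψ ((GQ s r u).s e) = Gy k s r u Ψ e := by
  rcases e with e | i | f
  · rw [GQs_inl]
    by_cases hs : s e = u
    · rw [if_pos hs]
      show gh (.inl e) * j2 k s r u (Ψ.symm (vt 1)) = gh (.inl e)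
      rw [← P1' k s r u e hs, mul_assoc, ← j_mul, ← psi0 hΨ, ← map_mul, dd_vt]
    · rw [if_neg hs]
      have h := gh_s (k := k) (G := GP s r u) (Reg := (GP s r u).IsReg) (.inl e)
      rwa [GPs_inl, if_neg hs] at h
  · rw [GQs_l]
    show _ * g0 k s r u * vt (some u) = _ * g0 k s r u
    have h := gh_s (k := k) (G := GP s r u) (Reg := (GP s r u).IsReg) (.inr 0)
    rw [GPs_zero] at h
    rw [mul_assoc, h]
  · rw [GQs_r]
    show j2 k s r u (Ψ.symm (gh f)) * j2 k s r u (Ψ.symm (vt (G3.s f))) = _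
    rw [← j_mul, ← map_mul, gh_s]
    rfl

theorem G_er (e : Ed ⊕ (Fin 3 ⊕ Fin 8)) :
    Gx k s r u Ψ e * Gp k s r u Ψ ((GQ s r u).r e) = Gx k s r u Ψ e := by
  rcases e with e | i | f
  · exact ed_r (G := GP s r u) (.inl e)
  · show ed (.inr 0) * j2 k s r u (Ψ.symm (vt i)) * j2 k s r u (Ψ.symm (vt i)) =
      ed (.inr 0) * j2 k s r u (Ψ.symm (vt i))
    rw [mul_assoc, ← j_mul, ← map_mul, vt_idem]
  · show j2 k s r u (Ψ.symm (ed f)) * j2 k s r u (Ψ.symm (vt (G3.r f))) = _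
    rw [← j_mul, ← map_mul, ed_r]
    rfl

theorem G_rg (e : Ed ⊕ (Fin 3 ⊕ Fin 8)) :
    Gp k s r u Ψ ((GQ s r u).r e) * Gy k s r u Ψ e = Gy k s r u Ψ e := by
  rcases e with e | i | f
  · exact r_gh (G := GP s r u) (.inl e)
  · show j2 k s r u (Ψ.symm (vt i)) * (j2 k s r u (Ψ.symm (vt i)) * gh (.inr 0)) =
      j2 k s r u (Ψ.symm (vt i)) * gh (.inr 0)
    rw [← mul_assoc, ← j_mul, ← map_mul, vt_idem]
  · show j2 k s r u (Ψ.symm (vt (G3.r f))) * j2 k s r u (Ψ.symm (gh f)) = _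
    rw [← j_mul, ← map_mul, r_gh]
    rfl

theorem gh0_ed0 : (gh (.inr 0) * ed (.inr 0) : LPA k (GP s r u)) = vt none :=
  gh_ed (G := GP s r u) (.inr 0)

theorem G_ge (e : Ed ⊕ (Fin 3 ⊕ Fin 8)) :
    Gy k s r u Ψ e * Gx k s r u Ψ e = Gp k s r u Ψ ((GQ s r u).r e) := by
  rcases e with e | i | f
  · exact gh_ed (G := GP s r u) (.inl e)
  · show j2 k s r u (Ψ.symm (vt i)) * gh (.inr 0) * (ed (.inr 0) * j2 k s r u (Ψ.symm (vt i))) =
      j2 k s r u (Ψ.symm (vt i))
    rw [mul_assoc, ← mul_assoc (g0 k s r u), gh0_ed0, ← j2_split_l, ← j_mul, ← map_mul, vt_idem]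
  · show j2 k s r u (Ψ.symm (gh f)) * j2 k s r u (Ψ.symm (ed f)) =
      j2 k s r u (Ψ.symm (vt (G3.r f)))
    rw [← j_mul, ← map_mul, gh_ed]

theorem gh0_none : (gh (.inr 0) * vt none : LPA k (GP s r u)) = 0 := by
  refine gh_vt ?_
  rw [GPs_zero]
  simp

theorem none_ed0 : (vt none * ed (.inr 0) : LPA k (GP s r u)) = 0 := by
  refine vt_ed ?_
  rw [GPs_zero]
  simp

theorem G_gf (hΨ : Ψ (dfc k G2 _ 0) = dfc k G3 _ 1) (e f : Ed ⊕ (Fin 3 ⊕ Fin 8)) (hef : e ≠ f) :
    Gy k s r u Ψ e * Gx k s r u Ψ f = 0 := by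
  rcases e with e | i | e <;> rcases f with f | j | f
  · exact gh_ed_ne (fun h' => hef (by rw [Sum.inl.inj h']))
  · show go k s r u e * (e0 k s r u * _) = 0
    rw [← mul_assoc, gh_ed_ne (by simp), zero_mul]
  · exact P1 k s r u e _ (psi3 hΨ f)
  · show _ * g0 k s r u * eo k s r u f = 0
    rw [mul_assoc, gh_ed_ne (by simp), mul_zero]
  · have hij : i ≠ j := fun h' => hef (by rw [h'])
    show j2 k s r u (Ψ.symm (vt i)) * gh (.inr 0) * (ed (.inr 0) * j2 k s r u (Ψ.symm (vt j))) = 0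
    rw [mul_assoc, ← mul_assoc (g0 k s r u), gh0_ed0, ← j2_split_l, ← j_mul, ← map_mul,
      vt_orth hij, map_zero, map_zero]
  · show j2 k s r u (Ψ.symm (vt i)) * gh (.inr 0) * j2 k s r u (Ψ.symm (ed f)) = 0
    rw [j2_split_l k s r u (Ψ.symm (ed f)), mul_assoc, ← mul_assoc (g0 k s r u), gh0_none,
      zero_mul, mul_zero]
  · exact P2 k s r u f _ (psi4 hΨ e)
  · show j2 k s r u (Ψ.symm (gh e)) * (ed (.inr 0) * j2 k s r u (Ψ.symm (vt j))) = 0
    rw [j2_split_r k s r u (Ψ.symm (gh e)), mul_assoc, ← mul_assoc (vt none), none_ed0,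
      zero_mul, mul_zero]
  · have hij : e ≠ f := fun h' => hef (by rw [h'])
    show j2 k s r u (Ψ.symm (gh e)) * j2 k s r u (Ψ.symm (ed f)) = 0
    rw [← j_mul, ← map_mul, gh_ed_ne hij, map_zero, map_zero]

theorem sum_vt3 : (∑ i : Fin 3, j2 k s r u (Ψ.symm (vt i))) = vt none := by
  have h := one_rel (k := k) (G := G3) (Reg := fun v => v ≠ 1)
  rw [← map_sum, ← map_sum, h, map_one, j2_one]

theorem G_ck (hΨ : Ψ (dfc k G2 _ 0) = dfc k G3 _ 1) (a : V ⊕ Fin 3) (ha : (GQ s r u).IsReg a)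
    (S : Finset (Ed ⊕ (Fin 3 ⊕ Fin 8))) (hS : ∀ e, e ∈ S ↔ (GQ s r u).s e = a) :
    ∑ e ∈ S, Gx k s r u Ψ e * Gy k s r u Ψ e = Gp k s r u Ψ a := by
  have hS' : S = Finset.univ.filter (fun e => (GQ s r u).s e = a) := by
    ext e
    rw [hS]
    simp
  rw [hS', Finset.sum_filter, Fintype.sum_sum_type, Fintype.sum_sum_type]
  rcases a with b | i
  · have h3 : (∑ f : Fin 8, if (GQ s r u).s (.inr (.inr f)) = .inl b then
        Gx k s r u Ψ (.inr (.inr f)) * Gy k s r u Ψ (.inr (.inr f)) else 0) = 0 := by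
      refine Finset.sum_eq_zero (fun f _ => ?_)
      rw [if_neg]
      rw [GQs_r]
      simp
    rw [h3, add_zero]
    by_cases hb : b = u
    · subst hb
      have h1 : (∑ e : Ed, if (GQ s r b).s (.inl e) = .inl b then
          Gx k s r b Ψ (.inl e) * Gy k s r b Ψ (.inl e) else 0) = 0 := by
        refine Finset.sum_eq_zero (fun e _ => ?_)
        rw [if_neg]
        rw [GQs_inl]
        split_ifs with hs
        · simp
        · exact fun h' => hs (Sum.inl.inj h')
      rw [h1, zero_add]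
      have h2 : (∑ i : Fin 3, if (GQ s r b).s (.inr (.inl i)) = .inl b then
          Gx k s r b Ψ (.inr (.inl i)) * Gy k s r b Ψ (.inr (.inl i)) else 0) =
          ed (.inr 0) * (∑ i : Fin 3, j2 k s r b (Ψ.symm (vt i))) * gh (.inr 0) := by
        rw [Finset.mul_sum, Finset.sum_mul]
        refine Finset.sum_congr rfl (fun i _ => ?_)
        rw [if_pos (GQs_l s r b i)]
        show ed (.inr 0) * j2 k s r b (Ψ.symm (vt i)) * (j2 k s r b (Ψ.symm (vt i)) * gh (.inr 0))
          = _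
        rw [← mul_assoc, mul_assoc (e0 k s r b), ← j_mul, ← map_mul, vt_idem]
      rw [h2, sum_vt3]
      have h4 : (ed (.inr 0) * vt none : LPA k (GP s r b)) = ed (.inr 0) :=
        ed_r (G := GP s r b) (.inr 0)
      rw [h4, P5]
      rfl
    · have h2 : (∑ i : Fin 3, if (GQ s r u).s (.inr (.inl i)) = .inl b then
          Gx k s r u Ψ (.inr (.inl i)) * Gy k s r u Ψ (.inr (.inl i)) else 0) = 0 := by
        refine Finset.sum_eq_zero (fun i _ => ?_)
        rw [if_neg]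
        rw [GQs_l]
        exact fun h' => hb (Sum.inl.inj h').symm
      have hreg : ∃ e, s e = b := by
        obtain ⟨e, he⟩ := ha
        rcases e with e | i | f
        · rw [GQs_inl] at he
          split_ifs at he with hs
          exact ⟨e, Sum.inl.inj he⟩
        · rw [GQs_l] at he
          exact absurd (Sum.inl.inj he).symm hb
        · rw [GQs_r] at he
          exact absurd he (by simp)
      rw [h2, add_zero]
      show _ = vt (some b)
      rw [← P4 k s r u b hb hreg]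
      refine Finset.sum_congr rfl (fun e _ => ?_)
      rw [GQs_inl]
      by_cases hs : s e = u
      · rw [if_pos hs, if_neg (by simp), if_neg (fun h' => hb (h'.symm.trans hs))]
      · rw [if_neg hs]
        by_cases hs' : s e = b
        · rw [if_pos hs', if_pos (by rw [hs'])]
          rfl
        · rw [if_neg hs', if_neg (fun h' => hs' (Sum.inl.inj h'))]
  · have h2 : (∑ j : Fin 3, if (GQ s r u).s (.inr (.inl j)) = .inr i then
        Gx k s r u Ψ (.inr (.inl j)) * Gy k s r u Ψ (.inr (.inl j)) else 0) = 0 := by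
      refine Finset.sum_eq_zero (fun j _ => ?_)
      rw [if_neg]
      rw [GQs_l]
      simp
    have h3 : (∑ f : Fin 8, if (GQ s r u).s (.inr (.inr f)) = .inr i then
        Gx k s r u Ψ (.inr (.inr f)) * Gy k s r u Ψ (.inr (.inr f)) else 0) =
        j2 k s r u (Ψ.symm (∑ f ∈ Finset.univ.filter (fun f => G3.s f = i), ed f * gh f)) := by
      rw [map_sum, map_sum, Finset.sum_filter]
      refine Finset.sum_congr rfl (fun f _ => ?_)
      rw [GQs_r]
      by_cases hf : G3.s f = i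
      · rw [if_pos hf, if_pos (by rw [hf]), map_mul, j_mul]
        rfl
      · rw [if_neg hf, if_neg (fun h' => hf (Sum.inr.inj h'))]
    rw [h2, h3, zero_add]
    by_cases hi : i = 1
    · subst hi
      have h1 : (∑ e : Ed, if (GQ s r u).s (.inl e) = .inr 1 then
          Gx k s r u Ψ (.inl e) * Gy k s r u Ψ (.inl e) else 0) =
          j2 k s r u (dfc k G2 _ 0) := by
        rw [← P3]
        refine Finset.sum_congr rfl (fun e _ => ?_)
        rw [GQs_inl]
        by_cases hs : s e = u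
        · rw [if_pos hs, if_pos hs, if_pos rfl]
          rfl
        · rw [if_neg hs, if_neg hs, if_neg (by simp)]
      rw [h1, sum_G3, map_sub, map_sub, psi0 hΨ]
      exact add_sub_cancel _ _
    · have h1 : (∑ e : Ed, if (GQ s r u).s (.inl e) = .inr i then
          Gx k s r u Ψ (.inl e) * Gy k s r u Ψ (.inl e) else 0) = 0 := by
        refine Finset.sum_eq_zero (fun e _ => ?_)
        rw [if_neg]
        rw [GQs_inl]
        split_ifs with hs
        · exact fun h' => hi (Sum.inr.inj h').symm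
        · simp
      rw [h1, zero_add]
      have h4 := ck_rel (k := k) (G := G3) (Reg := fun v => v ≠ 1) hi
        (Finset.univ.filter (fun f => G3.s f = i)) (by simp)
      rw [h4]
      rfl

theorem G_one (S : Finset (V ⊕ Fin 3)) (hS : ∀ a, a ∈ S) : ∑ a ∈ S, Gp k s r u Ψ a = 1 := by
  have hS' : S = Finset.univ := Finset.eq_univ_of_forall hS
  have h := one_rel (k := k) (G := GP s r u) (Reg := (GP s r u).IsReg)
  rw [Fintype.sum_option] at h
  rw [hS', Fintype.sum_sum_type, ← h, add_comm]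
  show (∑ i : Fin 3, j2 k s r u (Ψ.symm (vt i))) + _ = _
  rw [sum_vt3]
  rfl

/-- the family for the second homomorphism -/
noncomputable def GG (hΨ : Ψ (dfc k G2 _ 0) = dfc k G3 _ 1) :
    Fam k (GQ s r u) (GQ s r u).IsReg (LPA k (GP s r u)) where
  p := Gp k s r u Ψ
  x := Gx k s r u Ψ
  y := Gy k s r u Ψ
  idem a := by
    rcases a with b | i
    · exact vt_idem _
    · show j2 k s r u (Ψ.symm (vt i)) * j2 k s r u (Ψ.symm (vt i)) = j2 k s r u (Ψ.symm (vt i))
      rw [← j_mul, ← map_mul, vt_idem]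
  orth a b h := by
    rcases a with a | i <;> rcases b with b | j
    · exact vt_orth (fun h' => h (by rw [Option.some.inj h']))
    · show vt (some a) * j2 k s r u (Ψ.symm (vt j)) = 0
      rw [j2_split_l, ← mul_assoc, vt_orth (by simp), zero_mul]
    · show j2 k s r u (Ψ.symm (vt i)) * vt (some b) = 0
      rw [j2_split_r, mul_assoc, vt_orth (by simp), mul_zero]
    · have hij : i ≠ j := fun h' => h (by rw [h'])
      show j2 k s r u (Ψ.symm (vt i)) * j2 k s r u (Ψ.symm (vt j)) = 0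
      rw [← j_mul, ← map_mul, vt_orth hij, map_zero, map_zero]
  se := G_se k s r u Ψ hΨ
  er := G_er k s r u Ψ
  rg := G_rg k s r u Ψ
  gs := G_gs k s r u Ψ hΨ
  ge := G_ge k s r u Ψ
  gf := G_gf k s r u Ψ hΨ
  ck := G_ck k s r u Ψ hΨ
  one := G_one k s r u Ψ

/-- the second homomorphism on the Toeplitz algebra -/
theorem GG_j3 (hΨ : Ψ (dfc k G2 _ 0) = dfc k G3 _ 1) (a : CL k G3 (fun v => v ≠ 1)) :
    (GG k s r u Ψ hΨ).lift (j3 k s r u a) = j2 k s r u (Ψ.symm a) := by
  refine mul_ext ((GG k s r u Ψ hΨ).lift.toLinearMap ∘ₗ j3 k s r u)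
    (j2 k s r u ∘ₗ Ψ.symm.toLinearMap) ?_ ?_ ?_ ?_ ?_ ?_ a
  · intro a b
    show (GG k s r u Ψ hΨ).lift (j3 k s r u (a * b)) = (GG k s r u Ψ hΨ).lift (j3 k s r u a) *
      (GG k s r u Ψ hΨ).lift (j3 k s r u b)
    rw [j_mul, map_mul]
  · intro a b
    show j2 k s r u (Ψ.symm (a * b)) = j2 k s r u (Ψ.symm a) * j2 k s r u (Ψ.symm b)
    rw [map_mul, j_mul]
  · show (GG k s r u Ψ hΨ).lift (j3 k s r u 1) = j2 k s r u (Ψ.symm 1)
    rw [j3_one, map_sum, map_one, j2_one, ← sum_vt3 k s r u Ψ]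
    refine Finset.sum_congr rfl (fun i _ => ?_)
    rw [lift_vt]
    rfl
  · intro i
    show (GG k s r u Ψ hΨ).lift (j3 k s r u (vt i)) = j2 k s r u (Ψ.symm (vt i))
    rw [j_vt]
    exact lift_vt _ _
  · intro i
    show (GG k s r u Ψ hΨ).lift (j3 k s r u (ed i)) = j2 k s r u (Ψ.symm (ed i))
    rw [j_ed]
    exact lift_ed _ _
  · intro i
    show (GG k s r u Ψ hΨ).lift (j3 k s r u (gh i)) = j2 k s r u (Ψ.symm (gh i))
    rw [j_gh]
    exact lift_gh _ _

/-- the first homomorphism on the Toeplitz algebra -/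
theorem FF_j2 (hΨ : Ψ (dfc k G2 _ 0) = dfc k G3 _ 1) (a : CL k G2 (fun v => v ≠ 0)) :
    (FF k s r u Ψ hΨ).lift (j2 k s r u a) = j3 k s r u (Ψ a) := by
  refine mul_ext ((FF k s r u Ψ hΨ).lift.toLinearMap ∘ₗ j2 k s r u)
    (j3 k s r u ∘ₗ Ψ.toLinearMap) ?_ ?_ ?_ ?_ ?_ ?_ a
  · intro a b
    show (FF k s r u Ψ hΨ).lift (j2 k s r u (a * b)) = (FF k s r u Ψ hΨ).lift (j2 k s r u a) *
      (FF k s r u Ψ hΨ).lift (j2 k s r u b)
    rw [j_mul, map_mul]
  · intro a b
    show j3 k s r u (Ψ (a * b)) = j3 k s r u (Ψ a) * j3 k s r u (Ψ b)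
    rw [map_mul, j_mul]
  · show (FF k s r u Ψ hΨ).lift (j2 k s r u 1) = j3 k s r u (Ψ 1)
    rw [j2_one, map_one]
    exact lift_vt _ _
  · intro i
    show (FF k s r u Ψ hΨ).lift (j2 k s r u (vt i)) = j3 k s r u (Ψ (vt i))
    have hi : i = 0 := Subsingleton.elim _ _
    rw [j_vt, hi, vt0_one, map_one]
    exact lift_vt _ _
  · intro l
    show (FF k s r u Ψ hΨ).lift (j2 k s r u (ed l)) = j3 k s r u (Ψ (ed l))
    rw [j_ed]
    exact lift_ed _ _
  · intro l
    show (FF k s r u Ψ hΨ).lift (j2 k s r u (gh l)) = j3 k s r u (Ψ (gh l))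
    rw [j_gh]
    exact lift_gh _ _

theorem GF_id (hΨ : Ψ (dfc k G2 _ 0) = dfc k G3 _ 1) :
    (GG k s r u Ψ hΨ).lift.comp (FF k s r u Ψ hΨ).lift = AlgHom.id k _ := by
  refine hom_ext (fun a => ?_) (fun e => ?_) (fun e => ?_)
  · rw [AlgHom.comp_apply, AlgHom.id_apply, lift_vt]
    rcases a with _ | b
    · show (GG k s r u Ψ hΨ).lift (j3 k s r u 1) = vt none
      rw [GG_j3, map_one, j2_one]
    · show (GG k s r u Ψ hΨ).lift (vt (.inl b)) = vt (some b)
      exact lift_vt _ _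
  · rw [AlgHom.comp_apply, AlgHom.id_apply, lift_ed]
    rcases e with e | i
    · show (GG k s r u Ψ hΨ).lift (ed (.inl e)) = ed (.inl e)
      exact lift_ed _ _
    · refine Fin.cases ?_ (fun l => ?_) i
      · show (GG k s r u Ψ hΨ).lift (∑ i : Fin 3, ed (.inr (.inl i))) = ed (.inr 0)
        have h4 : (ed (.inr 0) * vt none : LPA k (GP s r u)) = ed (.inr 0) :=
          ed_r (G := GP s r u) (.inr 0)
        rw [map_sum, ← h4, ← sum_vt3 k s r u Ψ, Finset.mul_sum]
        refine Finset.sum_congr rfl (fun i _ => ?_)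
        exact lift_ed _ _
      · show (GG k s r u Ψ hΨ).lift (j3 k s r u (Ψ (ed l))) = ed (.inr l.succ)
        rw [GG_j3, AlgEquiv.symm_apply_apply, j_ed]
        rfl
  · rw [AlgHom.comp_apply, AlgHom.id_apply, lift_gh]
    rcases e with e | i
    · show (GG k s r u Ψ hΨ).lift (gh (.inl e)) = gh (.inl e)
      exact lift_gh _ _
    · refine Fin.cases ?_ (fun l => ?_) i
      · show (GG k s r u Ψ hΨ).lift (∑ i : Fin 3, gh (.inr (.inl i))) = gh (.inr 0)
        have h4 : (vt none * gh (.inr 0) : LPA k (GP s r u)) = gh (.inr 0) :=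
          r_gh (G := GP s r u) (.inr 0)
        rw [map_sum, ← h4, ← sum_vt3 k s r u Ψ, Finset.sum_mul]
        refine Finset.sum_congr rfl (fun i _ => ?_)
        exact lift_gh _ _
      · show (GG k s r u Ψ hΨ).lift (j3 k s r u (Ψ (gh l))) = gh (.inr l.succ)
        rw [GG_j3, AlgEquiv.symm_apply_apply, j_gh]
        rfl

theorem FG_id (hΨ : Ψ (dfc k G2 _ 0) = dfc k G3 _ 1) :
    (FF k s r u Ψ hΨ).lift.comp (GG k s r u Ψ hΨ).lift = AlgHom.id k _ := by
  refine hom_ext (fun a => ?_) (fun e => ?_) (fun e => ?_)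
  · rw [AlgHom.comp_apply, AlgHom.id_apply, lift_vt]
    rcases a with b | i
    · show (FF k s r u Ψ hΨ).lift (vt (some b)) = vt (.inl b)
      exact lift_vt _ _
    · show (FF k s r u Ψ hΨ).lift (j2 k s r u (Ψ.symm (vt i))) = vt (.inr i)
      rw [FF_j2, AlgEquiv.apply_symm_apply, j_vt]
      rfl
  · rw [AlgHom.comp_apply, AlgHom.id_apply, lift_ed]
    rcases e with e | i | f
    · show (FF k s r u Ψ hΨ).lift (ed (.inl e)) = ed (.inl e)
      exact lift_ed _ _
    · show (FF k s r u Ψ hΨ).lift (e0 k s r u * j2 k s r u (Ψ.symm (vt i))) =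
        ed (.inr (.inl i))
      rw [map_mul, FF_j2, AlgEquiv.apply_symm_apply, j_vt, lift_ed]
      show (∑ j : Fin 3, ed (.inr (.inl j)) : LPA k (GQ s r u)) * vt (.inr i) =
        ed (.inr (.inl i))
      rw [Finset.sum_mul, Finset.sum_eq_single i]
      · exact ed_r (G := GQ s r u) (.inr (.inl i))
      · intro j _ hj
        exact ed_vt (fun h' => hj (Sum.inr.inj h'))
      · intro h'
        exact absurd (Finset.mem_univ i) h'
    · show (FF k s r u Ψ hΨ).lift (j2 k s r u (Ψ.symm (ed f))) = ed (.inr (.inr f))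
      rw [FF_j2, AlgEquiv.apply_symm_apply, j_ed]
      rfl
  · rw [AlgHom.comp_apply, AlgHom.id_apply, lift_gh]
    rcases e with e | i | f
    · show (FF k s r u Ψ hΨ).lift (gh (.inl e)) = gh (.inl e)
      exact lift_gh _ _
    · show (FF k s r u Ψ hΨ).lift (j2 k s r u (Ψ.symm (vt i)) * g0 k s r u) =
        gh (.inr (.inl i))
      rw [map_mul, FF_j2, AlgEquiv.apply_symm_apply, j_vt, lift_gh]
      show vt (.inr i) * (∑ j : Fin 3, gh (.inr (.inl j)) : LPA k (GQ s r u)) =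
        gh (.inr (.inl i))
      rw [Finset.mul_sum, Finset.sum_eq_single i]
      · exact r_gh (G := GQ s r u) (.inr (.inl i))
      · intro j _ hj
        exact vt_gh (fun h' => hj (Sum.inr.inj h').symm)
      · intro h'
        exact absurd (Finset.mem_univ i) h'
    · show (FF k s r u Ψ hΨ).lift (j2 k s r u (Ψ.symm (gh f))) = gh (.inr (.inr f))
      rw [FF_j2, AlgEquiv.apply_symm_apply, j_gh]
      rfl

end Maps

end H_TStep

open H_TStep in
/-- the Toeplitz isomorphism gives isomorphisms of Leavitt path algebras -/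
theorem p_tstep : T_tstep.{u} := by
  intro k _ Ψ hΨ V Ed _ _ _ _ s r v
  exact ⟨AlgEquiv.ofAlgHom (FF k s r v Ψ hΨ).lift (GG k s r v Ψ hΨ).lift
    (FG_id k s r v Ψ hΨ) (GF_id k s r v Ψ hΨ)⟩

end CKS
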