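import Pool.Agent.CKS.Targets

/-! THM1: finite dimensional subspaces stable under the ghost edges. -/

set_option linter.unusedSectionVars false

universe u

namespace CKS

namespace H_Thm1

variable {k : Type u} [Field k]

theorem vt_one : (vt 0 : LPA k G2) = 1 := by
  have := one_rel (k := k) (G := G2) (Reg := G2.IsReg)
  simpa using this

theorem g2_hs : (ed 0 * gh 0 + ed 1 * gh 1 : LPA k G2) = 1 := by
  have := ck_rel (k := k) (G := G2) (Reg := G2.IsReg) (a := 0) ⟨0, rfl⟩ Finset.univ
    (fun e => by simp [G2])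
  rw [Fin.sum_univ_two, vt_one] at this
  exact this

theorem g2_hBA (i j : Fin 2) : (gh i * ed j : LPA k G2) = if i = j then 1 else 0 := by
  by_cases h : i = j
  · subst h
    rw [gh_ed, if_pos rfl]
    exact vt_one
  · rw [gh_ed_ne h, if_neg h]

variable (k) in
/-- the span of all ghost words -/
noncomputable def GI : Submodule k (LPA k G2) := Submodule.span k (Set.range (yw : List (Fin 2) → LPA k G2))

variable (k) in
/-- the span of the ghost words of bounded length -/
noncomputable def GG (d : ℕ) : Submodule k (LPA k G2) :=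
  Submodule.span k ((yw : List (Fin 2) → LPA k G2) '' {v | v.length ≤ d})

theorem GG_mono {d e : ℕ} (h : d ≤ e) : GG k d ≤ GG k e :=
  Submodule.span_mono (Set.image_mono fun _ hv => le_trans hv h)

theorem mem_GI {b : LPA k G2} (hb : b ∈ GI k) : ∃ d, b ∈ GG k d := by
  unfold GI at hb
  induction hb using Submodule.span_induction with
  | mem x hx =>
    obtain ⟨v, rfl⟩ := hx
    exact ⟨v.length, Submodule.subset_span ⟨v, le_refl v.length, rfl⟩⟩
  | zero => exact ⟨0, Submodule.zero_mem _⟩
  | add x y _ _ hx hy =>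
    obtain ⟨d, hd⟩ := hx
    obtain ⟨e, he⟩ := hy
    exact ⟨max d e, Submodule.add_mem _ (GG_mono (le_max_left _ _) hd)
      (GG_mono (le_max_right _ _) he)⟩
  | smul c x _ hx =>
    obtain ⟨d, hd⟩ := hx
    exact ⟨d, Submodule.smul_mem _ _ hd⟩

/-- every element becomes a ghost polynomial after multiplication by long ghost words -/
theorem ghost (a : LPA k G2) : ∃ m, ∀ w : List (Fin 2), m ≤ w.length → yw w * a ∈ GI k := by
  let S : Subalgebra k (LPA k G2) :=
    { carrier := {a | ∃ m, ∀ w : List (Fin 2), m ≤ w.length → yw w * a ∈ GI k}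
      mul_mem' := by
        rintro a b ⟨m, hm⟩ ⟨n, hn⟩
        refine ⟨m + n, fun w hw => ?_⟩
        obtain ⟨w1, w2, rfl, h1⟩ : ∃ w1 w2, w = w1 ++ w2 ∧ w1.length = m :=
          ⟨w.take m, w.drop m, (List.take_append_drop m w).symm, by
            rw [List.length_take]; omega⟩
        have h2 : n ≤ w2.length := by
          rw [List.length_append] at hw; omega
        have hc := hm w1 h1.ge
        rw [yw_append, show (yw w2 * yw w1 * (a * b) : LPA k G2) = yw w2 * (yw w1 * a) * b by
          simp only [mul_assoc]]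
        unfold GI at hc
        generalize (yw w1 * a : LPA k G2) = c at hc
        induction hc using Submodule.span_induction with
        | mem x hx =>
          obtain ⟨v, rfl⟩ := hx
          rw [← yw_append]
          exact hn _ (by rw [List.length_append]; omega)
        | zero => rw [mul_zero, zero_mul]; exact Submodule.zero_mem _
        | add x y _ _ hx hy => rw [mul_add, add_mul]; exact Submodule.add_mem _ hx hy
        | smul c x _ hx =>
          rw [mul_smul_comm, smul_mul_assoc]; exact Submodule.smul_mem _ _ hx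
      add_mem' := by
        rintro a b ⟨m, hm⟩ ⟨n, hn⟩
        refine ⟨max m n, fun w hw => ?_⟩
        rw [mul_add]
        exact Submodule.add_mem _ (hm w (le_trans (le_max_left _ _) hw))
          (hn w (le_trans (le_max_right _ _) hw))
      algebraMap_mem' := by
        intro c
        refine ⟨0, fun w _ => ?_⟩
        rw [Algebra.algebraMap_eq_smul_one, mul_smul_comm, mul_one]
        exact Submodule.smul_mem _ _ (Submodule.subset_span ⟨w, rfl⟩) }
  refine mem_of_gen k G2 G2.IsReg S (fun a => ?_) (fun i => ?_) (fun i => ?_) a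
  · have : a = 0 := Subsingleton.elim _ _
    subst this
    rw [vt_one]; exact S.one_mem
  · refine ⟨1, fun w hw => ?_⟩
    rcases w with _ | ⟨j, w⟩
    · simp at hw
    · rw [yw_cons, mul_assoc, g2_hBA]
      by_cases h : j = i
      · rw [if_pos h, mul_one]
        exact Submodule.subset_span ⟨w, rfl⟩
      · rw [if_neg h, mul_zero]
        exact Submodule.zero_mem _
  · refine ⟨0, fun w _ => ?_⟩
    rw [← yw_cons]
    exact Submodule.subset_span ⟨_, rfl⟩

/-- a vector killed by all ghost words of a given length is zero -/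
theorem zero_of_yw {N1 : Type u} [AddCommGroup N1] [Module k N1]
    (σ : LPA k G2 →ₐ[k] Module.End k N1) (n1 : N1) (m : ℕ)
    (h : ∀ w : List (Fin 2), w.length = m → σ (yw w) n1 = 0) : n1 = 0 := by
  induction m with
  | zero => simpa using h [] rfl
  | succ m ih =>
    refine ih fun v hv => ?_
    have h1 : ∀ i : Fin 2, σ (gh i) (σ (yw v) n1) = 0 := by
      intro i
      have := h (v ++ [i]) (by simp [hv])
      rw [yw_append, map_mul, Module.End.mul_apply] at this
      simpa [yw] using this
    have h2 : σ (yw v) n1 = σ (ed 0 * gh 0 + ed 1 * gh 1) (σ (yw v) n1) := by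
      rw [g2_hs, map_one]; rfl
    rw [h2, map_add, map_mul, map_mul, LinearMap.add_apply, Module.End.mul_apply,
      Module.End.mul_apply, h1, h1, map_zero, map_zero, add_zero]

/-! ### the model -/

section Model

variable (U : Type u) [AddCommGroup U] [Module k U]

/-- eventually vanishing functions -/
def Nz : Submodule k (List (Fin 2) → U) where
  carrier := {h | ∃ m, ∀ w : List (Fin 2), m ≤ w.length → h w = 0}
  add_mem' := by
    rintro a b ⟨m, hm⟩ ⟨n, hn⟩
    refine ⟨max m n, fun w hw => ?_⟩
    rw [Pi.add_apply, hm w (le_trans (le_max_left _ _) hw), hn w (le_trans (le_max_right _ _) hw),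
      add_zero]
  zero_mem' := ⟨0, fun _ _ => rfl⟩
  smul_mem' := by
    rintro c a ⟨m, hm⟩
    refine ⟨m, fun w hw => ?_⟩
    rw [Pi.smul_apply, hm w hw, smul_zero]

/-- the operators of the edges -/
def Xop (i : Fin 2) : (List (Fin 2) → U) →ₗ[k] (List (Fin 2) → U) where
  toFun h w := match w with
    | [] => 0
    | j :: w => if j = i then h w else 0
  map_add' a b := by
    funext w
    rcases w with _ | ⟨j, w⟩
    · simp
    · by_cases h : j = i <;> simp [h]
  map_smul' c a := by
    funext w
    rcases w with _ | ⟨j, w⟩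
    · simp
    · by_cases h : j = i <;> simp [h]

/-- the operators of the ghost edges -/
def Yop (i : Fin 2) : (List (Fin 2) → U) →ₗ[k] (List (Fin 2) → U) where
  toFun h w := h (i :: w)
  map_add' _ _ := rfl
  map_smul' _ _ := rfl

theorem Xop_Nz (i : Fin 2) : Nz (k := k) U ≤ (Nz (k := k) U).comap (Xop U i) := by
  rintro h ⟨m, hm⟩
  refine ⟨m + 1, fun w hw => ?_⟩
  rcases w with _ | ⟨j, w⟩
  · rfl
  · by_cases hj : j = i
    · simp only [Xop, LinearMap.coe_mk, AddHom.coe_mk, hj, if_true]
      exact hm w (by simpa using hw)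
    · simp [Xop, hj]

theorem Yop_Nz (i : Fin 2) : Nz (k := k) U ≤ (Nz (k := k) U).comap (Yop U i) := by
  rintro h ⟨m, hm⟩
  refine ⟨m, fun w hw => ?_⟩
  exact hm (i :: w) (le_trans hw (by simp))

/-- the family of the model -/
noncomputable def mfam : Fam k G2 G2.IsReg (Module.End k ((List (Fin 2) → U) ⧸ Nz (k := k) U)) where
  p _ := 1
  x i := (Nz U).mapQ (Nz U) (Xop U i) (Xop_Nz U i)
  y i := (Nz U).mapQ (Nz U) (Yop U i) (Yop_Nz U i)
  idem a := by simp
  orth a b h := absurd (Subsingleton.elim a b) h
  se e := by simp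
  er e := by simp
  rg e := by simp
  gs e := by simp
  ge e := by
    refine LinearMap.ext fun q => ?_
    obtain ⟨h, rfl⟩ := Submodule.Quotient.mk_surjective _ q
    rw [Module.End.mul_apply, Submodule.mapQ_apply, Submodule.mapQ_apply, Module.End.one_apply]
    congr 1
    funext w
    simp [Xop, Yop]
  gf e f hef := by
    refine LinearMap.ext fun q => ?_
    obtain ⟨h, rfl⟩ := Submodule.Quotient.mk_surjective _ q
    rw [Module.End.mul_apply, Submodule.mapQ_apply, Submodule.mapQ_apply, LinearMap.zero_apply]
    rw [Submodule.Quotient.mk_eq_zero]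
    refine ⟨0, fun w _ => ?_⟩
    simp [Xop, Yop, hef]
  ck a ha S hS := by
    have : S = Finset.univ := by
      ext e
      simp only [hS, Finset.mem_univ, iff_true]
      exact Subsingleton.elim _ _
    rw [this, Fin.sum_univ_two]
    refine LinearMap.ext fun q => ?_
    obtain ⟨h, rfl⟩ := Submodule.Quotient.mk_surjective _ q
    rw [LinearMap.add_apply, Module.End.mul_apply, Module.End.mul_apply, Submodule.mapQ_apply,
      Submodule.mapQ_apply, Submodule.mapQ_apply, Submodule.mapQ_apply, Module.End.one_apply,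
      ← Submodule.Quotient.mk_add, Submodule.Quotient.eq]
    refine ⟨1, fun w hw => ?_⟩
    rcases w with _ | ⟨j, w⟩
    · simp at hw
    · fin_cases j <;> simp [Xop, Yop]
  one S hS := by
    have : S = {0} := by
      ext a
      have : a = 0 := Subsingleton.elim _ _
      subst this
      simp [hS]
    simp [this]

end Model

end H_Thm1

open H_Thm1 in
theorem p_thm1 : T_thm1.{u} := by
  intro k _ N _ _ ρ w hw n r hr hU hS hH
  classical
  -- degrees
  choose m0 hm0 using fun j => ghost (r j)
  set m : ℕ := Finset.univ.sup m0 with hm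
  have hmr : ∀ j, ∀ v : List (Fin 2), v.length = m → yw v * r j ∈ GI k := fun j v hv =>
    hm0 j v (by rw [hv, hm]; exact Finset.le_sup (f := m0) (Finset.mem_univ j))
  have hfinW : {v : List (Fin 2) | v.length = m}.Finite :=
    List.finite_length_eq (Fin 2) m
  obtain ⟨d, hd⟩ : ∃ d, ∀ j, ∀ v : List (Fin 2), v.length = m → yw v * r j ∈ GG k d := by
    choose! D hD using fun (j : Fin n) (v : List (Fin 2)) (hv : v.length = m) =>
      mem_GI (hmr j v hv)
    refine ⟨Finset.univ.sup fun j => hfinW.toFinset.sup (D j), fun j v hv => ?_⟩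
    refine GG_mono ?_ (hD j v hv)
    refine le_trans ?_ (Finset.le_sup (f := fun j => hfinW.toFinset.sup (D j))
      (Finset.mem_univ j))
    exact Finset.le_sup (f := D j) (by simpa using hv)
  -- the space U
  let ev : LPA k G2 →ₗ[k] N := (LinearMap.applyₗ w) ∘ₗ ρ.toLinearMap
  have hev : ∀ a, ev a = ρ a w := fun a => rfl
  set U : Submodule k N := (GG k d).map ev with hUdef
  have hUspan : U = Submodule.span k ((fun v : List (Fin 2) => ρ (yw v) w) '' {v | v.length ≤ d}) := by
    rw [hUdef, GG, Submodule.map_span, ← Set.image_comp]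
    rfl
  have hUfd : FiniteDimensional k U := by
    rw [hUspan]
    exact FiniteDimensional.span_of_finite k ((List.finite_length_le (Fin 2) d).image _)
  have hUy : ∀ v : List (Fin 2), v.length ≤ d → ρ (yw v) w ∈ U := fun v hv => by
    rw [hUspan]; exact Submodule.subset_span ⟨v, hv, rfl⟩
  have hwU : w ∈ U := by simpa using hUy [] (Nat.zero_le _)
  -- universal property of U
  have hUU : ∀ (N1 : Type u) [AddCommGroup N1] [Module k N1] (σ : LPA k G2 →ₐ[k] Module.End k N1)
      (g : U →ₗ[k] N1), (∀ u0 u1 u2 : U, (u0 : N) + ρ (gh 0) u1 + ρ (gh 1) u2 = 0 →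
        g u0 + σ (gh 0) (g u1) + σ (gh 1) (g u2) = 0) →
      ∃ h : N →ₗ[k] N1, (∀ a m, h (ρ a m) = σ a (h m)) ∧ ∀ u : U, h u = g u := by
    intro N1 _ _ σ g hg
    set n1 := g ⟨w, hwU⟩ with hn1
    have h1 : ∀ v : List (Fin 2), (hv : v.length ≤ d) →
        g ⟨ρ (yw v) w, hUy v hv⟩ = σ (yw v) n1 := by
      intro v
      induction v using List.reverseRecOn with
      | nil =>
        intro hv
        have e1 : (⟨ρ (yw []) w, hUy [] hv⟩ : U) = ⟨w, hwU⟩ := by
          apply Subtype.ext; simp
        rw [e1, yw_nil, map_one, Module.End.one_apply]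
      | append_singleton v i ih =>
        intro hv
        have hv' : v.length ≤ d := by
          rw [List.length_append] at hv; omega
        have e1 : ρ (yw (v ++ [i])) w = ρ (gh i) (ρ (yw v) w) := by
          rw [yw_append, map_mul, Module.End.mul_apply]
          simp [yw]
        have e2 : σ (yw (v ++ [i])) n1 = σ (gh i) (σ (yw v) n1) := by
          rw [yw_append, map_mul, Module.End.mul_apply]
          simp [yw]
        rw [e2, ← ih hv']
        have hmem := hUy _ hv
        fin_cases i
        · have := hg (-⟨ρ (yw (v ++ [0])) w, hmem⟩) ⟨ρ (yw v) w, hUy v hv'⟩ 0 (by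
            simp only [Submodule.coe_neg, Submodule.coe_zero, map_zero, add_zero]
            rw [show ρ (yw (v ++ [0])) w = ρ (gh 0) (ρ (yw v) w) from e1]
            abel)
          rw [map_neg, map_zero, map_zero, add_zero] at this
          exact (neg_add_eq_zero.mp this)
        · have := hg (-⟨ρ (yw (v ++ [1])) w, hmem⟩) 0 ⟨ρ (yw v) w, hUy v hv'⟩ (by
            simp only [Submodule.coe_neg, Submodule.coe_zero, map_zero, add_zero]
            rw [show ρ (yw (v ++ [1])) w = ρ (gh 1) (ρ (yw v) w) from e1]
            abel)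
          rw [map_neg, map_zero, map_zero, add_zero] at this
          exact (neg_add_eq_zero.mp this)
    have h2 : ∀ b : LPA k G2, (hb : b ∈ GG k d) →
        g ⟨ρ b w, Submodule.mem_map_of_mem (f := ev) hb⟩ = σ b n1 := by
      intro b hb
      have hb' := hb
      unfold GG at hb'
      induction hb' using Submodule.span_induction with
      | mem x hx =>
        obtain ⟨v, hv, rfl⟩ := hx
        exact h1 v hv
      | zero =>
        have : (⟨ρ 0 w, Submodule.mem_map_of_mem (f := ev) hb⟩ : U) = 0 := by
          apply Subtype.ext; simp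
        rw [this]; simp
      | add x y hx hy ihx ihy =>
        have : (⟨ρ (x + y) w, Submodule.mem_map_of_mem (f := ev) hb⟩ : U)
            = ⟨ρ x w, Submodule.mem_map_of_mem (f := ev) hx⟩
              + ⟨ρ y w, Submodule.mem_map_of_mem (f := ev) hy⟩ := by
          apply Subtype.ext; simp
        rw [this, map_add, ihx hx, ihy hy]; simp
      | smul c x hx ihx =>
        have : (⟨ρ (c • x) w, Submodule.mem_map_of_mem (f := ev) hb⟩ : U)
            = c • ⟨ρ x w, Submodule.mem_map_of_mem (f := ev) hx⟩ := by
          apply Subtype.ext; simp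
        rw [this, map_smul, ihx hx]; simp
    obtain ⟨h, hh, hhw⟩ := hU N1 σ n1 (fun j => by
      refine zero_of_yw σ _ m fun v hv => ?_
      rw [← Module.End.mul_apply, ← map_mul, ← h2 _ (hd j v hv)]
      have : (⟨ρ (yw v * r j) w, Submodule.mem_map_of_mem (f := ev) (hd j v hv)⟩ : U) = 0 := by
        apply Subtype.ext
        simp only [map_mul, Module.End.mul_apply, hr j, map_zero]
        rfl
      rw [this, map_zero])
    refine ⟨h, hh, fun u => ?_⟩
    obtain ⟨b, hb, hbu⟩ : (u : N) ∈ (GG k d).map ev := u.2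
    have : u = ⟨ρ b w, Submodule.mem_map_of_mem (f := ev) hb⟩ := by
      apply Subtype.ext
      exact hbu.symm
    rw [this, h2 b hb, ← hhw, ← hh]
  -- the relation space
  let κ : (U × (U × U)) →ₗ[k] N :=
    U.subtype ∘ₗ LinearMap.fst k U (U × U)
      + (ρ (gh 0)) ∘ₗ U.subtype ∘ₗ LinearMap.fst k U U ∘ₗ LinearMap.snd k U (U × U)
      + (ρ (gh 1)) ∘ₗ U.subtype ∘ₗ LinearMap.snd k U U ∘ₗ LinearMap.snd k U (U × U)
  have hκ : ∀ z, κ z = (z.1 : N) + ρ (gh 0) z.2.1 + ρ (gh 1) z.2.2 := fun z => rfl
  let p : LinearMap.ker κ →ₗ[k] (U × U) :=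
    (LinearMap.snd k U (U × U)) ∘ₗ (LinearMap.ker κ).subtype
  have hp : ∀ z, p z = z.1.2 := fun z => rfl
  have hpinj : LinearMap.ker p = ⊥ := by
    rw [LinearMap.ker_eq_bot']
    rintro ⟨⟨u0, u12⟩, hz⟩ h
    rw [hp] at h
    simp only at h
    subst h
    rw [LinearMap.mem_ker, hκ] at hz
    simp only [Prod.fst_zero, Prod.snd_zero, Submodule.coe_zero, map_zero, add_zero] at hz
    apply Subtype.ext
    simp only [Submodule.coe_zero, Prod.mk_eq_zero, and_true]
    exact Subtype.ext hz
  obtain ⟨τ, hτ⟩ := p.exists_leftInverse_of_injective hpinj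
  have hτ' : ∀ z, τ (p z) = z := fun z => congrArg (fun f => f z) hτ
  let lam : (U × U) →ₗ[k] U := -((LinearMap.fst k U (U × U)) ∘ₗ (LinearMap.ker κ).subtype ∘ₗ τ)
  have hlam : ∀ z, lam z = -(τ z).1.1 := fun z => rfl
  let gam : (U × U) →ₗ[k] (U × U) := LinearMap.id - p ∘ₗ τ
  have hgam : ∀ z, gam z = z - p (τ z) := fun z => rfl
  let io : Fin 2 → (U →ₗ[k] U × U) := ![LinearMap.inl k U U, LinearMap.inr k U U]
  let x : Fin 2 → (U →ₗ[k] U) := fun i => lam ∘ₗ io i
  have hx0 : ∀ a : U, x 0 a = lam (a, 0) := fun a => rfl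
  have hx1 : ∀ a : U, x 1 a = lam (0, a) := fun a => rfl
  have hKl : ∀ u0 u1 u2 : U, (u0 : N) + ρ (gh 0) u1 + ρ (gh 1) u2 = 0 →
      x 0 u1 + x 1 u2 = -u0 ∧ gam (u1, u2) = 0 := by
    intro u0 u1 u2 h
    have hz : (u0, u1, u2) ∈ LinearMap.ker κ := by
      rw [LinearMap.mem_ker, hκ]; exact h
    have h1 := hτ' ⟨(u0, u1, u2), hz⟩
    rw [hp] at h1
    simp only at h1
    constructor
    · rw [hx0, hx1, ← map_add, Prod.mk_add_mk, add_zero, zero_add, hlam, h1]
    · rw [hgam, h1, hp, sub_self]
  -- it suffices to know that the ghost edges act by x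
  suffices hmain : ∀ (j : Fin 2) (a : U), ρ (gh j) a = x j a by
    refine ⟨U, ?_, hUfd, fun i m hm => ?_⟩
    · intro h
      rw [h] at hwU
      exact hw (by simpa using hwU)
    · have := hmain i ⟨m, hm⟩
      simp only at this
      rw [this]
      exact (x i ⟨m, hm⟩).2
  -- the model
  let act : List (Fin 2) → (U →ₗ[k] U) := fun w =>
    List.rec LinearMap.id (fun i _ f => f ∘ₗ x i) w
  have hact0 : ∀ a, act [] a = a := fun a => rfl
  have hact1 : ∀ i w a, act (i :: w) a = act w (x i a) := fun i w a => rfl
  let g : U →ₗ[k] ((List (Fin 2) → U) ⧸ Nz (k := k) U) :=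
    (Nz (k := k) U).mkQ ∘ₗ (LinearMap.pi act)
  have hg : ∀ a, g a = Submodule.Quotient.mk (fun w => act w a) := fun a => rfl
  have hgx : ∀ i a, (mfam (k := k) U).lift (gh i) (g a) = g (x i a) := by
    intro i a
    rw [lift_gh, hg, hg]
    simp only [mfam]
    rw [Submodule.mapQ_apply]
    rfl
  obtain ⟨h, hh, hhg⟩ := hUU _ (mfam (k := k) U).lift g (by
    intro u0 u1 u2 h
    rw [hgx, hgx, add_assoc, ← map_add, (hKl u0 u1 u2 h).1, ← map_add, add_neg_cancel, map_zero])
  by_cases hg0 : g = 0
  · -- nilpotent case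
    have hnil : ∀ a : U, ∃ m, ∀ w : List (Fin 2), m ≤ w.length → act w a = 0 := by
      intro a
      have : g a = 0 := by rw [hg0]; rfl
      rw [hg, Submodule.Quotient.mk_eq_zero] at this
      exact this
    obtain ⟨M, hM⟩ : ∃ M, ∀ a : U, ∀ w : List (Fin 2), M ≤ w.length → act w a = 0 := by
      choose mm hmm using hnil
      let b := Module.finBasis k U
      refine ⟨Finset.univ.sup fun i => mm (b i), fun a w hw => ?_⟩
      have : act w = 0 := by
        refine b.ext fun i => ?_
        rw [LinearMap.zero_apply]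
        exact hmm _ w (le_trans (Finset.le_sup (f := fun i => mm (b i)) (Finset.mem_univ i)) hw)
      rw [this]; rfl
    have hnt : (1 : LPA k G2) ≠ 0 := by
      intro h1
      apply hw
      have : ρ 1 w = w := by rw [map_one]; rfl
      rw [← this, h1, map_zero]; rfl
    have hgz : ∀ (s : (U × U) →ₗ[k] k) (j : Fin 2) (a : U), s (gam (io j a)) = 0 := by
      intro s
      let F : (U →ₗ[k] LPA k G2) → (U →ₗ[k] LPA k G2) := fun T =>
        ∑ i, (LinearMap.mulLeft k (ed i)) ∘ₗ
          ((s ∘ₗ gam ∘ₗ io i).smulRight (1 : LPA k G2) + T ∘ₗ x i)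
      have hFa : ∀ T a, F T a = ∑ i, ed i * (s (gam (io i a)) • (1 : LPA k G2) + T (x i a)) := by
        intro T a
        simp [F]
      let T : ℕ → (U →ₗ[k] LPA k G2) := fun n => F^[n] 0
      have hTs : ∀ n, T (n + 1) = F (T n) := fun n => Function.iterate_succ_apply' F n 0
      have hY : ∀ T' (j : Fin 2) (a : U),
          gh j * F T' a = s (gam (io j a)) • (1 : LPA k G2) + T' (x j a) := by
        intro T' j a
        rw [hFa, Finset.mul_sum, Finset.sum_eq_single j]
        · rw [← mul_assoc, g2_hBA, if_pos rfl, one_mul]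
        · intro i _ hij
          rw [← mul_assoc, g2_hBA, if_neg (Ne.symm hij), zero_mul]
        · intro h'
          exact absurd (Finset.mem_univ j) h'
      have hD : ∀ n, ∀ a : U, (∀ w : List (Fin 2), w.length = n → act w a = 0) →
          T (n + 1) a = T n a := by
        intro n
        induction n with
        | zero =>
          intro a ha
          have : a = 0 := by
            have := ha [] rfl
            rwa [hact0] at this
          rw [this, map_zero, map_zero]
        | succ n ih =>
          intro a ha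
          rw [hTs (n + 1), hTs n, hFa, hFa]
          refine Finset.sum_congr rfl fun i _ => ?_
          rw [← hTs n, ih (x i a) (fun v hv => ha (i :: v) (by rw [List.length_cons, hv]))]
      have hT : T (M + 1) = T M := by
        refine LinearMap.ext fun a => hD M a fun w hw => hM a w hw.ge
      have hYT : ∀ (j : Fin 2) (a : U),
          gh j * T M a = s (gam (io j a)) • (1 : LPA k G2) + T M (x j a) := by
        intro j a
        conv_lhs => rw [← hT, hTs]
        exact hY _ j a
      obtain ⟨h2, hh2, hhg2⟩ := hUU (LPA k G2) (Algebra.lmul k (LPA k G2)) (T M) (by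
        intro u0 u1 u2 h
        have e := hKl u0 u1 u2 h
        change T M u0 + gh 0 * T M u1 + gh 1 * T M u2 = 0
        rw [hYT, hYT]
        have e1 : io 0 u1 + io 1 u2 = (u1, u2) := by
          change (u1, (0 : U)) + ((0 : U), u2) = (u1, u2)
          rw [Prod.mk_add_mk, add_zero, zero_add]
        have e2 : s (gam (io 0 u1)) + s (gam (io 1 u2)) = 0 := by
          rw [← map_add, ← map_add, e1, e.2, map_zero]
        have e3 : T M (x 0 u1) + T M (x 1 u2) = -T M u0 := by
          rw [← map_add, e.1, map_neg]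
        calc T M u0 + (s (gam (io 0 u1)) • 1 + T M (x 0 u1))
              + (s (gam (io 1 u2)) • 1 + T M (x 1 u2))
            = T M u0 + (T M (x 0 u1) + T M (x 1 u2))
              + (s (gam (io 0 u1)) + s (gam (io 1 u2))) • (1 : LPA k G2) := by
              rw [add_smul]; abel
          _ = 0 := by rw [e2, e3, zero_smul]; abel)
      have h20 : h2 = 0 := hH h2 hh2
      have hTM : T M = 0 := by
        refine LinearMap.ext fun a => ?_
        rw [← hhg2 a, h20]; rfl
      intro j a
      have := hYT j a
      rw [hTM] at this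
      simp only [LinearMap.zero_apply, mul_zero, add_zero] at this
      exact (smul_eq_zero.mp this.symm).resolve_right hnt
    intro j a
    have hga : gam (io j a) = 0 := by
      refine (Module.forall_dual_apply_eq_zero_iff k _).mp fun s => hgz s j a
    rw [hgam, sub_eq_zero] at hga
    have hk := (τ (io j a)).2
    rw [LinearMap.mem_ker, hκ] at hk
    have h2 : (τ (io j a)).1.2 = io j a := by rw [← hp, ← hga]
    rw [h2] at hk
    have h3 : ((τ (io j a)).1.1 : N) = -(x j a : N) := by
      change _ = -((lam (io j a) : U) : N)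
      rw [hlam]; simp
    rw [h3] at hk
    fin_cases j
    · have : ρ (gh 0) (a : N) + ρ (gh 1) ((0 : U) : N) = x 0 a := by
        have hk' : -(x 0 a : N) + ρ (gh 0) a + ρ (gh 1) ((0 : U) : N) = 0 := hk
        rw [add_assoc, neg_add_eq_zero] at hk'
        exact hk'.symm
      simpa using this
    · have : ρ (gh 0) ((0 : U) : N) + ρ (gh 1) (a : N) = x 1 a := by
        have hk' : -(x 1 a : N) + ρ (gh 0) ((0 : U) : N) + ρ (gh 1) a = 0 := hk
        rw [add_assoc, neg_add_eq_zero] at hk'
        exact hk'.symm
      simpa using this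
  · -- the map h is injective
    have hker : LinearMap.ker h = ⊥ := by
      rcases hS (LinearMap.ker h) (fun a m hm => by
        rw [LinearMap.mem_ker] at hm ⊢
        rw [hh, hm, map_zero]) with h1 | h1
      · exact h1
      · exfalso
        apply hg0
        refine LinearMap.ext fun a => ?_
        rw [← hhg a]
        have : (a : N) ∈ LinearMap.ker h := by rw [h1]; trivial
        exact this
    intro j a
    have hinj := LinearMap.ker_eq_bot.mp hker
    apply hinj
    rw [hh, hhg, hgx, hhg]

end CKS
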