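import Pool.Agent.CKS.Targets

/-!
# TWO: with two loops at `v` the Cuntz splice at `v` preserves the Morita class
-/

set_option linter.unusedSectionVars false

universe u

namespace CKS

namespace H_Two

theorem card_edge {ι : Type} [DecidableEq ι] [Fintype ι] (B : ι → ι → ℕ) (a b : ι) :
    Fintype.card {e : Σ i : ι, Σ j : ι, Fin (B i j) // e.1 = a ∧ e.2.1 = b} = B a b := by
  refine (Fintype.card_congr (β := Fin (B a b)) ?_).trans (Fintype.card_fin _)
  exact
    { toFun := fun x => Fin.cast (congrArg₂ B x.2.1 x.2.2) x.1.2.2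
      invFun := fun t => ⟨⟨a, b, t⟩, rfl, rfl⟩
      left_inv := by
        rintro ⟨⟨i, j, t⟩, h1, h2⟩
        dsimp at h1 h2
        subst h1 h2
        rfl
      right_inv := fun t => rfl }

theorem card_sum' {α β : Type} [Fintype α] [Fintype β] (p : α ⊕ β → Prop) [DecidablePred p] :
    Fintype.card {x // p x} =
      Fintype.card {a // p (Sum.inl a)} + Fintype.card {b // p (Sum.inr b)} := by
  rw [← Fintype.card_sum]
  exact Fintype.card_congr Equiv.subtypeSum

theorem card_zero {α : Type} [Fintype α] (p : α → Prop) [DecidablePred p] (h : ∀ a, ¬ p a) :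
    Fintype.card {x // p x} = 0 := by
  rw [Fintype.card_eq_zero_iff]
  exact ⟨fun x => h _ x.2⟩

theorem card_iff {α : Type} [Fintype α] (p q : α → Prop) [DecidablePred p] [DecidablePred q]
    (h : ∀ a, p a ↔ q a) : Fintype.card {x // p x} = Fintype.card {x // q x} :=
  Fintype.card_congr (Equiv.subtypeEquivRight h)

section

variable {V : Type} [Fintype V] [DecidableEq V] (A : V → V → ℕ) (v : V)

/-- the external row -/
def RR (b : V) : ℕ := A v b - (if b = v then 2 else 0)

/-- the matrix of the external edges -/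
def BB (a b : V) : ℕ := if a = v then RR A v b else A a b

/-- the external edges -/
abbrev EE : Type := Σ i : V, Σ j : V, Fin (BB A v i j)

/-- the matrix of `GP` -/
def PP : Option V → Option V → ℕ
  | some a, some b => if a = v then 0 else A a b
  | some a, none => if a = v then 1 else 0
  | none, some b => RR A v b
  | none, none => 2

theorem adjP (a b : Option V) :
    Fintype.card {e // (GP (Ed := EE A v) (fun x => x.1) (fun x => x.2.1) v).s e = a ∧
      (GP (Ed := EE A v) (fun x => x.1) (fun x => x.2.1) v).r e = b} = PP A v a b := by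
  rw [card_sum']
  rcases a with _ | a <;> rcases b with _ | b
  · rw [card_zero (α := EE A v) _ (by rintro x ⟨-, h⟩; simp [GP] at h), Fintype.card_subtype,
      Finset.card_filter, Fin.sum_univ_three]
    simp [GP, PP]
  · rw [card_iff (α := EE A v) _ (fun e => e.1 = v ∧ e.2.1 = b)
      (by intro x; simp [GP]), card_edge, card_zero (α := Fin 3) _
      (by rintro x ⟨-, h⟩; simp [GP] at h)]
    simp [BB, PP]
  · rw [card_zero (α := EE A v) _ (by rintro x ⟨-, h⟩; simp [GP] at h), Fintype.card_subtype,
      Finset.card_filter, Fin.sum_univ_three]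
    simp [GP, PP, eq_comm]
  · rw [card_zero (α := Fin 3) _ (by rintro x ⟨-, h⟩; simp [GP] at h)]
    by_cases ha : a = v
    · rw [card_zero (α := EE A v)]
      · simp [PP, ha]
      · rintro x ⟨h1, h2⟩
        simp only [GP] at h1
        split_ifs at h1 with h3
        exact h3 ((Option.some.inj h1).trans ha)
    · rw [card_iff (α := EE A v) _ (fun e => e.1 = a ∧ e.2.1 = b), card_edge]
      · simp [BB, PP, ha]
      · intro x
        simp only [GP, Option.some.injEq]
        constructor
        · rintro ⟨h1, h2⟩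
          split_ifs at h1 with h3
          exact ⟨Option.some.inj h1, h2⟩
        · rintro ⟨h1, h2⟩
          rw [if_neg (by rw [h1]; exact ha)]
          exact ⟨congrArg some h1, h2⟩

/-- first gadget -/
def m1 : Fin 4 → Fin 4 → ℕ := ![![0, 1, 1, 1], ![0, 2, 1, 0], ![0, 1, 1, 1], ![0, 0, 1, 1]]
/-- first gadget, external row -/
def w1 : Fin 4 → ℕ := ![0, 0, 1, 0]
/-- second gadget -/
def m2 : Fin 4 → Fin 4 → ℕ := ![![2, 1, 0, 0], ![1, 1, 1, 0], ![0, 1, 1, 0], ![1, 0, 0, 0]]
/-- second gadget, external row -/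
def w2 : Fin 4 → ℕ := ![1, 0, 0, 0]

theorem cardG3 (i j : Fin 3) : Fintype.card {e : Fin 8 // G3.s e = i ∧ G3.r e = j} =
    m1 i.succ j.succ := by
  fin_cases i <;> fin_cases j <;> decide

theorem adjQ (a b : V ⊕ Fin 3) :
    Fintype.card {e // (GQ (Ed := EE A v) (fun x => x.1) (fun x => x.2.1) v).s e = a ∧
      (GQ (Ed := EE A v) (fun x => x.1) (fun x => x.2.1) v).r e = b} =
      glob A v (RR A v) m1 w1 a b := by
  rw [card_sum', card_sum']
  rcases a with a | i <;> rcases b with b | j
  · rw [card_zero (α := Fin 3) _ (by rintro x ⟨-, h⟩; simp [GQ] at h),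
      card_zero (α := Fin 8) _ (by rintro x ⟨h, -⟩; simp [GQ] at h)]
    by_cases ha : a = v
    · rw [card_zero (α := EE A v)]
      · simp [glob, ha, m1, w1]
      · rintro x ⟨h1, h2⟩
        simp only [GQ] at h1
        split_ifs at h1 with h3
        exact h3 ((Sum.inl.inj h1).trans ha)
    · rw [card_iff (α := EE A v) _ (fun e => e.1 = a ∧ e.2.1 = b), card_edge]
      · simp [BB, glob, ha]
      · intro x
        simp only [GQ, Sum.inl.injEq]
        constructor
        · rintro ⟨h1, h2⟩
          split_ifs at h1 with h3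
          exact ⟨Sum.inl.inj h1, h2⟩
        · rintro ⟨h1, h2⟩
          rw [if_neg (by rw [h1]; exact ha)]
          exact ⟨congrArg Sum.inl h1, h2⟩
  · rw [card_zero (α := EE A v) _ (by rintro x ⟨-, h⟩; simp [GQ] at h),
      card_zero (α := Fin 8) _ (by rintro x ⟨h, -⟩; simp [GQ] at h), Fintype.card_subtype,
      Finset.card_filter, Fin.sum_univ_three]
    by_cases ha : a = v
    · subst ha
      fin_cases j <;> simp [GQ, glob, m1]
    · have ha' : v ≠ a := fun h => ha h.symm
      simp [GQ, glob, ha, ha']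
  · rw [card_zero (α := Fin 3) _ (by rintro x ⟨-, h⟩; simp [GQ] at h),
      card_zero (α := Fin 8) _ (by rintro x ⟨-, h⟩; simp [GQ] at h)]
    by_cases hi : i = 1
    · subst hi
      rw [card_iff (α := EE A v) _ (fun e => e.1 = v ∧ e.2.1 = b), card_edge]
      · simp [BB, glob, m1, w1]
      · intro x
        simp only [GQ, Sum.inl.injEq]
        constructor
        · rintro ⟨h1, h2⟩
          split_ifs at h1 with h3
          exact ⟨h3, h2⟩
        · rintro ⟨h1, h2⟩
          rw [if_pos h1]
          exact ⟨rfl, h2⟩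
    · rw [card_zero (α := EE A v)]
      · revert hi
        fin_cases i <;> simp [glob, m1, w1]
      · rintro x ⟨h1, h2⟩
        simp only [GQ] at h1
        split_ifs at h1 with h3
        exact hi (Sum.inr.inj h1).symm
  · rw [card_zero (α := EE A v) _ (by rintro x ⟨-, h⟩; simp [GQ] at h),
      card_zero (α := Fin 3) _ (by rintro x ⟨h, -⟩; simp [GQ] at h),
      card_iff (α := Fin 8) _ (fun e => G3.s e = i ∧ G3.r e = j) (by intro x; simp [GQ]), cardG3]
    simp [glob]

/-- after the source removal and the first reverse move -/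
def M1 : Option V → Option V → ℕ
  | some a, some b => if a = v then 0 else A a b
  | some a, none => if a = v then 1 else 0
  | none, some b => A v b
  | none, none => 0

theorem sub_M1 : sub (M1 A v) (some v) none = extA A (A v) := by
  funext a b
  rcases a with _ | a <;> rcases b with _ | b
  · simp [sub, M1, extA]
  · simp [sub, M1, extA]
  · by_cases ha : a = v
    · simp [sub, M1, extA, ha]
    · simp [sub, M1, extA, ha]
  · by_cases ha : a = v
    · simp [sub, M1, extA, ha]
    · simp [sub, M1, extA, ha]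

theorem sub_sub_M1 (hv : 2 ≤ A v v) :
    sub (sub (M1 A v) none (some v)) none (some v) = PP A v := by
  funext a b
  rcases a with _ | a <;> rcases b with _ | b
  · simp [sub, M1, PP]
  · by_cases hb : b = v
    · subst hb
      simp [sub, M1, PP, RR]
      omega
    · simp [sub, M1, PP, RR, hb]
  · simp [sub, M1, PP]
  · simp [sub, M1, PP]

/-- the last reindexing -/
def eV (V : Type) : V ⊕ Fin 3 ≃ Option (V ⊕ Fin 2) where
  toFun := fun x => match x with
    | .inl a => some (.inl a)
    | .inr i => (![some (.inr 0), some (.inr 1), none] : Fin 3 → Option (V ⊕ Fin 2)) i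
  invFun := fun x => match x with
    | some (.inl a) => .inl a
    | some (.inr i) => .inr (![0, 1] i)
    | none => .inr 2
  left_inv := by
    rintro (a | i)
    · rfl
    · fin_cases i <;> rfl
  right_inv := by
    rintro (_ | a | i)
    · rfl
    · rfl
    · fin_cases i <;> rfl

theorem eqv (k : Type u) [Field k] {ι : Type} {B B' : ι → ι → ℕ} (h : B = B') :
    Nonempty (LPA k (adjG B) ≃ₐ[k] LPA k (adjG B')) := by
  subst h
  exact ⟨AlgEquiv.refl⟩

theorem glob_spl (hv : 2 ≤ A v v) :
    (fun a b => glob A v (RR A v) m2 w2 ((eV V).symm a) ((eV V).symm b)) =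
      extA (spl A v) (fun x => if x = .inl v then 1 else 0) := by
  funext a b
  rcases a with _ | a | i <;> rcases b with _ | b | j
  · rfl
  · by_cases hb : b = v
    · simp [eV, glob, extA, hb, m2, w2, Fin.succ]
    · simp [eV, glob, extA, hb, m2, w2]
  · fin_cases j <;> simp [eV, glob, extA, m2]
  · by_cases ha : a = v
    · subst ha
      simp [eV, glob, extA, m2]
    · simp [eV, glob, extA, ha]
  · by_cases ha : a = v
    · subst ha
      by_cases hb : b = a
      · subst hb
        simp [eV, glob, extA, spl, m2, w2, RR]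
        omega
      · simp [eV, glob, extA, spl, m2, w2, RR, hb]
    · simp [eV, glob, extA, spl, ha]
  · by_cases ha : a = v
    · subst ha
      fin_cases j <;> simp [eV, glob, extA, spl, m2]
    · simp [eV, glob, extA, spl, ha]
  · fin_cases i <;> simp [eV, glob, extA, m2]
  · fin_cases i <;> simp [eV, glob, extA, spl, m2, w2]
  · fin_cases i <;> fin_cases j <;> simp [eV, glob, extA, spl, m2]

end

end H_Two

open H_Two in
theorem p_two (h1 : T_tiso.{u}) (h2 : T_tstep.{u}) (h3 : T_chain.{u}) (h4 : T_move.{u})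
    (h5 : T_src.{u}) (h6 : T_adj.{u}) (h7 : T_reindex.{u}) : T_two.{u} := by
  intro k _ φ V _ _ A v hv
  obtain ⟨Ψ, hΨ⟩ := h1 k φ
  obtain ⟨e1⟩ := h2 k Ψ hΨ (Ed := EE A v) (fun x => x.1) (fun x => x.2.1) v
  obtain ⟨eP⟩ := h6 k _ (PP A v) (adjP A v)
  obtain ⟨eQ⟩ := h6 k _ (glob A v (RR A v) m1 w1) (adjQ A v)
  have c1 := (h5 k A (A v) ⟨v, by omega⟩).symm k
  obtain ⟨e2⟩ := h4 k (M1 A v) (some v) none (by simp) (by simp [M1])
    ⟨some v, by simp [M1]; omega⟩
  rw [sub_M1] at e2
  obtain ⟨e3⟩ := h4 k (M1 A v) none (some v) (by simp) (by simp [M1]; omega)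
    ⟨none, by simp [M1]⟩
  obtain ⟨e4⟩ := h4 k (sub (M1 A v) none (some v)) none (some v) (by simp)
    (by simp [sub, M1]; omega) ⟨none, by simp [sub, M1]⟩
  rw [sub_sub_M1 A v hv] at e4
  have c2 : IsMoritaEquivalent k (LPA k (adjG (extA A (A v))))
      (LPA k (adjG (glob A v (RR A v) m1 w1))) :=
    IsMoritaEquivalent.of_algEquiv k
      (e2.symm.trans (e3.trans (e4.trans (eP.symm.trans (e1.trans eQ)))))
  have c3 := h3 k A v (RR A v)
  obtain ⟨e5⟩ := h7 k (eV V) (glob A v (RR A v) m2 w2)
  obtain ⟨e6⟩ := eqv k (glob_spl A v hv)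
  have c4 := h5 k (spl A v) (fun x => if x = .inl v then 1 else 0) ⟨.inl v, by simp⟩
  exact c1.trans k (c2.trans k (c3.trans k ((IsMoritaEquivalent.of_algEquiv k (e5.trans e6)).trans k c4)))

end CKS
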