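import Pool.Agent.CKS.Final
import Pool.Agent.CKS.TIso
import Pool.Agent.CKS.Faith
import Pool.Agent.CKS.Thm1
import Pool.Agent.CKS.ChenS
import Pool.Agent.CKS.ChenU
import Pool.Agent.CKS.ChenH
import Pool.Agent.CKS.Pair
import Pool.Agent.CKS.Comb
import Pool.Agent.CKS.TStep
import Pool.Agent.CKS.GraphIso
import Pool.Agent.CKS.Move
import Pool.Agent.CKS.Src
import Pool.Agent.CKS.Chain
import Pool.Agent.CKS.Two
import Pool.Agent.CKS.Red1
import Pool.Agent.CKS.Red2
import Pool.Agent.CKS.Red3
import Pool.Agent.CKS.Conv

/-! All ingredients of the reduction theorem. -/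

universe u

namespace CKS

theorem all_tiso : T_tiso.{u} :=
  p_tiso p_faithful p_thm1 p_chen_simple p_chen_univ p_chen_hom p_pair p_comb

theorem all_move : T_move.{u} := p_move p_relabel p_adj

theorem all_chain : T_chain.{u} := p_chain all_move p_src p_reindex

theorem all_two : T_two.{u} :=
  p_two all_tiso p_tstep all_chain all_move p_src p_adj p_reindex

theorem all_main (k : Type u) [Field k] :
    List.TFAE [
      Nonempty (LPA k G2 ≃ₐ[k] LPA k (splice G2 0)),
      ∀ (V E : Type) [Finite V] [Finite E] (G : Graph V E), IsSPI G →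
        ∃ v, IsMoritaEquivalent k (LPA k G) (LPA k (splice G v)),
      ∀ (V E : Type) [Finite V] [Finite E] (G : Graph V E) (v : V), TwoRet G v →
        IsMoritaEquivalent k (LPA k G) (LPA k (splice G v))] :=
  main_of p_relabel p_adj all_move all_two p_reduce p_spi p_spi2 p_retadj p_spladj p_conv k

end CKS
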