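import Pool.Agent.CKS.Core

/-!
# Relative Cohn path algebras: generators, families, universal property, relations
-/

universe u

namespace CKS

section Def2

variable {k : Type u} [Field k] {V E : Type} {G : Graph V E} {Reg : V → Prop}

/-- The quotient map. -/
noncomputable def quo : FreeAlgebra k (Gen V E) →ₐ[k] CL k G Reg := RingQuot.mkAlgHom k _

/-- the idempotent of a vertex -/
noncomputable def vt (a : V) : CL k G Reg := quo (fv k a)
/-- the element of an edge -/
noncomputable def ed (e : E) : CL k G Reg := quo (fe k e)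
/-- the element of a ghost edge -/
noncomputable def gh (e : E) : CL k G Reg := quo (fg k e)

end Def2

/-- A family satisfying the relations in an algebra `A`. -/
structure Fam (k : Type u) [Field k] {V E : Type} (G : Graph V E) (Reg : V → Prop)
    (A : Type*) [Ring A] [Algebra k A] where
  /-- images of the vertices -/
  p : V → A
  /-- images of the edges -/
  x : E → A
  /-- images of the ghost edges -/
  y : E → A
  idem : ∀ a, p a * p a = p a
  orth : ∀ a b, a ≠ b → p a * p b = 0
  se : ∀ e, p (G.s e) * x e = x e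
  er : ∀ e, x e * p (G.r e) = x e
  rg : ∀ e, p (G.r e) * y e = y e
  gs : ∀ e, y e * p (G.s e) = y e
  ge : ∀ e, y e * x e = p (G.r e)
  gf : ∀ e f, e ≠ f → y e * x f = 0
  ck : ∀ a, Reg a → ∀ S : Finset E, (∀ e, e ∈ S ↔ G.s e = a) → ∑ e ∈ S, x e * y e = p a
  one : ∀ S : Finset V, (∀ a, a ∈ S) → ∑ a ∈ S, p a = 1

section Lift

variable {k : Type u} [Field k] {V E : Type} {G : Graph V E} {Reg : V → Prop}
variable {A : Type*} [Ring A] [Algebra k A]

theorem quo_rel {a b : FreeAlgebra k (Gen V E)} (h : Rel k G Reg a b) :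
    (quo a : CL k G Reg) = quo b := RingQuot.mkAlgHom_rel k h

variable (k G Reg) in
/-- The tautological family. -/
noncomputable def taut : Fam k G Reg (CL k G Reg) where
  p := vt
  x := ed
  y := gh
  idem a := by simpa [vt] using quo_rel (Rel.idem (k := k) (G := G) (Reg := Reg) a)
  orth a b h := by simpa [vt] using quo_rel (Rel.orth (k := k) (G := G) (Reg := Reg) a b h)
  se e := by simpa [vt, ed] using quo_rel (Rel.se (k := k) (G := G) (Reg := Reg) e)
  er e := by simpa [vt, ed] using quo_rel (Rel.er (k := k) (G := G) (Reg := Reg) e)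
  rg e := by simpa [vt, gh] using quo_rel (Rel.rg (k := k) (G := G) (Reg := Reg) e)
  gs e := by simpa [vt, gh] using quo_rel (Rel.gs (k := k) (G := G) (Reg := Reg) e)
  ge e := by simpa [vt, gh, ed] using quo_rel (Rel.ge (k := k) (G := G) (Reg := Reg) e)
  gf e f h := by simpa [vt, gh, ed] using quo_rel (Rel.gf (k := k) (G := G) (Reg := Reg) e f h)
  ck a h S hS := by
    simpa [vt, gh, ed] using quo_rel (Rel.ck (k := k) (G := G) (Reg := Reg) a h S hS)
  one S hS := by simpa [vt] using quo_rel (Rel.one (k := k) (G := G) (Reg := Reg) S hS)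

/-- The map from the free algebra given by a family. -/
noncomputable def Fam.pre (F : Fam k G Reg A) : FreeAlgebra k (Gen V E) →ₐ[k] A :=
  FreeAlgebra.lift k (fun x => match x with
    | .v a => F.p a
    | .e e => F.x e
    | .g e => F.y e)

/-- The universal property. -/
noncomputable def Fam.lift (F : Fam k G Reg A) : CL k G Reg →ₐ[k] A :=
  RingQuot.liftAlgHom k ⟨F.pre, by
    intro a b h
    induction h with
    | idem a => simp [Fam.pre, F.idem]
    | orth a b h => simp [Fam.pre, F.orth a b h]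
    | se e => simp [Fam.pre, F.se]
    | er e => simp [Fam.pre, F.er]
    | rg e => simp [Fam.pre, F.rg]
    | gs e => simp [Fam.pre, F.gs]
    | ge e => simp [Fam.pre, F.ge]
    | gf e f h => simp [Fam.pre, F.gf e f h]
    | ck a h S hS => simp [Fam.pre, F.ck a h S hS]
    | one S hS => simp [Fam.pre, F.one S hS]⟩

theorem lift_quo (F : Fam k G Reg A) (a : FreeAlgebra k (Gen V E)) :
    F.lift (quo a) = F.pre a := by
  unfold Fam.lift quo
  exact RingQuot.liftAlgHom_mkAlgHom_apply k _ _ a

@[simp] theorem lift_vt (F : Fam k G Reg A) (a : V) : F.lift (vt a) = F.p a := by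
  rw [vt, lift_quo]; simp [Fam.pre]
@[simp] theorem lift_ed (F : Fam k G Reg A) (e : E) : F.lift (ed e) = F.x e := by
  rw [ed, lift_quo]; simp [Fam.pre]
@[simp] theorem lift_gh (F : Fam k G Reg A) (e : E) : F.lift (gh e) = F.y e := by
  rw [gh, lift_quo]; simp [Fam.pre]

theorem hom_ext {f g : CL k G Reg →ₐ[k] A} (hv : ∀ a, f (vt a) = g (vt a))
    (he : ∀ e, f (ed e) = g (ed e)) (hg : ∀ e, f (gh e) = g (gh e)) : f = g := by
  have hh : f.comp (quo (k := k) (G := G) (Reg := Reg)) = g.comp quo := by
    refine FreeAlgebra.hom_ext ?_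
    funext x
    cases x with
    | v a => exact hv a
    | e e => exact he e
    | g e => exact hg e
  exact RingQuot.ringQuot_ext' k f g hh

variable (k G Reg) in
/-- Induction principle: a subalgebra containing the generators is everything. -/
theorem mem_of_gen (S : Subalgebra k (CL k G Reg)) (hv : ∀ a, vt a ∈ S) (he : ∀ e, ed e ∈ S)
    (hg : ∀ e, gh e ∈ S) (a : CL k G Reg) : a ∈ S := by
  obtain ⟨b, rfl⟩ := RingQuot.mkAlgHom_surjective k (Rel k G Reg) a
  induction b using FreeAlgebra.induction with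
  | grade0 r =>
    rw [AlgHom.commutes]
    exact S.algebraMap_mem r
  | grade1 x =>
    cases x with
    | v a => exact hv a
    | e e => exact he e
    | g e => exact hg e
  | mul a b ha hb => rw [map_mul]; exact S.mul_mem ha hb
  | add a b ha hb => rw [map_add]; exact S.add_mem ha hb

end Lift

/-! ### basic relations -/

section Rels

variable {k : Type u} [Field k] {V E : Type} {G : Graph V E} {Reg : V → Prop}

theorem vt_idem (a : V) : (vt a * vt a : CL k G Reg) = vt a := (taut k G Reg).idem a
theorem vt_orth {a b : V} (h : a ≠ b) : (vt a * vt b : CL k G Reg) = 0 := (taut k G Reg).orth a b h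
theorem s_ed (e : E) : (vt (G.s e) * ed e : CL k G Reg) = ed e := (taut k G Reg).se e
theorem ed_r (e : E) : (ed e * vt (G.r e) : CL k G Reg) = ed e := (taut k G Reg).er e
theorem r_gh (e : E) : (vt (G.r e) * gh e : CL k G Reg) = gh e := (taut k G Reg).rg e
theorem gh_s (e : E) : (gh e * vt (G.s e) : CL k G Reg) = gh e := (taut k G Reg).gs e
theorem gh_ed (e : E) : (gh e * ed e : CL k G Reg) = vt (G.r e) := (taut k G Reg).ge e
theorem gh_ed_ne {e f : E} (h : e ≠ f) : (gh e * ed f : CL k G Reg) = 0 :=
  (taut k G Reg).gf e f h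
theorem ck_rel {a : V} (h : Reg a) (S : Finset E) (hS : ∀ e, e ∈ S ↔ G.s e = a) :
    (∑ e ∈ S, ed e * gh e : CL k G Reg) = vt a := (taut k G Reg).ck a h S hS
theorem one_rel [Fintype V] : (∑ a, vt a : CL k G Reg) = 1 :=
  (taut k G Reg).one _ (fun a => Finset.mem_univ a)

theorem vt_ed {a : V} {e : E} (h : a ≠ G.s e) : (vt a * ed e : CL k G Reg) = 0 := by
  rw [← s_ed, ← mul_assoc, vt_orth h, zero_mul]
theorem ed_vt {a : V} {e : E} (h : G.r e ≠ a) : (ed e * vt a : CL k G Reg) = 0 := by
  rw [← ed_r, mul_assoc, vt_orth h, mul_zero]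
theorem vt_gh {a : V} {e : E} (h : a ≠ G.r e) : (vt a * gh e : CL k G Reg) = 0 := by
  rw [← r_gh, ← mul_assoc, vt_orth h, zero_mul]
theorem gh_vt {a : V} {e : E} (h : G.s e ≠ a) : (gh e * vt a : CL k G Reg) = 0 := by
  rw [← gh_s, mul_assoc, vt_orth h, mul_zero]
theorem ed_ed {e f : E} (h : G.r e ≠ G.s f) : (ed e * ed f : CL k G Reg) = 0 := by
  rw [← ed_r e, ← s_ed f, mul_assoc, ← mul_assoc (vt (G.r e)), vt_orth h, zero_mul, mul_zero]
theorem gh_gh {e f : E} (h : G.s e ≠ G.r f) : (gh e * gh f : CL k G Reg) = 0 := by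
  rw [← gh_s e, ← r_gh f, mul_assoc, ← mul_assoc (vt (G.s e)), vt_orth h, zero_mul, mul_zero]
theorem ed_gh {e f : E} (h : G.r e ≠ G.r f) : (ed e * gh f : CL k G Reg) = 0 := by
  rw [← ed_r e, ← r_gh f, mul_assoc, ← mul_assoc (vt (G.r e)), vt_orth h, zero_mul, mul_zero]

end Rels

end CKS
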