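import Pool.Agent.CKS.Basic

/-!
# Partial maps, branching systems and their representations
-/

universe u

namespace CKS

section Pf

variable {k : Type u} [Field k] {I : Type}

/-- The linear operator of a partial map. -/
noncomputable def pf (f : I → Option I) : Module.End k (I →₀ k) :=
  Finsupp.linearCombination k (fun i => match f i with
    | some j => Finsupp.single j 1
    | none => 0)

theorem pf_single_some {f : I → Option I} {i j : I} (h : f i = some j) (a : k) :
    pf f (Finsupp.single i a) = Finsupp.single j a := by
  simp [pf, Finsupp.linearCombination_single, h]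

theorem pf_single_none {f : I → Option I} {i : I} (h : f i = none) (a : k) :
    pf f (Finsupp.single i a) = 0 := by
  simp [pf, Finsupp.linearCombination_single, h]

theorem pf_mul (f g : I → Option I) :
    (pf f * pf g : Module.End k (I →₀ k)) = pf (fun i => (g i).bind f) := by
  refine Finsupp.lhom_ext fun i a => ?_
  rw [Module.End.mul_apply]
  rcases hg : g i with _ | j
  · rw [pf_single_none hg, map_zero, pf_single_none (by simp [hg])]
  · rw [pf_single_some hg]
    rcases hf : f j with _ | l
    · rw [pf_single_none hf, pf_single_none (by simp [hg, hf])]
    · rw [pf_single_some hf, pf_single_some (j := l) (by simp [hg, hf])]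

theorem pf_some : (pf some : Module.End k (I →₀ k)) = 1 := by
  refine Finsupp.lhom_ext fun i a => ?_
  rw [pf_single_some rfl]; rfl

theorem pf_none : (pf (fun _ => none) : Module.End k (I →₀ k)) = 0 := by
  refine Finsupp.lhom_ext fun i a => ?_
  rw [pf_single_none rfl]; rfl

/-- The dot product on finitely supported functions. -/
noncomputable def dp : (I →₀ k) →ₗ[k] (I →₀ k) →ₗ[k] k :=
  Finsupp.lsum k (fun i => LinearMap.toSpanSingleton k _ (Finsupp.lapply i))

theorem dp_single_left (i : I) (a : k) (v : I →₀ k) : dp (Finsupp.single i a) v = a * v i := by
  simp [dp]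

theorem dp_single_right (u : I →₀ k) (i : I) (a : k) : dp u (Finsupp.single i a) = u i * a := by
  classical
  induction u using Finsupp.induction_linear with
  | zero => simp
  | add u v hu hv => simp [hu, hv, add_mul]
  | single j b =>
    rw [dp_single_left]
    by_cases h : j = i
    · subst h; simp
    · simp [h, Ne.symm h]

theorem dp_comm (u v : I →₀ k) : dp u v = dp v u := by
  induction u using Finsupp.induction_linear with
  | zero => simp
  | add u w hu hw => simp [hu, hw]
  | single j b => rw [dp_single_left, dp_single_right, mul_comm]

theorem pf_adj {f g : I → Option I} (h : ∀ i j, f i = some j ↔ g j = some i) (u v : I →₀ k) :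
    dp (pf f u) v = dp u (pf g v) := by
  classical
  induction u using Finsupp.induction_linear with
  | zero => simp
  | add u w hu hw => simp [hu, hw]
  | single i a =>
    induction v using Finsupp.induction_linear with
    | zero => simp
    | add v w hv hw => simp [hv, hw]
    | single j b =>
      rw [dp_single_left]
      rcases hf : f i with _ | l
      · rw [pf_single_none hf]
        rcases hg : g j with _ | m
        · rw [pf_single_none hg]; simp
        · rw [pf_single_some hg]
          have : m ≠ i := by
            rintro rfl
            rw [(h m j).2 hg] at hf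
            cases hf
          simp [this]
      · rw [pf_single_some hf, dp_single_left]
        rcases hg : g j with _ | m
        · rw [pf_single_none hg]
          have : l ≠ j := by
            rintro rfl
            rw [(h i l).1 hf] at hg
            cases hg
          simp [this]
        · rw [pf_single_some hg]
          by_cases hlj : l = j
          · subst hlj
            have : m = i := by
              have := (h i l).1 hf
              rw [hg] at this
              exact Option.some.inj this
            subst this; simp
          · have hmi : m ≠ i := by
              rintro rfl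
              have := (h m j).2 hg
              rw [hf] at this
              exact hlj (Option.some.inj this)
            simp [hlj, hmi]

end Pf

/-- A branching system for a graph: edges act by partial injections. -/
structure Br {V E : Type} (G : Graph V E) (Reg : V → Prop) (I : Type) where
  st : I → V
  c : E → I → Option I
  t : E → I → Option I
  c_some : ∀ e i, st i = G.r e → ∃ j, c e i = some j
  ct : ∀ e i j, c e i = some j ↔ t e j = some i
  c_st : ∀ e i j, c e i = some j → st i = G.r e ∧ st j = G.s e
  c_inj : ∀ e f i i' j, c e i = some j → c f i' = some j → e = f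
  reg : ∀ j, Reg (st j) → ∃ e i, c e i = some j

namespace Br

variable {k : Type u} [Field k] {V E : Type} [DecidableEq V] {G : Graph V E} {Reg : V → Prop}
  {I : Type} (B : Br G Reg I)

/-- partial identity on the indices over a vertex -/
def pv (a : V) : I → Option I := fun i => if B.st i = a then some i else none

variable (k) in
/-- The family of operators of a branching system. -/
noncomputable def fam : Fam k G Reg (Module.End k (I →₀ k)) where
  p a := pf (B.pv a)
  x e := pf (B.c e)
  y e := pf (B.t e)
  idem a := by
    rw [pf_mul]; congr 1; funext i
    by_cases h : B.st i = a <;> simp [pv, h]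
  orth a b hab := by
    rw [pf_mul, ← pf_none]; congr 1; funext i
    by_cases h : B.st i = b
    · have : ¬ B.st i = a := fun h' => hab (h'.symm.trans h)
      simp [pv, h, Ne.symm hab]
    · simp [pv, h]
  se e := by
    rw [pf_mul]; congr 1; funext i
    rcases h : B.c e i with _ | j
    · simp
    · simp [pv, (B.c_st e i j h).2]
  er e := by
    rw [pf_mul]; congr 1; funext i
    by_cases h : B.st i = G.r e
    · simp [pv, h]
    · rcases h' : B.c e i with _ | j
      · simp [pv, h]
      · exact absurd (B.c_st e i j h').1 h
  rg e := by
    rw [pf_mul]; congr 1; funext j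
    rcases h : B.t e j with _ | i
    · simp
    · simp [pv, (B.c_st e i j ((B.ct e i j).2 h)).1]
  gs e := by
    rw [pf_mul]; congr 1; funext j
    by_cases h : B.st j = G.s e
    · simp [pv, h]
    · rcases h' : B.t e j with _ | i
      · simp [pv, h]
      · exact absurd (B.c_st e i j ((B.ct e i j).2 h')).2 h
  ge e := by
    rw [pf_mul]; congr 1; funext i
    by_cases h : B.st i = G.r e
    · obtain ⟨j, hj⟩ := B.c_some e i h
      simp [pv, h, hj, (B.ct e i j).1 hj]
    · rcases h' : B.c e i with _ | j
      · simp [pv, h]
      · exact absurd (B.c_st e i j h').1 h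
  gf e f hef := by
    rw [pf_mul, ← pf_none]; congr 1; funext i
    rcases h : B.c f i with _ | j
    · simp
    · rcases h' : B.t e j with _ | l
      · simp [h']
      · exact absurd (B.c_inj e f l i j ((B.ct e l j).2 h') h) hef
  ck a ha S hS := by
    refine Finsupp.lhom_ext fun j b => ?_
    rw [LinearMap.sum_apply]
    by_cases h : B.st j = a
    · obtain ⟨e, i, hei⟩ := B.reg j (h ▸ ha)
      have hs : G.s e = a := (B.c_st e i j hei).2 ▸ h
      rw [Finset.sum_eq_single e]
      · rw [Module.End.mul_apply, pf_single_some ((B.ct e i j).1 hei), pf_single_some hei,
          pf_single_some (j := j) (by simp [pv, h])]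
      · intro f _ hfe
        rw [Module.End.mul_apply]
        rcases h' : B.t f j with _ | l
        · rw [pf_single_none h', map_zero]
        · exact absurd (B.c_inj f e l i j ((B.ct f l j).2 h') hei) hfe
      · intro h'
        exact absurd ((hS e).2 hs) h'
    · rw [pf_single_none (by simp [pv, h])]
      refine Finset.sum_eq_zero fun e he => ?_
      rw [Module.End.mul_apply]
      rcases h' : B.t e j with _ | l
      · rw [pf_single_none h', map_zero]
      · exact absurd ((B.c_st e l j ((B.ct e l j).2 h')).2.trans ((hS e).1 he)) h
  one S hS := by
    refine Finsupp.lhom_ext fun j b => ?_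
    rw [LinearMap.sum_apply, Finset.sum_eq_single (B.st j)]
    · rw [pf_single_some (j := j) (by simp [pv])]; rfl
    · intro a _ ha
      rw [pf_single_none (by simp [pv, Ne.symm ha])]
    · intro h
      exact absurd (hS _) h

variable (k) in
/-- The representation of a branching system. -/
noncomputable def rep : CL k G Reg →ₐ[k] Module.End k (I →₀ k) := (B.fam k).lift

@[simp] theorem rep_vt (a : V) : B.rep k (vt a) = pf (B.pv a) := by
  simp [rep, fam]
@[simp] theorem rep_ed (e : E) : B.rep k (ed e) = pf (B.c e) := by
  simp [rep, fam]
@[simp] theorem rep_gh (e : E) : B.rep k (gh e) = pf (B.t e) := by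
  simp [rep, fam]

end Br

/-! ### The involution -/

section Star

variable (k : Type u) [Field k] {V E : Type} (G : Graph V E) (Reg : V → Prop)

/-- the family defining the involution -/
noncomputable def starFam : Fam k G Reg (CL k G Reg)ᵐᵒᵖ where
  p a := MulOpposite.op (vt a)
  x e := MulOpposite.op (gh e)
  y e := MulOpposite.op (ed e)
  idem a := by rw [← MulOpposite.op_mul, vt_idem]
  orth a b h := by rw [← MulOpposite.op_mul, vt_orth h.symm, MulOpposite.op_zero]
  se e := by rw [← MulOpposite.op_mul, gh_s]
  er e := by rw [← MulOpposite.op_mul, r_gh]
  rg e := by rw [← MulOpposite.op_mul, ed_r]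
  gs e := by rw [← MulOpposite.op_mul, s_ed]
  ge e := by rw [← MulOpposite.op_mul, gh_ed]
  gf e f h := by rw [← MulOpposite.op_mul, gh_ed_ne h.symm, MulOpposite.op_zero]
  ck a h S hS := by
    simp_rw [← MulOpposite.op_mul]
    rw [← Finset.op_sum, ck_rel h S hS]
  one S hS := by
    rw [← Finset.op_sum]
    have := (taut k G Reg).one S hS
    simp only [taut] at this
    rw [this]; rfl

/-- The involution as an algebra map to the opposite algebra. -/
noncomputable def starOp : CL k G Reg →ₐ[k] (CL k G Reg)ᵐᵒᵖ := (starFam k G Reg).lift

/-- The involution, as a map. -/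
noncomputable def sta (a : CL k G Reg) : CL k G Reg := MulOpposite.unop (starOp k G Reg a)

end Star

section Star2

variable {k : Type u} [Field k] {V E : Type} {G : Graph V E} {Reg : V → Prop}

@[simp] theorem sta_vt (a : V) : sta k G Reg (vt a) = vt a := by simp [sta, starOp, starFam]
@[simp] theorem sta_ed (e : E) : sta k G Reg (ed e) = gh e := by simp [sta, starOp, starFam]
@[simp] theorem sta_gh (e : E) : sta k G Reg (gh e) = ed e := by simp [sta, starOp, starFam]
theorem sta_mul (a b : CL k G Reg) : sta k G Reg (a * b) = sta k G Reg b * sta k G Reg a := by
  simp [sta]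
theorem sta_add (a b : CL k G Reg) : sta k G Reg (a + b) = sta k G Reg a + sta k G Reg b := by
  simp [sta]
theorem sta_algebraMap (c : k) : sta k G Reg (algebraMap k _ c) = algebraMap k _ c := by
  simp only [sta, AlgHom.commutes]
  rfl
@[simp] theorem sta_one : sta k G Reg 1 = 1 := by simp [sta]
@[simp] theorem sta_zero : sta k G Reg 0 = 0 := by simp [sta]

theorem sta_sta (a : CL k G Reg) : sta k G Reg (sta k G Reg a) = a := by
  let S : Subalgebra k (CL k G Reg) :=
    { carrier := {a | sta k G Reg (sta k G Reg a) = a}
      mul_mem' := by
        intro a b ha hb
        simp only [Set.mem_ofPred_eq] at *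
        rw [sta_mul, sta_mul, ha, hb]
      add_mem' := by
        intro a b ha hb
        simp only [Set.mem_ofPred_eq] at *
        rw [sta_add, sta_add, ha, hb]
      algebraMap_mem' := by
        intro c
        simp only [Set.mem_ofPred_eq]
        rw [sta_algebraMap, sta_algebraMap] }
  exact mem_of_gen k G Reg S (fun a => by simp [S]) (fun e => by simp [S]) (fun e => by simp [S]) a

/-- The adjoint of an operator of a branching representation is the operator of the adjoint. -/
theorem Br.adj [DecidableEq V] {I : Type} (B : Br G Reg I) (a : CL k G Reg) (u v : I →₀ k) :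
    dp (B.rep k a u) v = dp u (B.rep k (sta k G Reg a) v) := by
  let S : Subalgebra k (CL k G Reg) :=
    { carrier := {a | ∀ u v, dp (B.rep k a u) v = dp u (B.rep k (sta k G Reg a) v)}
      mul_mem' := by
        intro a b ha hb u v
        rw [map_mul, Module.End.mul_apply, ha, hb, sta_mul, map_mul, Module.End.mul_apply]
      add_mem' := by
        intro a b ha hb u v
        rw [map_add, LinearMap.add_apply, map_add, LinearMap.add_apply, ha, hb, sta_add, map_add,
          LinearMap.add_apply, map_add]
      algebraMap_mem' := by
        intro c u v
        rw [sta_algebraMap, AlgHom.commutes]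
        simp [Module.algebraMap_end_apply] }
  refine mem_of_gen k G Reg S (fun a => ?_) (fun e => ?_) (fun e => ?_) a u v
  · intro u v
    rw [sta_vt, rep_vt]
    refine pf_adj (fun i j => ?_) u v
    by_cases h : B.st i = a <;> by_cases h' : B.st j = a <;> simp [pv, h, h', eq_comm]
    · rintro rfl; exact absurd h h'
    · rintro rfl; exact absurd h' h
  · intro u v
    rw [sta_ed, rep_ed, rep_gh]
    exact pf_adj (fun i j => B.ct e i j) u v
  · intro u v
    rw [sta_gh, rep_ed, rep_gh]
    exact pf_adj (fun i j => (B.ct e j i).symm) u v

end Star2

end CKS
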