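import Mathlib

/-!
# Leavitt path algebras, the Cuntz splice, SPI graphs

The definitions used by the statement of the reduction theorem. `CKS.CL k G Reg` is the unital
`k`-algebra generated by the vertices, the edges and the ghost edges of the graph `G` with the usual
relations, the Cuntz-Krieger relation being imposed exactly at the vertices in `Reg`. For a finite
graph and `Reg = {regular vertices}` it is the Leavitt path algebra.
-/

universe u

namespace CKS

/-- A directed graph with vertex type `V`, edge type `E`, source map `s` and range map `r`. -/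
structure Graph (V E : Type) where
  /-- source of an edge -/
  s : E → V
  /-- range of an edge -/
  r : E → V

/-- The generators of the path algebras: vertices, edges and ghost edges. -/
inductive Gen (V E : Type) : Type
  | v : V → Gen V E
  | e : E → Gen V E
  | g : E → Gen V E

section Def

variable (k : Type u) [Field k] {V E : Type} (G : Graph V E) (Reg : V → Prop)

/-- generator of the free algebra given by a vertex -/
abbrev fv (a : V) : FreeAlgebra k (Gen V E) := FreeAlgebra.ι k (Gen.v a)
/-- generator of the free algebra given by an edge -/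
abbrev fe (e : E) : FreeAlgebra k (Gen V E) := FreeAlgebra.ι k (Gen.e e)
/-- generator of the free algebra given by a ghost edge -/
abbrev fg (e : E) : FreeAlgebra k (Gen V E) := FreeAlgebra.ι k (Gen.g e)

/-- The defining relations (Cuntz-Krieger relation at the vertices in `Reg`). -/
inductive Rel : FreeAlgebra k (Gen V E) → FreeAlgebra k (Gen V E) → Prop
  | idem (a : V) : Rel (fv k a * fv k a) (fv k a)
  | orth (a b : V) (h : a ≠ b) : Rel (fv k a * fv k b) 0
  | se (e : E) : Rel (fv k (G.s e) * fe k e) (fe k e)
  | er (e : E) : Rel (fe k e * fv k (G.r e)) (fe k e)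
  | rg (e : E) : Rel (fv k (G.r e) * fg k e) (fg k e)
  | gs (e : E) : Rel (fg k e * fv k (G.s e)) (fg k e)
  | ge (e : E) : Rel (fg k e * fe k e) (fv k (G.r e))
  | gf (e f : E) (h : e ≠ f) : Rel (fg k e * fe k f) 0
  | ck (a : V) (h : Reg a) (S : Finset E) (hS : ∀ e, e ∈ S ↔ G.s e = a) :
      Rel (∑ e ∈ S, fe k e * fg k e) (fv k a)
  | one (S : Finset V) (hS : ∀ a, a ∈ S) : Rel (∑ a ∈ S, fv k a) 1

/-- The relative Cohn path algebra of `G` with Cuntz-Krieger relations at the vertices of `Reg`. -/
abbrev CL : Type u := RingQuot (Rel k G Reg)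

/-- A vertex is regular if it emits at least one edge (and finitely many, which is automatic for
finite graphs). -/
def Graph.IsReg (a : V) : Prop := ∃ e, G.s e = a

/-- The Leavitt path algebra of a finite graph. -/
abbrev LPA : Type u := CL k G G.IsReg

end Def

/-- The rose with two petals. -/
def G2 : Graph (Fin 1) (Fin 2) := ⟨fun _ => 0, fun _ => 0⟩

/-- The Cuntz splice of `G` at `u`: two new vertices `v1 = inr 0`, `v2 = inr 1`, a loop at each of
them (new edges `0`, `1`), one edge each way between them (`2 : v1 → v2`, `3 : v2 → v1`) and one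
edge each way between `u` and `v1` (`4 : u → v1`, `5 : v1 → u`). -/
def splice {V E : Type} (G : Graph V E) (u : V) : Graph (V ⊕ Fin 2) (E ⊕ Fin 6) where
  s := fun x => match x with
    | .inl e => .inl (G.s e)
    | .inr i => (![.inr 0, .inr 1, .inr 0, .inr 1, .inl u, .inr 0] : Fin 6 → V ⊕ Fin 2) i
  r := fun x => match x with
    | .inl e => .inl (G.r e)
    | .inr i => (![.inr 0, .inr 1, .inr 1, .inr 0, .inr 0, .inl u] : Fin 6 → V ⊕ Fin 2) i

/-- reachability by paths (of length at least zero) -/
def Reach {V E : Type} (G : Graph V E) : V → V → Prop :=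
  Relation.ReflTransGen (fun a b => ∃ e, G.s e = a ∧ G.r e = b)

/-- `c` is a cycle: a nonempty closed path with pairwise distinct vertices. -/
def IsCycle {V E : Type} (G : Graph V E) (c : List E) : Prop :=
  ∃ h : c ≠ [], c.IsChain (fun e f => G.r e = G.s f) ∧ G.r (c.getLast h) = G.s (c.head h) ∧
    (c.map G.s).Nodup

/-- The graph condition for the Leavitt path algebra of a finite graph to be simple and purely
infinite. -/
structure IsSPI {V E : Type} (G : Graph V E) : Prop where
  nonempty : Nonempty V
  herSat : ∀ H : Set V, (∀ e, G.s e ∈ H → G.r e ∈ H) →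
    (∀ v, G.IsReg v → (∀ e, G.s e = v → G.r e ∈ H) → v ∈ H) → H = ∅ ∨ H = Set.univ
  exit : ∀ c : List E, IsCycle G c → ∃ e ∈ c, ∃ f, f ≠ e ∧ G.s f = G.s e
  conn : ∀ v, ∃ c, IsCycle G c ∧ ∃ e ∈ c, Reach G v (G.s e)

/-- `u` emits two different edges from whose ranges one can return to `u`. -/
def TwoRet {V E : Type} (G : Graph V E) (u : V) : Prop :=
  ∃ e f : E, e ≠ f ∧ G.s e = u ∧ G.s f = u ∧ Reach G (G.r e) u ∧ Reach G (G.r f) u

end CKS
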