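import Pool.Agent.CKS.Br

/-!
# The graphs `G2` (rose with two petals), `G3` (its Cuntz splice), words, Chen module, compression
-/

set_option linter.unusedSectionVars false

universe u

namespace CKS

/-- The Cuntz splice of the rose with two petals: vertex `0` has two loops `0, 1`, edge `2 : 0 → 1`,
`3 : 1 → 0`, loop `4` at `1`, `5 : 1 → 2`, `6 : 2 → 1`, loop `7` at `2`. -/
def G3 : Graph (Fin 3) (Fin 8) :=
  ⟨![0, 0, 0, 1, 1, 1, 2, 2], ![0, 0, 1, 0, 1, 2, 1, 2]⟩

section Words

variable {k : Type u} [Field k] {V E : Type} {G : Graph V E} {Reg : V → Prop}

/-- product of the edges of a word -/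
noncomputable def xw (l : List E) : CL k G Reg := (l.map ed).prod
/-- product of the ghost edges of a word, in reversed order -/
noncomputable def yw (l : List E) : CL k G Reg := (l.reverse.map gh).prod

@[simp] theorem xw_nil : (xw [] : CL k G Reg) = 1 := by simp [xw]
@[simp] theorem yw_nil : (yw [] : CL k G Reg) = 1 := by simp [yw]
theorem xw_cons (e : E) (l : List E) : (xw (e :: l) : CL k G Reg) = ed e * xw l := by simp [xw]
theorem yw_cons (e : E) (l : List E) : (yw (e :: l) : CL k G Reg) = yw l * gh e := by
  simp [yw]
theorem xw_append (l m : List E) : (xw (l ++ m) : CL k G Reg) = xw l * xw m := by simp [xw]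
theorem yw_append (l m : List E) : (yw (l ++ m) : CL k G Reg) = yw m * yw l := by simp [yw]

/-- The defect idempotent at the vertex `v0`. -/
noncomputable def dfc [Fintype E] [DecidableEq V] (k : Type u) [Field k] (G : Graph V E)
    (Reg : V → Prop) (v0 : V) : CL k G Reg :=
  vt v0 - ∑ e ∈ Finset.univ.filter (fun e => G.s e = v0), ed e * gh e

/-- start vertex of a list of edges which is meant to end at `v0` -/
def lst (G : Graph V E) (v0 : V) : List E → V
  | [] => v0
  | e :: _ => G.s e

/-- validity of a list of edges as a path ending at `v0` -/
def lok (G : Graph V E) (v0 : V) : List E → Prop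
  | [] => True
  | e :: l => G.r e = lst G v0 l ∧ lok G v0 l

end Words

/-- paths ending at `v0` -/
abbrev Pth {V E : Type} (G : Graph V E) (v0 : V) : Type := {l : List E // lok G v0 l}

section Fock

variable {V E : Type} [DecidableEq V] [DecidableEq E] (G : Graph V E) (v0 : V)

/-- prolong a path by an edge -/
def pcons (e : E) (i : Pth G v0) : Option (Pth G v0) :=
  if h : G.r e = lst G v0 i.1 then some ⟨e :: i.1, h, i.2⟩ else none

/-- remove the first edge of a path -/
def ptail (e : E) (i : Pth G v0) : Option (Pth G v0) :=
  match i with
  | ⟨[], _⟩ => none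
  | ⟨f :: l, h⟩ => if f = e then some ⟨l, h.2⟩ else none

theorem pcons_eq_some {e : E} {i j : Pth G v0} :
    pcons G v0 e i = some j ↔ j.1 = e :: i.1 := by
  rcases i with ⟨i, hi⟩
  rcases j with ⟨j, hj⟩
  unfold pcons
  constructor
  · intro h
    split_ifs at h with h'
    have := Option.some.inj h
    exact (congrArg Subtype.val this).symm
  · intro h
    simp only at h
    subst h
    rw [dif_pos hj.1]

theorem ptail_eq_some {e : E} {i j : Pth G v0} :
    ptail G v0 e j = some i ↔ j.1 = e :: i.1 := by
  rcases i with ⟨i, hi⟩
  rcases j with ⟨_ | ⟨f, l⟩, hj⟩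
  · simp [ptail]
  · unfold ptail
    constructor
    · intro h
      simp only at h
      split_ifs at h with h'
      have := congrArg Subtype.val (Option.some.inj h)
      simp only at this
      simp [h', this]
    · intro h
      simp only [List.cons.injEq] at h
      obtain ⟨rfl, rfl⟩ := h
      simp

/-- The Fock branching system on the paths ending at `v0` (no relation at `v0`). -/
def fockBr : Br G (fun v => v ≠ v0) (Pth G v0) where
  st i := lst G v0 i.1
  c := pcons G v0
  t := ptail G v0
  c_some e i h := ⟨⟨e :: i.1, h.symm, i.2⟩, (pcons_eq_some G v0).2 rfl⟩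
  ct e i j := by rw [pcons_eq_some, ptail_eq_some]
  c_st e i j h := by
    rw [pcons_eq_some] at h
    rcases j with ⟨j, hj⟩
    simp only at h
    subst h
    exact ⟨hj.1.symm, rfl⟩
  c_inj e f i i' j h h' := by
    rw [pcons_eq_some] at h h'
    rw [h] at h'
    exact (List.cons.inj h').1
  reg j h := by
    rcases j with ⟨_ | ⟨e, l⟩, hj⟩
    · exact absurd rfl h
    · exact ⟨e, ⟨l, hj.2⟩, (pcons_eq_some G v0).2 rfl⟩

end Fock

/-- the index type of the Fock space of the paths of `G3` ending at the vertex `1` -/
abbrev PI : Type := Pth G3 1

/-- the empty path -/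
def pnil : PI := ⟨[], trivial⟩

/-- prolongation on the basis of the Chen module of the loop `7` -/
def chc (e : Fin 8) : Option PI → Option (Option PI)
  | none => if e = 7 then some none else if e = 5 then some (some pnil) else none
  | some i => (pcons G3 1 e i).map some

/-- removal of the first edge on the basis of the Chen module of the loop `7` -/
def cht (e : Fin 8) : Option PI → Option (Option PI)
  | none => if e = 7 then some none else none
  | some ⟨[], _⟩ => if e = 5 then some none else none
  | some ⟨f :: l, h⟩ => if f = e then some (some ⟨l, h.2⟩) else none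

/-- The branching system of the Chen module of the loop `7` of `G3`. -/
def chenBr : Br G3 G3.IsReg (Option PI) where
  st i := match i with
    | none => 2
    | some i => lst G3 1 i.1
  c := chc
  t := cht
  c_some e i h := by
    rcases i with _ | i
    · have : e = 5 ∨ e = 7 := by
        revert h; fin_cases e <;> simp [G3]
      rcases this with rfl | rfl
      · exact ⟨some pnil, by simp [chc]⟩
      · exact ⟨none, by simp [chc]⟩
    · refine ⟨some ⟨e :: i.1, h.symm, i.2⟩, ?_⟩
      simp only [chc, Option.map_eq_some_iff]
      exact ⟨_, (pcons_eq_some G3 1).2 rfl, rfl⟩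
  ct e i j := by
    rcases i with _ | ⟨i, hi⟩
    · rcases j with _ | ⟨_ | ⟨f, l⟩, hj⟩
      · by_cases h7 : e = 7
        · simp [chc, cht, h7]
        · by_cases h5 : e = 5
          · simp [chc, cht, h5]
          · simp [chc, cht, h7, h5]
      · by_cases h7 : e = 7
        · simp [chc, cht, h7]
        · by_cases h5 : e = 5
          · simp [chc, cht, h5, pnil]
          · simp [chc, cht, h7, h5]
      · by_cases h7 : e = 7
        · simp [chc, cht, h7]
        · by_cases h5 : e = 5
          · simp [chc, cht, h5, pnil]
          · simp [chc, cht, h7, h5]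
    · rcases j with _ | ⟨_ | ⟨f, l⟩, hj⟩
      · by_cases h7 : e = 7
        · simp [chc, cht, h7]
        · simp [chc, cht, h7]
      · by_cases h5 : e = 5
        · simp [chc, cht, h5, pcons_eq_some]
        · simp [chc, cht, h5, pcons_eq_some]
      · simp only [chc, cht, Option.map_eq_some_iff]
        constructor
        · rintro ⟨a, ha, hb⟩
          obtain rfl := Option.some.inj hb
          rw [pcons_eq_some] at ha
          simp only [List.cons.injEq] at ha
          obtain ⟨rfl, rfl⟩ := ha
          simp
        · intro h
          split_ifs at h with hf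
          subst hf
          have := congrArg Subtype.val (Option.some.inj (Option.some.inj h))
          simp only at this
          subst this
          exact ⟨⟨f :: l, hj⟩, (pcons_eq_some G3 1).2 rfl, rfl⟩
  c_st e i j h := by
    rcases i with _ | ⟨i, hi⟩
    · simp only [chc] at h
      split_ifs at h with h7 h5
      · subst h7
        obtain rfl := Option.some.inj h
        exact ⟨rfl, rfl⟩
      · subst h5
        obtain rfl := Option.some.inj h
        exact ⟨rfl, rfl⟩
    · simp only [chc, Option.map_eq_some_iff] at h
      obtain ⟨a, ha, rfl⟩ := h
      exact (fockBr G3 1).c_st e ⟨i, hi⟩ a ha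
  c_inj e f i i' j h h' := by
    rcases j with _ | ⟨_ | ⟨g, l⟩, hj⟩
    · have h1 : ∀ e i, chc e i = some none → e = 7 := by
        intro e i h
        rcases i with _ | i
        · simp only [chc] at h
          split_ifs at h with h7 h5
          · exact h7
          · simp at h
        · simp [chc, Option.map_eq_some_iff] at h
      rw [h1 e i h, h1 f i' h']
    · have h1 : ∀ e i, chc e i = some (some ⟨[], hj⟩) → e = 5 := by
        intro e i h
        rcases i with _ | i
        · simp only [chc] at h
          split_ifs at h with h7 h5
          · simp at h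
          · exact h5
        · simp [chc, Option.map_eq_some_iff, pcons_eq_some] at h
      rw [h1 e i h, h1 f i' h']
    · have h1 : ∀ e i, chc e i = some (some ⟨g :: l, hj⟩) → e = g := by
        intro e i h
        rcases i with _ | i
        · simp only [chc] at h
          split_ifs at h with h7 h5
          · simp at h
          · simp [pnil] at h
        · simp only [chc, Option.map_eq_some_iff] at h
          obtain ⟨a, ha, hb⟩ := h
          obtain rfl := Option.some.inj hb
          rw [pcons_eq_some] at ha
          simp only [List.cons.injEq] at ha
          exact ha.1.symm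
      rw [h1 e i h, h1 f i' h']
  reg j _ := by
    rcases j with _ | ⟨_ | ⟨e, l⟩, hj⟩
    · exact ⟨7, none, by simp [chc]⟩
    · exact ⟨5, none, by simp [chc, pnil]⟩
    · refine ⟨e, some ⟨l, hj.2⟩, ?_⟩
      simp only [chc, Option.map_eq_some_iff]
      exact ⟨⟨e :: l, hj⟩, (pcons_eq_some G3 1).2 rfl, rfl⟩

section Spaces

variable (k : Type u) [Field k]

/-- The Chen module of the loop `7` -/
abbrev NN : Type u := Option PI →₀ k
/-- The Fock space of the paths ending at `1` -/
abbrev MM : Type u := PI →₀ k

/-- the representation of the Leavitt path algebra of `G3` on the Chen module -/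
noncomputable def rN : LPA k G3 →ₐ[k] Module.End k (NN k) := chenBr.rep k
/-- the representation of the relative Cohn algebra of `G3` on the Fock space -/
noncomputable def rM : CL k G3 (fun v => v ≠ 1) →ₐ[k] Module.End k (MM k) := (fockBr G3 1).rep k

variable {k}

/-- the distinguished vector of the Chen module -/
noncomputable def w0 : NN k := Finsupp.single none 1
/-- the vacuum vector -/
noncomputable def om : MM k := Finsupp.single pnil 1

/-- inclusion of the Fock space in the Chen module -/
noncomputable def inc : MM k →ₗ[k] NN k :=
  Finsupp.linearCombination k (fun i => Finsupp.single (some i) 1)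
/-- projection of the Chen module onto the Fock space -/
noncomputable def prj : NN k →ₗ[k] MM k :=
  Finsupp.linearCombination k (fun i => match i with
    | none => 0
    | some i => Finsupp.single i 1)

/-- compression of an operator -/
noncomputable def comp (T : Module.End k (NN k)) : Module.End k (MM k) := prj ∘ₗ T ∘ₗ inc

end Spaces

/-- An operator is of finite rank (with finitely supported functionals) if it kills almost all
basis vectors. -/
def FR {k : Type u} [Field k] {I : Type} (T : Module.End k (I →₀ k)) : Prop :=
  {i | T (Finsupp.single i 1) ≠ 0}.Finite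

end CKS
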