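import Pool.Agent.CKS.Targets

/-! Final assembly for MP_c09b05_al. -/

set_option linter.unusedSectionVars false

universe u

namespace CKS

namespace H_Final

theorem G3_relabel (k : Type u) [Field k] (hR : T_relabel.{u}) :
    Nonempty (LPA k (splice G2 0) ≃ₐ[k] LPA k G3) := by
  let ev : Fin 1 ⊕ Fin 2 ≃ Fin 3 := finSumFinEquiv
  let ee : Fin 2 ⊕ Fin 6 ≃ Fin 8 :=
    (finSumFinEquiv (m := 2) (n := 6)).trans
      { toFun := ![0, 1, 4, 7, 5, 6, 2, 3]
        invFun := ![0, 1, 6, 7, 2, 4, 5, 3]
        left_inv := by intro i; fin_cases i <;> rfl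
        right_inv := by intro i; fin_cases i <;> rfl }
  refine hR k ev ee ?_ ?_
  · rintro (e | e)
    · fin_cases e <;> rfl
    · fin_cases e <;> rfl
  · rintro (e | e)
    · fin_cases e <;> rfl
    · fin_cases e <;> rfl

end H_Final

open H_Final in
/-- The reduction theorem from the ingredients. -/
theorem main_of (hR : T_relabel.{u}) (hA : T_adj.{u}) (hM : T_move.{u}) (hTwo : T_two.{u})
    (hRed : T_reduce) (hSpi : T_spi) (hSpi2 : T_spi2) (hRA : T_retadj) (hSA : T_spladj)
    (hConv : T_conv.{u}) (k : Type u) [Field k] :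
    List.TFAE [
      Nonempty (LPA k G2 ≃ₐ[k] LPA k (splice G2 0)),
      ∀ (V E : Type) [Finite V] [Finite E] (G : Graph V E), IsSPI G →
        ∃ v, IsMoritaEquivalent k (LPA k G) (LPA k (splice G v)),
      ∀ (V E : Type) [Finite V] [Finite E] (G : Graph V E) (v : V), TwoRet G v →
        IsMoritaEquivalent k (LPA k G) (LPA k (splice G v))] := by
  classical
  obtain ⟨e3⟩ := G3_relabel k hR
  tfae_have 1 → 3 := by
    rintro ⟨φ⟩ V E _ _ G v hv
    let _ := Fintype.ofFinite V
    let _ := Fintype.ofFinite E
    set A : V → V → ℕ := fun a b => Fintype.card {e // G.s e = a ∧ G.r e = b} with hAdef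
    obtain ⟨e1⟩ := hA k G A (fun a b => rfl)
    obtain ⟨e2⟩ := hA k (splice G v) (spl A v) (hSA G A (fun a b => rfl) v)
    have h3 : IsMoritaEquivalent k (LPA k (adjG A)) (LPA k (adjG (spl A v))) := by
      refine hRed v (fun A => IsMoritaEquivalent k (LPA k (adjG A)) (LPA k (adjG (spl A v))))
        ?_ ?_ A (hRA G A (fun a b => rfl) v hv)
      · intro A j hvj hAvj hj hP
        obtain ⟨f1⟩ := hM k A v j hvj hAvj hj
        obtain ⟨l, hl⟩ := hj
        obtain ⟨f2⟩ := hM k (spl A v) (.inl v) (.inl j) (by simpa using hvj)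
          (by simpa [spl] using hAvj) ⟨.inl l, by simpa [spl] using hl⟩
        have hsub : sub (spl A v) (.inl v) (.inl j) = spl (sub A v j) v := by
          funext a b
          rcases a with a | a <;> rcases b with b | b
          · by_cases h : a = v
            · subst h
              simp [sub, spl]
            · simp [sub, spl, h]
          · by_cases h : a = v
            · subst h
              simp [sub, spl, Ne.symm hvj]
            · simp [sub, spl, h]
          · simp [sub, spl]
          · simp [sub, spl]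
        rw [hsub] at f2
        exact ((IsMoritaEquivalent.of_algEquiv k f1).trans k hP).trans k
          ((IsMoritaEquivalent.of_algEquiv k f2).symm k)
      · intro A hA2
        exact hTwo k (φ.trans e3) A v hA2
    exact ((IsMoritaEquivalent.of_algEquiv k e1).trans k h3).trans k
      ((IsMoritaEquivalent.of_algEquiv k e2).symm k)
  tfae_have 3 → 2 := by
    intro h V E _ _ G hG
    obtain ⟨v, hv⟩ := hSpi G hG
    exact ⟨v, h V E G v hv⟩
  tfae_have 2 → 1 := by
    intro h
    obtain ⟨v, hv⟩ := h (Fin 1) (Fin 2) G2 hSpi2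
    have : v = 0 := Subsingleton.elim _ _
    subst this
    obtain ⟨φ⟩ := hConv k (hv.trans k (IsMoritaEquivalent.of_algEquiv k e3))
    exact ⟨φ.trans e3.symm⟩
  tfae_finish

end CKS
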