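import Pool.Agent.CKS.Defs

/-!
# Graph constructions: Cuntz splice, adjacency graphs, elementary moves, SPI graphs
-/

universe u

namespace CKS

/-- The graph of an adjacency matrix. -/
def adjG {ι : Type} (A : ι → ι → ℕ) : Graph ι (Σ i : ι, Σ j : ι, Fin (A i j)) :=
  ⟨fun x => x.1, fun x => x.2.1⟩

/-- One edge `i → j` is replaced by the edges out of `j`. -/
def sub {ι : Type} [DecidableEq ι] (A : ι → ι → ℕ) (i j : ι) : ι → ι → ℕ :=
  fun a b => if a = i then A i b + A j b - (if b = j then 1 else 0) else A a b

/-- A new source with row `t` is added. -/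
def extA {ι : Type} (A : ι → ι → ℕ) (t : ι → ℕ) : Option ι → Option ι → ℕ
  | some a, some b => A a b
  | some _, none => 0
  | none, some b => t b
  | none, none => 0

/-- The adjacency matrix of the Cuntz splice. -/
def spl {ι : Type} [DecidableEq ι] (A : ι → ι → ℕ) (u : ι) : ι ⊕ Fin 2 → ι ⊕ Fin 2 → ℕ
  | .inl a, .inl b => A a b
  | .inl a, .inr j => if a = u ∧ j = 0 then 1 else 0
  | .inr i, .inl b => if b = u ∧ i = 0 then 1 else 0
  | .inr _, .inr _ => 1

/-- The graph with `u = p`, `p = 2 p + R` (`p = none`), where `R` are the edges `e : Ed` with source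
`u`; the other edges are the `e : Ed` with another source. -/
def GP {V Ed : Type} [DecidableEq V] (s r : Ed → V) (u : V) : Graph (Option V) (Ed ⊕ Fin 3) where
  s := fun x => match x with
    | .inl e => if s e = u then none else some (s e)
    | .inr i => (![some u, none, none] : Fin 3 → Option V) i
  r := fun x => match x with
    | .inl e => some (r e)
    | .inr _ => none

/-- The graph with `u = q0 + q1 + q2`, `q0 = 2 q0 + q1`, `q1 = q0 + q1 + q2 + R`,
`q2 = q1 + q2`. -/
def GQ {V Ed : Type} [DecidableEq V] (s r : Ed → V) (u : V) :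
    Graph (V ⊕ Fin 3) (Ed ⊕ (Fin 3 ⊕ Fin 8)) where
  s := fun x => match x with
    | .inl e => if s e = u then .inr 1 else .inl (s e)
    | .inr (.inl _) => .inl u
    | .inr (.inr e) => .inr (G3.s e)
  r := fun x => match x with
    | .inl e => .inl (r e)
    | .inr (.inl i) => .inr i
    | .inr (.inr e) => .inr (G3.r e)

/-- Local gadget: rows `u` (index `0`) and three auxiliary vertices; `w` gives the multiplicities of
the external row `R`. -/
def glob {V : Type} [DecidableEq V] (A : V → V → ℕ) (u : V) (R : V → ℕ) (m : Fin 4 → Fin 4 → ℕ)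
    (w : Fin 4 → ℕ) : V ⊕ Fin 3 → V ⊕ Fin 3 → ℕ
  | .inl a, .inl b => if a = u then (if b = u then m 0 0 else 0) + w 0 * R b else A a b
  | .inl a, .inr j => if a = u then m 0 j.succ else 0
  | .inr i, .inl b => (if b = u then m i.succ 0 else 0) + w i.succ * R b
  | .inr i, .inr j => m i.succ j.succ

end CKS
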