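import Pool.Agent.CKS.Targets

/-! Preparations for TISO: the matrix units of a relative Cohn algebra and finite rank operators. -/

set_option linter.unusedSectionVars false

universe u

namespace CKS

namespace H_TIso

section Units

variable {k : Type u} [Field k] {V E : Type} [Fintype V] [DecidableEq V] [Fintype E]
  [DecidableEq E] {G : Graph V E} {v0 : V}

/-- abbreviation for the relative Cohn algebra -/
abbrev CC (k : Type u) [Field k] {V E : Type} (G : Graph V E) (v0 : V) : Type u :=
  CL k G (fun v => v ≠ v0)

/-- abbreviation for the defect idempotent -/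
noncomputable abbrev dd (k : Type u) [Field k] {V E : Type} [DecidableEq V] [Fintype E]
    (G : Graph V E) (v0 : V) : CC k G v0 := dfc k G (fun v => v ≠ v0) v0

theorem gh_dd (e : E) : (gh e * dd k G v0 : CC k G v0) = 0 := by
  unfold dd dfc
  rw [mul_sub, Finset.mul_sum]
  by_cases h : G.s e = v0
  · rw [Finset.sum_eq_single e]
    · rw [← mul_assoc, gh_ed, r_gh, ← h, gh_s, sub_self]
    · intro f _ hf
      rw [← mul_assoc, gh_ed_ne (Ne.symm hf), zero_mul]
    · intro h'
      simp [h] at h'
  · rw [gh_vt h, Finset.sum_eq_zero, sub_zero]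
    intro f hf
    have : e ≠ f := by
      rintro rfl
      simp at hf
      exact h hf
    rw [← mul_assoc, gh_ed_ne this, zero_mul]

theorem dd_ed (e : E) : (dd k G v0 * ed e : CC k G v0) = 0 := by
  unfold dd dfc
  rw [sub_mul, Finset.sum_mul]
  by_cases h : G.s e = v0
  · rw [Finset.sum_eq_single e]
    · rw [mul_assoc, gh_ed, ed_r, ← h, s_ed, sub_self]
    · intro f _ hf
      rw [mul_assoc, gh_ed_ne hf, mul_zero]
    · intro h'
      simp [h] at h'
  · rw [vt_ed (Ne.symm h), Finset.sum_eq_zero, sub_zero]
    intro f hf
    have : f ≠ e := by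
      rintro rfl
      simp at hf
      exact h hf
    rw [mul_assoc, gh_ed_ne this, mul_zero]

theorem vt_dd : (vt v0 * dd k G v0 : CC k G v0) = dd k G v0 := by
  unfold dd dfc
  rw [mul_sub, vt_idem, Finset.mul_sum]
  congr 1
  refine Finset.sum_congr rfl fun e he => ?_
  have : G.s e = v0 := by simpa using he
  rw [← mul_assoc, ← this, s_ed]

theorem dd_dd : (dd k G v0 * dd k G v0 : CC k G v0) = dd k G v0 := by
  conv_lhs => enter [1]; unfold dd dfc
  rw [sub_mul, vt_dd, Finset.sum_mul, Finset.sum_eq_zero, sub_zero]
  intro e _
  rw [mul_assoc, gh_dd, mul_zero]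

theorem lst_xw (l : List E) (h : lok G v0 l) :
    (vt (lst G v0 l) * (xw l * dd k G v0) : CC k G v0) = xw l * dd k G v0 := by
  rcases l with _ | ⟨e, l⟩
  · simp only [lst, xw_nil, one_mul]
    exact vt_dd
  · simp only [lst, xw_cons, ← mul_assoc]
    rw [s_ed]

theorem path_orth (p l : List E) (hp : lok G v0 p) (hl : lok G v0 l) :
    (dd k G v0 * (yw p * (xw l * dd k G v0)) : CC k G v0) = if p = l then dd k G v0 else 0 := by
  induction p generalizing l with
  | nil =>
    rcases l with _ | ⟨e, l⟩
    · simp [dd_dd]
    · simp only [yw_nil, one_mul, xw_cons, ← mul_assoc]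
      rw [dd_ed]
      simp
  | cons f p ih =>
    rcases l with _ | ⟨e, l⟩
    · rw [yw_cons, xw_nil, one_mul, mul_assoc, gh_dd]
      simp
    · rw [yw_cons, xw_cons]
      by_cases h : f = e
      · subst h
        have h1 : (yw p * gh f * (ed f * xw l * dd k G v0) : CC k G v0)
            = yw p * (xw l * dd k G v0) := by
          rw [show (yw p * gh f * (ed f * xw l * dd k G v0) : CC k G v0)
            = yw p * ((gh f * ed f) * (xw l * dd k G v0)) by simp only [mul_assoc]]
          rw [gh_ed, hl.1, lst_xw l hl.2]
        rw [h1, ih l hp.2 hl.2]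
        simp
      · have h1 : (yw p * gh f * (ed e * xw l * dd k G v0) : CC k G v0) = 0 := by
          rw [show (yw p * gh f * (ed e * xw l * dd k G v0) : CC k G v0)
            = yw p * ((gh f * ed e) * (xw l * dd k G v0)) by simp only [mul_assoc]]
          rw [gh_ed_ne h, zero_mul, mul_zero]
        rw [h1, mul_zero]
        simp [h]

end Units

section Range

variable {k : Type u} [Field k] {V E : Type} [Fintype V] [DecidableEq V] [Fintype E]
  [DecidableEq E] {G : Graph V E} {v0 : V}

theorem fr_eq (X : Module.End k (MM k)) (hX : FR X) (m : MM k) :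
    X m = ∑ p ∈ hX.toFinset, m p • X (Finsupp.single p 1) := by
  classical
  induction m using Finsupp.induction_linear with
  | zero => simp
  | add a b ha hb => rw [map_add, ha, hb, ← Finset.sum_add_distrib]; simp [add_smul]
  | single q c =>
    have : (Finsupp.single q c : MM k) = c • Finsupp.single q 1 := by simp
    by_cases h : X (Finsupp.single q 1) = 0
    · rw [this, map_smul, h, smul_zero, Finset.sum_eq_zero]
      intro p _
      by_cases hpq : q = p
      · subst hpq; simp [h]
      · simp [hpq]
    · rw [Finset.sum_eq_single q]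
      · rw [this, map_smul]; simp
      · intro p _ hpq
        simp [Ne.symm hpq]
      · intro h'
        exact absurd (by simpa using h) h'

/-- Finite rank operators lie in the image of a Fock-like representation. -/
theorem fr_mem (ρ : CC k G v0 →ₐ[k] Module.End k (MM k))
    (hd : ∀ m, ρ (dd k G v0) m = m pnil • om)
    (hfin : ∀ p : PI, {l : Pth G v0 | (ρ (xw l.1) om) p ≠ 0}.Finite)
    (hspan : Submodule.span k (Set.range (fun l : Pth G v0 => ρ (xw l.1) om)) = ⊤)
    (X : Module.End k (MM k)) (hX : FR X) : ∃ a, ρ a = X := by
  classical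
  have hom : ρ (dd k G v0) om = (om : MM k) := by
    rw [hd]; simp [om]
  -- matrix units
  have hunit : ∀ p l q : Pth G v0, ρ (xw q.1 * dd k G v0 * yw p.1) (ρ (xw l.1) om)
      = if p = l then ρ (xw q.1) om else 0 := by
    intro p l q
    have h1 : ρ (xw l.1) om = ρ (xw l.1 * dd k G v0) om := by
      rw [map_mul, Module.End.mul_apply, hom]
    rw [h1, ← Module.End.mul_apply, ← map_mul]
    rw [show (xw q.1 * dd k G v0 * yw p.1 * (xw l.1 * dd k G v0) : CC k G v0)
      = xw q.1 * (dd k G v0 * (yw p.1 * (xw l.1 * dd k G v0))) by simp only [mul_assoc]]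
    rw [path_orth _ _ p.2 l.2]
    by_cases h : p = l
    · subst h
      simp [map_mul, Module.End.mul_apply, hom]
    · have : ¬ p.1 = l.1 := fun h' => h (Subtype.ext h')
      simp [h, this]
  -- for every m there is an element acting as the unit (m, l)
  have hunit2 : ∀ (m : MM k) (p : Pth G v0), ∃ a, ∀ l : Pth G v0,
      ρ a (ρ (xw l.1) om) = if p = l then m else 0 := by
    intro m p
    have hm : m ∈ Submodule.span k (Set.range (fun l : Pth G v0 => ρ (xw l.1) om)) := by
      rw [hspan]; trivial
    induction hm using Submodule.span_induction with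
    | mem x hx =>
      obtain ⟨q, rfl⟩ := hx
      exact ⟨_, fun l => hunit p l q⟩
    | zero => exact ⟨0, fun l => by simp⟩
    | add x y _ _ hx hy =>
      obtain ⟨a, ha⟩ := hx
      obtain ⟨b, hb⟩ := hy
      refine ⟨a + b, fun l => ?_⟩
      rw [map_add, LinearMap.add_apply, ha, hb]
      by_cases h : p = l <;> simp [h]
    | smul c x _ hx =>
      obtain ⟨a, ha⟩ := hx
      refine ⟨c • a, fun l => ?_⟩
      rw [map_smul, LinearMap.smul_apply, ha]
      by_cases h : p = l <;> simp [h]
  choose f hf using hunit2
  set F0 : Set (Pth G v0) := ⋃ p ∈ hX.toFinset, {l : Pth G v0 | (ρ (xw l.1) om) p ≠ 0} with hF0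
  have hF0f : F0.Finite := by
    rw [hF0]
    exact Set.Finite.biUnion (Finset.finite_toSet _) (fun p _ => hfin p)
  refine ⟨∑ l ∈ hF0f.toFinset, f (X (ρ (xw l.1) om)) l, ?_⟩
  have key : ∀ l : Pth G v0, (ρ (∑ l ∈ hF0f.toFinset, f (X (ρ (xw l.1) om)) l)) (ρ (xw l.1) om)
      = X (ρ (xw l.1) om) := by
    intro l
    rw [map_sum, LinearMap.sum_apply]
    by_cases hl : l ∈ F0
    · rw [Finset.sum_eq_single l]
      · rw [hf]; simp
      · intro l' _ hne
        rw [hf]; simp [hne]
      · intro h'
        exact absurd (by simpa using hl) h'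
    · rw [Finset.sum_eq_zero]
      · symm
        rw [fr_eq X hX]
        refine Finset.sum_eq_zero fun p hp => ?_
        have : (ρ (xw l.1) om) p = 0 := by
          by_contra hne
          apply hl
          rw [hF0]
          simp only [Set.mem_iUnion]
          exact ⟨p, hp, hne⟩
        rw [this, zero_smul]
      · intro l' hl'
        rw [hf]
        have : l' ≠ l := by
          rintro rfl
          exact hl (by simpa using hl')
        simp [this]
  refine LinearMap.ext_on_range (v := fun l : Pth G v0 => ρ (xw l.1) om) hspan ?_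
  intro l
  exact key l

end Range

section Comp

variable {k : Type u} [Field k]

theorem inc_single (p : PI) (c : k) : inc (Finsupp.single p c) = Finsupp.single (some p) c := by
  simp [inc, Finsupp.linearCombination_single]

theorem prj_single_some (p : PI) (c : k) :
    prj (Finsupp.single (some p) c) = (Finsupp.single p c : MM k) := by
  simp [prj, Finsupp.linearCombination_single]

theorem prj_single_none (c : k) : prj (Finsupp.single none c) = (0 : MM k) := by
  simp [prj, Finsupp.linearCombination_single]

theorem prj_inc (m : MM k) : prj (inc m) = m := by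
  induction m using Finsupp.induction_linear with
  | zero => simp
  | add a b ha hb => rw [map_add, map_add, ha, hb]
  | single p c => rw [inc_single, prj_single_some]

theorem inc_prj (n : NN k) : inc (prj n) + n none • w0 = n := by
  induction n using Finsupp.induction_linear with
  | zero => simp
  | add a b ha hb =>
    rw [map_add, map_add, Finsupp.add_apply, add_smul]
    conv_rhs => rw [← ha, ← hb]
    abel
  | single p c =>
    rcases p with _ | p
    · rw [prj_single_none]; simp [w0]
    · rw [prj_single_some, inc_single]; simp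

theorem comp_one : comp (1 : Module.End k (NN k)) = 1 := by
  refine LinearMap.ext fun m => ?_
  simp [comp, prj_inc]

theorem comp_add (X Y : Module.End k (NN k)) : comp (X + Y) = comp X + comp Y := by
  refine LinearMap.ext fun m => ?_
  simp [comp]

theorem comp_algebraMap (c : k) :
    comp (algebraMap k (Module.End k (NN k)) c) = algebraMap k (Module.End k (MM k)) c := by
  refine LinearMap.ext fun m => ?_
  simp [comp, prj_inc, Module.algebraMap_end_apply]

theorem FR_add {X Y : Module.End k (MM k)} (hX : FR X) (hY : FR Y) : FR (X + Y) := by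
  refine (hX.union hY).subset fun i hi => ?_
  by_contra h
  simp only [Set.mem_union, Set.mem_ofPred_eq, not_or, not_not] at h
  apply hi
  rw [LinearMap.add_apply, h.1, h.2, add_zero]

theorem FR_neg {X : Module.End k (MM k)} (hX : FR X) : FR (-X) := by
  refine hX.subset fun i hi => ?_
  simpa using hi

theorem comp_mul (a c : LPA k G3) :
    FR (comp (rN k (a * c)) - comp (rN k a) * comp (rN k c)) := by
  have h : {p : PI | (rN k (sta k G3 _ c) w0) (some p) ≠ 0}.Finite := by
    refine Set.Finite.subset (Finset.finite_toSet ((rN k (sta k G3 _ c) w0).support.preimage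
      (fun p : PI => (some p : Option PI)) (Option.some_injective _).injOn)) ?_
    intro p hp
    simpa using hp
  refine h.subset fun p hp => ?_
  intro h0
  apply hp
  have h1 : (rN k c (Finsupp.single (some p) 1)) none = 0 := by
    have := Br.adj chenBr c (Finsupp.single (some p) (1 : k)) (Finsupp.single none 1)
    rw [dp_single_right, dp_single_left, mul_one, one_mul] at this
    exact this.trans h0
  have h2 := inc_prj (rN k c (Finsupp.single (some p) 1))
  rw [h1, zero_smul, add_zero] at h2
  rw [LinearMap.sub_apply, Module.End.mul_apply]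
  simp only [comp, LinearMap.comp_apply, inc_single]
  rw [h2, map_mul, Module.End.mul_apply, sub_self]

theorem comp_vt (a : Fin 3) : comp (rN k (vt a)) = rM k (vt a) := by
  refine Finsupp.lhom_ext fun p c => ?_
  simp only [comp, LinearMap.comp_apply, inc_single, rN, rM, Br.rep_vt]
  by_cases h : lst G3 1 p.1 = a
  · rw [pf_single_some (j := some p) (by simp [Br.pv, chenBr, h]),
      pf_single_some (j := p) (by simp [Br.pv, fockBr, h]), prj_single_some]
  · rw [pf_single_none (by simp [Br.pv, chenBr, h]),
      pf_single_none (by simp [Br.pv, fockBr, h]), map_zero]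

theorem comp_ed (e : Fin 8) : comp (rN k (ed e)) = rM k (ed e) := by
  refine Finsupp.lhom_ext fun p c => ?_
  simp only [comp, LinearMap.comp_apply, inc_single, rN, rM, Br.rep_ed]
  rcases h : pcons G3 1 e p with _ | q
  · rw [pf_single_none (by simp [chenBr, chc, h]),
      pf_single_none (by simpa [fockBr] using h), map_zero]
  · rw [pf_single_some (j := some q) (by simp [chenBr, chc, h]),
      pf_single_some (j := q) (by simpa [fockBr] using h), prj_single_some]

theorem comp_gh (e : Fin 8) : comp (rN k (gh e)) = rM k (gh e) := by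
  refine Finsupp.lhom_ext fun p c => ?_
  simp only [comp, LinearMap.comp_apply, inc_single, rN, rM, Br.rep_gh]
  rcases p with ⟨_ | ⟨f, l⟩, hp⟩
  · rw [pf_single_none (f := (fockBr G3 1).t e) (by simp [fockBr, ptail])]
    by_cases h5 : e = 5
    · rw [pf_single_some (j := none) (by simp [chenBr, cht, h5]), prj_single_none]
    · rw [pf_single_none (by simp [chenBr, cht, h5]), map_zero]
  · by_cases hf : f = e
    · rw [pf_single_some (j := some ⟨l, hp.2⟩) (by simp [chenBr, cht, hf]),
        pf_single_some (j := ⟨l, hp.2⟩) (by simp [fockBr, ptail, hf]), prj_single_some]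
    · rw [pf_single_none (by simp [chenBr, cht, hf]),
        pf_single_none (by simp [fockBr, ptail, hf]), map_zero]

end Comp

end H_TIso

end CKS
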