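import Pool.Agent.CKS.Targets

/-!
# Preparations for TSTEP: nonunital homomorphisms, the Toeplitz algebras in the two corners
-/

set_option linter.unusedSectionVars false

universe u

namespace CKS

namespace H_TStep

/-- A family satisfying the relations except the one for the unit. -/
structure QFam (k : Type u) [Field k] {V E : Type} (G : Graph V E) (Reg : V → Prop)
    (A : Type*) [Ring A] [Algebra k A] where
  /-- images of the vertices -/
  p : V → A
  /-- images of the edges -/
  x : E → A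
  /-- images of the ghost edges -/
  y : E → A
  idem : ∀ a, p a * p a = p a
  orth : ∀ a b, a ≠ b → p a * p b = 0
  se : ∀ e, p (G.s e) * x e = x e
  er : ∀ e, x e * p (G.r e) = x e
  rg : ∀ e, p (G.r e) * y e = y e
  gs : ∀ e, y e * p (G.s e) = y e
  ge : ∀ e, y e * x e = p (G.r e)
  gf : ∀ e f, e ≠ f → y e * x f = 0
  ck : ∀ a, Reg a → ∀ S : Finset E, (∀ e, e ∈ S ↔ G.s e = a) → ∑ e ∈ S, x e * y e = p a

section NonUnital

variable {k : Type u} [Field k] {V E : Type} [Fintype V] [DecidableEq V] {G : Graph V E}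
variable {Reg : V → Prop} {A : Type*} [Ring A] [Algebra k A]

/-- the unit of the image -/
noncomputable def QFam.q (F : QFam k G Reg A) : A := ∑ a, F.p a

theorem q_p (F : QFam k G Reg A) (a : V) : F.q * F.p a = F.p a := by
  unfold QFam.q
  rw [Finset.sum_mul, Finset.sum_eq_single a, F.idem]
  · intro b _ hb
    exact F.orth b a hb
  · intro h
    exact absurd (Finset.mem_univ a) h

theorem p_q (F : QFam k G Reg A) (a : V) : F.p a * F.q = F.p a := by
  unfold QFam.q
  rw [Finset.mul_sum, Finset.sum_eq_single a, F.idem]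
  · intro b _ hb
    exact F.orth a b (Ne.symm hb)
  · intro h
    exact absurd (Finset.mem_univ a) h

theorem q_q (F : QFam k G Reg A) : F.q * F.q = F.q := by
  conv_lhs => enter [2]; unfold QFam.q
  rw [Finset.mul_sum]
  exact Finset.sum_congr rfl (fun a _ => q_p F a)

theorem q_x (F : QFam k G Reg A) (e : E) : F.q * F.x e = F.x e := by
  rw [← F.se e, ← mul_assoc, q_p]

theorem q_y (F : QFam k G Reg A) (e : E) : F.q * F.y e = F.y e := by
  rw [← F.rg e, ← mul_assoc, q_p]

theorem x_q (F : QFam k G Reg A) (e : E) : F.x e * F.q = F.x e := by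
  rw [← F.er e, mul_assoc, p_q]

theorem y_q (F : QFam k G Reg A) (e : E) : F.y e * F.q = F.y e := by
  rw [← F.gs e, mul_assoc, p_q]

/-- the right ideal generated by the unit of the image -/
def QFam.RI (F : QFam k G Reg A) : Submodule k A where
  carrier := {m | F.q * m = m}
  add_mem' := by
    intro a b ha hb
    show F.q * (a + b) = a + b
    rw [mul_add, ha, hb]
  zero_mem' := mul_zero _
  smul_mem' := by
    intro c a ha
    show F.q * (c • a) = c • a
    rw [mul_smul_comm, ha]

/-- left multiplication -/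
noncomputable def QFam.lm (F : QFam k G Reg A) (c : A) (hc : F.q * c = c) :
    Module.End k F.RI where
  toFun m := ⟨c * m, by
    show F.q * (c * m) = c * m
    rw [← mul_assoc, hc]⟩
  map_add' a b := Subtype.ext (mul_add c _ _)
  map_smul' r a := Subtype.ext (mul_smul_comm r c _)

/-- the family of left multiplications -/
noncomputable def QFam.endFam (F : QFam k G Reg A) : Fam k G Reg (Module.End k F.RI) where
  p a := F.lm (F.p a) (q_p F a)
  x e := F.lm (F.x e) (q_x F e)
  y e := F.lm (F.y e) (q_y F e)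
  idem a := LinearMap.ext fun m => Subtype.ext (by
    show F.p a * (F.p a * m) = F.p a * (m : A)
    rw [← mul_assoc, F.idem])
  orth a b h := LinearMap.ext fun m => Subtype.ext (by
    show F.p a * (F.p b * m) = 0
    rw [← mul_assoc, F.orth a b h, zero_mul])
  se e := LinearMap.ext fun m => Subtype.ext (by
    show F.p (G.s e) * (F.x e * m) = F.x e * (m : A)
    rw [← mul_assoc, F.se])
  er e := LinearMap.ext fun m => Subtype.ext (by
    show F.x e * (F.p (G.r e) * m) = F.x e * (m : A)
    rw [← mul_assoc, F.er])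
  rg e := LinearMap.ext fun m => Subtype.ext (by
    show F.p (G.r e) * (F.y e * m) = F.y e * (m : A)
    rw [← mul_assoc, F.rg])
  gs e := LinearMap.ext fun m => Subtype.ext (by
    show F.y e * (F.p (G.s e) * m) = F.y e * (m : A)
    rw [← mul_assoc, F.gs])
  ge e := LinearMap.ext fun m => Subtype.ext (by
    show F.y e * (F.x e * m) = F.p (G.r e) * (m : A)
    rw [← mul_assoc, F.ge])
  gf e f h := LinearMap.ext fun m => Subtype.ext (by
    show F.y e * (F.x f * m) = 0
    rw [← mul_assoc, F.gf e f h, zero_mul])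
  ck a h S hS := LinearMap.ext fun m => Subtype.ext (by
    rw [LinearMap.sum_apply, AddSubmonoidClass.coe_finsetSum]
    show ∑ e ∈ S, F.x e * (F.y e * m) = F.p a * (m : A)
    rw [← F.ck a h S hS, Finset.sum_mul]
    exact Finset.sum_congr rfl (fun e _ => (mul_assoc _ _ _).symm))
  one S hS := LinearMap.ext fun m => Subtype.ext (by
    rw [LinearMap.sum_apply, AddSubmonoidClass.coe_finsetSum]
    show ∑ a ∈ S, F.p a * (m : A) = (m : A)
    have hSu : S = Finset.univ := Finset.eq_univ_of_forall hS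
    rw [hSu, ← Finset.sum_mul]
    exact m.2)

/-- the nonunital homomorphism given by a family -/
noncomputable def QFam.j (F : QFam k G Reg A) : CL k G Reg →ₗ[k] A where
  toFun a := (F.endFam.lift a ⟨F.q, q_q F⟩ : A)
  map_add' a b := by
    rw [map_add]
    rfl
  map_smul' r a := by
    rw [map_smul]
    rfl

theorem j_act (F : QFam k G Reg A) (a : CL k G Reg) (m : F.RI) :
    (F.endFam.lift a m : A) = F.j a * m := by
  let S : Subalgebra k (CL k G Reg) :=
    { carrier := {a | ∀ m : F.RI, (F.endFam.lift a m : A) = F.j a * m}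
      mul_mem' := by
        intro a b ha hb m
        have h1 : F.j (a * b) = F.j a * F.j b := by
          show (F.endFam.lift (a * b) ⟨F.q, q_q F⟩ : A) = _
          rw [map_mul, Module.End.mul_apply, ha]
          rfl
        rw [h1, map_mul, Module.End.mul_apply, ha, hb, mul_assoc]
      add_mem' := by
        intro a b ha hb m
        rw [map_add, map_add, add_mul, ← ha, ← hb]
        rfl
      algebraMap_mem' := by
        intro r m
        have h1 : F.j (algebraMap k _ r) = r • F.q := by
          show (F.endFam.lift (algebraMap k _ r) ⟨F.q, q_q F⟩ : A) = _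
          rw [AlgHom.commutes]
          rfl
        rw [h1, AlgHom.commutes, smul_mul_assoc]
        have h2 : F.q * (m : A) = m := m.2
        rw [h2]
        rfl }
  have h := mem_of_gen k G Reg S
    (fun a m => by
      have h1 : F.j (vt a) = F.p a := by
        show (F.endFam.lift (vt a) ⟨F.q, q_q F⟩ : A) = _
        rw [lift_vt]
        exact p_q F a
      rw [h1, lift_vt]
      rfl)
    (fun e m => by
      have h1 : F.j (ed e) = F.x e := by
        show (F.endFam.lift (ed e) ⟨F.q, q_q F⟩ : A) = _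
        rw [lift_ed]
        exact x_q F e
      rw [h1, lift_ed]
      rfl)
    (fun e m => by
      have h1 : F.j (gh e) = F.y e := by
        show (F.endFam.lift (gh e) ⟨F.q, q_q F⟩ : A) = _
        rw [lift_gh]
        exact y_q F e
      rw [h1, lift_gh]
      rfl)
  exact h a m

theorem j_mul (F : QFam k G Reg A) (a b : CL k G Reg) : F.j (a * b) = F.j a * F.j b := by
  show (F.endFam.lift (a * b) ⟨F.q, q_q F⟩ : A) = _
  rw [map_mul, Module.End.mul_apply, j_act]
  rfl

theorem j_one (F : QFam k G Reg A) : F.j 1 = F.q := by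
  show (F.endFam.lift 1 ⟨F.q, q_q F⟩ : A) = _
  rw [map_one]
  rfl

theorem j_vt (F : QFam k G Reg A) (a : V) : F.j (vt a) = F.p a := by
  show (F.endFam.lift (vt a) ⟨F.q, q_q F⟩ : A) = _
  rw [lift_vt]
  exact p_q F a

theorem j_ed (F : QFam k G Reg A) (e : E) : F.j (ed e) = F.x e := by
  show (F.endFam.lift (ed e) ⟨F.q, q_q F⟩ : A) = _
  rw [lift_ed]
  exact x_q F e

theorem j_gh (F : QFam k G Reg A) (e : E) : F.j (gh e) = F.y e := by
  show (F.endFam.lift (gh e) ⟨F.q, q_q F⟩ : A) = _
  rw [lift_gh]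
  exact y_q F e

theorem q_j (F : QFam k G Reg A) (a : CL k G Reg) : F.q * F.j a = F.j a := by
  rw [← j_one, ← j_mul, one_mul]

theorem j_q (F : QFam k G Reg A) (a : CL k G Reg) : F.j a * F.q = F.j a := by
  rw [← j_one, ← j_mul, mul_one]

/-- multiplicative linear maps are determined by the generators and the unit -/
theorem mul_ext (f g : CL k G Reg →ₗ[k] A) (hf : ∀ a b, f (a * b) = f a * f b)
    (hg : ∀ a b, g (a * b) = g a * g b) (h1 : f 1 = g 1) (hv : ∀ a, f (vt a) = g (vt a))
    (he : ∀ e, f (ed e) = g (ed e)) (hh : ∀ e, f (gh e) = g (gh e)) (a : CL k G Reg) :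
    f a = g a := by
  let S : Subalgebra k (CL k G Reg) :=
    { carrier := {a | f a = g a}
      mul_mem' := by
        intro a b ha hb
        show f (a * b) = g (a * b)
        rw [hf, hg, ha, hb]
      add_mem' := by
        intro a b ha hb
        show f (a + b) = g (a + b)
        rw [map_add, map_add, ha, hb]
      algebraMap_mem' := by
        intro r
        show f (algebraMap k _ r) = g (algebraMap k _ r)
        rw [Algebra.algebraMap_eq_smul_one, map_smul, map_smul, h1] }
  exact mem_of_gen k G Reg S hv he hh a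

end NonUnital

section Units

variable {k : Type u} [Field k] {V E : Type} [Fintype V] [DecidableEq V] [Fintype E]
  [DecidableEq E] {G : Graph V E} {v0 : V} {Reg : V → Prop}

theorem gh_dd (e : E) : (gh e * dfc k G Reg v0 : CL k G Reg) = 0 := by
  unfold dfc
  rw [mul_sub, Finset.mul_sum]
  by_cases h : G.s e = v0
  · rw [Finset.sum_eq_single e]
    · rw [← mul_assoc, gh_ed, r_gh, ← h, gh_s, sub_self]
    · intro f _ hf
      rw [← mul_assoc, gh_ed_ne (Ne.symm hf), zero_mul]
    · intro h'
      simp [h] at h'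
  · rw [gh_vt h, Finset.sum_eq_zero, sub_zero]
    intro f hf
    have : e ≠ f := by
      rintro rfl
      simp at hf
      exact h hf
    rw [← mul_assoc, gh_ed_ne this, zero_mul]

theorem dd_ed (e : E) : (dfc k G Reg v0 * ed e : CL k G Reg) = 0 := by
  unfold dfc
  rw [sub_mul, Finset.sum_mul]
  by_cases h : G.s e = v0
  · rw [Finset.sum_eq_single e]
    · rw [mul_assoc, gh_ed, ed_r, ← h, s_ed, sub_self]
    · intro f _ hf
      rw [mul_assoc, gh_ed_ne hf, mul_zero]
    · intro h'
      simp [h] at h'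
  · rw [vt_ed (Ne.symm h), Finset.sum_eq_zero, sub_zero]
    intro f hf
    have : f ≠ e := by
      rintro rfl
      simp at hf
      exact h hf
    rw [mul_assoc, gh_ed_ne this, mul_zero]

theorem vt_dd : (vt v0 * dfc k G Reg v0 : CL k G Reg) = dfc k G Reg v0 := by
  unfold dfc
  rw [mul_sub, vt_idem, Finset.mul_sum]
  congr 1
  refine Finset.sum_congr rfl fun e he => ?_
  have : G.s e = v0 := by simpa using he
  rw [← mul_assoc, ← this, s_ed]

theorem dd_vt : (dfc k G Reg v0 * vt v0 : CL k G Reg) = dfc k G Reg v0 := by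
  unfold dfc
  rw [sub_mul, vt_idem, Finset.sum_mul]
  congr 1
  refine Finset.sum_congr rfl fun e he => ?_
  have : G.s e = v0 := by simpa using he
  rw [mul_assoc, ← this, gh_s]

end Units

section Main

variable (k : Type u) [Field k] {V Ed : Type} [Fintype V] [DecidableEq V] [Fintype Ed]
  [DecidableEq Ed] (s r : Ed → V) (u : V)

theorem GQs_inl (e : Ed) :
    (GQ s r u).s (.inl e) = if s e = u then .inr 1 else .inl (s e) := rfl
theorem GQs_l (i : Fin 3) : (GQ s r u).s (.inr (.inl i)) = .inl u := rfl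
theorem GQs_r (f : Fin 8) : (GQ s r u).s (.inr (.inr f)) = .inr (G3.s f) := rfl
theorem GPs_inl (e : Ed) :
    (GP s r u).s (.inl e) = if s e = u then none else some (s e) := rfl
theorem GPs_zero : (GP s r u).s (.inr 0) = some u := rfl
theorem GPs_succ (l : Fin 2) : (GP s r u).s (.inr l.succ) = none := by
  fin_cases l <;> rfl

/-- Cuntz-Krieger relation in the second algebra -/
theorem ckQ (w : V ⊕ Fin 3) (hw : (GQ s r u).IsReg w) : (vt w : LPA k (GQ s r u)) =
    (∑ e : Ed, if (GQ s r u).s (.inl e) = w then ed (.inl e) * gh (.inl e) else 0) +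
    ((∑ i : Fin 3, if (GQ s r u).s (.inr (.inl i)) = w then
        ed (.inr (.inl i)) * gh (.inr (.inl i)) else 0) +
      ∑ f : Fin 8, if (GQ s r u).s (.inr (.inr f)) = w then
        ed (.inr (.inr f)) * gh (.inr (.inr f)) else 0) := by
  rw [← ck_rel hw (Finset.univ.filter (fun e => (GQ s r u).s e = w)) (by simp),
    Finset.sum_filter, Fintype.sum_sum_type, Fintype.sum_sum_type]

/-- Cuntz-Krieger relation in the first algebra -/
theorem ckP (w : Option V) (hw : (GP s r u).IsReg w) : (vt w : LPA k (GP s r u)) =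
    (∑ e : Ed, if (GP s r u).s (.inl e) = w then ed (.inl e) * gh (.inl e) else 0) +
    ((if (GP s r u).s (.inr 0) = w then ed (.inr 0) * gh (.inr 0) else 0) +
      ∑ l : Fin 2, if (GP s r u).s (.inr l.succ) = w then
        ed (.inr l.succ) * gh (.inr l.succ) else 0) := by
  rw [← ck_rel hw (Finset.univ.filter (fun e => (GP s r u).s e = w)) (by simp),
    Finset.sum_filter, Fintype.sum_sum_type, Fin.sum_univ_succ]

theorem regQ (i : Fin 3) : (GQ s r u).IsReg (.inr i) := by
  fin_cases i
  · exact ⟨.inr (.inr 0), rfl⟩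
  · exact ⟨.inr (.inr 3), rfl⟩
  · exact ⟨.inr (.inr 6), rfl⟩

/-- the Toeplitz algebra of `G3` in the second algebra -/
noncomputable def j3f : QFam k G3 (fun v => v ≠ 1) (LPA k (GQ s r u)) where
  p i := vt (.inr i)
  x f := ed (.inr (.inr f))
  y f := gh (.inr (.inr f))
  idem i := vt_idem _
  orth a b h := vt_orth (fun h' => h (Sum.inr.inj h'))
  se f := s_ed (G := GQ s r u) (.inr (.inr f))
  er f := ed_r (G := GQ s r u) (.inr (.inr f))
  rg f := r_gh (G := GQ s r u) (.inr (.inr f))
  gs f := gh_s (G := GQ s r u) (.inr (.inr f))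
  ge f := gh_ed (G := GQ s r u) (.inr (.inr f))
  gf e f h := gh_ed_ne (fun h' => h (Sum.inr.inj (Sum.inr.inj h')))
  ck a ha S hS := by
    have h := ckQ k s r u (.inr a) (regQ s r u a)
    rw [Finset.sum_eq_zero, Finset.sum_eq_zero, zero_add, zero_add] at h
    · rw [h, ← Finset.sum_filter]
      refine Finset.sum_congr ?_ (fun _ _ => rfl)
      ext f
      rw [hS, Finset.mem_filter, GQs_r]
      simp
    · intro i _
      rw [if_neg]
      rw [GQs_l]
      simp
    · intro e _
      rw [if_neg]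
      rw [GQs_inl]
      split_ifs
      · simpa using Ne.symm ha
      · simp

/-- the Toeplitz algebra of `G2` in the first algebra -/
noncomputable def j2f : QFam k G2 (fun v => v ≠ 0) (LPA k (GP s r u)) where
  p _ := vt none
  x l := ed (.inr l.succ)
  y l := gh (.inr l.succ)
  idem i := vt_idem _
  orth a b h := absurd (Subsingleton.elim a b) h
  se l := by
    have h := s_ed (k := k) (G := GP s r u) (Reg := (GP s r u).IsReg) (.inr l.succ)
    rwa [GPs_succ] at h
  er l := ed_r (G := GP s r u) (.inr l.succ)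
  rg l := r_gh (G := GP s r u) (.inr l.succ)
  gs l := by
    have h := gh_s (k := k) (G := GP s r u) (Reg := (GP s r u).IsReg) (.inr l.succ)
    rwa [GPs_succ] at h
  ge l := gh_ed (G := GP s r u) (.inr l.succ)
  gf e f h := gh_ed_ne (fun h' => h (Fin.succ_injective _ (Sum.inr.inj h')))
  ck a ha S hS := absurd (Subsingleton.elim a 0) ha

/-- first map -/
noncomputable abbrev j3 : CL k G3 (fun v => v ≠ 1) →ₗ[k] LPA k (GQ s r u) := (j3f k s r u).j
/-- second map -/
noncomputable abbrev j2 : CL k G2 (fun v => v ≠ 0) →ₗ[k] LPA k (GP s r u) := (j2f k s r u).j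

theorem j3_one : j3 k s r u 1 = ∑ i : Fin 3, vt (.inr i) := j_one _

theorem j2_one : j2 k s r u 1 = vt none := by
  have h : j2 k s r u 1 = ∑ i : Fin 1, vt none := j_one _
  rw [h, Fin.sum_univ_one]

theorem j3_split_l (a : CL k G3 (fun v => v ≠ 1)) :
    j3 k s r u a = j3 k s r u 1 * j3 k s r u a := by
  rw [← j_mul, one_mul]

theorem j3_split_r (a : CL k G3 (fun v => v ≠ 1)) :
    j3 k s r u a = j3 k s r u a * j3 k s r u 1 := by
  rw [← j_mul, mul_one]

theorem j2_split_l (a : CL k G2 (fun v => v ≠ 0)) :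
    j2 k s r u a = vt none * j2 k s r u a := by
  rw [← j2_one, ← j_mul, one_mul]

theorem j2_split_r (a : CL k G2 (fun v => v ≠ 0)) :
    j2 k s r u a = j2 k s r u a * vt none := by
  rw [← j2_one, ← j_mul, mul_one]

theorem one_vt (b : V) : j3 k s r u 1 * vt (.inl b) = 0 := by
  rw [j3_one, Finset.sum_mul]
  exact Finset.sum_eq_zero (fun i _ => vt_orth (by simp))

theorem vt_one (b : V) : vt (.inl b) * j3 k s r u 1 = 0 := by
  rw [j3_one, Finset.mul_sum]
  exact Finset.sum_eq_zero (fun i _ => vt_orth (by simp))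

theorem one_ed (e : Ed) : j3 k s r u 1 * ed (.inl e) = if s e = u then ed (.inl e) else 0 := by
  have h := s_ed (k := k) (G := GQ s r u) (Reg := (GQ s r u).IsReg) (.inl e)
  rw [GQs_inl] at h
  split_ifs at h ⊢ with hs
  · rw [← h, ← mul_assoc]
    have h2 : j3 k s r u 1 * vt (.inr 1) = vt (.inr 1) := by
      rw [show j3 k s r u 1 = (j3f k s r u).q from j_one _]
      exact q_p (j3f k s r u) 1
    rw [h2]
  · rw [← h, ← mul_assoc, one_vt, zero_mul]

theorem gh_one (e : Ed) : gh (.inl e) * j3 k s r u 1 = if s e = u then gh (.inl e) else 0 := by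
  have h := gh_s (k := k) (G := GQ s r u) (Reg := (GQ s r u).IsReg) (.inl e)
  rw [GQs_inl] at h
  split_ifs at h ⊢ with hs
  · rw [← h, mul_assoc]
    have h2 : vt (.inr 1) * j3 k s r u 1 = vt (.inr 1) := by
      rw [show j3 k s r u 1 = (j3f k s r u).q from j_one _]
      exact p_q (j3f k s r u) 1
    rw [h2]
  · rw [← h, mul_assoc, vt_one, mul_zero]

theorem j3_dfc : j3 k s r u (dfc k G3 _ 1) = vt (.inr 1) -
    ∑ f ∈ Finset.univ.filter (fun f => G3.s f = 1), ed (.inr (.inr f)) * gh (.inr (.inr f)) := by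
  unfold dfc
  rw [map_sub, map_sum, j_vt]
  refine congrArg₂ _ rfl (Finset.sum_congr rfl (fun f _ => ?_))
  rw [j_mul, j_ed, j_gh]
  rfl

theorem j2_dfc : j2 k s r u (dfc k G2 _ 0) = vt none -
    ∑ l : Fin 2, ed (.inr l.succ) * gh (.inr l.succ) := by
  unfold dfc
  rw [map_sub, map_sum, j_vt]
  refine congrArg₂ _ rfl (Finset.sum_congr ?_ (fun f _ => ?_))
  · ext l
    simp only [Finset.mem_filter, Finset.mem_univ, true_and]
    exact ⟨fun _ => trivial, fun _ => Subsingleton.elim _ _⟩
  · rw [j_mul, j_ed, j_gh]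
    rfl

theorem Q3 : (∑ e : Ed, if s e = u then (ed (.inl e) * gh (.inl e) : LPA k (GQ s r u)) else 0)
    = j3 k s r u (dfc k G3 _ 1) := by
  have h := ckQ k s r u (.inr 1) (regQ s r u 1)
  have h2 : (∑ i : Fin 3, if (GQ s r u).s (.inr (.inl i)) = .inr 1 then
      (ed (.inr (.inl i)) * gh (.inr (.inl i)) : LPA k (GQ s r u)) else 0) = 0 := by
    refine Finset.sum_eq_zero (fun i _ => ?_)
    rw [if_neg]
    rw [GQs_l]
    simp
  rw [h2, zero_add, ← Finset.sum_filter (fun f => (GQ s r u).s (.inr (.inr f)) = .inr 1)] at h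
  have h3 : Finset.univ.filter (fun f => (GQ s r u).s (.inr (.inr f)) = .inr 1)
      = Finset.univ.filter (fun f => G3.s f = 1) := by
    refine Finset.filter_congr (fun f _ => ?_)
    rw [GQs_r]
    exact Sum.inr_injective.eq_iff
  rw [h3] at h
  rw [j3_dfc, h, add_sub_cancel_right]
  refine Finset.sum_congr rfl (fun e _ => ?_)
  rw [GQs_inl]
  by_cases hs : s e = u
  · rw [if_pos hs, if_pos hs, if_pos rfl]
  · rw [if_neg hs, if_neg hs, if_neg (by simp)]

theorem P3 : (∑ e : Ed, if s e = u then (ed (.inl e) * gh (.inl e) : LPA k (GP s r u)) else 0)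
    = j2 k s r u (dfc k G2 _ 0) := by
  have h := ckP k s r u none ⟨.inr 1, rfl⟩
  have h2 : (if (GP s r u).s (.inr 0) = none then
      (ed (.inr 0) * gh (.inr 0) : LPA k (GP s r u)) else 0) = 0 := by
    rw [if_neg]
    rw [GPs_zero]
    simp
  have h3 : (∑ l : Fin 2, if (GP s r u).s (.inr l.succ) = none then
      (ed (.inr l.succ) * gh (.inr l.succ) : LPA k (GP s r u)) else 0) =
      ∑ l : Fin 2, ed (.inr l.succ) * gh (.inr l.succ) := by
    refine Finset.sum_congr rfl (fun l _ => ?_)
    rw [if_pos (GPs_succ s r u l)]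
  rw [h2, h3, zero_add] at h
  rw [j2_dfc, h, add_sub_cancel_right]
  refine Finset.sum_congr rfl (fun e _ => ?_)
  rw [GPs_inl]
  by_cases hs : s e = u
  · rw [if_pos hs, if_pos hs, if_pos rfl]
  · rw [if_neg hs, if_neg hs, if_neg (by simp)]

theorem Q4 (b : V) (hb : b ≠ u) (hreg : ∃ e, s e = b) :
    (∑ e : Ed, if s e = b then (ed (.inl e) * gh (.inl e) : LPA k (GQ s r u)) else 0)
    = vt (.inl b) := by
  obtain ⟨e0, he0⟩ := hreg
  have h := ckQ k s r u (.inl b) ⟨.inl e0, by
    rw [GQs_inl, if_neg (by rw [he0]; exact hb), he0]⟩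
  have h2 : (∑ i : Fin 3, if (GQ s r u).s (.inr (.inl i)) = .inl b then
      (ed (.inr (.inl i)) * gh (.inr (.inl i)) : LPA k (GQ s r u)) else 0) = 0 := by
    refine Finset.sum_eq_zero (fun i _ => ?_)
    rw [if_neg]
    rw [GQs_l]
    exact fun h' => hb (Sum.inl.inj h').symm
  have h3 : (∑ f : Fin 8, if (GQ s r u).s (.inr (.inr f)) = .inl b then
      (ed (.inr (.inr f)) * gh (.inr (.inr f)) : LPA k (GQ s r u)) else 0) = 0 := by
    refine Finset.sum_eq_zero (fun f _ => ?_)
    rw [if_neg]
    rw [GQs_r]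
    simp
  rw [h2, h3, add_zero, add_zero] at h
  rw [h]
  refine Finset.sum_congr rfl (fun e _ => ?_)
  rw [GQs_inl]
  by_cases hs : s e = u
  · rw [if_pos hs, if_neg (fun h' => hb (h'.symm.trans hs)), if_neg (by simp)]
  · rw [if_neg hs]
    by_cases hs' : s e = b
    · rw [if_pos hs', if_pos (by rw [hs'])]
    · rw [if_neg hs', if_neg (fun h' => hs' (Sum.inl.inj h'))]

theorem P4 (b : V) (hb : b ≠ u) (hreg : ∃ e, s e = b) :
    (∑ e : Ed, if s e = b then (ed (.inl e) * gh (.inl e) : LPA k (GP s r u)) else 0)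
    = vt (some b) := by
  obtain ⟨e0, he0⟩ := hreg
  have h := ckP k s r u (some b) ⟨.inl e0, by
    rw [GPs_inl, if_neg (by rw [he0]; exact hb), he0]⟩
  have h2 : (if (GP s r u).s (.inr 0) = some b then
      (ed (.inr 0) * gh (.inr 0) : LPA k (GP s r u)) else 0) = 0 := by
    rw [if_neg]
    rw [GPs_zero]
    exact fun h' => hb (Option.some.inj h').symm
  have h3 : (∑ l : Fin 2, if (GP s r u).s (.inr l.succ) = some b then
      (ed (.inr l.succ) * gh (.inr l.succ) : LPA k (GP s r u)) else 0) = 0 := by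
    refine Finset.sum_eq_zero (fun l _ => ?_)
    rw [if_neg]
    rw [GPs_succ]
    simp
  rw [h2, h3, add_zero, add_zero] at h
  rw [h]
  refine Finset.sum_congr rfl (fun e _ => ?_)
  rw [GPs_inl]
  by_cases hs : s e = u
  · rw [if_pos hs, if_neg (fun h' => hb (h'.symm.trans hs)), if_neg (by simp)]
  · rw [if_neg hs]
    by_cases hs' : s e = b
    · rw [if_pos hs', if_pos (by rw [hs'])]
    · rw [if_neg hs', if_neg (fun h' => hs' (Option.some.inj h'))]

theorem Q5 : (∑ i : Fin 3, (ed (.inr (.inl i)) * gh (.inr (.inl i)) : LPA k (GQ s r u)))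
    = vt (.inl u) := by
  have h := ckQ k s r u (.inl u) ⟨.inr (.inl 0), rfl⟩
  have h1 : (∑ e : Ed, if (GQ s r u).s (.inl e) = .inl u then
      (ed (.inl e) * gh (.inl e) : LPA k (GQ s r u)) else 0) = 0 := by
    refine Finset.sum_eq_zero (fun e _ => ?_)
    rw [if_neg]
    rw [GQs_inl]
    split_ifs with hs
    · simp
    · exact fun h' => hs (Sum.inl.inj h')
  have h3 : (∑ f : Fin 8, if (GQ s r u).s (.inr (.inr f)) = .inl u then
      (ed (.inr (.inr f)) * gh (.inr (.inr f)) : LPA k (GQ s r u)) else 0) = 0 := by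
    refine Finset.sum_eq_zero (fun f _ => ?_)
    rw [if_neg]
    rw [GQs_r]
    simp
  rw [h1, h3, add_zero, zero_add] at h
  rw [h]
  refine Finset.sum_congr rfl (fun i _ => ?_)
  rw [if_pos (GQs_l s r u i)]

theorem P5 : (ed (.inr 0) * gh (.inr 0) : LPA k (GP s r u)) = vt (some u) := by
  have h := ckP k s r u (some u) ⟨.inr 0, rfl⟩
  have h1 : (∑ e : Ed, if (GP s r u).s (.inl e) = some u then
      (ed (.inl e) * gh (.inl e) : LPA k (GP s r u)) else 0) = 0 := by
    refine Finset.sum_eq_zero (fun e _ => ?_)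
    rw [if_neg]
    rw [GPs_inl]
    split_ifs with hs
    · simp
    · exact fun h' => hs (Option.some.inj h')
  have h3 : (∑ l : Fin 2, if (GP s r u).s (.inr l.succ) = some u then
      (ed (.inr l.succ) * gh (.inr l.succ) : LPA k (GP s r u)) else 0) = 0 := by
    refine Finset.sum_eq_zero (fun l _ => ?_)
    rw [if_neg]
    rw [GPs_succ]
    simp
  rw [h1, h3, add_zero, zero_add, if_pos (GPs_zero s r u)] at h
  exact h.symm

/-- elements annihilated by the defect -/
theorem Q1 (e : Ed) (x : CL k G3 (fun v => v ≠ 1)) (hx : dfc k G3 _ 1 * x = 0) :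
    gh (.inl e) * j3 k s r u x = 0 := by
  by_cases hs : s e = u
  · have h1 : gh (.inl e) * j3 k s r u (dfc k G3 _ 1) = gh (.inl e) := by
      have h := gh_s (k := k) (G := GQ s r u) (Reg := (GQ s r u).IsReg) (.inl e)
      rw [GQs_inl, if_pos hs] at h
      rw [j3_dfc, mul_sub, h, Finset.mul_sum, Finset.sum_eq_zero, sub_zero]
      intro f _
      rw [← mul_assoc, gh_ed_ne (by simp), zero_mul]
    rw [← h1, mul_assoc, ← j_mul, hx, map_zero, mul_zero]
  · rw [j3_split_l, ← mul_assoc, gh_one, if_neg hs, zero_mul]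

theorem Q2 (e : Ed) (x : CL k G3 (fun v => v ≠ 1)) (hx : x * dfc k G3 _ 1 = 0) :
    j3 k s r u x * ed (.inl e) = 0 := by
  by_cases hs : s e = u
  · have h1 : j3 k s r u (dfc k G3 _ 1) * ed (.inl e) = ed (.inl e) := by
      have h := s_ed (k := k) (G := GQ s r u) (Reg := (GQ s r u).IsReg) (.inl e)
      rw [GQs_inl, if_pos hs] at h
      rw [j3_dfc, sub_mul, h, Finset.sum_mul, Finset.sum_eq_zero, sub_zero]
      intro f _
      rw [mul_assoc, gh_ed_ne (by simp), mul_zero]
    rw [← h1, ← mul_assoc, ← j_mul, hx, map_zero, zero_mul]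
  · rw [j3_split_r, mul_assoc, one_ed, if_neg hs, mul_zero]

theorem vtP (e : Ed) : vt none * (ed (.inl e) : LPA k (GP s r u)) =
    if s e = u then ed (.inl e) else 0 := by
  have h := s_ed (k := k) (G := GP s r u) (Reg := (GP s r u).IsReg) (.inl e)
  rw [GPs_inl] at h
  split_ifs at h ⊢ with hs
  · exact h
  · rw [← h, ← mul_assoc, vt_orth (by simp), zero_mul]

theorem ghP (e : Ed) : (gh (.inl e) : LPA k (GP s r u)) * vt none =
    if s e = u then gh (.inl e) else 0 := by
  have h := gh_s (k := k) (G := GP s r u) (Reg := (GP s r u).IsReg) (.inl e)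
  rw [GPs_inl] at h
  split_ifs at h ⊢ with hs
  · exact h
  · rw [← h, mul_assoc, vt_orth (by simp), mul_zero]

theorem P1' (e : Ed) (hs : s e = u) :
    gh (.inl e) * j2 k s r u (dfc k G2 _ 0) = gh (.inl e) := by
  rw [j2_dfc, mul_sub, ghP, if_pos hs, Finset.mul_sum, Finset.sum_eq_zero, sub_zero]
  intro f _
  rw [← mul_assoc, gh_ed_ne (by simp), zero_mul]

theorem P2' (e : Ed) (hs : s e = u) :
    j2 k s r u (dfc k G2 _ 0) * ed (.inl e) = ed (.inl e) := by
  rw [j2_dfc, sub_mul, vtP, if_pos hs, Finset.sum_mul, Finset.sum_eq_zero, sub_zero]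
  intro f _
  rw [mul_assoc, gh_ed_ne (by simp), mul_zero]

theorem P1 (e : Ed) (x : CL k G2 (fun v => v ≠ 0)) (hx : dfc k G2 _ 0 * x = 0) :
    gh (.inl e) * j2 k s r u x = 0 := by
  by_cases hs : s e = u
  · rw [← P1' k s r u e hs, mul_assoc, ← j_mul, hx, map_zero, mul_zero]
  · rw [j2_split_l, ← mul_assoc, ghP, if_neg hs, zero_mul]

theorem P2 (e : Ed) (x : CL k G2 (fun v => v ≠ 0)) (hx : x * dfc k G2 _ 0 = 0) :
    j2 k s r u x * ed (.inl e) = 0 := by
  by_cases hs : s e = u
  · rw [← P2' k s r u e hs, ← mul_assoc, ← j_mul, hx, map_zero, zero_mul]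
  · rw [j2_split_r, mul_assoc, vtP, if_neg hs, mul_zero]

end Main

end H_TStep

end CKS
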