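import Pool.Agent.CKS.TStepA

/-!
# TSTEP: the Toeplitz isomorphism gives isomorphisms of Leavitt path algebras
-/

set_option linter.unusedSectionVars false

universe u

namespace CKS

namespace H_TStep

section Maps

variable (k : Type u) [Field k] {V Ed : Type} [Fintype V] [DecidableEq V] [Fintype Ed]
  [DecidableEq Ed] (s r : Ed → V) (u : V)
  (Ψ : CL k G2 (fun v => v ≠ 0) ≃ₐ[k] CL k G3 (fun v => v ≠ 1))

theorem vt0_one : (vt 0 : CL k G2 (fun v => v ≠ 0)) = 1 := by
  have h := one_rel (k := k) (G := G2) (Reg := fun v => v ≠ 0)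
  rwa [Fin.sum_univ_one] at h

theorem sum_G2 : (∑ l : Fin 2, ed l * gh l : CL k G2 (fun v => v ≠ 0)) =
    1 - dfc k G2 _ 0 := by
  unfold dfc
  rw [vt0_one, sub_sub_cancel]
  refine Finset.sum_congr ?_ (fun _ _ => rfl)
  ext l
  simp only [Finset.mem_filter, Finset.mem_univ, true_and]
  exact ⟨fun _ => Subsingleton.elim _ _, fun _ => trivial⟩

theorem sum_G3 : (∑ f ∈ Finset.univ.filter (fun f => G3.s f = 1), ed f * gh f :
    CL k G3 (fun v => v ≠ 1)) = vt 1 - dfc k G3 _ 1 := by
  unfold dfc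
  rw [sub_sub_cancel]

section

variable {k Ψ} (hΨ : Ψ (dfc k G2 _ 0) = dfc k G3 _ 1)

include hΨ

theorem psi1 (l : Fin 2) : dfc k G3 _ 1 * Ψ (ed l) = 0 := by
  rw [← hΨ, ← map_mul, dd_ed, map_zero]

theorem psi2 (l : Fin 2) : Ψ (gh l) * dfc k G3 _ 1 = 0 := by
  rw [← hΨ, ← map_mul, gh_dd, map_zero]

theorem psi0 : Ψ.symm (dfc k G3 _ 1) = dfc k G2 _ 0 := by
  rw [← hΨ, AlgEquiv.symm_apply_apply]

theorem psi3 (f : Fin 8) : dfc k G2 _ 0 * Ψ.symm (ed f) = 0 := by
  rw [← psi0 hΨ, ← map_mul, dd_ed, map_zero]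

theorem psi4 (f : Fin 8) : Ψ.symm (gh f) * dfc k G2 _ 0 = 0 := by
  rw [← psi0 hΨ, ← map_mul, gh_dd, map_zero]

end

/-- images of the vertices -/
noncomputable def Fp : Option V → LPA k (GQ s r u)
  | none => j3 k s r u 1
  | some b => vt (.inl b)

/-- images of the edges -/
noncomputable def Fx : Ed ⊕ Fin 3 → LPA k (GQ s r u)
  | .inl e => ed (.inl e)
  | .inr i => Fin.cases (motive := fun _ => LPA k (GQ s r u))
      (∑ i : Fin 3, ed (.inr (.inl i))) (fun l => j3 k s r u (Ψ (ed l))) i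

/-- images of the ghost edges -/
noncomputable def Fy : Ed ⊕ Fin 3 → LPA k (GQ s r u)
  | .inl e => gh (.inl e)
  | .inr i => Fin.cases (motive := fun _ => LPA k (GQ s r u))
      (∑ i : Fin 3, gh (.inr (.inl i))) (fun l => j3 k s r u (Ψ (gh l))) i

theorem Fx_inl (e : Ed) : Fx k s r u Ψ (.inl e) = ed (.inl e) := rfl
theorem Fx_zero : Fx k s r u Ψ (.inr 0) = ∑ i : Fin 3, ed (.inr (.inl i)) := rfl
theorem Fx_succ (l : Fin 2) : Fx k s r u Ψ (.inr l.succ) = j3 k s r u (Ψ (ed l)) := rfl
theorem Fy_inl (e : Ed) : Fy k s r u Ψ (.inl e) = gh (.inl e) := rfl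
theorem Fy_zero : Fy k s r u Ψ (.inr 0) = ∑ i : Fin 3, gh (.inr (.inl i)) := rfl
theorem Fy_succ (l : Fin 2) : Fy k s r u Ψ (.inr l.succ) = j3 k s r u (Ψ (gh l)) := rfl
theorem Fp_none : Fp k s r u none = j3 k s r u 1 := rfl
theorem Fp_some (b : V) : Fp k s r u (some b) = vt (.inl b) := rfl

theorem F_se (e : Ed ⊕ Fin 3) :
    Fp k s r u ((GP s r u).s e) * Fx k s r u Ψ e = Fx k s r u Ψ e := by
  rcases e with e | i
  · rw [GPs_inl, Fx_inl]
    by_cases hs : s e = u
    · rw [if_pos hs, Fp_none, one_ed, if_pos hs]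
    · rw [if_neg hs, Fp_some]
      have h := s_ed (k := k) (G := GQ s r u) (Reg := (GQ s r u).IsReg) (.inl e)
      rwa [GQs_inl, if_neg hs] at h
  · refine Fin.cases ?_ (fun l => ?_) i
    · rw [GPs_zero, Fx_zero, Fp_some, Finset.mul_sum]
      exact Finset.sum_congr rfl (fun i _ => s_ed (G := GQ s r u) (.inr (.inl i)))
    · rw [GPs_succ, Fx_succ, Fp_none]
      exact (j3_split_l k s r u _).symm

theorem F_gs (e : Ed ⊕ Fin 3) :
    Fy k s r u Ψ e * Fp k s r u ((GP s r u).s e) = Fy k s r u Ψ e := by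
  rcases e with e | i
  · rw [GPs_inl, Fy_inl]
    by_cases hs : s e = u
    · rw [if_pos hs, Fp_none, gh_one, if_pos hs]
    · rw [if_neg hs, Fp_some]
      have h := gh_s (k := k) (G := GQ s r u) (Reg := (GQ s r u).IsReg) (.inl e)
      rwa [GQs_inl, if_neg hs] at h
  · refine Fin.cases ?_ (fun l => ?_) i
    · rw [GPs_zero, Fy_zero, Fp_some, Finset.sum_mul]
      exact Finset.sum_congr rfl (fun i _ => gh_s (G := GQ s r u) (.inr (.inl i)))
    · rw [GPs_succ, Fy_succ, Fp_none]
      exact (j3_split_r k s r u _).symm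

theorem edl_one (i : Fin 3) :
    (ed (.inr (.inl i)) * j3 k s r u 1 : LPA k (GQ s r u)) = ed (.inr (.inl i)) := by
  have h := ed_r (k := k) (G := GQ s r u) (Reg := (GQ s r u).IsReg) (.inr (.inl i))
  rw [j3_one, Finset.mul_sum, Finset.sum_eq_single i]
  · exact h
  · intro j _ hj
    exact ed_vt (fun h' => hj (Sum.inr.inj h').symm)
  · intro h'
    exact absurd (Finset.mem_univ i) h'

theorem one_ghl (i : Fin 3) :
    (j3 k s r u 1 * gh (.inr (.inl i)) : LPA k (GQ s r u)) = gh (.inr (.inl i)) := by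
  have h := r_gh (k := k) (G := GQ s r u) (Reg := (GQ s r u).IsReg) (.inr (.inl i))
  rw [j3_one, Finset.sum_mul, Finset.sum_eq_single i]
  · exact h
  · intro j _ hj
    exact vt_gh (fun h' => hj (Sum.inr.inj h'))
  · intro h'
    exact absurd (Finset.mem_univ i) h'

theorem F_er (e : Ed ⊕ Fin 3) :
    Fx k s r u Ψ e * Fp k s r u ((GP s r u).r e) = Fx k s r u Ψ e := by
  rcases e with e | i
  · exact ed_r (G := GQ s r u) (.inl e)
  · refine Fin.cases ?_ (fun l => ?_) i
    · show Fx k s r u Ψ (.inr 0) * j3 k s r u 1 = _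
      rw [Fx_zero, Finset.sum_mul]
      exact Finset.sum_congr rfl (fun i _ => edl_one k s r u i)
    · show Fx k s r u Ψ (.inr l.succ) * j3 k s r u 1 = _
      rw [Fx_succ]
      exact (j3_split_r k s r u _).symm

theorem F_rg (e : Ed ⊕ Fin 3) :
    Fp k s r u ((GP s r u).r e) * Fy k s r u Ψ e = Fy k s r u Ψ e := by
  rcases e with e | i
  · exact r_gh (G := GQ s r u) (.inl e)
  · refine Fin.cases ?_ (fun l => ?_) i
    · show j3 k s r u 1 * Fy k s r u Ψ (.inr 0) = _
      rw [Fy_zero, Finset.mul_sum]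
      exact Finset.sum_congr rfl (fun i _ => one_ghl k s r u i)
    · show j3 k s r u 1 * Fy k s r u Ψ (.inr l.succ) = _
      rw [Fy_succ]
      exact (j3_split_l k s r u _).symm

theorem F_ge (e : Ed ⊕ Fin 3) :
    Fy k s r u Ψ e * Fx k s r u Ψ e = Fp k s r u ((GP s r u).r e) := by
  rcases e with e | i
  · exact gh_ed (G := GQ s r u) (.inl e)
  · refine Fin.cases ?_ (fun l => ?_) i
    · show Fy k s r u Ψ (.inr 0) * Fx k s r u Ψ (.inr 0) = j3 k s r u 1
      rw [Fy_zero, Fx_zero, j3_one, Finset.sum_mul]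
      refine Finset.sum_congr rfl (fun i _ => ?_)
      rw [Finset.mul_sum, Finset.sum_eq_single i]
      · exact gh_ed (G := GQ s r u) (.inr (.inl i))
      · intro j _ hj
        exact gh_ed_ne (fun h' => hj (Sum.inl.inj (Sum.inr.inj h')).symm)
      · intro h'
        exact absurd (Finset.mem_univ i) h'
    · show Fy k s r u Ψ (.inr l.succ) * Fx k s r u Ψ (.inr l.succ) = j3 k s r u 1
      have h : (gh l * ed l : CL k G2 (fun v => v ≠ 0)) = vt 0 := gh_ed l
      rw [Fy_succ, Fx_succ, ← j_mul, ← map_mul, h, vt0_one, map_one]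

theorem ghl_one (i : Fin 3) :
    (gh (.inr (.inl i)) * j3 k s r u 1 : LPA k (GQ s r u)) = 0 := by
  rw [j3_one, Finset.mul_sum]
  refine Finset.sum_eq_zero (fun j _ => gh_vt ?_)
  rw [GQs_l]
  simp

theorem one_edl (i : Fin 3) :
    (j3 k s r u 1 * ed (.inr (.inl i)) : LPA k (GQ s r u)) = 0 := by
  rw [j3_one, Finset.sum_mul]
  refine Finset.sum_eq_zero (fun j _ => vt_ed ?_)
  rw [GQs_l]
  simp

theorem F_gf (hΨ : Ψ (dfc k G2 _ 0) = dfc k G3 _ 1) (e f : Ed ⊕ Fin 3) (hef : e ≠ f) :
    Fy k s r u Ψ e * Fx k s r u Ψ f = 0 := by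
  rcases e with e | i <;> rcases f with f | j
  · exact gh_ed_ne (fun h' => hef (by rw [Sum.inl.inj h']))
  · refine Fin.cases ?_ (fun l => ?_) j
    · rw [Fy_inl, Fx_zero, Finset.mul_sum]
      exact Finset.sum_eq_zero (fun i _ => gh_ed_ne (by simp))
    · rw [Fy_inl, Fx_succ]
      exact Q1 k s r u e _ (psi1 hΨ l)
  · refine Fin.cases ?_ (fun l => ?_) i
    · rw [Fx_inl, Fy_zero, Finset.sum_mul]
      exact Finset.sum_eq_zero (fun i _ => gh_ed_ne (by simp))
    · rw [Fx_inl, Fy_succ]
      exact Q2 k s r u f _ (psi2 hΨ l)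
  · revert hef
    refine Fin.cases ?_ (fun l => ?_) i
    · refine Fin.cases ?_ (fun m => ?_) j
      · intro h
        exact absurd rfl h
      · intro _
        rw [Fy_zero, Fx_succ, j3_split_l, ← mul_assoc, Finset.sum_mul,
          Finset.sum_eq_zero (fun i _ => ghl_one k s r u i), zero_mul]
    · refine Fin.cases ?_ (fun m => ?_) j
      · intro _
        rw [Fy_succ, Fx_zero, j3_split_r, mul_assoc, Finset.mul_sum,
          Finset.sum_eq_zero (fun i _ => one_edl k s r u i), mul_zero]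
      · intro h
        have hlm : l ≠ m := fun h' => h (by rw [h'])
        rw [Fy_succ, Fx_succ, ← j_mul, ← map_mul, gh_ed_ne hlm, map_zero, map_zero]

theorem F_ck (hΨ : Ψ (dfc k G2 _ 0) = dfc k G3 _ 1) (a : Option V) (ha : (GP s r u).IsReg a)
    (S : Finset (Ed ⊕ Fin 3)) (hS : ∀ e, e ∈ S ↔ (GP s r u).s e = a) :
    ∑ e ∈ S, Fx k s r u Ψ e * Fy k s r u Ψ e = Fp k s r u a := by
  have hS' : S = Finset.univ.filter (fun e => (GP s r u).s e = a) := by
    ext e
    rw [hS]
    simp
  rw [hS', Finset.sum_filter, Fintype.sum_sum_type, Fin.sum_univ_succ]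
  rcases a with _ | b
  · have h1 : (∑ e : Ed, if (GP s r u).s (.inl e) = none then
        Fx k s r u Ψ (.inl e) * Fy k s r u Ψ (.inl e) else 0) =
        j3 k s r u (dfc k G3 _ 1) := by
      rw [← Q3]
      refine Finset.sum_congr rfl (fun e _ => ?_)
      rw [GPs_inl]
      by_cases hs : s e = u
      · rw [if_pos hs, if_pos hs, if_pos rfl]
        rfl
      · rw [if_neg hs, if_neg hs, if_neg (by simp)]
    have h3 : (∑ l : Fin 2, if (GP s r u).s (.inr l.succ) = none then
        Fx k s r u Ψ (.inr l.succ) * Fy k s r u Ψ (.inr l.succ) else 0) =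
        j3 k s r u 1 - j3 k s r u (dfc k G3 _ 1) := by
      have e1 : ∀ l : Fin 2, (if (GP s r u).s (.inr l.succ) = none then
          Fx k s r u Ψ (.inr l.succ) * Fy k s r u Ψ (.inr l.succ) else 0) =
          j3 k s r u (Ψ (ed l * gh l)) := by
        intro l
        rw [if_pos (GPs_succ s r u l), Fx_succ, Fy_succ, ← j_mul, ← map_mul]
      rw [Finset.sum_congr rfl (fun l _ => e1 l), ← map_sum, ← map_sum, sum_G2, map_sub, map_one,
        hΨ, map_sub]
    rw [h1, h3, if_neg (by rw [GPs_zero]; simp), zero_add, Fp_none]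
    exact add_sub_cancel _ _
  · have h3 : (∑ l : Fin 2, if (GP s r u).s (.inr l.succ) = some b then
        Fx k s r u Ψ (.inr l.succ) * Fy k s r u Ψ (.inr l.succ) else 0) = 0 := by
      refine Finset.sum_eq_zero (fun l _ => ?_)
      rw [if_neg]
      rw [GPs_succ]
      simp
    rw [h3, add_zero]
    by_cases hb : b = u
    · subst hb
      have h1 : (∑ e : Ed, if (GP s r b).s (.inl e) = some b then
          Fx k s r b Ψ (.inl e) * Fy k s r b Ψ (.inl e) else 0) = 0 := by
        refine Finset.sum_eq_zero (fun e _ => ?_)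
        rw [if_neg]
        rw [GPs_inl]
        split_ifs with hs
        · simp
        · exact fun h' => hs (Option.some.inj h')
      rw [h1, zero_add, if_pos (GPs_zero s r b), Fx_zero, Fy_zero, Fp_some, ← Q5,
        Finset.sum_mul]
      refine Finset.sum_congr rfl (fun i _ => ?_)
      rw [Finset.mul_sum, Finset.sum_eq_single i]
      · intro j _ hj
        exact ed_gh (fun h' => hj (Sum.inr.inj h').symm)
      · intro h'
        exact absurd (Finset.mem_univ i) h'
    · rw [if_neg (by rw [GPs_zero]; exact fun h' => hb (Option.some.inj h').symm), add_zero,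
        Fp_some]
      have hreg : ∃ e, s e = b := by
        obtain ⟨e, he⟩ := ha
        rcases e with e | i
        · rw [GPs_inl] at he
          split_ifs at he with hs
          exact ⟨e, Option.some.inj he⟩
        · revert he
          refine Fin.cases ?_ (fun l => ?_) i
          · intro he
            rw [GPs_zero] at he
            exact absurd (Option.some.inj he).symm hb
          · intro he
            rw [GPs_succ] at he
            exact absurd he (by simp)
      rw [← Q4 k s r u b hb hreg]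
      refine Finset.sum_congr rfl (fun e _ => ?_)
      rw [GPs_inl]
      by_cases hs : s e = u
      · rw [if_pos hs, if_neg (by simp), if_neg (fun h' => hb (h'.symm.trans hs))]
      · rw [if_neg hs]
        by_cases hs' : s e = b
        · rw [if_pos hs', if_pos (by rw [hs'])]
          rfl
        · rw [if_neg hs', if_neg (fun h' => hs' (Option.some.inj h'))]

theorem F_one (S : Finset (Option V)) (hS : ∀ a, a ∈ S) : ∑ a ∈ S, Fp k s r u a = 1 := by
  have hS' : S = Finset.univ := Finset.eq_univ_of_forall hS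
  have h := one_rel (k := k) (G := GQ s r u) (Reg := (GQ s r u).IsReg)
  rw [Fintype.sum_sum_type] at h
  rw [hS', Fintype.sum_option, Fp_none, j3_one, ← h, add_comm]
  rfl

/-- the family for the first homomorphism -/
noncomputable def FF (hΨ : Ψ (dfc k G2 _ 0) = dfc k G3 _ 1) :
    Fam k (GP s r u) (GP s r u).IsReg (LPA k (GQ s r u)) where
  p := Fp k s r u
  x := Fx k s r u Ψ
  y := Fy k s r u Ψ
  idem a := by
    rcases a with _ | b
    · rw [Fp_none, ← j_mul, one_mul]
    · exact vt_idem _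
  orth a b h := by
    rcases a with _ | a <;> rcases b with _ | b
    · exact absurd rfl h
    · exact one_vt k s r u b
    · exact vt_one k s r u a
    · exact vt_orth (fun h' => h (by rw [Sum.inl.inj h']))
  se := F_se k s r u Ψ
  er := F_er k s r u Ψ
  rg := F_rg k s r u Ψ
  gs := F_gs k s r u Ψ
  ge := F_ge k s r u Ψ
  gf := F_gf k s r u Ψ hΨ
  ck := F_ck k s r u Ψ hΨ
  one := F_one k s r u

end Maps

end H_TStep

end CKS
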