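import Pool.Agent.CKS.GDefs

/-! Targets of the formalisation jobs. Every `T_x` is proved in its own file as `p_x`. -/

set_option linter.unusedVariables false

universe u

namespace CKS

/-- FAITH: a representation of a relative Cohn algebra with a vacuum vector is faithful. -/
def T_faithful : Prop :=
  ∀ (k : Type u) [Field k] {V E : Type} [Fintype V] [DecidableEq V] [Fintype E] [DecidableEq E]
    (G : Graph V E) (v0 : V) (_ : ∀ v, v ≠ v0 → ∃ e, G.s e = v ∧ G.r e = v0)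
    {M : Type u} [AddCommGroup M] [Module k M]
    (ρ : CL k G (fun v => v ≠ v0) →ₐ[k] Module.End k M) (Ω : M) (_ : Ω ≠ 0)
    (_ : ρ (vt v0) Ω = Ω) (_ : ∀ e, ρ (gh e) Ω = 0), Function.Injective ρ

/-- THM1: finitely related simple modules over `L_2` without homomorphisms to `L_2` contain finite
dimensional subspaces stable under the ghost edges. -/
def T_thm1 : Prop :=
  ∀ (k : Type u) [Field k] {N : Type u} [AddCommGroup N] [Module k N]
    (ρ : LPA k G2 →ₐ[k] Module.End k N)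
    (w : N) (_ : w ≠ 0) {n : ℕ} (r : Fin n → LPA k G2) (_ : ∀ j, ρ (r j) w = 0)
    (_ : ∀ (N1 : Type u) [AddCommGroup N1] [Module k N1] (σ : LPA k G2 →ₐ[k] Module.End k N1)
      (n1 : N1), (∀ j, σ (r j) n1 = 0) →
      ∃ h : N →ₗ[k] N1, (∀ a m, h (ρ a m) = σ a (h m)) ∧ h w = n1)
    (_ : ∀ K : Submodule k N, (∀ a, ∀ m ∈ K, ρ a m ∈ K) → K = ⊥ ∨ K = ⊤)
    (_ : ∀ h : N →ₗ[k] LPA k G2, (∀ a m, h (ρ a m) = a * h m) → h = 0),
    ∃ W : Submodule k N, W ≠ ⊥ ∧ FiniteDimensional k W ∧ ∀ i, ∀ m ∈ W, ρ (gh i) m ∈ W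

/-- CHEN: the Chen module is simple -/
def T_chen_simple : Prop :=
  ∀ (k : Type u) [Field k] (K : Submodule k (NN k)), (∀ a, ∀ m ∈ K, rN k a m ∈ K) →
    K = ⊥ ∨ K = ⊤

/-- CHEN: universal property of the Chen module -/
def T_chen_univ : Prop :=
  ∀ (k : Type u) [Field k] {N1 : Type u} [AddCommGroup N1] [Module k N1]
    (σ : LPA k G3 →ₐ[k] Module.End k N1) (n1 : N1) (_ : σ (vt 2) n1 = n1)
    (_ : σ (ed 7) n1 = n1),
    ∃ h : NN k →ₗ[k] N1, (∀ a m, h (rN k a m) = σ a (h m)) ∧ h w0 = n1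

/-- CHEN: no homomorphism from the Chen module to the algebra -/
def T_chen_hom : Prop :=
  ∀ (k : Type u) [Field k] (h : NN k →ₗ[k] LPA k G3), (∀ a m, h (rN k a m) = a * h m) → h = 0

/-- PAIR: the perfect pair (pure linear algebra). -/
def T_pair : Prop :=
  ∀ (k : Type u) [Field k] {I : Type} (A B A' B' : Fin 2 → Module.End k (I →₀ k))
    (_ : ∀ i u v, dp (A i u) v = dp u (A' i v)) (_ : ∀ i u v, dp (B i u) v = dp u (B' i v))
    (_ : ∀ i j, B i * A j = if i = j then 1 else 0) (_ : A 0 * B 0 + A 1 * B 1 = 1)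
    (W W' : Submodule k (I →₀ k)) (_ : W ≠ ⊥) (_ : W' ≠ ⊥) (_ : FiniteDimensional k W)
    (_ : FiniteDimensional k W') (_ : ∀ i, ∀ m ∈ W, B i m ∈ W) (_ : ∀ i, ∀ m ∈ W', A' i m ∈ W')
    (_ : ∀ K : Submodule k (I →₀ k), (∀ i, ∀ m ∈ K, A i m ∈ K) → (∀ i, ∀ m ∈ K, B i m ∈ K) →
      K = ⊥ ∨ K = ⊤)
    (_ : ∀ K : Submodule k (I →₀ k), (∀ i, ∀ m ∈ K, A' i m ∈ K) →
      (∀ i, ∀ m ∈ K, B' i m ∈ K) → K = ⊥ ∨ K = ⊤)
    (D : Finset I),
    ∃ V F : Submodule k (I →₀ k), FiniteDimensional k V ∧ (∀ i, ∀ m ∈ V, B i m ∈ V) ∧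
      (∀ i, ∀ m ∈ F, A i m ∈ F) ∧ (∀ d ∈ D, ∀ f ∈ F, f d = 0) ∧ IsCompl V F ∧
      {p | Finsupp.single p 1 ∉ F}.Finite ∧ {p | ∃ j, B j (Finsupp.single p 1) ∉ F}.Finite ∧
      (∀ p : I, ∃ n, ∀ w : List (Fin 2), n ≤ w.length → ∀ f ∈ F, ((w.map A).prod f) p = 0) ∧
      (∀ K : Submodule k (I →₀ k), (∀ i, ∀ m ∈ K, A i m ∈ K) → V ≤ K → K = ⊤)

/-- COMB: the comb-shaped perturbation -/
def T_comb : Prop :=
  ∀ (k : Type u) [Field k] (A B : Fin 2 → Module.End k (NN k))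
    (_ : ∀ i j, B i * A j = if i = j then 1 else 0) (_ : A 0 * B 0 + A 1 * B 1 = 1)
    (V F : Submodule k (NN k)) (_ : FiniteDimensional k V) (_ : ∀ i, ∀ m ∈ V, B i m ∈ V)
    (_ : ∀ i, ∀ m ∈ F, A i m ∈ F) (_ : ∀ f ∈ F, f none = 0) (_ : ∀ f ∈ F, f (some pnil) = 0)
    (_ : IsCompl V F) (_ : {p | Finsupp.single p 1 ∉ F}.Finite)
    (_ : {p | ∃ j, B j (Finsupp.single p 1) ∉ F}.Finite)
    (_ : ∀ p, ∃ n, ∀ w : List (Fin 2), n ≤ w.length → ∀ f ∈ F, ((w.map A).prod f) p = 0)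
    (_ : ∀ K : Submodule k (NN k), (∀ i, ∀ m ∈ K, A i m ∈ K) → V ≤ K → K = ⊤),
    ∃ S T : Fin 2 → Module.End k (MM k),
      (∀ i j, T i * S j = if i = j then 1 else 0) ∧ (∀ i, T i om = 0) ∧
      (∀ m : MM k, S 0 (T 0 m) + S 1 (T 1 m) + m pnil • om = m) ∧
      (∀ i, FR (S i - comp (A i))) ∧ (∀ i, FR (T i - comp (B i))) ∧
      (∀ p : PI, {w : List (Fin 2) | ((w.map S).prod om) p ≠ 0}.Finite) ∧
      Submodule.span k (Set.range (fun w : List (Fin 2) => (w.map S).prod om)) = ⊤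

/-- TISO: the isomorphism lifts to the Toeplitz level -/
def T_tiso : Prop :=
  ∀ (k : Type u) [Field k] (_ : LPA k G2 ≃ₐ[k] LPA k G3),
    ∃ Ψ : CL k G2 (fun v => v ≠ 0) ≃ₐ[k] CL k G3 (fun v => v ≠ 1),
      Ψ (dfc k G2 _ 0) = dfc k G3 _ 1

/-- TSTEP: the Toeplitz isomorphism gives isomorphisms of Leavitt path algebras -/
def T_tstep : Prop :=
  ∀ (k : Type u) [Field k] (Ψ : CL k G2 (fun v => v ≠ 0) ≃ₐ[k] CL k G3 (fun v => v ≠ 1))
    (_ : Ψ (dfc k G2 _ 0) = dfc k G3 _ 1) {V Ed : Type} [Fintype V] [DecidableEq V] [Fintype Ed]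
    [DecidableEq Ed] (s r : Ed → V) (v : V),
    Nonempty (LPA k (GP s r v) ≃ₐ[k] LPA k (GQ s r v))

/-- GRAPH: relabelling -/
def T_relabel : Prop :=
  ∀ (k : Type u) [Field k] {V E V' E' : Type} {G : Graph V E} {G' : Graph V' E'} (ev : V ≃ V')
    (ee : E ≃ E') (_ : ∀ e, G'.s (ee e) = ev (G.s e)) (_ : ∀ e, G'.r (ee e) = ev (G.r e)),
    Nonempty (LPA k G ≃ₐ[k] LPA k G')

/-- GRAPH: a Leavitt path algebra only depends on the adjacency matrix -/
def T_adj : Prop :=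
  ∀ (k : Type u) [Field k] {V E : Type} [Fintype V] [DecidableEq V] [Fintype E] (G : Graph V E)
    (A : V → V → ℕ) (_ : ∀ a b, Fintype.card {e // G.s e = a ∧ G.r e = b} = A a b),
    Nonempty (LPA k G ≃ₐ[k] LPA k (adjG A))

/-- GRAPH: reindexing of the vertices -/
def T_reindex : Prop :=
  ∀ (k : Type u) [Field k] {ι ι' : Type} (e : ι ≃ ι') (A : ι → ι → ℕ),
    Nonempty (LPA k (adjG A) ≃ₐ[k] LPA k (adjG (fun a b => A (e.symm a) (e.symm b))))

/-- MOVE: the elementary move -/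
def T_move : Prop :=
  ∀ (k : Type u) [Field k] {ι : Type} [Fintype ι] [DecidableEq ι] (A : ι → ι → ℕ) (i j : ι)
    (_ : i ≠ j) (_ : A i j ≠ 0) (_ : ∃ l, A j l ≠ 0),
    Nonempty (LPA k (adjG A) ≃ₐ[k] LPA k (adjG (sub A i j)))

/-- SRC: removing a source -/
def T_src : Prop :=
  ∀ (k : Type u) [Field k] {ι : Type} [Fintype ι] [DecidableEq ι] (A : ι → ι → ℕ) (t : ι → ℕ)
    (_ : ∃ l, t l ≠ 0),
    IsMoritaEquivalent k (LPA k (adjG (extA A t))) (LPA k (adjG A))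

/-- CHAIN: the two gadgets are equivalent -/
def T_chain : Prop :=
  ∀ (k : Type u) [Field k] {V : Type} [Fintype V] [DecidableEq V] (A : V → V → ℕ) (v : V)
    (R : V → ℕ),
    IsMoritaEquivalent k
      (LPA k (adjG (glob A v R ![![0, 1, 1, 1], ![0, 2, 1, 0], ![0, 1, 1, 1], ![0, 0, 1, 1]]
        ![0, 0, 1, 0])))
      (LPA k (adjG (glob A v R ![![2, 1, 0, 0], ![1, 1, 1, 0], ![0, 1, 1, 0], ![1, 0, 0, 0]]
        ![1, 0, 0, 0])))

/-- TWO: with two loops at `v` -/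
def T_two : Prop :=
  ∀ (k : Type u) [Field k] (_ : LPA k G2 ≃ₐ[k] LPA k G3) {V : Type} [Fintype V] [DecidableEq V]
    (A : V → V → ℕ) (v : V) (_ : 2 ≤ A v v),
    IsMoritaEquivalent k (LPA k (adjG A)) (LPA k (adjG (spl A v)))

/-- RED: reduction of the general case to the case of two loops -/
def T_reduce : Prop :=
  ∀ {V : Type} [Fintype V] [DecidableEq V] (v : V) (P : (V → V → ℕ) → Prop)
    (_ : ∀ (A : V → V → ℕ) (j : V), v ≠ j → A v j ≠ 0 → (∃ l, A j l ≠ 0) → P (sub A v j) → P A)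
    (_ : ∀ A : V → V → ℕ, 2 ≤ A v v → P A) (A : V → V → ℕ) (_ : TwoRet (adjG A) v), P A

/-- RED: SPI graphs have vertices with two return paths -/
def T_spi : Prop :=
  ∀ {V E : Type} [Finite V] [Finite E] (G : Graph V E) (_ : IsSPI G), ∃ v, TwoRet G v

/-- RED: the rose with two petals is an SPI graph -/
def T_spi2 : Prop := IsSPI G2

/-- RED: passage to adjacency matrices -/
def T_retadj : Prop :=
  ∀ {V E : Type} [Fintype V] [DecidableEq V] [Fintype E] (G : Graph V E)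
    (A : V → V → ℕ) (_ : ∀ a b, Fintype.card {e // G.s e = a ∧ G.r e = b} = A a b) (v : V)
    (_ : TwoRet G v), TwoRet (adjG A) v

/-- RED: the adjacency matrix of the Cuntz splice -/
def T_spladj : Prop :=
  ∀ {V E : Type} [Fintype V] [DecidableEq V] [Fintype E] (G : Graph V E)
    (A : V → V → ℕ) (_ : ∀ a b, Fintype.card {e // G.s e = a ∧ G.r e = b} = A a b) (v : V),
    ∀ a b, Fintype.card {e // (splice G v).s e = a ∧ (splice G v).r e = b} = spl A v a b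

/-- CONV: Morita equivalence implies isomorphism for the pair -/
def T_conv : Prop :=
  ∀ (k : Type u) [Field k] (_ : IsMoritaEquivalent k (LPA k G2) (LPA k G3)),
    Nonempty (LPA k G2 ≃ₐ[k] LPA k G3)

end CKS
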